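import Pool.Agent.Lib.MP_938ce2_ag_h99.IntSplit

/-!
All odd functions satisfying the Tate condition for smooth degrees.
-/

set_option autoImplicit false
set_option linter.style.haveILetI false
set_option linter.unusedSectionVars false

open Finset

namespace Pool.Agent.Lib.MP_938ce2_ag_h99

/-- product of the primes dividing `f` -/
def rad (f : ℕ) : ℕ := ∏ p ∈ f.primeFactors, p

lemma card_sup {A : Type*} [CommGroup A] [Fintype A] {K H : Subgroup A} (hd : Disjoint K H) :
    Nat.card ↥(K ⊔ H) = Nat.card K * Nat.card H := by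
  classical
  have h1 := orbSum_sup hd (fun _ => 1) 1
  unfold orbSum at h1
  simp only [abs_one, sum_const, mul_one, nsmul_eq_mul] at h1
  rw [card_filter_mem, card_filter_mem, card_filter_mem] at h1
  exact_mod_cast h1

variable {m : ℕ} [NeZero m]

/-- one exceptional class at level `f` with primes `p, q` -/
def Exc (D : ℕ → Prop) (X : AddSubgroup (ZMod m → ℤ)) (f p q : ℕ) (hf : f ∣ m) : Prop :=
  ∃ (c1 c2 : (ZMod f)ˣ) (E : ZMod m → ℤ), c1 ∈ Kp f p ∧ c2 ∈ Kp f q ∧ -1 = c1 * c2 ∧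
    E ∈ X ⊔ relSub m ∧ OddF E ∧ TateF E ∧ (∀ a, E a ≠ 0 → addOrderOf a ≤ f ∧ D (addOrderOf a)) ∧
    Odd (E (jj hf 1) + E (jj hf (c2 : ZMod f)))

/-- one step of the descent -/
def Step (D : ℕ → Prop) (X : AddSubgroup (ZMod m → ℤ)) (f : ℕ) : Prop :=
  ∀ F : ZMod m → ℤ, OddF F → TateF F → (∀ a, F a ≠ 0 → addOrderOf a ≤ f) →
    (∀ a, F a ≠ 0 → D (addOrderOf a)) →
    ∃ F' : ZMod m → ℤ, F - F' ∈ X ⊔ relSub m ∧ OddF F' ∧ TateF F' ∧
      (∀ a, F' a ≠ 0 → addOrderOf a < f) ∧ (∀ a, F' a ≠ 0 → D (addOrderOf a))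

/-- the result of peeling -/
def Peeled (f : ℕ) (F F' : ZMod m → ℤ) : Prop :=
  F - F' ∈ relSub m ∧ OddF F' ∧ TateF F' ∧ (∀ a, addOrderOf a = f → F' a = 0) ∧
    (∀ a, F' a ≠ F a → addOrderOf a ∣ f)

lemma Step.of_peeled {D : ℕ → Prop} (hD : ∀ f g, D f → g ∣ f → D g)
    {X : AddSubgroup (ZMod m → ℤ)} {f : ℕ} [NeZero f] (hDf : D f)
    (h : ∀ F : ZMod m → ℤ, OddF F → TateF F →
      (∀ a, F a ≠ 0 → f ∣ addOrderOf a → addOrderOf a = f) → ∃ F', Peeled f F F') :
    Step D X f := by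
  intro F hodd hT hsup hDF
  obtain ⟨F', h1, h2, h3, h4, h5⟩ := h F hodd hT (sup_of_le hsup)
  refine ⟨F', (le_sup_right : relSub m ≤ X ⊔ relSub m) h1, h2, h3, ?_, ?_⟩
  · intro a ha
    by_cases hFa : F' a = F a
    · rw [hFa] at ha
      rcases lt_or_eq_of_le (hsup a ha) with h8 | h8
      · exact h8
      · exact absurd (h4 a h8) (by rw [hFa]; exact ha)
    · have h6 := h5 a hFa
      have h7 := Nat.le_of_dvd (Nat.pos_of_ne_zero (NeZero.ne f)) h6
      rcases lt_or_eq_of_le h7 with h8 | h8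
      · exact h8
      · exact absurd (h4 a h8) ha
  · intro a ha
    by_cases hFa : F' a = F a
    · rw [hFa] at ha
      exact hDF a ha
    · exact hD _ _ hDf (h5 a hFa)

lemma Peeled.of_peel {f : ℕ} (hf : f ∣ m) [NeZero f] {F : ZMod m → ℤ} (hodd : OddF F)
    (hT : TateF F)
    (ps : List ℕ) (hps : ∀ p ∈ ps, p.Prime ∧ p ∣ f)
    (G : ℕ → (ZMod f)ˣ → ℤ) (hG1 : ∀ p ∈ ps, ∀ z ∈ Kp f p, ∀ u, G p (z * u) = G p u)
    (hG2 : ∀ u : (ZMod f)ˣ, F (jj hf (u : ZMod f)) = (ps.map fun p => G p u).sum)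
    (hG3 : ∀ p ∈ ps, ∀ u, G p ((-1) * u) = - G p u) : ∃ F', Peeled f F F' := by
  obtain ⟨F', h1, h2, h3, h4, h5, _⟩ := peel hf F hodd hT ps hps G hG1 hG2 hG3
  refine ⟨F', h1, h2, h3, h4, ?_⟩
  intro a ha
  rcases h5 a ha with h7 | ⟨p, hp, u, _, h7, _⟩
  · rw [h7]
  · rw [h7]
    exact Nat.div_dvd_of_dvd (hps p hp).2

lemma odd_top {f : ℕ} (hf : f ∣ m) {F : ZMod m → ℤ} (hodd : OddF F) (u : (ZMod f)ˣ) :
    F (jj hf (((-1) * u : (ZMod f)ˣ) : ZMod f)) = - F (jj hf (u : ZMod f)) := by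
  have e1 : jj hf (-(u : ZMod f)) = - jj hf (u : ZMod f) := map_neg _ _
  rw [neg_one_mul, Units.val_neg, e1, hodd]

lemma neg_one_not_mem_span {f : ℕ} [NeZero f] (n : ℕ) (qs : List ℕ) (h : ∀ q ∈ qs, q ∣ n)
    (hn : ¬ f ∣ 2 * n) : (-1 : (ZMod f)ˣ) ∉ spanL (qs.map (Kp f)) := by
  intro hc
  have h1 := spanL_le_stab n qs h hc
  rw [mem_stab] at h1
  apply hn
  rw [← ZMod.natCast_eq_zero_iff]
  push_cast
  rw [Units.val_neg, Units.val_one, neg_one_mul] at h1
  linear_combination -h1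

/-- Levels with two primes. -/
lemma level_two {D : ℕ → Prop} (hD : ∀ f g, D f → g ∣ f → D g)
    (X : AddSubgroup (ZMod m → ℤ)) {f : ℕ} [NeZero f] (hf : f ∣ m) (hDf : D f) {p q : ℕ}
    (hp : p.Prime) (hq : q.Prime) (hpf : p ∣ f) (hqf : q ∣ f) (hpq : p ≠ q)
    (hall : ∀ r, r.Prime → r ∣ f → r ∈ [p, q])
    (hcard : Nat.card (Kp f p) * Nat.card (Kp f q) = f.totient)
    (hex : Exc D X f p q hf) : Step D X f := by
  intro F hodd hT hsup hDF
  obtain ⟨c1, c2, E, hc1, hc2, hc, hEX, hEodd, hET, hEsup, hEpar⟩ := hex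
  have hprime : ∀ r ∈ [p, q], r.Prime ∧ r ∣ f := by
    intro r hr
    simp only [List.mem_cons, List.not_mem_nil, or_false] at hr
    rcases hr with rfl | rfl
    · exact ⟨hp, hpf⟩
    · exact ⟨hq, hqf⟩
  have hI := indep_Kp [p, q] hprime (by simp [hpq])
  have hd : Disjoint (Kp f p) (Kp f q) := by
    have := hI.1
    simpa [spanL] using this
  have htop : Kp f p ⊔ Kp f q = ⊤ := by
    apply Subgroup.eq_top_of_card_eq
    rw [card_sup hd, hcard, Nat.card_eq_fintype_card, ZMod.card_units_eq_totient]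
  -- the even parity case
  have hev : ∀ H : ZMod m → ℤ, OddF H → TateF H → (∀ a, H a ≠ 0 → addOrderOf a ≤ f) →
      Even (H (jj hf 1) + H (jj hf (c2 : ZMod f))) → ∃ F', Peeled f H F' := by
    intro H hHodd hHT hHsup hHpar
    have hMD := MD_top hf H hHodd hHT (sup_of_le hHsup) [p, q] hall
    simp only [List.map_cons, List.map_nil] at hMD
    obtain ⟨G1, G2, h1, h2, h3, h4, h5⟩ := split_two (-1) c1 c2 (Kp f p) (Kp f q) hd htop hc1 hc2 hc
      (fun u : (ZMod f)ˣ => H (jj hf (u : ZMod f))) hMD (odd_top hf hHodd)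
      (by simpa using hHpar)
    refine Peeled.of_peel hf hHodd hHT [p, q] hprime
      (fun r => if r = p then G1 else G2) ?_ ?_ ?_
    · intro r hr z hz u
      simp only [List.mem_cons, List.not_mem_nil, or_false] at hr
      rcases hr with rfl | rfl
      · simp only [if_true]
        exact h1 z hz u
      · rw [if_neg (Ne.symm hpq)]
        exact h2 z hz u
    · intro u
      simp only [List.map_cons, List.map_nil, List.sum_cons, List.sum_nil, add_zero, if_true]
      rw [if_neg (Ne.symm hpq)]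
      exact h3 u
    · intro r hr u
      simp only [List.mem_cons, List.not_mem_nil, or_false] at hr
      rcases hr with rfl | rfl
      · simp only [if_true]
        exact h4 u
      · rw [if_neg (Ne.symm hpq)]
        exact h5 u
  have hfin : ∀ H F' : ZMod m → ℤ, (∀ a, H a ≠ 0 → addOrderOf a ≤ f) →
      (∀ a, H a ≠ 0 → D (addOrderOf a)) → Peeled f H F' →
      (∀ a, F' a ≠ 0 → addOrderOf a < f) ∧ (∀ a, F' a ≠ 0 → D (addOrderOf a)) := by
    intro H F' hHsup hDH ⟨_, _, _, h4, h5⟩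
    constructor
    · intro a ha
      by_cases hFa : F' a = H a
      · rw [hFa] at ha
        rcases lt_or_eq_of_le (hHsup a ha) with h8 | h8
        · exact h8
        · exact absurd (h4 a h8) (by rw [hFa]; exact ha)
      · have h7 := Nat.le_of_dvd (Nat.pos_of_ne_zero (NeZero.ne f)) (h5 a hFa)
        rcases lt_or_eq_of_le h7 with h8 | h8
        · exact h8
        · exact absurd (h4 a h8) ha
    · intro a ha
      by_cases hFa : F' a = H a
      · rw [hFa] at ha
        exact hDH a ha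
      · exact hD _ _ hDf (h5 a hFa)
  rcases Int.even_or_odd (F (jj hf 1) + F (jj hf (c2 : ZMod f))) with hpar | hpar
  · obtain ⟨F', hP⟩ := hev F hodd hT hsup hpar
    obtain ⟨g1, g2⟩ := hfin F F' hsup hDF hP
    exact ⟨F', (le_sup_right : relSub m ≤ X ⊔ relSub m) hP.1, hP.2.1, hP.2.2.1, g1, g2⟩
  · have hsupE : ∀ a, (F - E) a ≠ 0 → addOrderOf a ≤ f ∧ D (addOrderOf a) := by
      intro a ha
      by_cases hFa : F a = 0
      · apply hEsup
        intro h0
        apply ha
        rw [Pi.sub_apply, hFa, h0, sub_zero]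
      · exact ⟨hsup a hFa, hDF a hFa⟩
    obtain ⟨F', hP⟩ := hev (F - E) (hodd.sub hEodd) (hT.sub hET)
      (fun a ha => (hsupE a ha).1)
      (by
        have : (F - E) (jj hf 1) + (F - E) (jj hf (c2 : ZMod f))
            = (F (jj hf 1) + F (jj hf (c2 : ZMod f))) - (E (jj hf 1) + E (jj hf (c2 : ZMod f))) := by
          simp only [Pi.sub_apply]
          ring
        rw [this]
        exact hpar.sub_odd hEpar)
    obtain ⟨g1, g2⟩ := hfin (F - E) F' (fun a ha => (hsupE a ha).1) (fun a ha => (hsupE a ha).2) hP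
    refine ⟨F', ?_, hP.2.1, hP.2.2.1, g1, g2⟩
    have h1 : F - F' = E + (F - E - F') := by abel
    rw [h1]
    exact (X ⊔ relSub m).add_mem hEX ((le_sup_right : relSub m ≤ X ⊔ relSub m) hP.1)

/-- Levels with three primes. -/
lemma level_three {f : ℕ} [NeZero f] (hf : f ∣ m) {p q r : ℕ}
    (hp : p.Prime) (hq : q.Prime) (hr : r.Prime) (hpf : p ∣ f) (hqf : q ∣ f) (hrf : r ∣ f)
    (hpq : p ≠ q) (hpr : p ≠ r) (hqr : q ≠ r)
    (hall : ∀ s, s.Prime → s ∣ f → s ∈ [r, p, q])
    (hcard : Nat.card (Kp f r) * (Nat.card (Kp f p) * Nat.card (Kp f q)) = f.totient)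
    (h1 : ¬ f ∣ 2 * (p * q)) (h2 : ¬ f ∣ 2 * (p * r)) (h3 : ¬ f ∣ 2 * (q * r))
    (F : ZMod m → ℤ) (hodd : OddF F) (hT : TateF F)
    (hsup : ∀ a, F a ≠ 0 → f ∣ addOrderOf a → addOrderOf a = f) : ∃ F', Peeled f F F' := by
  have hprime : ∀ s ∈ [r, p, q], s.Prime ∧ s ∣ f := by
    intro s hs
    simp only [List.mem_cons, List.not_mem_nil, or_false] at hs
    rcases hs with rfl | rfl | rfl
    · exact ⟨hr, hrf⟩
    · exact ⟨hp, hpf⟩
    · exact ⟨hq, hqf⟩
  have hI := indep_Kp [r, p, q] hprime (by simp [hpq, Ne.symm hpr, Ne.symm hqr])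
  have hI' := indep_Kp [p, q, r] (by
    intro s hs
    apply hprime
    simp only [List.mem_cons, List.not_mem_nil, or_false] at hs ⊢
    tauto) (by simp [hpq, hpr, hqr])
  simp only [List.map_cons, List.map_nil] at hI hI'
  have hdr : Disjoint (Kp f r) (Kp f p ⊔ Kp f q) := by
    have := hI.1
    simpa [spanL] using this
  have hdpq : Disjoint (Kp f p) (Kp f q) := by
    have := hI.2.1
    simpa [spanL] using this
  have hdp : Disjoint (Kp f p) (Kp f q ⊔ Kp f r) := by
    have := hI'.1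
    simpa [spanL] using this
  have htop : Kp f r ⊔ (Kp f p ⊔ Kp f q) = ⊤ := by
    apply Subgroup.eq_top_of_card_eq
    rw [card_sup hdr, card_sup hdpq, hcard, Nat.card_eq_fintype_card, ZMod.card_units_eq_totient]
  have hm1 : (-1 : (ZMod f)ˣ) ∈ Kp f r ⊔ (Kp f p ⊔ Kp f q) := by rw [htop]; exact Subgroup.mem_top _
  obtain ⟨c3, hc3, c12, hc12, hc⟩ := Subgroup.mem_sup.mp hm1
  have n1 : (-1 : (ZMod f)ˣ) ∉ Kp f p ⊔ Kp f q := by
    have := neg_one_not_mem_span (f := f) (p * q) [p, q] (by simp) h1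
    simpa [spanL] using this
  have n2 : (-1 : (ZMod f)ˣ) ∉ Kp f p ⊔ Kp f r := by
    have := neg_one_not_mem_span (f := f) (p * r) [p, r] (by simp) h2
    simpa [spanL] using this
  have n3 : (-1 : (ZMod f)ˣ) ∉ Kp f q ⊔ Kp f r := by
    have := neg_one_not_mem_span (f := f) (q * r) [q, r] (by simp) h3
    simpa [spanL] using this
  have hMD := MD_top hf F hodd hT hsup [r, p, q] hall
  simp only [List.map_cons, List.map_nil] at hMD
  obtain ⟨G1, G2, G3, g1, g2, g3, g4, g5, g6, g7⟩ := split_three (-1) c3 c12 (by simp)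
    (Kp f p) (Kp f q) (Kp f r) hI hdp htop hc3 hc12 hc.symm n2 n3 n1
    (fun u : (ZMod f)ˣ => F (jj hf (u : ZMod f))) hMD (odd_top hf hodd)
  refine Peeled.of_peel hf hodd hT [r, p, q] hprime
    (fun s => if s = p then G1 else if s = q then G2 else G3) ?_ ?_ ?_
  · intro s hs z hz u
    simp only [List.mem_cons, List.not_mem_nil, or_false] at hs
    rcases hs with rfl | rfl | rfl
    · rw [if_neg (Ne.symm hpr), if_neg (Ne.symm hqr)]
      exact g3 z hz u
    · rw [if_pos rfl]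
      exact g1 z hz u
    · rw [if_neg (Ne.symm hpq), if_pos rfl]
      exact g2 z hz u
  · intro u
    simp only [List.map_cons, List.map_nil, List.sum_cons, List.sum_nil, add_zero, if_true,
      if_neg (Ne.symm hpr), if_neg (Ne.symm hqr), if_neg (Ne.symm hpq)]
    rw [g4 u]
    ring
  · intro s hs u
    simp only [List.mem_cons, List.not_mem_nil, or_false] at hs
    rcases hs with rfl | rfl | rfl
    · rw [if_neg (Ne.symm hpr), if_neg (Ne.symm hqr)]
      exact g7 u
    · rw [if_pos rfl]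
      exact g5 u
    · rw [if_neg (Ne.symm hpq), if_pos rfl]
      exact g6 u

/-- Levels `2 mod 4`. -/
lemma level_even {f : ℕ} [NeZero f] (hf : f ∣ m) (hf4 : f % 4 = 2)
    (F : ZMod m → ℤ) (hodd : OddF F) (hT : TateF F) : ∃ F', Peeled f F F' := by
  have h2f : 2 ∣ f := by omega
  have hcard : Nat.card (Kp f 2) = 1 := by
    rw [card_Kp Nat.prime_two h2f, if_neg (by omega)]
  have hK : ∀ z ∈ Kp f 2, z = 1 := by
    intro z hz
    have h1 := (Subgroup.card_eq_one (H := Kp f 2)).mp hcard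
    rw [h1] at hz
    exact Subgroup.mem_bot.mp hz
  refine Peeled.of_peel hf hodd hT [2] ?_ (fun _ u => F (jj hf (u : ZMod f))) ?_ ?_ ?_
  · intro p hp
    rw [List.mem_singleton] at hp
    rw [hp]
    exact ⟨Nat.prime_two, h2f⟩
  · intro p hp z hz u
    rw [List.mem_singleton] at hp
    rw [hp] at hz
    rw [hK z hz, one_mul]
  · intro u; simp
  · intro p _ u
    exact odd_top hf hodd u

/-- Levels divisible by a prime square in the relevant sense. -/
lemma level_general {f : ℕ} [NeZero f] (hf : f ∣ m) (hfr : ¬ f ∣ 2 * rad f)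
    (F : ZMod m → ℤ) (hodd : OddF F) (hT : TateF F)
    (hsup : ∀ a, F a ≠ 0 → f ∣ addOrderOf a → addOrderOf a = f) : ∃ F', Peeled f F F' := by
  set ps := f.primeFactors.toList with hps
  have hmem : ∀ p, p ∈ ps ↔ p.Prime ∧ p ∣ f := by
    intro p
    rw [hps, Finset.mem_toList, Nat.mem_primeFactors]
    exact ⟨fun h => ⟨h.1, h.2.1⟩, fun h => ⟨h.1, h.2, NeZero.ne f⟩⟩
  have hprime : ∀ p ∈ ps, p.Prime ∧ p ∣ f := fun p hp => (hmem p).mp hp
  have hnd : ps.Nodup := Finset.nodup_toList _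
  have hMD := MD_top hf F hodd hT hsup ps (fun p hp hpf => (hmem p).mpr ⟨hp, hpf⟩)
  have hc : (-1 : (ZMod f)ˣ) ∉ spanL (ps.map (Kp f)) := by
    apply neg_one_not_mem_span (rad f) ps _ hfr
    intro q hq
    rw [hps, Finset.mem_toList] at hq
    exact Finset.dvd_prod_of_mem (fun p => p) hq
  obtain ⟨G, hG1, hG2, hG3⟩ := int_split (-1) (by simp) (Kp f) ps hnd (indep_Kp ps hprime hnd) hc _
    hMD (odd_top hf hodd)
  exact Peeled.of_peel hf hodd hT ps hprime G hG1 hG2 hG3

/-- Prime levels and level four. -/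
lemma level_one {f : ℕ} [NeZero f] (hf : f ∣ m) {p : ℕ} (hp : p.Prime) (hpf : p ∣ f)
    (hall : ∀ r, r.Prime → r ∣ f → r ∈ [p])
    (F : ZMod m → ℤ) (hodd : OddF F) (hT : TateF F)
    (hsup : ∀ a, F a ≠ 0 → f ∣ addOrderOf a → addOrderOf a = f) : ∃ F', Peeled f F F' := by
  have hMD := MD_top hf F hodd hT hsup [p] hall
  refine Peeled.of_peel hf hodd hT [p] ?_ (fun _ u => F (jj hf (u : ZMod f))) ?_ ?_ ?_
  · intro r hr
    rw [List.mem_singleton] at hr
    rw [hr]
    exact ⟨hp, hpf⟩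
  · intro r hr z hz u
    rw [List.mem_singleton] at hr
    rw [hr] at hz
    have h1 : F (jj hf (u : ZMod f)) - F (jj hf ((z * u : (ZMod f)ˣ) : ZMod f)) = 0 := hMD u z hz
    omega
  · intro u; simp
  · intro r _ u
    exact odd_top hf hodd u

/-- The induction over the levels. -/
theorem mainA_aux {D : ℕ → Prop} (hD : ∀ f g, D f → g ∣ f → D g)
    (X : AddSubgroup (ZMod m → ℤ))
    (hstep : ∀ f, f ∣ m → D f → f ≠ 1 → f % 4 ≠ 2 → f ∣ 2 * rad f → Step D X f) :
    ∀ (k : ℕ) (F : ZMod m → ℤ), OddF F → TateF F → (∀ a, F a ≠ 0 → addOrderOf a ≤ k) →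
    (∀ a, F a ≠ 0 → D (addOrderOf a)) → F ∈ X ⊔ relSub m := by
  intro k
  induction k with
  | zero =>
    intro F _ _ hsup _
    have : F = 0 := by
      funext a
      by_contra ha
      have h1 := hsup a ha
      have h2 : 0 < addOrderOf a :=
        Nat.pos_of_dvd_of_pos (addOrderOf_dvd_m a) (Nat.pos_of_ne_zero (NeZero.ne m))
      omega
    rw [this]
    exact (X ⊔ relSub m).zero_mem
  | succ k ih =>
    intro F hodd hT hsup hDF
    by_cases hf : (k + 1) ∣ m ∧ D (k + 1)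
    swap
    · apply ih F hodd hT _ hDF
      intro a ha
      have h1 := hsup a ha
      have h2 : addOrderOf a ≠ k + 1 := fun h => hf (h ▸ ⟨addOrderOf_dvd_m a, hDF a ha⟩)
      omega
    · set f := k + 1 with hfdef
      obtain ⟨hf, hDf⟩ := hf
      haveI : NeZero f := ⟨Nat.succ_ne_zero k⟩
      by_cases hf1 : f = 1
      · have : F = 0 := by
          funext a
          by_contra ha
          have h1 := hsup a ha
          have h2 : 0 < addOrderOf a :=
            Nat.pos_of_dvd_of_pos (addOrderOf_dvd_m a) (Nat.pos_of_ne_zero (NeZero.ne m))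
          have h3 : addOrderOf a = 1 := by omega
          rw [AddMonoid.addOrderOf_eq_one_iff] at h3
          rw [h3] at ha
          apply ha
          have h4 := hodd 0
          rw [neg_zero] at h4
          show F 0 = 0
          omega
        rw [this]
        exact (X ⊔ relSub m).zero_mem
      · have hS : Step D X f := by
          by_cases hf4 : f % 4 = 2
          · exact Step.of_peeled hD hDf fun F hodd hT _ => level_even hf hf4 F hodd hT
          · by_cases hfr : f ∣ 2 * rad f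
            · exact hstep f hf hDf hf1 hf4 hfr
            · exact Step.of_peeled hD hDf fun F hodd hT hs => level_general hf hfr F hodd hT hs
        obtain ⟨F', h1, h2, h3, h4, h5⟩ := hS F hodd hT hsup hDF
        have h6 : F' ∈ X ⊔ relSub m := by
          apply ih F' h2 h3 _ h5
          intro a ha
          have := h4 a ha
          omega
        have := (X ⊔ relSub m).add_mem h1 h6
        rwa [sub_add_cancel] at this

end Pool.Agent.Lib.MP_938ce2_ag_h99
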