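import Pool.Agent.Lib.MP_938ce2_ag_h99.FanoDef

/-!
Five characters carried by uniruled fourfolds.
-/

set_option autoImplicit false
set_option linter.style.haveILetI false
set_option linter.unusedSectionVars false
set_option linter.unusedSimpArgs false
set_option linter.unreachableTactic false
set_option linter.unusedTactic false

open Finset

namespace Pool.Agent.Lib.MP_938ce2_ag_h99

open Pool.Agent.Lib.MP_938ce2_ag_h6

variable {m : ℕ} [NeZero m]

lemma fano_44 (h : 44 ∣ m) : Fano (quad h [1, 13, 30, 12, 17, 29, 33, 41]) :=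
  fano_of_data h 2 ![1, 13, 30, 12, 17, 29, 33, 41] ![0, 0, 0, 1, 1, 1, 1, 1]
    ![![1, 0, 0, 0, 0, 3, 0, 0], ![0, 1, 0, 0, 2, 0, 0, 1], ![0, 0, 1, 0, 1, 0, 0, 1],
      ![0, 0, 0, 11, 0, 0, 0, 0], ![0, 0, 0, 0, 0, 2, 1, 1], ![0, 0, 0, 0, 0, 0, 4, 0],
      ![0, 0, 0, 0, 1, 0, 1, 2]] ![3, 3, 3, 1, 1, 2, 2] ![3, 11]
    (by norm_num) (by decide) (by decide) (by decide) (by decide) (by decide) (by decide)
    (by
      intro u hu
      have e1 := hu 0 1 rfl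
      have e2 := hu 1 2 rfl
      have e3 := hu 3 4 rfl
      have e4 := hu 4 5 rfl
      have e5 := hu 5 6 rfl
      have e6 := hu 6 7 rfl
      simp [Fin.sum_univ_succ] at e1 e2 e3 e4 e5 e6
      intro j j'
      fin_cases j <;> fin_cases j' <;> simp <;> omega)

lemma fano_52 (h : 52 ∣ m) : Fano (quad h [1, 5, 46, 17, 29, 33, 36, 41]) :=
  fano_of_data h 2 ![1, 5, 46, 17, 29, 33, 36, 41] ![0, 0, 0, 1, 1, 1, 1, 1]
    ![![1, 0, 0, 3, 0, 0, 0, 0], ![0, 0, 1, 0, 2, 0, 0, 0], ![0, 0, 0, 2, 1, 0, 0, 1],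
      ![0, 0, 0, 1, 3, 0, 0, 0], ![0, 1, 0, 0, 0, 3, 0, 0], ![0, 0, 0, 0, 0, 0, 13, 0],
      ![0, 0, 0, 0, 0, 1, 0, 3]] ![3, 3, 1, 2, 3, 1, 4] ![3, 13]
    (by norm_num) (by decide) (by decide) (by decide) (by decide) (by decide) (by decide)
    (by
      intro u hu
      have e1 := hu 0 1 rfl
      have e2 := hu 1 2 rfl
      have e3 := hu 3 4 rfl
      have e4 := hu 4 5 rfl
      have e5 := hu 5 6 rfl
      have e6 := hu 6 7 rfl
      simp [Fin.sum_univ_succ] at e1 e2 e3 e4 e5 e6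
      intro j j'
      fin_cases j <;> fin_cases j' <;> simp <;> omega)

lemma fano_70 (h : 70 ∣ m) : Fano (quad h [1, 20, 24, 42, 61, 62]) :=
  fano_of_data h 1 ![1, 20, 24, 42, 61, 62] ![0, 0, 0, 0, 0, 0]
    ![![3, 0, 1, 0, 3, 0], ![0, 7, 0, 0, 0, 0], ![2, 1, 2, 0, 0, 0],
      ![0, 0, 0, 5, 0, 0], ![0, 0, 0, 0, 6, 2], ![0, 0, 1, 0, 0, 3]] ![4, 3, 9, 6, 3, 8] ![30]
    (by norm_num) (by decide) (by decide) (by decide) (by decide) (by decide) (by decide)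
    (by
      intro u hu
      have e1 := hu 0 1 rfl
      have e2 := hu 1 2 rfl
      have e3 := hu 2 3 rfl
      have e4 := hu 3 4 rfl
      have e5 := hu 4 5 rfl
      simp [Fin.sum_univ_succ] at e1 e2 e3 e4 e5
      intro j j'
      fin_cases j <;> fin_cases j' <;> simp <;> omega)

lemma fano_102 (h : 102 ∣ m) : Fano (quad h [1, 39, 62, 14, 55, 68, 73, 96]) :=
  fano_of_data h 2 ![1, 39, 62, 14, 55, 68, 73, 96] ![0, 0, 0, 1, 1, 1, 1, 1]
    ![![1, 0, 0, 2, 0, 0, 1, 0], ![0, 0, 1, 1, 1, 0, 1, 0], ![0, 1, 0, 1, 1, 0, 0, 1],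
      ![0, 1, 0, 0, 3, 0, 0, 0], ![0, 0, 0, 0, 0, 3, 0, 0], ![0, 0, 0, 1, 0, 0, 4, 0],
      ![0, 0, 0, 0, 0, 0, 0, 17]] ![5, 5, 1, 4, 6, 2, 1] ![5, 18]
    (by norm_num) (by decide) (by decide) (by decide) (by decide) (by decide) (by decide)
    (by
      intro u hu
      have e1 := hu 0 1 rfl
      have e2 := hu 1 2 rfl
      have e3 := hu 3 4 rfl
      have e4 := hu 4 5 rfl
      have e5 := hu 5 6 rfl
      have e6 := hu 6 7 rfl
      simp [Fin.sum_univ_succ] at e1 e2 e3 e4 e5 e6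
      intro j j'
      fin_cases j <;> fin_cases j' <;> simp <;> omega)

lemma fano_114 (h : 114 ∣ m) : Fano (quad h [1, 13, 43, 57, 61, 90, 92, 99]) :=
  fano_of_data h 2 ![1, 13, 43, 57, 61, 90, 92, 99] ![0, 0, 0, 0, 1, 1, 1, 1]
    ![![1, 1, 0, 0, 2, 0, 1, 0], ![2, 1, 0, 0, 0, 0, 0, 1], ![0, 0, 3, 0, 0, 0, 0, 1],
      ![0, 0, 0, 2, 0, 0, 0, 0], ![0, 0, 0, 0, 0, 19, 0, 0], ![1, 4, 0, 0, 1, 0, 0, 0],
      ![1, 0, 1, 0, 0, 0, 2, 0]] ![7, 9, 10, 18, 1, 5, 6] ![36, 19]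
    (by norm_num) (by decide) (by decide) (by decide) (by decide) (by decide) (by decide)
    (by
      intro u hu
      have e1 := hu 0 1 rfl
      have e2 := hu 1 2 rfl
      have e3 := hu 2 3 rfl
      have e4 := hu 4 5 rfl
      have e5 := hu 5 6 rfl
      have e6 := hu 6 7 rfl
      simp [Fin.sum_univ_succ] at e1 e2 e3 e4 e5 e6
      intro j j'
      fin_cases j <;> fin_cases j' <;> simp <;> omega)

lemma isTate_44 (h : 44 ∣ m) : IsTate (quad h [1, 13, 30, 12, 17, 29, 33, 41]) :=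
  isTate_quad h _ (by decide) (by decide) (by decide)

lemma isTate_52 (h : 52 ∣ m) : IsTate (quad h [1, 5, 46, 17, 29, 33, 36, 41]) :=
  isTate_quad h _ (by decide) (by decide) (by decide)

lemma isTate_70 (h : 70 ∣ m) : IsTate (quad h [1, 20, 24, 42, 61, 62]) :=
  isTate_quad h _ (by decide) (by decide) (by decide)

lemma isTate_102 (h : 102 ∣ m) : IsTate (quad h [1, 39, 62, 14, 55, 68, 73, 96]) :=
  isTate_quad h _ (by decide) (by decide) (by decide)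

lemma isTate_114 (h : 114 ∣ m) : IsTate (quad h [1, 13, 43, 57, 61, 90, 92, 99]) :=
  isTate_quad h _ (by decide) (by decide) (by decide)

end Pool.Agent.Lib.MP_938ce2_ag_h99
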