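import Pool.Agent.Lib.MP_938ce2_ag_h99.ExcData
import Pool.Agent.Lib.MP_938ce2_ag_h99.FanoData

/-!
Exceptional classes from uniruled fourfolds.
-/

set_option autoImplicit false
set_option linter.style.haveILetI false
set_option linter.unusedSectionVars false

open Finset

namespace Pool.Agent.Lib.MP_938ce2_ag_h99

open Pool.Agent.Lib.MP_938ce2_ag_h6

variable {m : ℕ} [NeZero m]

lemma Exc.mono {D : ℕ → Prop} {X Y : AddSubgroup (ZMod m → ℤ)} (hXY : X ≤ Y) {f p q : ℕ}
    {hf : f ∣ m} (h : Exc D X f p q hf) : Exc D Y f p q hf := by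
  obtain ⟨c1, c2, E, hc1, hc2, hc, hEX, h1⟩ := h
  exact ⟨c1, c2, E, hc1, hc2, hc, sup_le_sup_right hXY _ hEX, h1⟩

lemma XX_le_YY (G : Multiset (ZMod m) → Prop) : XX m ≤ YY G := by
  unfold XX YY
  apply AddSubgroup.closure_mono
  rintro _ ⟨r, hr, hc, rfl⟩
  exact ⟨r, hr, Or.inl hc, rfl⟩

lemma exc_of_list {X : AddSubgroup (ZMod m → ℤ)} {f p q n : ℕ} [NeZero f] (hf : f ∣ m)
    (hn : f ∣ n) (L : List ℕ)
    (hT : IsTate (quad hf L)) (hX : oddPart (quad hf L) ∈ X)
    (c1 c2 : (ZMod f)ˣ) (hc1 : c1 ∈ Kp f p) (hc2 : c2 ∈ Kp f q)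
    (hc : -1 = c1 * c2)
    (hpar : Odd (oddPart (↑(L.map (Nat.cast : ℕ → ZMod f)) : Multiset (ZMod f)) 1 +
      oddPart (↑(L.map (Nat.cast : ℕ → ZMod f)) : Multiset (ZMod f)) (c2 : ZMod f))) :
    Exc (· ∣ n) X f p q hf := by
  refine ⟨c1, c2, oddPart (quad hf L), hc1, hc2, hc, AddSubgroup.mem_sup_left hX,
    oddPart_odd _, (isTate_iff.mp hT).2.2, ?_, ?_⟩
  · intro a ha
    by_cases hy : ∃ y, jj hf y = a
    · obtain ⟨y, rfl⟩ := hy
      have h1 : addOrderOf (jj hf y) ∣ f := by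
        rw [addOrderOf_jj]
        exact addOrderOf_dvd_m y
      exact ⟨Nat.le_of_dvd (Nat.pos_of_ne_zero (NeZero.ne f)) h1, h1.trans hn⟩
    · push Not at hy
      exact absurd (oddPart_lift_of_forall_ne hf _ hy) ha
  · have h1 : oddPart (quad hf L) (jj hf 1)
        = oddPart (↑(L.map (Nat.cast : ℕ → ZMod f)) : Multiset (ZMod f)) 1 :=
      oddPart_lift_apply hf _ _
    have h2 : oddPart (quad hf L) (jj hf (c2 : ZMod f))
        = oddPart (↑(L.map (Nat.cast : ℕ → ZMod f)) : Multiset (ZMod f)) (c2 : ZMod f) :=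
      oddPart_lift_apply hf _ _
    rw [h1, h2]
    exact hpar

/-- the correction of an exceptional class by relations at the prime two -/
def EEL (f : ℕ) [NeZero f] (L A : List ℕ) : ZMod f → ℤ := fun y =>
  oddPart (↑(L.map (Nat.cast : ℕ → ZMod f)) : Multiset (ZMod f)) y
    - (A.map fun a : ℕ => od (((2 : ℕ) : ZMod f) * (a : ZMod f)) (((2 : ℕ) : ZMod f) * y)
      - od (((2 : ℕ) : ZMod f) * (a : ZMod f)) y).sum

lemma list_sum_app {ι : Type*} (A : List ι) (g : ι → ZMod m → ℤ) (x : ZMod m) :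
    (A.map g).sum x = (A.map fun a => g a x).sum := by
  induction A with
  | nil => rfl
  | cons a A ih => rw [List.map_cons, List.sum_cons, List.map_cons, List.sum_cons, Pi.add_apply, ih]

lemma exc_of_list2 {X : AddSubgroup (ZMod m → ℤ)} {f f0 p q n : ℕ} [NeZero f] [NeZero f0]
    (hf : f ∣ m) (hf0 : f0 ∣ m) (hff : f = 2 * f0) (hn : f ∣ n) (L A : List ℕ)
    (hT : IsTate (quad hf L)) (hX : oddPart (quad hf L) ∈ X)
    (hsup : ∀ y : ZMod f, EEL f L A y ≠ 0 → (f0 : ZMod f) * y = 0)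
    (c1 c2 : (ZMod f0)ˣ) (hc1 : c1 ∈ Kp f0 p) (hc2 : c2 ∈ Kp f0 q)
    (hc : -1 = c1 * c2) (k : ℕ) (hk : (c2 : ZMod f0) = (k : ZMod f0))
    (hpar : Odd (EEL f L A ((2 : ℕ) : ZMod f) + EEL f L A ((2 * k : ℕ) : ZMod f))) :
    Exc (· ∣ n) X f0 p q hf0 := by
  have h2f : 2 ∣ f := ⟨f0, hff⟩
  have h2m : 2 ∣ m := h2f.trans hf
  set R : ℕ → ZMod m → ℤ := fun a => rel 2 (od (((2 : ℕ) : ZMod m) * jj hf (a : ZMod f))) with hR
  set E : ZMod m → ℤ := oddPart (quad hf L) - (A.map R).sum with hE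
  have hEjj : ∀ y, E (jj hf y) = EEL f L A y := by
    intro y
    have h1 : oddPart (quad hf L) (jj hf y)
        = oddPart (↑(L.map (Nat.cast : ℕ → ZMod f)) : Multiset (ZMod f)) y :=
      oddPart_lift_apply hf _ _
    rw [hE, Pi.sub_apply, h1, list_sum_app]
    unfold EEL
    congr 2
    apply List.map_congr_left
    intro a _
    simp only [hR, rel, natCast_mul_jj, od_jj]
  have hEoff : ∀ x, (∀ y, jj hf y ≠ x) → E x = 0 := by
    intro x hx
    have h1 : oddPart (quad hf L) x = 0 := oddPart_lift_of_forall_ne hf _ hx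
    rw [hE, Pi.sub_apply, h1, list_sum_app]
    have h2 : (A.map fun a => R a x) = A.map fun _ => (0 : ℤ) := by
      apply List.map_congr_left
      intro a _
      exact rel_od_off hf h2f _ hx
    rw [h2]
    simp
  have hrs : (A.map R).sum ∈ relSub m := by
    apply AddSubgroup.list_sum_mem
    intro r hr
    rw [List.mem_map] at hr
    obtain ⟨a, _, rfl⟩ := hr
    exact rel_od_mem_relSub Nat.prime_two h2m (jj hf (a : ZMod f))
  have hjj0 : ∀ j : ℕ, jj hf0 (j : ZMod f0) = jj hf ((2 * j : ℕ) : ZMod f) := by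
    intro j
    rw [jj_natCast, jj_natCast]
    congr 1
    have h3 : m / f * 2 = m / f0 := by
      obtain ⟨e, he⟩ := hf
      have hfp : 0 < f0 := Nat.pos_of_ne_zero (NeZero.ne f0)
      rw [he, hff, Nat.mul_div_cancel_left e (by omega), mul_comm 2 f0, mul_assoc,
        Nat.mul_div_cancel_left _ hfp, mul_comm]
    rw [← h3]
    ring
  have hoddsum : OddF (A.map R).sum := by
    intro x
    rw [list_sum_app, list_sum_app]
    have h4 : (A.map fun a => R a (-x)) = A.map fun a => - R a x := by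
      apply List.map_congr_left
      intro a _
      exact ((od_odd _).rel 2) x
    rw [h4]
    induction A with
    | nil => rfl
    | cons a A ih =>
      rw [List.map_cons, List.sum_cons, List.map_cons, List.sum_cons]
      have := List.sum_neg (A.map fun a => R a x)
      rw [List.map_map] at this
      have e : (List.map ((fun x => -x) ∘ fun a => R a x) A) = List.map (fun a => -R a x) A := rfl
      rw [e] at this
      rw [← this]
      ring
  refine ⟨c1, c2, E, hc1, hc2, hc, ?_, ?_, ?_, ?_, ?_⟩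
  · exact (X ⊔ relSub m).sub_mem (AddSubgroup.mem_sup_left hX) (AddSubgroup.mem_sup_right hrs)
  · exact (oddPart_odd _).sub hoddsum
  · exact (isTate_iff.mp hT).2.2.sub (TateF_of_mem_relSub hrs)
  · intro x hx
    by_cases hy : ∃ y, jj hf y = x
    · obtain ⟨y, rfl⟩ := hy
      rw [hEjj] at hx
      have h1 : addOrderOf (jj hf y) ∣ f0 := by
        rw [addOrderOf_jj]
        apply addOrderOf_dvd_of_nsmul_eq_zero
        rw [nsmul_eq_mul]
        exact hsup y hx
      exact ⟨Nat.le_of_dvd (Nat.pos_of_ne_zero (NeZero.ne f0)) h1,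
        h1.trans ((Dvd.intro_left 2 hff.symm).trans hn)⟩
    · push Not at hy
      exact absurd (hEoff x hy) hx
  · have h1 : jj hf0 (1 : ZMod f0) = jj hf ((2 : ℕ) : ZMod f) := by
      have := hjj0 1
      rw [Nat.cast_one, mul_one] at this
      exact this
    rw [h1, hk, hjj0, hEjj, hEjj]
    exact hpar

/-- odd parts of surface characters and of characters of uniruled fourfolds -/
def XF (m : ℕ) [NeZero m] : AddSubgroup (ZMod m → ℤ) := YY (Fano (m := m))

lemma mem_XF {s : Multiset (ZMod m)} (h1 : IsTate s) (h2 : Fano s) : oddPart s ∈ XF m :=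
  AddSubgroup.subset_closure ⟨s, h1, Or.inr h2, rfl⟩

lemma exc44 {n : ℕ} (hf : 44 ∣ m) (hn : 44 ∣ n) : Exc (· ∣ n) (XF m) 44 2 11 hf :=
  exc_of_list hf hn _ (isTate_44 hf) (mem_XF (isTate_44 hf) (fano_44 hf)) (mkU 44 23 23 (by decide))
    (mkU 44 21 21 (by decide)) (by rw [mem_Kp]; decide) (by rw [mem_Kp]; decide)
    (by apply Units.ext; decide) (by decide)

lemma exc52 {n : ℕ} (hf : 52 ∣ m) (hn : 52 ∣ n) : Exc (· ∣ n) (XF m) 52 2 13 hf :=
  exc_of_list hf hn _ (isTate_52 hf) (mem_XF (isTate_52 hf) (fano_52 hf)) (mkU 52 27 27 (by decide))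
    (mkU 52 25 25 (by decide)) (by rw [mem_Kp]; decide) (by rw [mem_Kp]; decide)
    (by apply Units.ext; decide) (by decide)

lemma exc35 {n : ℕ} (hf : 70 ∣ m) (hf0 : 35 ∣ m) (hn : 70 ∣ n) :
    Exc (· ∣ n) (XF m) 35 5 7 hf0 :=
  exc_of_list2 (f := 70) hf hf0 rfl hn _ [1, 61] (isTate_70 hf)
    (mem_XF (isTate_70 hf) (fano_70 hf)) (by decide)
    (mkU 35 29 29 (by decide)) (mkU 35 6 6 (by decide)) (by rw [mem_Kp]; decide)
    (by rw [mem_Kp]; decide) (by apply Units.ext; decide) 6 rfl (by decide)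

lemma exc51 {n : ℕ} (hf : 102 ∣ m) (hf0 : 51 ∣ m) (hn : 102 ∣ n) :
    Exc (· ∣ n) (XF m) 51 3 17 hf0 :=
  exc_of_list2 (f := 102) hf hf0 rfl hn _ [1, 39, 55, 73] (isTate_102 hf)
    (mem_XF (isTate_102 hf) (fano_102 hf)) (by decide +kernel)
    (mkU 51 35 35 (by decide)) (mkU 51 16 16 (by decide)) (by rw [mem_Kp]; decide)
    (by rw [mem_Kp]; decide) (by apply Units.ext; decide) 16 rfl (by decide)

lemma exc57 {n : ℕ} (hf : 114 ∣ m) (hf0 : 57 ∣ m) (hn : 114 ∣ n) :
    Exc (· ∣ n) (XF m) 57 3 19 hf0 :=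
  exc_of_list2 (f := 114) hf hf0 rfl hn _ [1, 13, 43, 61, 99] (isTate_114 hf)
    (mem_XF (isTate_114 hf) (fano_114 hf)) (by decide +kernel)
    (mkU 57 20 20 (by decide)) (mkU 57 37 37 (by decide)) (by rw [mem_Kp]; decide)
    (by rw [mem_Kp]; decide) (by apply Units.ext; decide) 37 rfl (by decide)

end Pool.Agent.Lib.MP_938ce2_ag_h99
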