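import Mathlib

/-!
The generalised Bernoulli number `B_{1,χ}` of an odd primitive Dirichlet character is not zero.
-/

set_option autoImplicit false

open Complex Filter Topology HurwitzZeta Finset

namespace Pool.Agent.Lib.MP_938ce2_ag_h99

/-- elementary bound -/
lemma rpow_diff_bound {x y s : ℝ} (hx : 1 ≤ x) (hxy : x ≤ y) (hy : y ≤ x + 1) (hs : 1 ≤ s)
    (hs2 : s ≤ 2) : 1 / x ^ s - 1 / y ^ s ≤ 2 / x ^ 2 := by
  have hx0 : 0 < x := by linarith
  have hy0 : 0 < y := by linarith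
  have hb : 1 + s * (x / y - 1) ≤ (1 + (x / y - 1)) ^ s := by
    apply one_add_mul_self_le_rpow_one_add _ hs
    have : 0 ≤ x / y := by positivity
    linarith
  have hb' : 1 - (x / y) ^ s ≤ s * (1 / y) := by
    have h1 : (1 + (x / y - 1)) = x / y := by ring
    rw [h1] at hb
    have h2 : 1 - x / y ≤ 1 / y := by
      have : 1 ≤ x / y + 1 / y := by
        rw [← add_div, le_div_iff₀ hy0]
        linarith
      linarith
    nlinarith
  have e : 1 / x ^ s - 1 / y ^ s = (1 / x ^ s) * (1 - (x / y) ^ s) := by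
    rw [Real.div_rpow hx0.le hy0.le]
    have : x ^ s ≠ 0 := (Real.rpow_pos_of_pos hx0 s).ne'
    have : y ^ s ≠ 0 := (Real.rpow_pos_of_pos hy0 s).ne'
    field_simp
  rw [e]
  have h3 : 1 / x ^ s ≤ 1 / x := by
    apply one_div_le_one_div_of_le hx0
    calc x = x ^ (1 : ℝ) := (Real.rpow_one x).symm
      _ ≤ x ^ s := Real.rpow_le_rpow_of_exponent_le hx hs
  have h4 : (1 : ℝ) / y ≤ 1 / x := one_div_le_one_div_of_le hx0 hxy
  have h5 : 0 ≤ 1 / x ^ s := by positivity
  calc (1 / x ^ s) * (1 - (x / y) ^ s) ≤ (1 / x ^ s) * (s * (1 / y)) :=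
        mul_le_mul_of_nonneg_left hb' h5
    _ ≤ (1 / x) * (2 * (1 / x)) := by
        apply mul_le_mul h3 _ (by positivity) (by positivity)
        apply mul_le_mul hs2 h4 (by positivity) (by norm_num)
    _ = 2 / x ^ 2 := by field_simp

lemma abs_rpow_diff_bound {x y s : ℝ} (n : ℝ) (hn : 1 ≤ n) (hx : n ≤ x) (hy : n ≤ y)
    (hxy : |x - y| ≤ 1) (hs : 1 ≤ s) (hs2 : s ≤ 2) :
    |1 / x ^ s - 1 / y ^ s| ≤ 2 / n ^ 2 := by
  have key : ∀ u v : ℝ, n ≤ u → u ≤ v → v ≤ u + 1 → |1 / u ^ s - 1 / v ^ s| ≤ 2 / n ^ 2 := by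
    intro u v hu huv hv
    have hu0 : 0 < u := by linarith
    have h1 := rpow_diff_bound (x := u) (y := v) (by linarith) huv hv hs hs2
    have h2 : 0 ≤ 1 / u ^ s - 1 / v ^ s := by
      have : 1 / v ^ s ≤ 1 / u ^ s := by
        apply one_div_le_one_div_of_le (Real.rpow_pos_of_pos hu0 s)
        exact Real.rpow_le_rpow hu0.le huv (by linarith)
      linarith
    rw [abs_of_nonneg h2]
    refine h1.trans ?_
    apply div_le_div_of_nonneg_left (by norm_num) (by positivity)
    nlinarith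
  rw [abs_le] at hxy
  rcases le_total x y with h | h
  · exact key x y hx h (by linarith)
  · rw [abs_sub_comm]
    exact key y x hy h (by linarith)

/-- The value at `1` of the odd Hurwitz zeta function. -/
lemma hurwitzZetaOdd_one {a : ℝ} (ha : a ∈ Set.Ioo (0 : ℝ) 1) :
    hurwitzZetaOdd (a : UnitAddCircle) 1 = Real.pi * Complex.cot (Real.pi * a) / 2 := by
  obtain ⟨ha0, ha1⟩ := ha
  set g : ℝ → ℕ → ℝ := fun s n => (1 / (n + a) ^ s - 1 / (n + 1 - a) ^ s) / 2 with hg
  have hpos1 : ∀ n : ℕ, (0 : ℝ) < n + a := fun n => by positivity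
  have hpos2 : ∀ n : ℕ, (0 : ℝ) < n + 1 - a := fun n => by
    have : (0 : ℝ) ≤ n := by positivity
    linarith
  -- the Dirichlet series
  have hser : ∀ s : ℝ, 1 < s → HasSum (fun n => ((g s n : ℝ) : ℂ)) (hurwitzZetaOdd a (s : ℂ)) := by
    intro s hs
    have := hasSum_nat_hurwitzZetaOdd_of_mem_Icc (a := a) ⟨ha0.le, ha1.le⟩ (s := (s : ℂ))
      (by simpa using hs)
    convert this using 2 with n
    simp only [hg]
    push_cast
    rw [Complex.ofReal_cpow (hpos1 n).le, Complex.ofReal_cpow (hpos2 n).le]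
    push_cast
    ring
  -- domination
  set C : ℝ := 8 + (1 / a ^ (2:ℝ) + 1 / (1 - a) ^ (2:ℝ)) with hC
  have hdom : ∀ s : ℝ, 1 ≤ s → s ≤ 2 → ∀ n : ℕ, ‖g s n‖ ≤ C / (n + 1) ^ 2 := by
    intro s hs hs2 n
    rw [Real.norm_eq_abs]
    rcases Nat.eq_zero_or_pos n with rfl | hn
    · have e1 : g s 0 = (1 / a ^ s - 1 / (1 - a) ^ s) / 2 := by simp [hg]
      rw [e1]
      have b : ∀ u : ℝ, 0 < u → u < 1 → 0 ≤ 1 / u ^ s ∧ 1 / u ^ s ≤ 1 / u ^ (2:ℝ) := by
        intro u hu hu1
        refine ⟨by positivity, ?_⟩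
        apply one_div_le_one_div_of_le (Real.rpow_pos_of_pos hu _)
        exact Real.rpow_le_rpow_of_exponent_ge hu hu1.le hs2
      have b1 := b a ha0 ha1
      have b2 := b (1 - a) (by linarith) (by linarith)
      rw [abs_le]
      have hC' : C / (((0:ℕ):ℝ) + 1) ^ 2 = C := by norm_num
      rw [hC', hC]
      constructor <;> linarith [b1.1, b1.2, b2.1, b2.2]
    · have hn1 : (1 : ℝ) ≤ n := by exact_mod_cast hn
      have hb := abs_rpow_diff_bound (x := n + a) (y := n + 1 - a) (s := s) n hn1 (by linarith)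
        (by linarith) (by rw [abs_le]; constructor <;> linarith) hs hs2
      have hCpos : 8 ≤ C := by
        rw [hC]
        have : 0 ≤ 1 / a ^ (2:ℝ) := by positivity
        have : 0 ≤ 1 / (1 - a) ^ (2:ℝ) := by
          have : 0 < 1 - a := by linarith
          positivity
        linarith
      calc |g s n| = |1 / (n + a) ^ s - 1 / (n + 1 - a) ^ s| / 2 := by
            simp only [hg, abs_div]
            norm_num
        _ ≤ (2 / (n:ℝ) ^ 2) / 2 := by gcongr
        _ ≤ 8 / (n + 1) ^ 2 := by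
            rw [div_div, div_le_div_iff₀ (by positivity) (by positivity)]
            nlinarith
        _ ≤ C / (n + 1) ^ 2 := by gcongr
  have hsum : Summable (fun n : ℕ => C / ((n : ℝ) + 1) ^ 2) := by
    have h1 : Summable (fun n : ℕ => 1 / ((n : ℝ)) ^ 2) :=
      Real.summable_one_div_nat_pow.mpr (by norm_num)
    have h2 := (summable_nat_add_iff 1).mpr h1
    have h3 := h2.mul_left C
    refine h3.congr fun n => ?_
    push_cast
    ring
  -- limit of the series as `s → 1+`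
  have hlim1 : Tendsto (fun s : ℝ => ∑' n, g s n) (𝓝[>] 1) (𝓝 (∑' n, g 1 n)) := by
    apply tendsto_tsum_of_dominated_convergence hsum
    · intro n
      have hc : ContinuousAt (fun s : ℝ => g s n) 1 := by
        simp only [hg]
        have c1 : ContinuousAt (fun s : ℝ => ((n : ℝ) + a) ^ s) 1 :=
          Real.continuousAt_const_rpow (hpos1 n).ne'
        have c2 : ContinuousAt (fun s : ℝ => ((n : ℝ) + 1 - a) ^ s) 1 :=
          Real.continuousAt_const_rpow (hpos2 n).ne'
        refine ((continuousAt_const.div c1 ?_).sub (continuousAt_const.div c2 ?_)).div_const 2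
        · exact (Real.rpow_pos_of_pos (hpos1 n) _).ne'
        · exact (Real.rpow_pos_of_pos (hpos2 n) _).ne'
      exact hc.tendsto.mono_left nhdsWithin_le_nhds
    · have : Set.Ioo (1:ℝ) 2 ∈ 𝓝[>] (1:ℝ) := Ioo_mem_nhdsGT (by norm_num)
      filter_upwards [this] with s hs n
      exact hdom s hs.1.le hs.2.le n
  have hlim2 : Tendsto (fun s : ℝ => hurwitzZetaOdd (a : UnitAddCircle) (s : ℂ)) (𝓝[>] 1)
      (𝓝 (hurwitzZetaOdd (a : UnitAddCircle) 1)) := by
    have hc : ContinuousAt (fun s : ℝ => hurwitzZetaOdd (a : UnitAddCircle) (s : ℂ)) 1 := by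
      apply ContinuousAt.comp (g := fun z : ℂ => hurwitzZetaOdd (a : UnitAddCircle) z)
        (f := fun s : ℝ => (s : ℂ))
      · exact (differentiable_hurwitzZetaOdd _).continuous.continuousAt
      · exact Complex.continuous_ofReal.continuousAt
    have := hc.tendsto.mono_left (nhdsWithin_le_nhds (s := Set.Ioi 1))
    simpa using this
  have hlim3 : Tendsto (fun s : ℝ => hurwitzZetaOdd (a : UnitAddCircle) (s : ℂ)) (𝓝[>] 1)
      (𝓝 (((∑' n, g 1 n : ℝ) : ℂ))) := by
    have h4 : Tendsto (fun s : ℝ => (((∑' n, g s n : ℝ)) : ℂ)) (𝓝[>] 1)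
        (𝓝 (((∑' n, g 1 n : ℝ) : ℂ))) :=
      (Complex.continuous_ofReal.tendsto _).comp hlim1
    refine h4.congr' ?_
    filter_upwards [self_mem_nhdsWithin] with s hs
    rw [← (hser s hs).tsum_eq, Complex.ofReal_tsum]
  have heq : hurwitzZetaOdd (a : UnitAddCircle) 1 = ((∑' n, g 1 n : ℝ) : ℂ) :=
    tendsto_nhds_unique hlim2 hlim3
  rw [heq]
  -- cotangent
  have hmem : (a : ℂ) ∈ Complex.integerComplement := by
    rw [Complex.mem_integerComplement_iff]
    rintro ⟨n, hn⟩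
    have hn' : (n : ℝ) = a := by exact_mod_cast hn
    have h1 : (0 : ℝ) < n := by rw [hn']; exact ha0
    have h2 : (n : ℝ) < 1 := by rw [hn']; exact ha1
    have h3 : (0 : ℤ) < n := by exact_mod_cast h1
    have h4 : n < (1 : ℤ) := by exact_mod_cast h2
    omega
  have hcot := cot_series_rep' hmem
  have hcs := summable_cotTerm hmem
  -- partial sums
  have hsg : Summable (g 1) := Summable.of_norm_bounded hsum (hdom 1 le_rfl (by norm_num))
  have hp1 : Tendsto (fun N : ℕ => ∑ n ∈ range (N + 1), ((g 1 n : ℝ) : ℂ)) atTop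
      (𝓝 ((∑' n, g 1 n : ℝ) : ℂ)) := by
    have h5 : HasSum (fun n => ((g 1 n : ℝ) : ℂ)) ((∑' n, g 1 n : ℝ) : ℂ) :=
      (Complex.hasSum_ofReal).mpr hsg.hasSum
    exact (h5.tendsto_sum_nat).comp (tendsto_add_atTop_nat 1)
  have hp2 : Tendsto (fun N : ℕ => (1 / (a : ℂ) + ∑ n ∈ range N,
      (1 / ((a : ℂ) - (n + 1)) + 1 / ((a : ℂ) + (n + 1))) + 1 / ((a : ℂ) - (N + 1))) / 2) atTop
      (𝓝 ((1 / (a : ℂ) + (Real.pi * Complex.cot (Real.pi * a) - 1 / a) + 0) / 2)) := by
    have h6 : Tendsto (fun N : ℕ => ∑ n ∈ range N,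
      (1 / ((a : ℂ) - (n + 1)) + 1 / ((a : ℂ) + (n + 1)))) atTop
      (𝓝 (Real.pi * Complex.cot (Real.pi * a) - 1 / a)) := by
      rw [hcot]
      exact hcs.hasSum.tendsto_sum_nat
    have h7 : Tendsto (fun N : ℕ => 1 / ((a : ℂ) - (N + 1))) atTop (𝓝 0) := by
      have h8 : Tendsto (fun N : ℕ => (1 : ℝ) / (a - (N + 1))) atTop (𝓝 0) := by
        have h9 : Tendsto (fun N : ℕ => (a - ((N : ℝ) + 1))) atTop atBot := by
          apply tendsto_atBot.mpr
          intro b
          filter_upwards [tendsto_natCast_atTop_atTop.eventually_ge_atTop (a - b)] with N hN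
          linarith
        have := h9.inv_tendsto_atBot
        refine this.congr fun N => ?_
        simp
      have h10 := (Complex.continuous_ofReal.tendsto _).comp h8
      simp only [Complex.ofReal_zero] at h10
      refine h10.congr fun N => ?_
      simp
    exact ((tendsto_const_nhds.add h6).add h7).div_const 2
  have hpeq : ∀ N : ℕ, ∑ n ∈ range (N + 1), ((g 1 n : ℝ) : ℂ) = (1 / (a : ℂ) + ∑ n ∈ range N,
      (1 / ((a : ℂ) - (n + 1)) + 1 / ((a : ℂ) + (n + 1))) + 1 / ((a : ℂ) - (N + 1))) / 2 := by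
    intro N
    induction N with
    | zero =>
      simp only [hg]
      have : (1 - (a:ℂ)) ≠ 0 := by
        have : (1 : ℝ) - a ≠ 0 := by linarith
        exact_mod_cast this
      have h0 : (a : ℂ) ≠ 0 := by exact_mod_cast ha0.ne'
      have h1 : (a:ℂ) - 1 ≠ 0 := by
        intro h; apply this; linear_combination -h
      simp
      rw [show (1 - (a:ℂ)) = -(a - 1) by ring, inv_neg]
      ring
    | succ N ih =>
      rw [sum_range_succ, ih, sum_range_succ]
      simp only [hg, Real.rpow_one]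
      push_cast
      have e1 : ((a : ℂ) - (↑N + 1 + 1)) = -((N:ℂ) + 1 + 1 - a) := by ring
      rw [e1, one_div_neg_eq_neg_one_div]
      have e2 : ((N : ℂ) + 1 + a) = a + (N + 1) := by ring
      rw [e2]
      ring
  have hfin := tendsto_nhds_unique hp1 (hp2.congr fun N => (hpeq N).symm)
  rw [hfin]
  ring

lemma sum_mul_pow_aux (z : ℂ) (n : ℕ) :
    (z - 1) * ∑ j ∈ range n, z ^ j * (j : ℂ) = n * z ^ n - ∑ j ∈ range n, z ^ (j + 1) := by
  induction n with
  | zero => simp
  | succ n ih =>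
    rw [sum_range_succ, mul_add, ih, sum_range_succ]
    push_cast
    ring

/-- the Fourier transform of `val` -/
lemma dft_val {N : ℕ} [NeZero N] {k : ZMod N} (hk : k ≠ 0) :
    ZMod.dft (fun j : ZMod N => (j.val : ℂ)) k = N / (ZMod.stdAddChar (-k) - 1) := by
  set z : ℂ := ZMod.stdAddChar (-k) with hz
  have hz1 : z - 1 ≠ 0 := by
    intro h
    have h1 : ZMod.stdAddChar (-k) = ZMod.stdAddChar (0 : ZMod N) := by
      rw [AddChar.map_zero_eq_one, ← hz]
      linear_combination h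
    have := ZMod.injective_stdAddChar h1
    exact hk (by simpa using this)
  have hzN : z ^ N = 1 := by
    rw [hz, ← AddChar.map_nsmul_eq_pow]
    simp
  have h0 : ZMod.dft (fun j : ZMod N => (j.val : ℂ)) k
      = ∑ j ∈ range N, z ^ j * (j : ℂ) := by
    rw [ZMod.dft_apply]
    rw [Finset.sum_range fun j => z ^ j * (j : ℂ)]
    have e : (ZMod.finEquiv N).toEquiv.symm = (ZMod.finEquiv N).toEquiv.symm := rfl
    refine Fintype.sum_equiv (ZMod.finEquiv N).toEquiv.symm _ _ fun j => ?_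
    have hval : (((ZMod.finEquiv N).toEquiv.symm j : Fin N) : ℕ) = j.val := by
      obtain ⟨M, rfl⟩ : ∃ M, N = M + 1 := ⟨N - 1, (Nat.succ_pred_eq_of_ne_zero (NeZero.ne N)).symm⟩
      rfl
    rw [hval, smul_eq_mul, hz, ← AddChar.map_nsmul_eq_pow]
    congr 2
    rw [nsmul_eq_mul, ZMod.natCast_zmod_val]
    ring
  have hgeom : ∑ j ∈ range N, z ^ (j + 1) = 0 := by
    have h1 : ∑ j ∈ range N, z ^ j = 0 := by
      have := mul_geom_sum z N
      rw [hzN, sub_self] at this
      exact (mul_eq_zero.mp this).resolve_left hz1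
    simp_rw [pow_succ, ← sum_mul, h1, zero_mul]
  have h2 := sum_mul_pow_aux z N
  rw [hgeom, hzN] at h2
  rw [h0, eq_div_iff hz1]
  linear_combination h2

lemma inv_stdAddChar_sub_one {N : ℕ} [NeZero N] {k : ZMod N} (hk : k ≠ 0) :
    (N : ℂ) / (ZMod.stdAddChar (-k) - 1)
      = N * (-1 / 2 + I / 2 * Complex.cot (Real.pi * ((k.val / N : ℝ) : ℂ))) := by
  have hN : (N : ℂ) ≠ 0 := by exact_mod_cast NeZero.ne N
  rw [Complex.cot_pi_eq_exp_ratio]
  set e : ℂ := Complex.exp (2 * Real.pi * I * ((k.val / N : ℝ) : ℂ)) with he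
  have h1 : ZMod.stdAddChar (k : ZMod N) = e := by
    have := ZMod.stdAddChar_coe (N := N) (k.val : ℤ)
    rw [Int.cast_natCast, ZMod.natCast_zmod_val] at this
    rw [this, he]
    congr 1
    push_cast
    ring
  have he0 : e ≠ 0 := Complex.exp_ne_zero _
  have h2 : ZMod.stdAddChar (-k : ZMod N) = e⁻¹ := by
    rw [AddChar.map_neg_eq_inv, h1]
  have he1 : (1 : ℂ) - e ≠ 0 := by
    intro h
    have h3 : ZMod.stdAddChar (k : ZMod N) = ZMod.stdAddChar (0 : ZMod N) := by
      rw [h1, AddChar.map_zero_eq_one]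
      linear_combination -h
    exact hk (ZMod.injective_stdAddChar h3)
  have he2 : e⁻¹ - 1 ≠ 0 := by
    intro h
    apply he1
    have : e * (e⁻¹ - 1) = 0 := by rw [h, mul_zero]
    rw [mul_sub, mul_inv_cancel₀ he0, mul_one] at this
    exact this
  rw [h2]
  have hI : I ≠ 0 := I_ne_zero
  have e3 : e⁻¹ - 1 = (1 - e) / e := by field_simp
  rw [e3]
  field_simp
  ring

/-- `∑ χ(a) a ≠ 0` for an odd primitive Dirichlet character. -/
theorem sum_mul_val_ne_zero {N : ℕ} [NeZero N] {χ : DirichletCharacter ℂ N} (hχ : χ.IsPrimitive)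
    (hodd : χ.Odd) : ∑ a : ZMod N, χ a * (a.val : ℂ) ≠ 0 := by
  intro hT
  have hN1 : N ≠ 1 := by
    rintro rfl
    have h1 : χ (-1) = -1 := hodd
    have h2 : (-1 : ZMod 1) = 1 := Subsingleton.elim _ _
    rw [h2, map_one] at h1
    norm_num at h1
  have hN : (N : ℂ) ≠ 0 := by exact_mod_cast NeZero.ne N
  have hodd' : (χ⁻¹).Odd := by
    have h1 : χ (-1) = -1 := hodd
    show χ⁻¹ (-1) = -1
    rw [MulChar.inv_apply_eq_inv', h1]
    norm_num
  have hne1 : χ⁻¹ ≠ 1 := by
    intro h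
    have h1 : χ⁻¹ (-1) = -1 := hodd'
    rw [h, MulChar.one_apply (isUnit_one.neg)] at h1
    norm_num at h1
  have hχ0 : χ⁻¹ 0 = 0 := χ⁻¹.map_zero' hN1
  -- the transform of `χ`
  have hF := fun k => hχ.fourierTransform_eq_inv_mul_gaussSum k
  have hg : gaussSum χ ZMod.stdAddChar ≠ 0 := by
    intro hg0
    have h0 : ZMod.dft (fun j => χ j) = 0 := by
      funext k
      have := hF k
      rw [hg0, mul_zero] at this
      exact this
    have h1 : (fun j => χ j) = 0 := by
      have := congrArg (ZMod.dft (E := ℂ) (N := N)).symm h0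
      simpa using this
    have h2 := congrFun h1 1
    simp at h2
  -- Parseval
  set v : ZMod N → ℂ := fun j => (j.val : ℂ) with hv
  have hP : ∑ k, ZMod.dft v k * ZMod.dft (fun j => χ j) k = 0 := by
    have h1 : ∑ k, ZMod.dft v k * ZMod.dft (fun j => χ j) k
        = ∑ a, χ a * ZMod.dft (ZMod.dft v) a := by
      simp_rw [ZMod.dft_apply (fun j => χ j), ZMod.dft_apply (ZMod.dft v), smul_eq_mul, mul_sum]
      rw [sum_comm]
      refine sum_congr rfl fun a _ => sum_congr rfl fun k _ => ?_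
      rw [mul_comm a k]
      ring
    rw [h1, ZMod.dft_dft]
    simp only [smul_eq_mul]
    have h2 : ∑ a : ZMod N, χ a * ((N : ℂ) * v (-a)) = -(N : ℂ) * ∑ a : ZMod N, χ a * v a := by
      rw [mul_sum]
      refine Fintype.sum_equiv (Equiv.neg _) _ _ fun a => ?_
      simp only [Equiv.neg_apply]
      rw [hodd.eval_neg]
      ring
    rw [h2, hv]
    simp only
    rw [hT, mul_zero]
  have hS : ∑ k, χ⁻¹ k * ZMod.dft v k = 0 := by
    have h1 : ∀ k, ZMod.dft v k * ZMod.dft (fun j => χ j) k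
        = -(gaussSum χ ZMod.stdAddChar) * (χ⁻¹ k * ZMod.dft v k) := by
      intro k
      have h2 : ZMod.dft (fun j => χ j) k = χ⁻¹ (-k) * gaussSum χ ZMod.stdAddChar := hF k
      rw [h2, hodd'.eval_neg]
      ring
    simp_rw [h1, ← mul_sum] at hP
    exact (mul_eq_zero.mp hP).resolve_left (neg_ne_zero.mpr hg)
  have hS2 : ∑ k, χ⁻¹ k * ((N : ℂ) * (-1 / 2 + I / 2 *
      Complex.cot (Real.pi * ((k.val / N : ℝ) : ℂ)))) = 0 := by
    rw [← hS]
    refine sum_congr rfl fun k _ => ?_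
    rcases eq_or_ne k 0 with rfl | hk
    · rw [hχ0, zero_mul, zero_mul]
    · rw [dft_val hk, inv_stdAddChar_sub_one hk]
  have hsum0 : ∑ k, χ⁻¹ k = 0 := MulChar.sum_eq_zero_of_ne_one hne1
  have hS3 : ∑ k, χ⁻¹ k * Complex.cot (Real.pi * ((k.val / N : ℝ) : ℂ)) = 0 := by
    have h1 : ∀ k : ZMod N, χ⁻¹ k * ((N : ℂ) * (-1 / 2 + I / 2 *
      Complex.cot (Real.pi * ((k.val / N : ℝ) : ℂ)))) = (N * (-1/2)) * χ⁻¹ k
        + (N * (I / 2)) * (χ⁻¹ k * Complex.cot (Real.pi * ((k.val / N : ℝ) : ℂ))) := by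
      intro k; ring
    simp_rw [h1, sum_add_distrib, ← mul_sum] at hS2
    rw [hsum0, mul_zero, zero_add] at hS2
    refine (mul_eq_zero.mp hS2).resolve_left ?_
    exact mul_ne_zero hN (div_ne_zero I_ne_zero two_ne_zero)
  have hL : DirichletCharacter.LFunction χ⁻¹ 1 = 0 := by
    have h1 : DirichletCharacter.LFunction χ⁻¹ 1 = ZMod.LFunction (fun j => χ⁻¹ j) 1 := rfl
    rw [h1, ZMod.LFunction_def_odd (hodd'.to_fun)]
    have h2 : ∀ j : ZMod N, χ⁻¹ j * hurwitzZetaOdd (ZMod.toAddCircle j) 1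
        = (Real.pi / 2) * (χ⁻¹ j * Complex.cot (Real.pi * ((j.val / N : ℝ) : ℂ))) := by
      intro j
      rcases eq_or_ne j 0 with rfl | hj
      · rw [hχ0]; ring
      · have hN' : (0 : ℝ) < N := by exact_mod_cast Nat.pos_of_ne_zero (NeZero.ne N)
        have hj1 : (0 : ℝ) < j.val / N := by
          apply div_pos _ hN'
          have : j.val ≠ 0 := by rwa [Ne, ZMod.val_eq_zero]
          exact_mod_cast Nat.pos_of_ne_zero this
        have hj2 : (j.val / N : ℝ) < 1 := by
          rw [div_lt_one hN']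
          exact_mod_cast ZMod.val_lt j
        rw [ZMod.toAddCircle_apply, hurwitzZetaOdd_one ⟨hj1, hj2⟩]
        ring
    simp_rw [h2, ← mul_sum]
    rw [hS3, mul_zero, mul_zero]
  exact DirichletCharacter.LFunction_apply_one_ne_zero hne1 hL

end Pool.Agent.Lib.MP_938ce2_ag_h99
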