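import Pool.Agent.Lib.MP_938ce2_ag_h99.MD
import Pool.Agent.Lib.MP_938ce2_ag_h99.Analytic

/-!
Level structure of `ZMod m`.
-/

set_option autoImplicit false
set_option linter.style.haveILetI false
set_option linter.unusedSectionVars false

open Finset

namespace Pool.Agent.Lib.MP_938ce2_ag_h99

/-- the inclusion of the `f`-torsion of `ZMod m` -/
noncomputable def jj {m f : ℕ} (hf : f ∣ m) : ZMod f →+ ZMod m :=
  ZMod.lift f ⟨(Int.castAddHom (ZMod m)).comp (AddMonoidHom.mulLeft ((m / f : ℕ) : ℤ)), by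
    simp only [AddMonoidHom.comp_apply, AddMonoidHom.coe_mulLeft, Int.coe_castAddHom]
    rw [← Nat.cast_mul, Nat.div_mul_cancel hf]
    simp⟩

lemma jj_intCast {m f : ℕ} (hf : f ∣ m) (k : ℤ) :
    jj hf (k : ZMod f) = (((m / f : ℕ) : ℤ) * k : ℤ) := by
  unfold jj
  rw [ZMod.lift_coe]
  simp

lemma jj_natCast {m f : ℕ} (hf : f ∣ m) (k : ℕ) :
    jj hf (k : ZMod f) = ((m / f * k : ℕ) : ZMod m) := by
  have := jj_intCast hf (k : ℤ)
  rw [Int.cast_natCast] at this
  rw [this, ← Nat.cast_mul, Int.cast_natCast]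

variable {m f : ℕ} [NeZero m]

lemma f_ne_zero (hf : f ∣ m) : f ≠ 0 := by
  rintro rfl
  exact NeZero.ne m (Nat.eq_zero_of_zero_dvd hf)

lemma jj_val (hf : f ∣ m) (x : ZMod f) : (jj hf x).val = m / f * x.val := by
  haveI : NeZero f := ⟨f_ne_zero hf⟩
  have h1 : jj hf x = ((m / f * x.val : ℕ) : ZMod m) := by
    conv_lhs => rw [← ZMod.natCast_zmod_val x]
    exact jj_natCast hf x.val
  rw [h1, ZMod.val_natCast_of_lt]
  calc m / f * x.val < m / f * f := by
        apply Nat.mul_lt_mul_of_pos_left (ZMod.val_lt x)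
        exact Nat.div_pos (Nat.le_of_dvd (Nat.pos_of_ne_zero (NeZero.ne m)) hf)
          (Nat.pos_of_ne_zero (f_ne_zero hf))
    _ = m := Nat.div_mul_cancel hf

lemma jj_injective (hf : f ∣ m) : Function.Injective (jj hf) := by
  haveI : NeZero f := ⟨f_ne_zero hf⟩
  intro x y h
  have h1 := congrArg ZMod.val h
  rw [jj_val, jj_val] at h1
  have h2 : 0 < m / f := Nat.div_pos (Nat.le_of_dvd (Nat.pos_of_ne_zero (NeZero.ne m)) hf)
          (Nat.pos_of_ne_zero (f_ne_zero hf))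
  exact ZMod.val_injective f (Nat.eq_of_mul_eq_mul_left h2 h1)

lemma jj_mul (hf : f ∣ m) (t : ZMod m) (x : ZMod f) :
    t * jj hf x = jj hf (ZMod.castHom hf (ZMod f) t * x) := by
  haveI : NeZero f := ⟨f_ne_zero hf⟩
  obtain ⟨k, rfl⟩ := ZMod.intCast_surjective t
  obtain ⟨l, rfl⟩ := ZMod.intCast_surjective x
  have h1 : ZMod.castHom hf (ZMod f) ((k : ℤ) : ZMod m) = ((k : ℤ) : ZMod f) := map_intCast _ _
  rw [h1, ← Int.cast_mul, jj_intCast, jj_intCast, ← Int.cast_mul]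
  congr 1
  ring

lemma addOrderOf_jj (hf : f ∣ m) (x : ZMod f) : addOrderOf (jj hf x) = addOrderOf x :=
  addOrderOf_injective (jj hf) (jj_injective hf) x

lemma addOrderOf_unit (hf : f ∣ m) (u : (ZMod f)ˣ) : addOrderOf (jj hf (u : ZMod f)) = f := by
  haveI : NeZero f := ⟨f_ne_zero hf⟩
  rw [addOrderOf_jj]
  apply Nat.dvd_antisymm
  · apply addOrderOf_dvd_of_nsmul_eq_zero
    simp
  · have h1 : addOrderOf (u : ZMod f) • (u : ZMod f) = 0 := addOrderOf_nsmul_eq_zero _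
    rw [nsmul_eq_mul] at h1
    have h2 : ((addOrderOf (u : ZMod f) : ℕ) : ZMod f) = 0 := by
      have := congrArg (· * ((u⁻¹ : (ZMod f)ˣ) : ZMod f)) h1
      simpa [mul_assoc] using this
    rwa [ZMod.natCast_eq_zero_iff] at h2

lemma addOrderOf_dvd_m (a : ZMod m) : addOrderOf a ∣ m := by
  apply addOrderOf_dvd_of_nsmul_eq_zero
  simp

/-- every element of additive order `f` comes from a unit of `ZMod f` -/
lemma exists_unit_of_order (hf : f ∣ m) {a : ZMod m} (ha : addOrderOf a = f) :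
    ∃ u : (ZMod f)ˣ, jj hf (u : ZMod f) = a := by
  haveI : NeZero f := ⟨f_ne_zero hf⟩
  have hm : 0 < m := Nat.pos_of_ne_zero (NeZero.ne m)
  have hfp : 0 < f := Nat.pos_of_ne_zero (f_ne_zero hf)
  have hd : 0 < m / f := Nat.div_pos (Nat.le_of_dvd hm hf) hfp
  have h1 : f • a = 0 := by rw [← ha]; exact addOrderOf_nsmul_eq_zero a
  rw [nsmul_eq_mul, ← ZMod.natCast_zmod_val a, ← Nat.cast_mul, ZMod.natCast_eq_zero_iff] at h1
  -- m / f divides a.val
  have h2 : m / f ∣ a.val := by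
    have h3 : f * (m / f) ∣ f * a.val := by rwa [Nat.mul_div_cancel' hf]
    exact Nat.dvd_of_mul_dvd_mul_left hfp h3
  obtain ⟨k, hk⟩ := h2
  have h4 : jj hf ((k : ℕ) : ZMod f) = a := by
    rw [jj_natCast, ← hk, ZMod.natCast_zmod_val]
  have h5 : addOrderOf ((k : ℕ) : ZMod f) = f := by rw [← addOrderOf_jj hf, h4, ha]
  have h6 : IsUnit ((k : ℕ) : ZMod f) := by
    rw [ZMod.isUnit_iff_coprime]
    rw [ZMod.addOrderOf_coe k (f_ne_zero hf)] at h5
    have h7 : Nat.gcd f k = 1 := by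
      have h8 := Nat.div_mul_cancel (Nat.gcd_dvd_left f k)
      rw [h5] at h8
      have : f * Nat.gcd f k = f * 1 := by rw [h8, mul_one]
      exact Nat.eq_of_mul_eq_mul_left hfp this
    rw [Nat.gcd_comm] at h7
    exact h7
  obtain ⟨u, hu⟩ := h6
  exact ⟨u, by rw [hu, h4]⟩

end Pool.Agent.Lib.MP_938ce2_ag_h99
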