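import Pool.Agent.Lib.MP_938ce2_ag_h6.Lift

/-!
The class of characters generated by those of Fermat surfaces, Aoki's ones and a further class `G`
under joins and cuts.
-/

set_option autoImplicit false
set_option linter.style.haveILetI false
set_option linter.unusedSectionVars false

open Finset

namespace Pool.Agent.Lib.MP_938ce2_ag_h99

open Pool.Agent.Lib.MP_938ce2_ag_h6

variable {m : ℕ} [NeZero m]

/-- Characters generated by those of Fermat surfaces, Aoki's and those in `G`. -/
inductive IsAlgG (G : Multiset (ZMod m) → Prop) : Multiset (ZMod m) → Prop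
  | low (s : Multiset (ZMod m)) : IsTate s → s.card ≤ 4 → IsAlgG G s
  | base (s : Multiset (ZMod m)) : IsTate s → G s → IsAlgG G s
  | aoki (p : ℕ) (a : ZMod m) : p.Prime → p ≠ 2 → p ∣ m → (p : ZMod m) * a ≠ 0 →
      IsAlgG G ((univ.filter fun x : ZMod m => (p : ZMod m) * x = (p : ZMod m) * a).val
        + {-((p : ZMod m) * a)})
  | join (s t : Multiset (ZMod m)) : IsAlgG G s → IsAlgG G t → IsAlgG G (s + t)
  | cut (s : Multiset (ZMod m)) (b : ZMod m) : b ≠ 0 → IsAlgG G (s + {b, -b}) → IsAlgG G s

variable {G : Multiset (ZMod m) → Prop}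

/-- the old class is contained in the new one -/
theorem IsAlgG.of_isAlg {s : Multiset (ZMod m)} (h : IsAlg s) : IsAlgG G s := by
  induction h with
  | low s h hc => exact IsAlgG.low s h hc
  | aoki p a hp hp2 hpm ha => exact IsAlgG.aoki p a hp hp2 hpm ha
  | join s t _ _ hs ht => exact IsAlgG.join s t hs ht
  | cut s b hb _ ih => exact IsAlgG.cut s b hb ih

/-- Every character in the class is a Tate character. -/
theorem IsAlgG.isTate {s : Multiset (ZMod m)} (h : IsAlgG G s) : IsTate s := by
  induction h with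
  | low s h _ => exact h
  | base s h _ => exact h
  | aoki p a hp hp2 hpm ha => exact isTate_aoki hp hp2 hpm ha
  | join s t _ _ hs ht => exact hs.add ht
  | cut s b hb _ ih =>
    rw [isTate_iff] at ih ⊢
    rw [oddPart_add, oddPart_pair, add_zero, Multiset.card_add] at ih
    refine ⟨fun h => ih.1 (Multiset.mem_add.mpr (Or.inl h)), ?_, ih.2.2⟩
    have h2 : Even ({b, -b} : Multiset (ZMod m)).card := ⟨1, rfl⟩
    exact (Nat.even_add.mp ih.2.1).mpr h2

theorem IsAlgG.neg (hG : ∀ s, G s → G (s.map fun x => -x)) {s : Multiset (ZMod m)}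
    (h : IsAlgG G s) : IsAlgG G (s.map fun x => -x) := by
  induction h with
  | low s h hc => exact IsAlgG.low _ h.neg (by rwa [Multiset.card_map])
  | base s h hc => exact IsAlgG.base _ h.neg (hG s hc)
  | aoki p a hp hp2 hpm ha =>
    have h1 := IsAlgG.aoki (G := G) p (-a) hp hp2 hpm (by rw [mul_neg]; exact neg_ne_zero.mpr ha)
    have h2 : (Multiset.map (fun x => -x)
        ((univ.filter fun x : ZMod m => (p : ZMod m) * x = (p : ZMod m) * a).val
        + {-((p : ZMod m) * a)}))
        = (univ.filter fun x : ZMod m => (p : ZMod m) * x = (p : ZMod m) * -a).val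
        + {-((p : ZMod m) * -a)} := by
      rw [Multiset.map_add, Multiset.map_singleton]
      have h3 := fib_neg p ((p : ZMod m) * a)
      unfold fib at h3
      rw [h3, mul_neg]
    rw [h2]
    exact h1
  | join s t _ _ hs ht => rw [Multiset.map_add]; exact IsAlgG.join _ _ hs ht
  | cut s b hb _ ih =>
    rw [Multiset.map_add] at ih
    exact IsAlgG.cut _ (-b) (neg_ne_zero.mpr hb) ih

lemma exists_reducedG : ∀ (n : ℕ) (s : Multiset (ZMod m)), s.card = n → (0 : ZMod m) ∉ s →
    ∃ (s' : Multiset (ZMod m)), (0 : ZMod m) ∉ s' ∧ Even (s.card + s'.card) ∧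
      oddPart s' = oddPart s ∧ (∀ b, ¬ (({b, -b} : Multiset (ZMod m)) ≤ s')) ∧
      (IsAlgG G s ↔ IsAlgG G s') := by
  intro n
  induction n using Nat.strong_induction_on with
  | _ n ih =>
    intro s hs h0
    by_cases h : ∃ b, ({b, -b} : Multiset (ZMod m)) ≤ s
    · obtain ⟨b, hb⟩ := h
      obtain ⟨u, hu⟩ := Multiset.le_iff_exists_add.mp hb
      have hbs : b ∈ s := Multiset.subset_of_le hb (by simp)
      have hb0 : b ≠ 0 := fun h => h0 (h ▸ hbs)
      have hc : s.card = 2 + u.card := by
        rw [hu, Multiset.card_add]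
        rfl
      have hu0 : (0 : ZMod m) ∉ u := by
        intro h
        apply h0
        rw [hu]
        exact Multiset.mem_add.mpr (Or.inr h)
      obtain ⟨s', h1, h2, h3, h4, h5⟩ := ih u.card (by omega) u rfl hu0
      refine ⟨s', h1, ?_, ?_, h4, ?_⟩
      · rw [hc]
        have : 2 + u.card + s'.card = 2 + (u.card + s'.card) := by ring
        rw [this]
        exact even_two.add h2
      · rw [h3, hu, oddPart_add, oddPart_pair, zero_add]
      · rw [← h5, hu]
        constructor
        · intro h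
          rw [add_comm] at h
          exact IsAlgG.cut _ b hb0 h
        · intro h
          exact IsAlgG.join _ _ (IsAlgG.low _ (isTate_pair hb0) (by
            show (2 : ℕ) ≤ 4
            norm_num)) h
    · push Not at h
      exact ⟨s, h0, ⟨s.card, rfl⟩, rfl, h, Iff.rfl⟩

/-- Being in the class depends only on the odd part. -/
theorem isAlgG_of_oddPart_eq {s t : Multiset (ZMod m)} (hs0 : (0 : ZMod m) ∉ s)
    (hs : Even s.card) (ht : IsAlgG G t) (h : oddPart s = oddPart t) : IsAlgG G s := by
  have htT := isTate_iff.mp ht.isTate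
  obtain ⟨s', h1, h2, h3, h4, h5⟩ := exists_reducedG (G := G) s.card s rfl hs0
  obtain ⟨t', g1, g2, g3, g4, g5⟩ := exists_reducedG (G := G) t.card t rfl htT.1
  have hst : s' = t' := by
    apply reduced_unique h1 g1 ?_ ?_ h4 g4
    · have e1 : Even s'.card := (Nat.even_add.mp h2).mp hs
      have e2 : Even t'.card := (Nat.even_add.mp g2).mp htT.2.1
      exact e1.add e2
    · rw [h3, g3, h]
  rw [h5, hst, ← g5]
  exact ht

/-- the group of odd parts of characters in the class -/
def algSubG (G : Multiset (ZMod m) → Prop) (hG : ∀ s, G s → G (s.map fun x => -x)) :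
    AddSubgroup (ZMod m → ℤ) where
  carrier := {F | ∃ s : Multiset (ZMod m), IsAlgG G s ∧ F = oddPart s}
  zero_mem' := ⟨0, IsAlgG.low 0 isTate_zero (by simp), oddPart_zero.symm⟩
  add_mem' := by
    rintro _ _ ⟨s, hs, rfl⟩ ⟨t, ht, rfl⟩
    exact ⟨s + t, IsAlgG.join _ _ hs ht, (oddPart_add s t).symm⟩
  neg_mem' := by
    rintro _ ⟨s, hs, rfl⟩
    exact ⟨_, hs.neg hG, (oddPart_neg s).symm⟩

lemma algSub_le_algSubG (hG : ∀ s, G s → G (s.map fun x => -x)) : algSub m ≤ algSubG G hG := by
  rintro F ⟨s, hs, rfl⟩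
  exact ⟨s, IsAlgG.of_isAlg hs, rfl⟩

/-- A Tate character is in the class as soon as its odd part is in the group. -/
theorem isAlgG_iff_mem (hG : ∀ s, G s → G (s.map fun x => -x)) {s : Multiset (ZMod m)}
    (hs : IsTate s) : IsAlgG G s ↔ oddPart s ∈ algSubG G hG := by
  constructor
  · intro h
    exact ⟨s, h, rfl⟩
  · rintro ⟨t, ht, h⟩
    have := isTate_iff.mp hs
    exact isAlgG_of_oddPart_eq this.1 this.2.1 ht h

/-- odd parts of the basic Tate characters -/
def YY (G : Multiset (ZMod m) → Prop) : AddSubgroup (ZMod m → ℤ) :=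
  AddSubgroup.closure
    {h | ∃ r : Multiset (ZMod m), IsTate r ∧ (r.card = 4 ∨ G r) ∧ h = oddPart r}

/-- A Tate character is in the class as soon as its odd part is a combination of relations and
of odd parts of basic characters. -/
theorem isAlgG_of_mem (hG : ∀ s, G s → G (s.map fun x => -x)) {s : Multiset (ZMod m)}
    (hs : IsTate s) (h : oddPart s ∈ YY G ⊔ relSub m) : IsAlgG G s := by
  rw [isAlgG_iff_mem hG hs]
  have h1 : YY G ≤ algSubG G hG := by
    unfold YY
    rw [AddSubgroup.closure_le]
    rintro _ ⟨r, hr, hc | hc, rfl⟩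
    · exact ⟨r, IsAlgG.low r hr (by omega), rfl⟩
    · exact ⟨r, IsAlgG.base r hr hc, rfl⟩
  exact (sup_le h1 (relSub_le.trans (algSub_le_algSubG hG))) h

end Pool.Agent.Lib.MP_938ce2_ag_h99
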