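import Pool.Agent.Lib.MP_938ce2_ag_H7e.SplitQ

/-!
Dropping the elements whose order is divisible by a large prime.
-/

set_option autoImplicit false
set_option linter.style.haveILetI false
set_option linter.unusedSectionVars false

open Finset

namespace Pool.Agent.Lib.MP_938ce2_ag_h99

variable {m : ℕ} [NeZero m]

/-- one prime -/
theorem drop_one {q : ℕ} (hq : q.Prime) (F : ZMod m → ℤ) (hodd : OddF F) (hT : TateF F)
    (hn : 3 * ∑ a, |F a| < (q : ℤ) - 1) :
    ∃ F0 : ZMod m → ℤ, F - F0 ∈ relSub m ∧ OddF F0 ∧ TateF F0 ∧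
      ∀ a, F0 a ≠ 0 → F0 a = F a ∧ ¬ q ∣ addOrderOf a := by
  classical
  have hm0 : m ≠ 0 := NeZero.ne m
  by_cases hqm : q ∣ m
  · set F1 : ZMod m → ℤ := fun a => if q ∣ addOrderOf a then F a else 0 with hF1
    set F0 : ZMod m → ℤ := fun a => if q ∣ addOrderOf a then 0 else F a with hF0
    have hsum : F0 + F1 = F := by
      funext a
      simp only [hF0, hF1, Pi.add_apply]
      split_ifs <;> ring
    have ho1 : OddF F1 := by
      intro a
      simp only [hF1, addOrderOf_neg]
      split_ifs
      · exact hodd a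
      · ring
    have ho0 : OddF F0 := by
      intro a
      simp only [hF0, addOrderOf_neg]
      split_ifs
      · ring
      · exact hodd a
    set K := m.factorization q with hK
    set n := m / q ^ K with hn'
    have hmn : m = q ^ K * n := (Nat.ordProj_mul_ordCompl_eq_self m q).symm
    have hK0 : K ≠ 0 := by
      have := (hq.dvd_iff_one_le_factorization hm0).mp hqm
      omega
    have hcop : Nat.Coprime q n := Nat.coprime_ordCompl hq hm0
    have hn0 : n ≠ 0 := by
      intro h
      rw [h, mul_zero] at hmn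
      exact hm0 hmn
    have hD : Pool.Agent.Lib.MP_938ce2_ag_H7e.Dat m (q ^ K) n q :=
      ⟨hmn, hq, ⟨K, hK0, rfl⟩, hcop.pow_left K, hn0⟩
    have hle : ∑ a, |F1 a| ≤ ∑ a, |F a| := by
      apply sum_le_sum
      intro a _
      simp only [hF1]
      split_ifs
      · exact le_refl _
      · rw [abs_zero]; exact abs_nonneg _
    have hmem : F1 ∈ relSub m := by
      refine Pool.Agent.Lib.MP_938ce2_ag_H7e.split_q hD (k0 := 0) (e := 1) rfl le_rfl (F0 := F0)
        ho1 (hsum.symm ▸ hT) ?_ ?_ ?_
      · intro a ha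
        have h1 : ¬ q ∣ addOrderOf a := by
          intro h
          apply ha
          simp only [hF0]
          rw [if_pos h]
        rw [pow_zero, one_mul]
        have h2 : addOrderOf a ∣ q ^ K * n := (addOrderOf_dvd_m a).trans (dvd_of_eq hmn)
        have h3 : Nat.Coprime (addOrderOf a) (q ^ K) :=
          ((Nat.Prime.coprime_iff_not_dvd hq).mpr h1).symm.pow_right K
        exact h3.dvd_of_dvd_mul_left h2
      · intro a ha
        rw [zero_add, pow_one]
        by_contra h
        apply ha
        simp only [hF1]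
        rw [if_neg h]
      · rw [pow_one, Nat.totient_prime hq, Nat.cast_sub hq.one_lt.le, Nat.cast_one]
        linarith
    refine ⟨F0, ?_, ho0, ?_, ?_⟩
    · have : F - F0 = F1 := by rw [← hsum]; abel
      rw [this]
      exact hmem
    · intro t
      have h1 := hT t
      have h2 := TateF_of_mem_relSub hmem t
      rw [← hsum] at h1
      simp only [Pi.add_apply, add_mul, sum_add_distrib] at h1
      linarith
    · intro a ha
      simp only [hF0] at ha ⊢
      split_ifs at ha ⊢ with h
      · exact absurd rfl ha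
      · exact ⟨rfl, h⟩
  · refine ⟨F, ?_, hodd, hT, fun a _ => ⟨rfl, fun h => hqm (h.trans (addOrderOf_dvd_m a))⟩⟩
    rw [sub_self]
    exact (relSub m).zero_mem

/-- all primes of a finite set -/
theorem drop_all (B : Finset ℕ) (hB : ∀ q ∈ B, q.Prime) (F : ZMod m → ℤ) (hodd : OddF F)
    (hT : TateF F) (hn : ∀ q ∈ B, 3 * ∑ a, |F a| < (q : ℤ) - 1) :
    ∃ F0 : ZMod m → ℤ, F - F0 ∈ relSub m ∧ OddF F0 ∧ TateF F0 ∧
      ∀ a, F0 a ≠ 0 → F0 a = F a ∧ ∀ q ∈ B, ¬ q ∣ addOrderOf a := by
  classical
  induction B using Finset.induction_on with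
  | empty =>
    refine ⟨F, ?_, hodd, hT, fun a _ => ⟨rfl, fun q hq => absurd hq (notMem_empty q)⟩⟩
    rw [sub_self]
    exact (relSub m).zero_mem
  | insert q B hqB ih =>
    obtain ⟨F', h1, h2, h3, h4⟩ := ih (fun q hq => hB q (mem_insert_of_mem hq))
      (fun q hq => hn q (mem_insert_of_mem hq))
    have hle : ∑ a, |F' a| ≤ ∑ a, |F a| := by
      apply sum_le_sum
      intro a _
      by_cases ha : F' a = 0
      · rw [ha, abs_zero]; exact abs_nonneg _
      · rw [(h4 a ha).1]
    obtain ⟨F0, e1, e2, e3, e4⟩ := drop_one (hB q (mem_insert_self q B)) F' h2 h3 (by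
      have := hn q (mem_insert_self q B)
      linarith)
    refine ⟨F0, ?_, e2, e3, ?_⟩
    · have : F - F0 = (F - F') + (F' - F0) := by abel
      rw [this]
      exact (relSub m).add_mem h1 e1
    · intro a ha
      obtain ⟨i1, i2⟩ := e4 a ha
      have i3 : F' a ≠ 0 := by rw [← i1]; exact ha
      obtain ⟨i4, i5⟩ := h4 a i3
      refine ⟨i1.trans i4, fun r hr => ?_⟩
      rcases mem_insert.mp hr with rfl | hr
      · exact i2
      · exact i5 r hr

end Pool.Agent.Lib.MP_938ce2_ag_h99
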