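import Pool.Agent.Lib.MP_938ce2_ag_H7f.StepGen
import Pool.Agent.Lib.MP_938ce2_ag_H7f.Reduce
import Pool.Agent.Lib.MP_938ce2_ag_H7f.RefData

/-!
Removing the large primes from a function of small norm.
-/

set_option autoImplicit false
set_option linter.style.haveILetI false
set_option linter.unusedSectionVars false

open Finset

namespace Pool.Agent.Lib.MP_938ce2_ag_h99

open Pool.Agent.Lib.MP_938ce2_ag_H7f Pool.Agent.Lib.MP_938ce2_ag_H7e

variable {m Q n q : ℕ} [NeZero m] {K : ℕ} {Y : AddSubgroup (ZMod m → ℤ)}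

/-- a prime is removed with the help of a reference function -/
theorem step_ref4 (hD : Dat m Q n q) [NeZero n] (hQ : Q = q ^ K) (h2Q : 2 < Q) {F A : ZMod m → ℤ}
    {b : ZMod n} {N0 : ℤ} (ho : OddF F) (hT : TateF F) (hA : Ref hD K Y b N0 A)
    (hb : ∀ t : (ZMod n)ˣ, PH (push hD (upF Q q K (part1 q F))) t = Q.totient * W t b) :
    ∃ F' : ZMod m → ℤ, F - F' - A ∈ relSub m ∧ OddF F' ∧ TateF F' ∧
      (∀ a, F' a ≠ 0 → ¬ q ∣ addOrderOf a ∧ (F a ≠ 0 ∨ part0 q A a ≠ 0)) ∧
      ∑ a, |F' a| ≤ ∑ a, |part0 q F a| + N0 := by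
  set D : ZMod m → ℤ := part1 q F - part1 q A with hDdef
  have hDodd : OddF D := OddF.sub (part1_odd ho) (part1_odd hA.odd)
  have hDs : ∀ a, D a ≠ 0 → q ∣ addOrderOf a := by
    intro a ha
    by_contra hc
    apply ha
    rw [hDdef, Pi.sub_apply]
    unfold part1
    rw [if_neg hc, if_neg hc, sub_zero]
  have hcoreF := core hD hQ (part1_odd ho) (F0 := part0 q F) (F1 := part1 q F)
    (by rw [part_add]; exact hT) (fun a ha => dvd_n_of_not_dvd hD (part0_supp ha).1)
    (fun a ha => (part1_supp ha).1)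
  have hcoreA := core hD hQ (part1_odd hA.odd) (F0 := part0 q A) (F1 := part1 q A)
    (by rw [part_add]; exact hA.tate) (fun a ha => dvd_n_of_not_dvd hD (part0_supp ha).1)
    (fun a ha => (part1_supp ha).1)
  have hS : SInv Q (upF Q q K D) := by
    rw [hDdef, upF_sub, sub_eq_add_neg]
    exact hcoreF.1.add hcoreA.1.neg
  have hodd : OddF (upF Q q K D) := upF_odd hDodd
  have hP : TateF (push hD (upF Q q K D)) := by
    intro t
    have h1 : PH (push hD (upF Q q K D)) t = 0 := by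
      have h2 : upF Q q K D = upF Q q K (part1 q F) + (-(upF Q q K (part1 q A))) := by
        rw [hDdef, upF_sub, sub_eq_add_neg]
      have h3 : push hD (-(upF Q q K (part1 q A))) = - push hD (upF Q q K (part1 q A)) := by
        have h4 := push_sub hD (0 : ZMod m → ℤ) (upF Q q K (part1 q A))
        have h5 : push hD (0 : ZMod m → ℤ) = 0 := by
          have := push_sub hD (0 : ZMod m → ℤ) 0
          rw [sub_self, sub_self] at this
          exact this
        rw [zero_sub, h5, zero_sub] at h4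
        exact h4
      rw [h2, push_add, h3, PH_add, PH_neg, hb, hA.psh]
      ring
    rw [PH_odd (push_odd hD hodd)] at h1
    have h2 : SS (push hD (upF Q q K D)) t = 0 := by linarith
    exact h2
  have hmem : upF Q q K D ∈ relSub m :=
    peel2_aux hD h2Q m _ hodd hS hP upF_supp
      (fun a _ => Nat.le_of_dvd (Nat.pos_of_ne_zero (NeZero.ne m)) (addOrderOf_dvd_m a))
  have hmem2 : upF Q q K D - D ∈ relSub m := upF_sub_mem hD hQ hDodd hDs
  have hDmem : D ∈ relSub m := by
    have := (relSub m).sub_mem hmem hmem2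
    rwa [sub_sub_cancel] at this
  have e1 := part_add (q := q) F
  have e2 := part_add (q := q) A
  refine ⟨part0 q F - part0 q A, ?_, OddF.sub (part0_odd ho) (part0_odd hA.odd), ?_, ?_, ?_⟩
  · have h1 : F - (part0 q F - part0 q A) - A = D := by
      rw [hDdef]
      funext a
      have e1' := congrFun e1 a
      have e2' := congrFun e2 a
      simp only [Pi.sub_apply, Pi.add_apply] at *
      linarith
    rw [h1]
    exact hDmem
  · have h1 : part0 q F - part0 q A = (F - A) - D := by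
      rw [hDdef]
      funext a
      have e1' := congrFun e1 a
      have e2' := congrFun e2 a
      simp only [Pi.sub_apply, Pi.add_apply] at *
      linarith
    rw [h1]
    exact (hT.sub hA.tate).sub (TateF_of_mem_relSub hDmem)
  · intro a ha
    constructor
    · intro hc
      apply ha
      rw [Pi.sub_apply]
      unfold part0
      rw [if_pos hc, if_pos hc, sub_zero]
    · by_cases h : part0 q F a = 0
      · right
        intro h0
        apply ha
        rw [Pi.sub_apply, h, h0, sub_zero]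
      · left
        exact (part0_supp h).2
  · have h3 : ∑ a, |(part0 q F - part0 q A) a| ≤ ∑ a, |part0 q F a| + ∑ a, |part0 q A a| := by
      rw [← sum_add_distrib]
      exact sum_le_sum fun a _ => abs_sub _ _
    linarith [hA.norm]

/-- reference functions for the points of order three, with small support prime to `q` -/
def Ref3 (m : ℕ) [NeZero m] (X : AddSubgroup (ZMod m → ℤ)) (q : ℕ) : Prop :=
  ∀ (Q n K : ℕ) (hD : Dat m Q n q) [NeZero n], Q = q ^ K → ∀ b : ZMod n, addOrderOf b = 3 →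
    ∃ A N0, Ref hD K X b N0 A ∧ 2 * N0 ≤ q - 1 ∧ ∀ a, part0 q A a ≠ 0 → addOrderOf a ∣ 6

/-- one large prime is removed -/
theorem drop_one4 (X : AddSubgroup (ZMod m → ℤ)) (h2 : 2 ∣ m) {q : ℕ} (hq : q.Prime) {N : ℤ}
    (hNq : N < q - 1) (hq4 : 4 ≤ q) {F : ZMod m → ℤ} (ho : OddF F) (hT : TateF F)
    (hN : ∑ a, |F a| ≤ N) {m0 : ℕ} (hs : ∀ a, F a ≠ 0 → addOrderOf a ∣ m0)
    (hR : 3 ∣ m0 → q ∣ m → (q : ℤ) - 1 ≤ 2 * N → Ref3 m X q) :
    ∃ F' : ZMod m → ℤ, F - F' ∈ X ⊔ relSub m ∧ OddF F' ∧ TateF F' ∧ ∑ a, |F' a| ≤ N ∧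
      ∀ a, F' a ≠ 0 → ¬ q ∣ addOrderOf a ∧ (F a ≠ 0 ∨ 3 ∣ m0 ∧ addOrderOf a ∣ 6) := by
  by_cases hqm : q ∣ m
  swap
  · refine ⟨F, ?_, ho, hT, hN, fun a ha => ⟨fun h => hqm (h.trans (addOrderOf_dvd_m a)), Or.inl ha⟩⟩
    rw [sub_self]
    exact (X ⊔ relSub m).zero_mem
  obtain ⟨Q, n, K, hD, hQ, hn⟩ := exists_Dat (m := m) hq hqm
  have h2Q : 2 < Q := by
    obtain ⟨k, hk, hQ'⟩ := hD.hQ
    have h1 : q ^ 1 ≤ q ^ k := Nat.pow_le_pow_right hD.hq.pos (by omega)
    rw [pow_one] at h1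
    rw [hQ']
    omega
  have h2n : 2 ∣ n := by
    have h3 : Nat.Coprime 2 Q := by
      rw [hQ]
      apply Nat.Coprime.pow_right
      rw [Nat.coprime_primes Nat.prime_two hq]
      omega
    exact h3.dvd_of_dvd_mul_left (h2.trans (dvd_of_eq hD.hm))
  have hpn := part_norm (q := q) F
  have hp0 : 0 ≤ ∑ a, |part0 q F a| := sum_nonneg fun _ _ => abs_nonneg _
  have hpa := part_add (q := q) F
  rcases step_gen hD hQ h2Q h2n ho hT (by linarith) with h | ⟨b, hb3, hb1, hb⟩
  · refine ⟨part0 q F, ?_, part0_odd ho, ?_, ?_, ?_⟩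
    · have h1 : F - part0 q F = part1 q F := by
        funext a
        have e := congrFun hpa a
        simp only [Pi.sub_apply, Pi.add_apply] at *
        linarith
      rw [h1]
      exact AddSubgroup.mem_sup_right h
    · have h1 : part0 q F = F - part1 q F := by
        funext a
        have e := congrFun hpa a
        simp only [Pi.sub_apply, Pi.add_apply] at *
        linarith
      rw [h1]
      exact hT.sub (TateF_of_mem_relSub h)
    · have hp1 : 0 ≤ ∑ a, |part1 q F a| := sum_nonneg fun _ _ => abs_nonneg _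
      linarith
    · intro a ha
      exact ⟨(part0_supp ha).1, Or.inl (part0_supp ha).2⟩
  · have h3m0 : 3 ∣ m0 := by
      by_contra h3
      exact no_prime hD hb hs Nat.prime_three (by norm_num) (by omega) h3 (by rw [hb3])
    obtain ⟨A, N0, hA, hN0, hA6⟩ := hR h3m0 hqm (by linarith) Q n K hD hQ b hb3
    obtain ⟨F', g1, g2, g3, g4, g5⟩ := step_ref4 hD hQ h2Q ho hT hA hb
    refine ⟨F', ?_, g2, g3, ?_, ?_⟩
    · have h1 : F - F' = A + (F - F' - A) := by abel
      rw [h1]
      exact AddSubgroup.add_mem_sup hA.mem g1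
    · linarith
    · intro a ha
      obtain ⟨g6, g7⟩ := g4 a ha
      exact ⟨g6, g7.imp_right fun h => ⟨h3m0, hA6 a h⟩⟩

/-- all large primes are removed -/
theorem drop_all4 (X : AddSubgroup (ZMod m → ℤ)) (h2 : 2 ∣ m) {N : ℤ} {m0 : ℕ}
    (h6 : 3 ∣ m0 → 6 ∣ m0) (B : Finset ℕ) :
    (∀ q ∈ B, q.Prime ∧ 4 ≤ q ∧ N < q - 1 ∧
      (3 ∣ m0 → q ∣ m → (q : ℤ) - 1 ≤ 2 * N → Ref3 m X q)) →
    ∀ F : ZMod m → ℤ, OddF F → TateF F → ∑ a, |F a| ≤ N → (∀ a, F a ≠ 0 → addOrderOf a ∣ m0) →
    ∃ F' : ZMod m → ℤ, F - F' ∈ X ⊔ relSub m ∧ OddF F' ∧ TateF F' ∧ ∑ a, |F' a| ≤ N ∧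
      ∀ a, F' a ≠ 0 → (F a ≠ 0 ∨ 3 ∣ m0 ∧ addOrderOf a ∣ 6) ∧ ∀ q ∈ B, ¬ q ∣ addOrderOf a := by
  classical
  induction B using Finset.induction_on with
  | empty =>
    intro _ F ho hT hN hs
    refine ⟨F, ?_, ho, hT, hN, fun a ha => ⟨Or.inl ha, by simp⟩⟩
    rw [sub_self]
    exact (X ⊔ relSub m).zero_mem
  | insert q B hqB ih =>
    intro hB F ho hT hN hs
    obtain ⟨hq, hq4, hNq, hR⟩ := hB q (mem_insert_self q B)
    obtain ⟨F1, h1, h2', h3, h4, h5⟩ := drop_one4 X h2 hq hNq hq4 ho hT hN hs hR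
    have hs1 : ∀ a, F1 a ≠ 0 → addOrderOf a ∣ m0 := by
      intro a ha
      rcases (h5 a ha).2 with h | ⟨h, h'⟩
      · exact hs a h
      · exact h'.trans (h6 h)
    obtain ⟨F2, g1, g2, g3, g4, g5⟩ := ih (fun p hp => hB p (mem_insert_of_mem hp)) F1 h2' h3 h4 hs1
    refine ⟨F2, ?_, g2, g3, g4, ?_⟩
    · have e : F - F2 = (F - F1) + (F1 - F2) := by abel
      rw [e]
      exact (X ⊔ relSub m).add_mem h1 g1
    · intro a ha
      obtain ⟨k1, k2⟩ := g5 a ha
      rcases k1 with k1 | k1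
      · obtain ⟨k3, k4⟩ := h5 a k1
        refine ⟨k4, ?_⟩
        intro p hp
        rcases mem_insert.mp hp with rfl | hp
        · exact k3
        · exact k2 p hp
      · refine ⟨Or.inr k1, ?_⟩
        intro p hp
        rcases mem_insert.mp hp with rfl | hp
        · intro hpa
          have h7 := Nat.le_of_dvd (by norm_num) (hpa.trans k1.2)
          have h8 : p ∣ 6 := hpa.trans k1.2
          interval_cases p <;> first | omega | exact absurd hq (by norm_num)
        · exact k2 p hp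

end Pool.Agent.Lib.MP_938ce2_ag_h99
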