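import Pool.Agent.Lib.MP_938ce2_ag_h99.Smooth
import Pool.Agent.Lib.MP_938ce2_ag_h6.Lift

/-!
The exceptional surface classes of small degree.
-/

set_option autoImplicit false
set_option linter.style.haveILetI false
set_option linter.unusedSectionVars false

open Finset

namespace Pool.Agent.Lib.MP_938ce2_ag_h99

open Pool.Agent.Lib.MP_938ce2_ag_h6

variable {m : ℕ} [NeZero m]

/-- odd parts of Tate characters of Fermat surfaces -/
def XX (m : ℕ) [NeZero m] : AddSubgroup (ZMod m → ℤ) :=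
  AddSubgroup.closure {h | ∃ r : Multiset (ZMod m), IsTate r ∧ r.card = 4 ∧ h = oddPart r}

lemma exc_of_quad {f p q n : ℕ} [NeZero f] (hf : f ∣ m) (hn : f ∣ n) (L : List ℕ)
    (hL : L.length = 4)
    (hT : IsTate (quad hf L)) (c1 c2 : (ZMod f)ˣ) (hc1 : c1 ∈ Kp f p) (hc2 : c2 ∈ Kp f q)
    (hc : -1 = c1 * c2)
    (hpar : Odd (oddPart (↑(L.map (Nat.cast : ℕ → ZMod f)) : Multiset (ZMod f)) 1 +
      oddPart (↑(L.map (Nat.cast : ℕ → ZMod f)) : Multiset (ZMod f)) (c2 : ZMod f))) :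
    Exc (· ∣ n) (XX m) f p q hf := by
  refine ⟨c1, c2, oddPart (quad hf L), hc1, hc2, hc, ?_, oddPart_odd _, (isTate_iff.mp hT).2.2,
    ?_, ?_⟩
  · apply AddSubgroup.mem_sup_left
    apply AddSubgroup.subset_closure
    exact ⟨_, hT, by rw [card_quad, hL], rfl⟩
  · intro a ha
    by_cases hy : ∃ y, jj hf y = a
    · obtain ⟨y, rfl⟩ := hy
      have h1 : addOrderOf (jj hf y) ∣ f := by
        rw [addOrderOf_jj]
        exact addOrderOf_dvd_m y
      exact ⟨Nat.le_of_dvd (Nat.pos_of_ne_zero (NeZero.ne f)) h1, h1.trans hn⟩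
    · push Not at hy
      exact absurd (oddPart_lift_of_forall_ne hf _ hy) ha
  · have h1 : oddPart (quad hf L) (jj hf 1)
        = oddPart (↑(L.map (Nat.cast : ℕ → ZMod f)) : Multiset (ZMod f)) 1 :=
      oddPart_lift_apply hf _ _
    have h2 : oddPart (quad hf L) (jj hf (c2 : ZMod f))
        = oddPart (↑(L.map (Nat.cast : ℕ → ZMod f)) : Multiset (ZMod f)) (c2 : ZMod f) :=
      oddPart_lift_apply hf _ _
    rw [h1, h2]
    exact hpar

/-- explicit units -/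
def mkU (f a b : ℕ) (h : ((a : ZMod f) * (b : ZMod f)) = 1) : (ZMod f)ˣ :=
  ⟨(a : ZMod f), (b : ZMod f), h, by rw [mul_comm]; exact h⟩

lemma exc12 {n : ℕ} (hf : 12 ∣ m) (hn : 12 ∣ n) : Exc (· ∣ n) (XX m) 12 2 3 hf :=
  exc_of_quad hf hn [1, 4, 9, 10] rfl (isTate_12 hf) (mkU 12 7 7 (by decide))
    (mkU 12 5 5 (by decide)) (by rw [mem_Kp]; decide) (by rw [mem_Kp]; decide)
    (by apply Units.ext; decide) (by decide)

lemma exc15 {n : ℕ} (hf : 15 ∣ m) (hn : 15 ∣ n) : Exc (· ∣ n) (XX m) 15 3 5 hf :=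
  exc_of_quad hf hn [1, 6, 10, 13] rfl (isTate_15 hf) (mkU 15 11 11 (by decide))
    (mkU 15 4 4 (by decide)) (by rw [mem_Kp]; decide) (by rw [mem_Kp]; decide)
    (by apply Units.ext; decide) (by decide)

lemma exc20 {n : ℕ} (hf : 20 ∣ m) (hn : 20 ∣ n) : Exc (· ∣ n) (XX m) 20 2 5 hf :=
  exc_of_quad hf hn [1, 4, 17, 18] rfl (isTate_20 hf) (mkU 20 11 11 (by decide))
    (mkU 20 9 9 (by decide)) (by rw [mem_Kp]; decide) (by rw [mem_Kp]; decide)
    (by apply Units.ext; decide) (by decide)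

lemma exc21 {n : ℕ} (hf : 21 ∣ m) (hn : 21 ∣ n) : Exc (· ∣ n) (XX m) 21 3 7 hf :=
  exc_of_quad hf hn [1, 4, 18, 19] rfl (isTate_21 hf) (mkU 21 8 8 (by decide))
    (mkU 21 13 13 (by decide)) (by rw [mem_Kp]; decide) (by rw [mem_Kp]; decide)
    (by apply Units.ext; decide) (by decide)

lemma exc28 {n : ℕ} (hf : 28 ∣ m) (hn : 28 ∣ n) : Exc (· ∣ n) (XX m) 28 2 7 hf :=
  exc_of_quad hf hn [1, 9, 21, 25] rfl (isTate_28 hf) (mkU 28 15 15 (by decide))
    (mkU 28 13 13 (by decide)) (by rw [mem_Kp]; decide) (by rw [mem_Kp]; decide)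
    (by apply Units.ext; decide) (by decide)

lemma exists_of_smul {f : ℕ} (hf : f ∣ m) {a : ZMod m} (h1 : f • a = 0) :
    ∃ y : ZMod f, jj hf y = a := by
  have hm : 0 < m := Nat.pos_of_ne_zero (NeZero.ne m)
  have hfp : 0 < f := Nat.pos_of_ne_zero (f_ne_zero hf)
  rw [nsmul_eq_mul, ← ZMod.natCast_zmod_val a, ← Nat.cast_mul, ZMod.natCast_eq_zero_iff] at h1
  have h2 : m / f ∣ a.val := by
    have h3 : f * (m / f) ∣ f * a.val := by rwa [Nat.mul_div_cancel' hf]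
    exact Nat.dvd_of_mul_dvd_mul_left hfp h3
  obtain ⟨k, hk⟩ := h2
  exact ⟨(k : ZMod f), by rw [jj_natCast, ← hk, ZMod.natCast_zmod_val]⟩

lemma rel_od_mem_relSub {p : ℕ} (hp : p.Prime) (hpm : p ∣ m) (a : ZMod m) :
    rel p (od ((p : ZMod m) * a)) ∈ relSub m := by
  apply AddSubgroup.subset_closure
  refine ⟨p, _, hp, hpm, od_odd _, ?_, rfl⟩
  intro x hx
  unfold od at hx
  by_cases h1 : x = (p : ZMod m) * a
  · exact ⟨a, h1⟩
  · by_cases h2 : x = -((p : ZMod m) * a)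
    · exact ⟨-a, by rw [h2, mul_neg]⟩
    · rw [if_neg h1, if_neg h2] at hx
      exact absurd rfl hx

lemma od_jj {f : ℕ} (hf : f ∣ m) (b y : ZMod f) : od (jj hf b) (jj hf y) = od b y := by
  unfold od
  have h1 : (jj hf y = jj hf b) ↔ (y = b) := (jj_injective hf).eq_iff
  have h2 : (jj hf y = -jj hf b) ↔ (y = -b) := by
    rw [← map_neg]
    exact (jj_injective hf).eq_iff
  simp only [h1, h2]

/-- the correction of an exceptional class by two relations at the prime two -/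
def EE (f : ℕ) [NeZero f] (L : List ℕ) (a b : ZMod f) : ZMod f → ℤ := fun y =>
  oddPart (↑(L.map (Nat.cast : ℕ → ZMod f)) : Multiset (ZMod f)) y
    - (od (((2 : ℕ) : ZMod f) * a) (((2 : ℕ) : ZMod f) * y) - od (((2 : ℕ) : ZMod f) * a) y)
    - (od (((2 : ℕ) : ZMod f) * b) (((2 : ℕ) : ZMod f) * y) - od (((2 : ℕ) : ZMod f) * b) y)

lemma rel_od_off {f : ℕ} (hf : f ∣ m) (h2 : 2 ∣ f) (a : ZMod f) {x : ZMod m}
    (hx : ∀ y, jj hf y ≠ x) : rel 2 (od (((2 : ℕ) : ZMod m) * jj hf a)) x = 0 := by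
  have key : ∀ c : ZMod f, ((2 : ℕ) : ZMod m) * x ≠ ((2 : ℕ) : ZMod m) * jj hf c := by
    intro c hc
    have h3 : f • (x - jj hf c) = 0 := by
      have h4 : 2 • (x - jj hf c) = 0 := by
        rw [nsmul_eq_mul, mul_sub, hc, sub_self]
      have h5 : addOrderOf (x - jj hf c) ∣ f := (addOrderOf_dvd_of_nsmul_eq_zero h4).trans h2
      exact addOrderOf_dvd_iff_nsmul_eq_zero.mp h5
    obtain ⟨y, hy⟩ := exists_of_smul hf h3
    apply hx (y + c)
    rw [map_add, hy, sub_add_cancel]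
  have key2 : ∀ c : ZMod f, x ≠ ((2 : ℕ) : ZMod m) * jj hf c := by
    intro c hc
    rw [natCast_mul_jj] at hc
    exact hx _ hc.symm
  unfold rel od
  have e1 : -(((2 : ℕ) : ZMod m) * jj hf a) = ((2 : ℕ) : ZMod m) * jj hf (-a) := by
    rw [map_neg, mul_neg]
  rw [e1, if_neg (key a), if_neg (key (-a)), if_neg (key2 a), if_neg (key2 (-a))]
  ring

lemma exc_of_quad2 {f f0 p q n : ℕ} [NeZero f] [NeZero f0] (hf : f ∣ m) (hf0 : f0 ∣ m)
    (hff : f = 2 * f0) (hn : f ∣ n) (L : List ℕ)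
    (hL : L.length = 4) (hT : IsTate (quad hf L)) (a b : ZMod f)
    (hsup : ∀ y : ZMod f, EE f L a b y ≠ 0 → (f0 : ZMod f) * y = 0)
    (c1 c2 : (ZMod f0)ˣ) (hc1 : c1 ∈ Kp f0 p) (hc2 : c2 ∈ Kp f0 q)
    (hc : -1 = c1 * c2) (k : ℕ) (hk : (c2 : ZMod f0) = (k : ZMod f0))
    (hpar : Odd (EE f L a b ((2 : ℕ) : ZMod f) + EE f L a b ((2 * k : ℕ) : ZMod f))) :
    Exc (· ∣ n) (XX m) f0 p q hf0 := by
  have h2f : 2 ∣ f := ⟨f0, hff⟩
  have h2m : 2 ∣ m := h2f.trans hf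
  set E : ZMod m → ℤ := oddPart (quad hf L) - rel 2 (od (((2 : ℕ) : ZMod m) * jj hf a))
    - rel 2 (od (((2 : ℕ) : ZMod m) * jj hf b)) with hE
  have hEjj : ∀ y, E (jj hf y) = EE f L a b y := by
    intro y
    have h1 : oddPart (quad hf L) (jj hf y)
        = oddPart (↑(L.map (Nat.cast : ℕ → ZMod f)) : Multiset (ZMod f)) y :=
      oddPart_lift_apply hf _ _
    simp only [hE, Pi.sub_apply, h1, rel, EE, natCast_mul_jj, od_jj]
  have hEoff : ∀ x, (∀ y, jj hf y ≠ x) → E x = 0 := by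
    intro x hx
    have h1 : oddPart (quad hf L) x = 0 := oddPart_lift_of_forall_ne hf _ hx
    rw [hE, Pi.sub_apply, Pi.sub_apply, h1, rel_od_off hf h2f a hx, rel_od_off hf h2f b hx]
    ring
  have hr1 := rel_od_mem_relSub Nat.prime_two h2m (jj hf a)
  have hr2 := rel_od_mem_relSub Nat.prime_two h2m (jj hf b)
  have hjj0 : ∀ j : ℕ, jj hf0 (j : ZMod f0) = jj hf ((2 * j : ℕ) : ZMod f) := by
    intro j
    rw [jj_natCast, jj_natCast]
    congr 1
    have h3 : m / f * 2 = m / f0 := by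
      obtain ⟨e, he⟩ := hf
      have hfp : 0 < f0 := Nat.pos_of_ne_zero (NeZero.ne f0)
      rw [he, hff, Nat.mul_div_cancel_left e (by omega), mul_comm 2 f0, mul_assoc,
        Nat.mul_div_cancel_left _ hfp, mul_comm]
    rw [← h3]
    ring
  refine ⟨c1, c2, E, hc1, hc2, hc, ?_, ?_, ?_, ?_, ?_⟩
  · have h1 : oddPart (quad hf L) ∈ XX m ⊔ relSub m := by
      apply AddSubgroup.mem_sup_left
      apply AddSubgroup.subset_closure
      exact ⟨_, hT, by rw [card_quad, hL], rfl⟩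
    exact (XX m ⊔ relSub m).sub_mem ((XX m ⊔ relSub m).sub_mem h1
      (AddSubgroup.mem_sup_right hr1)) (AddSubgroup.mem_sup_right hr2)
  · exact ((oddPart_odd _).sub ((od_odd _).rel 2)).sub ((od_odd _).rel 2)
  · exact ((isTate_iff.mp hT).2.2.sub (TateF_of_mem_relSub hr1)).sub (TateF_of_mem_relSub hr2)
  · intro x hx
    by_cases hy : ∃ y, jj hf y = x
    · obtain ⟨y, rfl⟩ := hy
      rw [hEjj] at hx
      have h1 : addOrderOf (jj hf y) ∣ f0 := by
        rw [addOrderOf_jj]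
        apply addOrderOf_dvd_of_nsmul_eq_zero
        rw [nsmul_eq_mul]
        exact hsup y hx
      exact ⟨Nat.le_of_dvd (Nat.pos_of_ne_zero (NeZero.ne f0)) h1,
        h1.trans ((Dvd.intro_left 2 hff.symm).trans hn)⟩
    · push Not at hy
      exact absurd (hEoff x hy) hx
  · have h1 : jj hf0 (1 : ZMod f0) = jj hf ((2 : ℕ) : ZMod f) := by
      have := hjj0 1
      rw [Nat.cast_one, mul_one] at this
      exact this
    rw [h1, hk, hjj0, hEjj, hEjj]
    exact hpar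

lemma exc33 {n : ℕ} (hf : 66 ∣ m) (hf0 : 33 ∣ m) (hn : 66 ∣ n) :
    Exc (· ∣ n) (XX m) 33 3 11 hf0 :=
  exc_of_quad2 (f := 66) hf hf0 rfl hn [1, 25, 44, 62] rfl (isTate_66 hf) 1 25 (by decide)
    (mkU 33 23 23 (by decide)) (mkU 33 10 10 (by decide)) (by rw [mem_Kp]; decide)
    (by rw [mem_Kp]; decide) (by apply Units.ext; decide) 10 rfl (by decide)

lemma exc39 {n : ℕ} (hf : 78 ∣ m) (hf0 : 39 ∣ m) (hn : 78 ∣ n) :
    Exc (· ∣ n) (XX m) 39 3 13 hf0 :=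
  exc_of_quad2 (f := 78) hf hf0 rfl hn [1, 32, 61, 62] rfl (isTate_78 hf) 1 61 (by decide)
    (mkU 39 14 14 (by decide)) (mkU 39 25 25 (by decide)) (by rw [mem_Kp]; decide)
    (by rw [mem_Kp]; decide) (by apply Units.ext; decide) 25 rfl (by decide)

end Pool.Agent.Lib.MP_938ce2_ag_h99
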