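import Pool.Agent.Lib.MP_938ce2_ag_h99.Alg2

/-!
Characters carried by a uniruled fourfold: Delsarte complete intersections with negative canonical
class.
-/

set_option autoImplicit false
set_option linter.style.haveILetI false
set_option linter.unusedSectionVars false

open Finset

namespace Pool.Agent.Lib.MP_938ce2_ag_h99

open Pool.Agent.Lib.MP_938ce2_ag_h6

/-- `s` is the character of a product of `k` Fermat varieties of total dimension four (`k ≤ 2`),
one for each zero-sum block, whose cyclic quotient is dominated by the Delsarte complete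
intersection `∑_{i in block b} ∏_j X_j ^ μ j i = 0` in the weighted projective space with weights
`c`, of degrees `d b` with `∑ d b < ∑ c j`. -/
def Fano {m : ℕ} (s : Multiset (ZMod m)) : Prop :=
  ∃ (k : ℕ) (a : Fin (2 * k + 4) → ZMod m) (g : Fin (2 * k + 4) → Fin k)
    (μ : Fin (k + 5) → Fin (2 * k + 4) → ℕ) (c : Fin (k + 5) → ℕ) (d : Fin k → ℕ),
    k ≤ 2 ∧ s = univ.val.map a ∧ Function.Surjective g ∧ (∀ b, ∑ i with g i = b, a i = 0) ∧
    (∀ j, ∑ i, μ j i * a i = 0) ∧ (∀ j, 0 < c j) ∧ (∀ i, ∑ j, c j * μ j i = d (g i)) ∧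
    ∑ b, d b < ∑ j, c j ∧
    ∀ u : Fin (k + 5) → ℤ, (∀ i i', g i = g i' → ∑ j, u j * μ j i = ∑ j, u j * μ j i') →
      ∀ j j', c j * u j' = c j' * u j

lemma Fano.neg {m : ℕ} {s : Multiset (ZMod m)} (h : Fano s) : Fano (s.map fun x => -x) := by
  obtain ⟨k, a, g, μ, c, d, hk, hs, hg, h1, h2, h3, h4, h5, h6⟩ := h
  refine ⟨k, fun i => - a i, g, μ, c, d, hk, ?_, hg, ?_, ?_, h3, h4, h5, h6⟩
  · rw [hs, Multiset.map_map]
    rfl
  · intro b
    rw [sum_neg_distrib, h1, neg_zero]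
  · intro j
    simp only [mul_neg, sum_neg_distrib]
    rw [h2, neg_zero]

variable {m : ℕ} [NeZero m]

lemma fano_of_data {f : ℕ} [NeZero f] (hf : f ∣ m) (k : ℕ) (v : Fin (2 * k + 4) → ℕ)
    (g : Fin (2 * k + 4) → Fin k)
    (μ : Fin (k + 5) → Fin (2 * k + 4) → ℕ) (c : Fin (k + 5) → ℕ) (d : Fin k → ℕ)
    (hk : k ≤ 2) (hg : Function.Surjective g)
    (h1 : ∀ b, (∑ i with g i = b, v i) % f = 0) (h2 : ∀ j, (∑ i, μ j i * v i) % f = 0)
    (h3 : ∀ j, 0 < c j) (h4 : ∀ i, ∑ j, c j * μ j i = d (g i)) (h5 : ∑ b, d b < ∑ j, c j)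
    (h6 : ∀ u : Fin (k + 5) → ℤ, (∀ i i', g i = g i' → ∑ j, u j * μ j i = ∑ j, u j * μ j i') →
      ∀ j j', c j * u j' = c j' * u j) :
    Fano (quad hf (List.ofFn v)) := by
  refine ⟨k, fun i => jj hf (v i : ZMod f), g, μ, c, d, hk, ?_, hg, ?_, ?_, h3, h4, h5, h6⟩
  · rw [Fin.univ_val_map]
    unfold quad
    rw [Multiset.map_coe, List.map_map, List.map_ofFn]
    rfl
  · intro b
    rw [← map_sum, ← Nat.cast_sum, (ZMod.natCast_eq_zero_iff _ _).mpr
      (Nat.dvd_of_mod_eq_zero (h1 b)), map_zero]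
  · intro j
    have e : ∀ i, ((μ j i : ℕ) : ZMod m) * jj hf (v i : ZMod f)
        = jj hf ((μ j i * v i : ℕ) : ZMod f) := by
      intro i
      rw [natCast_mul_jj, Nat.cast_mul]
    rw [sum_congr rfl fun i _ => e i, ← map_sum, ← Nat.cast_sum,
      (ZMod.natCast_eq_zero_iff _ _).mpr (Nat.dvd_of_mod_eq_zero (h2 j)), map_zero]

end Pool.Agent.Lib.MP_938ce2_ag_h99
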