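import Pool.Agent.Lib.MP_938ce2_ag_h99.MainA

/-!
Large primes can be removed from the degree.
-/

set_option autoImplicit false
set_option linter.style.haveILetI false
set_option linter.unusedSectionVars false

open Finset

namespace Pool.Agent.Lib.MP_938ce2_ag_h99

section group

variable {A : Type*} [CommGroup A] [Fintype A]

lemma spanL_le {H : Subgroup A} : ∀ (L : List (Subgroup A)), (∀ K ∈ L, K ≤ H) → spanL L ≤ H
  | [], _ => bot_le
  | K :: L, h => sup_le (h K List.mem_cons_self)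
      (spanL_le L fun K' hK' => h K' (List.mem_cons_of_mem _ hK'))

/-- A difference along a large subgroup can be dropped for functions with few supporting cosets. -/
theorem sparse_drop {β : Type*} [DecidableEq β] (c : A → β) (K H : Subgroup A)
    (L : List (Subgroup A)) (hL : ∀ K' ∈ L, K' ≤ H) (hKH : Disjoint K H)
    (hc : ∀ u v, c u = c v → u * v⁻¹ ∈ H) (F : A → ℤ) (Y : Finset β)
    (hY : ∀ u, F u ≠ 0 → c u ∈ Y) (hcard : Y.card < Nat.card K) (hMD : MD (K :: L) F) :
    MD L F := by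
  classical
  intro x
  -- a translate on which `F` vanishes
  have hex : ∃ k ∈ K, ∀ h ∈ H, F (k * (h * x)) = 0 := by
    by_contra hcon
    push Not at hcon
    choose! hh hhH hhF using hcon
    have hinj : Function.Injective (fun k : K => c ((k : A) * (hh k * x))) := by
      intro k k' hkk
      have h1 := hc _ _ hkk
      have h2 : (k : A) * (hh k * x) * ((k' : A) * (hh k' * x))⁻¹
          = ((k : A) * (k' : A)⁻¹) * (hh k * (hh k')⁻¹) := by
        rw [mul_inv, mul_inv]
        calc (k : A) * (hh k * x) * ((k' : A)⁻¹ * ((hh k')⁻¹ * x⁻¹))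
            = ((k : A) * (k' : A)⁻¹) * (hh k * (hh k')⁻¹) * (x * x⁻¹) := by
              simp only [mul_assoc, mul_left_comm, mul_comm]
          _ = _ := by rw [mul_inv_cancel, mul_one]
      rw [h2] at h1
      have h3 : (k : A) * (k' : A)⁻¹ ∈ H := by
        have h4 := H.mul_mem h1 (H.inv_mem (H.mul_mem (hhH k k.2) (H.inv_mem (hhH k' k'.2))))
        rwa [mul_inv_cancel_right] at h4
      have h5 : (k : A) * (k' : A)⁻¹ ∈ K := K.mul_mem k.2 (K.inv_mem k'.2)
      have h6 := Subgroup.disjoint_def.mp hKH h5 h3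
      exact Subtype.ext (mul_inv_eq_one.mp h6)
    have h7 : Fintype.card K ≤ Y.card := by
      have h8 : (univ.image (fun k : K => c ((k : A) * (hh k * x)))) ⊆ Y := by
        intro y hy
        obtain ⟨k, _, rfl⟩ := mem_image.mp hy
        exact hY _ (hhF k k.2)
      have h9 := card_le_card h8
      rw [card_image_of_injective _ hinj, card_univ] at h9
      exact h9
    rw [Nat.card_eq_fintype_card] at hcard
    omega
  obtain ⟨k, hk, hk0⟩ := hex
  have h1 := hMD x k hk
  refine MDat_congr L _ _ x ?_ h1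
  intro y hy
  have h2 := spanL_le L hL hy
  rw [hk0 y h2, sub_zero]

end group

section stab

variable {f : ℕ} [NeZero f]

/-- `Kp f p` meets the stabiliser of the prime-to-`p` part trivially -/
lemma disjoint_Kp_stab {p : ℕ} (hp : p.Prime) :
    Disjoint (Kp f p) (stab f ((f / p ^ (f.factorization p) : ℕ) : ZMod f)) := by
  have hf0 : f ≠ 0 := NeZero.ne f
  set n := f / p ^ (f.factorization p) with hn
  have hcop : Nat.Coprime p n := Nat.coprime_ordCompl hp hf0
  rw [Subgroup.disjoint_def]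
  intro x hx hx2
  have h1 : (x : ZMod f) * (p : ZMod f) = p := hx
  have h2 : (x : ZMod f) * (n : ZMod f) = n := hx2
  have hbez := Nat.gcd_eq_gcd_ab p n
  rw [hcop.gcd_eq_one] at hbez
  have h3 : (1 : ZMod f) = (p : ZMod f) * ((Nat.gcdA p n : ℤ) : ZMod f)
      + (n : ZMod f) * ((Nat.gcdB p n : ℤ) : ZMod f) := by
    have := congrArg (fun z : ℤ => (z : ZMod f)) hbez
    push_cast at this
    exact this
  apply Units.ext
  calc (x : ZMod f) = x * 1 := (mul_one _).symm
    _ = x * ((p : ZMod f) * ((Nat.gcdA p n : ℤ) : ZMod f)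
      + (n : ZMod f) * ((Nat.gcdB p n : ℤ) : ZMod f)) := by rw [← h3]
    _ = (x * p) * ((Nat.gcdA p n : ℤ) : ZMod f) + (x * n) * ((Nat.gcdB p n : ℤ) : ZMod f) := by ring
    _ = 1 := by rw [h1, h2, ← h3]

lemma dvd_ordCompl {p q : ℕ} (hqp : Nat.Coprime q p) (hq : q ∣ f) :
    q ∣ f / p ^ (f.factorization p) := by
  have h2 : p ^ (f.factorization p) * (f / p ^ (f.factorization p)) = f :=
    Nat.ordProj_mul_ordCompl_eq_self f p
  have h3 : Nat.Coprime q (p ^ (f.factorization p)) := Nat.Coprime.pow_right _ hqp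
  apply h3.dvd_of_dvd_mul_left
  rw [h2]
  exact hq

/-- dropping all large primes -/
theorem drop_large {β : Type*} [DecidableEq β] (c : (ZMod f)ˣ → β) (g : ℕ) (hg : g ∣ f)
    (hc : ∀ u v, c u = c v → ((u * v⁻¹ : (ZMod f)ˣ) : ZMod f) * (g : ZMod f) = g)
    (F : (ZMod f)ˣ → ℤ) (Y : Finset β) (hY : ∀ u, F u ≠ 0 → c u ∈ Y) (ps : List ℕ)
    (hps : ∀ p ∈ ps, p.Prime ∧ p ∣ f) :
    ∀ qs : List ℕ, (qs ++ ps).Nodup → (∀ q ∈ qs, q.Prime ∧ q ∣ f ∧ Nat.Coprime g q ∧
      Y.card < q - 1) → MD ((qs ++ ps).map (Kp f)) F → MD (ps.map (Kp f)) F := by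
  intro qs
  induction qs with
  | nil => intro _ _ h; exact h
  | cons q qs ih =>
    intro hnd hqs hMD
    rw [List.cons_append, List.nodup_cons] at hnd
    apply ih hnd.2 (fun q' hq' => hqs q' (List.mem_cons_of_mem _ hq'))
    obtain ⟨hq, hqf, hgq, hcard⟩ := hqs q List.mem_cons_self
    rw [List.cons_append, List.map_cons] at hMD
    set n := f / q ^ (f.factorization q) with hn
    refine sparse_drop c (Kp f q) (stab f (n : ZMod f)) _ ?_ (disjoint_Kp_stab hq) ?_ F Y hY ?_ hMD
    · intro K' hK'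
      obtain ⟨r, hr, rfl⟩ := List.mem_map.mp hK'
      apply Kp_le_stab
      have hrp : r.Prime ∧ r ∣ f := by
        rcases List.mem_append.mp hr with h | h
        · have := hqs r (List.mem_cons_of_mem _ h)
          exact ⟨this.1, this.2.1⟩
        · exact hps r h
      apply dvd_ordCompl _ hrp.2
      rw [Nat.coprime_primes hrp.1 hq]
      rintro rfl
      exact hnd.1 hr
    · intro u v huv
      have h1 := hc u v huv
      rw [mem_stab]
      obtain ⟨e, he⟩ := dvd_ordCompl hgq hg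
      rw [hn, he, Nat.cast_mul, ← mul_assoc, h1]
    · rw [card_Kp hq hqf]
      split_ifs <;> omega

end stab

section level

variable {m : ℕ} [NeZero m]

/-- the prime-to-`ms` coordinate of an element -/
noncomputable def cc (ms : ℕ) (a : ZMod m) : ZMod m :=
  ((Nat.gcd (addOrderOf a) ms : ℕ) : ZMod m) * a

open Classical in
/-- Peeling a level containing large primes, using relations at small primes only. -/
theorem level_large {ms ml : ℕ} (hm : m = ms * ml) (hcop : Nat.Coprime ms ml) (hml : ¬ 2 ∣ ml)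
    {f : ℕ} [NeZero f] (hf : f ∣ m) (hL : Nat.gcd f ml ≠ 1) (F : ZMod m → ℤ) (hodd : OddF F)
    (hT : TateF F) (hsup : ∀ a, F a ≠ 0 → f ∣ addOrderOf a → addOrderOf a = f)
    (Y : Finset (ZMod m)) (hY : ∀ a, F a ≠ 0 → addOrderOf a = f → cc ms a ∈ Y)
    (hcard : ∀ q, q.Prime → q ∣ ml → Y.card < q - 1) :
    ∃ F' : ZMod m → ℤ, F - F' ∈ relSub m ∧ OddF F' ∧ TateF F' ∧
      (∀ a, addOrderOf a = f → F' a = 0) ∧
      (∀ a, F' a ≠ F a → addOrderOf a = f ∨ ∃ p, p.Prime ∧ p ∣ f ∧ p ∣ ms ∧ addOrderOf a = f / p ∧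
        ∃ b, F b ≠ 0 ∧ addOrderOf b = f ∧ (cc ms a = cc ms b ∨
          (¬ p ∣ f / p ∧ (p : ZMod m) * cc ms a = cc ms b))) := by
  set g := Nat.gcd f ms with hg
  have hgf : g ∣ f := Nat.gcd_dvd_left _ _
  have hfgl : g * Nat.gcd f ml = f := by
    have h1 := Nat.Coprime.gcd_mul f hcop
    rw [← hm, Nat.gcd_eq_left hf] at h1
    exact h1.symm
  set ps := g.primeFactors.toList with hps
  set qs := (Nat.gcd f ml).primeFactors.toList with hqs
  have hg0 : g ≠ 0 := by
    intro h
    rw [h, zero_mul] at hfgl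
    exact NeZero.ne f hfgl.symm
  have hl0 : Nat.gcd f ml ≠ 0 := by
    intro h
    rw [h, mul_zero] at hfgl
    exact NeZero.ne f hfgl.symm
  have hmemp : ∀ p, p ∈ ps ↔ p.Prime ∧ p ∣ g := by
    intro p
    rw [hps, Finset.mem_toList, Nat.mem_primeFactors]
    exact ⟨fun h => ⟨h.1, h.2.1⟩, fun h => ⟨h.1, h.2, hg0⟩⟩
  have hmemq : ∀ p, p ∈ qs ↔ p.Prime ∧ p ∣ Nat.gcd f ml := by
    intro p
    rw [hqs, Finset.mem_toList, Nat.mem_primeFactors]
    exact ⟨fun h => ⟨h.1, h.2.1⟩, fun h => ⟨h.1, h.2, hl0⟩⟩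
  have hprime : ∀ p ∈ ps, p.Prime ∧ p ∣ f := fun p hp =>
    ⟨((hmemp p).mp hp).1, ((hmemp p).mp hp).2.trans hgf⟩
  have hnd : (qs ++ ps).Nodup := by
    rw [List.nodup_append]
    refine ⟨Finset.nodup_toList _, Finset.nodup_toList _, ?_⟩
    intro a ha b hb hab
    rw [hmemq] at ha
    rw [hmemp] at hb
    subst hab
    have h1 : a ∣ Nat.gcd ms ml := Nat.dvd_gcd (hb.2.trans (Nat.gcd_dvd_right _ _))
      (ha.2.trans (Nat.gcd_dvd_right _ _))
    rw [hcop.gcd_eq_one, Nat.dvd_one] at h1
    exact ha.1.one_lt.ne' h1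
  have hnd' : ps.Nodup := Finset.nodup_toList _
  have hMD := MD_top hf F hodd hT hsup (qs ++ ps) (by
    intro p hp hpf
    rw [← hfgl] at hpf
    rw [List.mem_append, hmemq, hmemp]
    rcases (Nat.Prime.dvd_mul hp).mp hpf with h | h
    · exact Or.inr ⟨hp, h⟩
    · exact Or.inl ⟨hp, h⟩)
  have hgcc : ∀ u : (ZMod f)ˣ, cc ms (jj hf (u : ZMod f)) = jj hf ((g : ZMod f) * u) := by
    intro u
    unfold cc
    rw [addOrderOf_unit hf u, ← natCast_mul_jj]
  have hMD2 : MD (ps.map (Kp f)) (fun u : (ZMod f)ˣ => F (jj hf (u : ZMod f))) := by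
    refine drop_large (fun u => cc ms (jj hf (u : ZMod f))) g hgf ?_ _ Y ?_ ps hprime qs hnd ?_ hMD
    · intro u v huv
      simp only [hgcc] at huv
      have h1 := jj_injective hf huv
      rw [Units.val_mul]
      calc (u : ZMod f) * ((v⁻¹ : (ZMod f)ˣ) : ZMod f) * (g : ZMod f)
          = ((g : ZMod f) * u) * ((v⁻¹ : (ZMod f)ˣ) : ZMod f) := by ring
        _ = (g : ZMod f) * ((v : ZMod f) * ((v⁻¹ : (ZMod f)ˣ) : ZMod f)) := by rw [h1]; ring
        _ = g := by rw [Units.mul_inv, mul_one]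
    · intro u hu
      exact hY _ hu (addOrderOf_unit hf u)
    · intro q hq
      rw [hmemq] at hq
      refine ⟨hq.1, hq.2.trans (Nat.gcd_dvd_left _ _), ?_, hcard q hq.1
        (hq.2.trans (Nat.gcd_dvd_right _ _))⟩
      exact Nat.Coprime.coprime_dvd_left (Nat.gcd_dvd_right _ _)
        (Nat.Coprime.coprime_dvd_right (hq.2.trans (Nat.gcd_dvd_right _ _)) hcop)
  have hc : (-1 : (ZMod f)ˣ) ∉ spanL (ps.map (Kp f)) := by
    apply neg_one_not_mem_span g ps (fun q hq => ((hmemp q).mp hq).2)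
    intro h
    rw [← hfgl] at h
    rw [mul_comm 2 g] at h
    have h1 : Nat.gcd f ml ∣ 2 := Nat.dvd_of_mul_dvd_mul_left (Nat.pos_of_ne_zero hg0) h
    rcases (Nat.dvd_prime Nat.prime_two).mp h1 with h2 | h2
    · exact hL h2
    · apply hml
      rw [← h2]
      exact Nat.gcd_dvd_right _ _
  obtain ⟨G, hG1, hG2, hG3⟩ := int_split (-1) (by simp) (Kp f) ps hnd' (indep_Kp ps hprime hnd') hc _
    hMD2 (odd_top hf hodd)
  -- truncation
  set X : (ZMod f)ˣ → Prop := fun u => ∃ v : (ZMod f)ˣ, F (jj hf (v : ZMod f)) ≠ 0 ∧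
    (g : ZMod f) * v = (g : ZMod f) * u with hX
  have hXK : ∀ p ∈ ps, ∀ z ∈ Kp f p, ∀ u, X (z * u) ↔ X u := by
    intro p hp z hz u
    have h1 : (z : ZMod f) * (g : ZMod f) = g := Kp_le_stab ((hmemp p).mp hp).2 hz
    have h2 : (g : ZMod f) * ((z * u : (ZMod f)ˣ) : ZMod f) = (g : ZMod f) * u := by
      rw [Units.val_mul, ← mul_assoc, mul_comm (g : ZMod f), h1]
    simp only [hX, h2]
  have hXneg : ∀ u, X (-1 * u) ↔ X u := by
    have key : ∀ u, X u → X (-1 * u) := by
      rintro u ⟨v, hv, hvu⟩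
      refine ⟨-1 * v, ?_, ?_⟩
      · rw [odd_top hf hodd]
        exact neg_ne_zero.mpr hv
      · rw [neg_one_mul, neg_one_mul, Units.val_neg, Units.val_neg, mul_neg, mul_neg, hvu]
    intro u
    refine ⟨fun h => ?_, key u⟩
    have := key _ h
    rwa [← mul_assoc, neg_one_mul, neg_neg, one_mul] at this
  obtain ⟨F', h1, h2, h3, h4, h5, _⟩ := peel hf F hodd hT ps hprime
    (fun p u => if X u then G p u else 0)
    (by
      intro p hp z hz u
      simp only [hXK p hp z hz u]
      split_ifs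
      · exact hG1 p hp z hz u
      · rfl)
    (by
      intro u
      by_cases hXu : X u
      · simp only [if_pos hXu]
        exact hG2 u
      · simp only [if_neg hXu, List.map_const', List.sum_replicate, smul_zero]
        by_contra hne
        exact hXu ⟨u, hne, rfl⟩)
    (by
      intro p hp u
      simp only [hXneg u]
      split_ifs
      · exact hG3 p hp u
      · simp)
  refine ⟨F', h1, h2, h3, h4, ?_⟩
  intro a ha
  rcases h5 a ha with h6 | ⟨p, hp, u, hu, hord, hrel⟩
  · exact Or.inl h6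
  · right
    have hpp := ((hmemp p).mp hp).1
    have hpg := ((hmemp p).mp hp).2
    have hpms : p ∣ ms := hpg.trans (Nat.gcd_dvd_right _ _)
    refine ⟨p, hpp, hpg.trans hgf, hpms, hord, ?_⟩
    have hXu : X u := by
      by_contra hne
      rw [if_neg hne] at hu
      exact hu rfl
    obtain ⟨v, hv, hvu⟩ := hXu
    refine ⟨jj hf (v : ZMod f), hv, addOrderOf_unit hf v, ?_⟩
    rw [hgcc v, hvu]
    -- the gcd of `f / p` with `ms`
    obtain ⟨g', hg'⟩ := hpg
    have hfp : f / p = g' * Nat.gcd f ml := by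
      apply Nat.div_eq_of_eq_mul_right hpp.pos
      calc f = g * Nat.gcd f ml := hfgl.symm
        _ = p * (g' * Nat.gcd f ml) := by rw [hg', mul_assoc]
    have hgcd : Nat.gcd (f / p) ms = g' := by
      rw [hfp]
      have e1 : Nat.Coprime (Nat.gcd f ml) ms :=
        Nat.Coprime.coprime_dvd_left (Nat.gcd_dvd_right _ _) hcop.symm
      rw [Nat.Coprime.gcd_mul_right_cancel g' e1]
      apply Nat.gcd_eq_left
      exact (Dvd.intro_left p hg'.symm).trans (Nat.gcd_dvd_right f ms)
    have hcca : cc ms a = (g' : ZMod m) * a := by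
      unfold cc
      rw [hord, hgcd]
    have hgp : jj hf ((g : ZMod f) * u) = (g' : ZMod m) * ((p : ZMod m) * jj hf (u : ZMod f)) := by
      rw [← natCast_mul_jj, hg']
      push_cast
      ring
    rw [hcca, hgp]
    rcases hrel with h7 | ⟨h7, h8⟩
    · left
      rw [h7]
    · right
      refine ⟨h7, ?_⟩
      rw [← h8]
      ring

lemma ml_mul_cc {ms ml : ℕ} (hm : m = ms * ml) (hcop : Nat.Coprime ms ml) (a : ZMod m) :
    (ml : ZMod m) * cc ms a = 0 := by
  unfold cc
  have h1 : addOrderOf a ∣ Nat.gcd (addOrderOf a) ms * ml := by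
    have h2 := Nat.Coprime.gcd_mul (addOrderOf a) hcop
    rw [← hm, Nat.gcd_eq_left (addOrderOf_dvd_m a)] at h2
    have h3 : Nat.gcd (addOrderOf a) ms * Nat.gcd (addOrderOf a) ml
        ∣ Nat.gcd (addOrderOf a) ms * ml := Nat.mul_dvd_mul_left _ (Nat.gcd_dvd_right _ _)
    rw [← h2] at h3
    exact h3
  obtain ⟨k, hk⟩ := h1
  have h4 : (ml : ZMod m) * (((Nat.gcd (addOrderOf a) ms : ℕ) : ZMod m) * a)
      = ((Nat.gcd (addOrderOf a) ms * ml : ℕ) : ZMod m) * a := by
    push_cast
    ring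
  rw [h4, hk, mul_comm (addOrderOf a) k, ← nsmul_eq_mul, mul_nsmul', addOrderOf_nsmul_eq_zero,
    smul_zero]

/-- the invariant of the descent -/
def Inv (ms ml : ℕ) (F0 : ZMod m → ℤ) (k : ℕ) (F : ZMod m → ℤ) : Prop :=
  F0 - F ∈ relSub m ∧ OddF F ∧ TateF F ∧
    (∀ a, F a ≠ 0 → Nat.gcd (addOrderOf a) ml ≠ 1 → addOrderOf a ≤ k ∧
      ∃ B, B ⊆ ms.primeFactors ∧ (∀ p ∈ B, ¬ p ∣ addOrderOf a) ∧
        ∃ b, F0 b ≠ 0 ∧ ((∏ p ∈ B, p : ℕ) : ZMod m) * cc ms a = cc ms b) ∧
    (∀ a, Nat.gcd (addOrderOf a) ml = 1 → F a = F0 a)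

open Classical in
lemma reduce_aux {ms ml : ℕ} (hm : m = ms * ml) (hcop : Nat.Coprime ms ml) (hml : ¬ 2 ∣ ml)
    (F0 : ZMod m → ℤ)
    (hcard : ∀ q, q.Prime → q ∣ ml →
      2 ^ ms.primeFactors.card * (univ.filter fun a => F0 a ≠ 0).card < q - 1) :
    ∀ (k : ℕ) (F : ZMod m → ℤ), Inv ms ml F0 k F → ∃ F', Inv ms ml F0 0 F' := by
  have hms0 : ms ≠ 0 := by
    rintro rfl
    rw [zero_mul] at hm
    exact NeZero.ne m hm
  -- inverses of products
  have hE : ∀ B : Finset ℕ, B ⊆ ms.primeFactors → ∃ e : ℤ, ∀ y : ZMod m, (ml : ZMod m) * y = 0 →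
      (e : ZMod m) * (((∏ p ∈ B, p : ℕ) : ZMod m) * y) = y := by
    intro B hB
    have h1 : Nat.Coprime (∏ p ∈ B, p) ml := by
      apply Nat.Coprime.prod_left
      intro p hp
      exact Nat.Coprime.coprime_dvd_left (Nat.dvd_of_mem_primeFactors (hB hp)) hcop
    have hbez := Nat.gcd_eq_gcd_ab (∏ p ∈ B, p) ml
    rw [h1.gcd_eq_one] at hbez
    refine ⟨Nat.gcdA (∏ p ∈ B, p) ml, ?_⟩
    intro y hy
    have h2 := congrArg (fun z : ℤ => (z : ZMod m) * y) hbez
    simp only [Int.cast_add, Int.cast_mul, Int.cast_natCast, Nat.cast_one, Int.cast_one,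
      one_mul] at h2
    linear_combination (-1 : ZMod m) * h2 - ((Nat.gcdB (∏ p ∈ B, p) ml : ℤ) : ZMod m) * hy
  choose! e he using hE
  set Y : Finset (ZMod m) := (ms.primeFactors.powerset ×ˢ (univ.filter fun a => F0 a ≠ 0)).image
    (fun x => (e x.1 : ZMod m) * cc ms x.2) with hYdef
  have hYcard : ∀ q, q.Prime → q ∣ ml → Y.card < q - 1 := by
    intro q hq hqm
    refine lt_of_le_of_lt card_image_le ?_
    rw [card_product, card_powerset]
    exact hcard q hq hqm
  intro k
  induction k with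
  | zero => intro F hF; exact ⟨F, hF⟩
  | succ k ih =>
    intro F hF
    obtain ⟨i1, i2, i3, i4, i5⟩ := hF
    by_cases hf : (k + 1) ∣ m ∧ Nat.gcd (k + 1) ml ≠ 1
    swap
    · apply ih F
      refine ⟨i1, i2, i3, ?_, i5⟩
      intro a ha hag
      obtain ⟨j1, j2⟩ := i4 a ha hag
      refine ⟨?_, j2⟩
      have : addOrderOf a ≠ k + 1 := fun h => hf (h ▸ ⟨addOrderOf_dvd_m a, hag⟩)
      omega
    · set f := k + 1 with hfdef
      obtain ⟨hf, hL⟩ := hf
      haveI : NeZero f := ⟨Nat.succ_ne_zero k⟩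
      have hpos : ∀ a : ZMod m, 0 < addOrderOf a := fun a =>
        Nat.pos_of_dvd_of_pos (addOrderOf_dvd_m a) (Nat.pos_of_ne_zero (NeZero.ne m))
      have hgcd_up : ∀ a : ZMod m, f ∣ addOrderOf a → Nat.gcd (addOrderOf a) ml ≠ 1 := by
        intro a h hc
        apply hL
        have h1 : Nat.gcd f ml ∣ Nat.gcd (addOrderOf a) ml := Nat.gcd_dvd_gcd_of_dvd_left _ h
        rw [hc, Nat.dvd_one] at h1
        exact h1
      obtain ⟨F', h1, h2, h3, h4, h5⟩ := level_large hm hcop hml hf hL F i2 i3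
        (by
          intro a ha hd
          have := (i4 a ha (hgcd_up a hd)).1
          exact le_antisymm this (Nat.le_of_dvd (hpos a) hd))
        Y
        (by
          intro a ha hord
          obtain ⟨_, B, hB, _, b, hb, hbb⟩ := i4 a ha (by rw [hord]; exact hL)
          rw [hYdef, mem_image]
          refine ⟨(B, b), ?_, ?_⟩
          · rw [mem_product, mem_powerset, mem_filter]
            exact ⟨hB, mem_univ _, hb⟩
          · simp only
            rw [← hbb]
            exact he B hB _ (ml_mul_cc hm hcop a))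
        hYcard
      apply ih F'
      refine ⟨?_, h2, h3, ?_, ?_⟩
      · have := (relSub m).add_mem i1 h1
        rwa [sub_add_sub_cancel] at this
      · intro a ha hag
        by_cases hFa : F' a = F a
        · rw [hFa] at ha
          obtain ⟨j1, j2⟩ := i4 a ha hag
          refine ⟨?_, j2⟩
          have : addOrderOf a ≠ f := fun h => ha (by rw [← hFa]; exact h4 a h)
          omega
        · rcases h5 a hFa with h6 | ⟨p, hp, hpf, hpms, hord, b, hb, hbord, hrel⟩
          · exact absurd (h4 a h6) ha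
          · refine ⟨?_, ?_⟩
            · rw [hord]
              have := Nat.div_lt_self (Nat.pos_of_ne_zero (NeZero.ne f)) hp.one_lt
              omega
            · obtain ⟨_, B, hB, hBf, b0, hb0, hbb⟩ := i4 b hb (by rw [hbord]; exact hL)
              rw [hbord] at hBf
              rcases hrel with h7 | ⟨h7, h8⟩
              · refine ⟨B, hB, ?_, b0, hb0, by rw [h7]; exact hbb⟩
                intro r hr hrd
                rw [hord] at hrd
                exact hBf r hr (hrd.trans (Nat.div_dvd_of_dvd hpf))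
              · have hpB : p ∉ B := fun h => hBf p h hpf
                refine ⟨insert p B, ?_, ?_, b0, hb0, ?_⟩
                · intro r hr
                  rcases Finset.mem_insert.mp hr with rfl | hr
                  · exact Nat.mem_primeFactors.mpr ⟨hp, hpms, hms0⟩
                  · exact hB hr
                · intro r hr hrd
                  rw [hord] at hrd
                  rcases Finset.mem_insert.mp hr with rfl | hr
                  · exact h7 hrd
                  · exact hBf r hr (hrd.trans (Nat.div_dvd_of_dvd hpf))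
                · rw [Finset.prod_insert hpB, Nat.cast_mul, mul_comm (p : ZMod m), mul_assoc, h8,
                    hbb]
      · intro a ha
        rw [← i5 a ha]
        by_contra hne
        rcases h5 a hne with h6 | ⟨p, hp, hpf, hpms, hord, _⟩
        · exact hL (by rw [← h6]; exact ha)
        · apply hL
          rw [hord] at ha
          -- `gcd f ml = gcd (f / p) ml`
          have e1 : f = p * (f / p) := (Nat.mul_div_cancel' hpf).symm
          have e2 : Nat.Coprime p ml := Nat.Coprime.coprime_dvd_left hpms hcop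
          rw [e1, Nat.Coprime.gcd_mul_left_cancel _ e2]
          exact ha

open Classical in
/-- Large primes can be removed from the degree. -/
theorem reduce_large {ms ml : ℕ} (hm : m = ms * ml) (hcop : Nat.Coprime ms ml) (hml : ¬ 2 ∣ ml)
    (F0 : ZMod m → ℤ) (hodd : OddF F0) (hT : TateF F0)
    (hcard : ∀ q, q.Prime → q ∣ ml →
      2 ^ ms.primeFactors.card * (univ.filter fun a => F0 a ≠ 0).card < q - 1) :
    ∃ F' : ZMod m → ℤ, F0 - F' ∈ relSub m ∧ OddF F' ∧ TateF F' ∧
      (∀ a, F' a ≠ 0 → addOrderOf a ∣ ms) ∧ (∀ a, addOrderOf a ∣ ms → F' a = F0 a) := by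
  have h0 : Inv ms ml F0 m F0 := by
    refine ⟨?_, hodd, hT, ?_, fun _ _ => rfl⟩
    · rw [sub_self]
      exact (relSub m).zero_mem
    · intro a ha _
      refine ⟨Nat.le_of_dvd (Nat.pos_of_ne_zero (NeZero.ne m)) (addOrderOf_dvd_m a), ∅,
        Finset.empty_subset _, fun p hp => absurd hp (Finset.notMem_empty p), a, ha, ?_⟩
      simp
  obtain ⟨F', i1, i2, i3, i4, i5⟩ := reduce_aux hm hcop hml F0 hcard m F0 h0
  have hms : ∀ a : ZMod m, Nat.gcd (addOrderOf a) ml = 1 ↔ addOrderOf a ∣ ms := by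
    intro a
    constructor
    · intro h
      have h1 : addOrderOf a ∣ ms * ml := by
        rw [← hm]
        exact addOrderOf_dvd_m a
      exact Nat.Coprime.dvd_of_dvd_mul_right h h1
    · intro h
      exact Nat.Coprime.coprime_dvd_left h hcop
  refine ⟨F', i1, i2, i3, ?_, ?_⟩
  · intro a ha
    rw [← hms]
    by_contra hne
    have h1 := (i4 a ha hne).1
    have h2 : 0 < addOrderOf a :=
      Nat.pos_of_dvd_of_pos (addOrderOf_dvd_m a) (Nat.pos_of_ne_zero (NeZero.ne m))
    omega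
  · intro a ha
    exact i5 a ((hms a).mpr ha)

end level

end Pool.Agent.Lib.MP_938ce2_ag_h99
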