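import Pool.Agent.Lib.MP_938ce2_ag_h99.ExcData
import Pool.Agent.Lib.MP_938ce2_ag_h99.Large

/-!
Tate characters of length `l` in degrees whose prime factors are tiny or larger than `16 l + 1`.
-/

set_option autoImplicit false
set_option linter.style.haveILetI false
set_option linter.unusedSectionVars false

open Finset

namespace Pool.Agent.Lib.MP_938ce2_ag_h99

open Pool.Agent.Lib.MP_938ce2_ag_h6

variable {m : ℕ} [NeZero m]

/-- prime factors 2, p, q, not divisible by 4 -/
theorem smooth_pq (X : AddSubgroup (ZMod m → ℤ)) {n p q : ℕ} (hp : p.Prime) (hq : q.Prime)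
    (hpq : p ≠ q) (hp2 : p ≠ 2) (hq2 : q ≠ 2)
    (hn : ∀ r, r.Prime → r ∣ n → r ∈ [2, p, q]) (h4 : ¬ 4 ∣ n)
    (hE : ∀ hf : p * q ∣ m, p * q ∣ n → Exc (· ∣ n) X (p * q) p q hf)
    (F : ZMod m → ℤ) (hodd : OddF F) (hT : TateF F) (hsup : ∀ a, F a ≠ 0 → addOrderOf a ∣ n) :
    F ∈ X ⊔ relSub m := by
  have hD : ∀ f g, (f ∣ n) → g ∣ f → g ∣ n := fun f g h1 h2 => h2.trans h1
  refine mainA_aux (D := (· ∣ n)) hD X ?_ m F hodd hT (fun a _ => Nat.le_of_dvd
    (Nat.pos_of_ne_zero (NeZero.ne m)) (addOrderOf_dvd_m a)) hsup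
  intro f hf hDf hf1 hf4 hfr
  have hf0 : f ≠ 0 := f_ne_zero hf
  have hodd : ¬ 2 ∣ f := by
    intro h2
    have h5 : ¬ 4 ∣ f := fun h => h4 (h.trans hDf)
    omega
  have hcop : Nat.Coprime 2 f := (Nat.Prime.coprime_iff_not_dvd Nat.prime_two).mpr hodd
  have h1 : rad f ∣ p * q := by
    have := rad_dvd (f := f) (S := {p, q}) (by
      intro r hr hrf
      have h5 := hn r hr (hrf.trans hDf)
      simp only [List.mem_cons, List.not_mem_nil, or_false] at h5
      rcases h5 with rfl | rfl | rfl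
      · exact absurd hrf hodd
      · simp
      · simp)
    rwa [Finset.prod_pair hpq] at this
  have h2 : f ∣ p * q := (hcop.symm.dvd_of_dvd_mul_left hfr).trans h1
  have h3 : f = 1 ∨ f = p ∨ f = q ∨ f = p * q := by
    obtain ⟨a, b, ha, hb, rfl⟩ := (Nat.dvd_mul).mp h2
    rcases (Nat.dvd_prime hp).mp ha with rfl | rfl
    · rcases (Nat.dvd_prime hq).mp hb with rfl | rfl
      · simp
      · simp
    · rcases (Nat.dvd_prime hq).mp hb with rfl | rfl
      · simp
      · simp
  have hself : ∀ r s : ℕ, r.Prime → s.Prime → s ∣ r → s ∈ [r] := by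
    intro r s hr hs h
    rw [(Nat.prime_dvd_prime_iff_eq hs hr).mp h]
    exact List.mem_singleton.mpr rfl
  rcases h3 with h3 | h3 | h3 | h3
  · exact absurd h3 hf1
  · subst h3
    exact step_one hD X hf0 hf hDf f hp dvd_rfl fun r hr h => hself f r hp hr h
  · subst h3
    exact step_one hD X hf0 hf hDf f hq dvd_rfl fun r hr h => hself f r hq hr h
  · subst h3
    have e1 : p * q / p = q := Nat.mul_div_cancel_left q hp.pos
    have e2 : p * q / q = p := Nat.mul_div_cancel p hq.pos
    have e3 : ¬ p ∣ q := fun h => hpq ((Nat.prime_dvd_prime_iff_eq hp hq).mp h)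
    have e4 : ¬ q ∣ p := fun h => hpq ((Nat.prime_dvd_prime_iff_eq hq hp).mp h).symm
    refine step_two hD X hf0 hf hDf p q hp hq hpq (Dvd.intro _ rfl) (Dvd.intro_left _ rfl) ?_ ?_
      (hE hf hDf)
    · intro r hr h
      rcases (Nat.Prime.dvd_mul hr).mp h with h | h
      · rw [(Nat.prime_dvd_prime_iff_eq hr hp).mp h]
        simp
      · rw [(Nat.prime_dvd_prime_iff_eq hr hq).mp h]
        simp
    · rw [e1, e2, if_neg e3, if_neg e4,
        Nat.totient_mul ((Nat.coprime_primes hp hq).mpr hpq), Nat.totient_prime hp,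
        Nat.totient_prime hq]

/-- The sets of small primes. -/
def SmallSet (m : ℕ) (P : Finset ℕ) : Prop :=
  P = {2, 3, 5} ∨ P = {2, 3, 7} ∨ (2 ∣ m ∧ ¬ 4 ∣ m ∧ (P = {2, 3, 11} ∨ P = {2, 3, 13}))

/-- all odd functions satisfying the Tate condition with orders dividing `n` -/
theorem small_mem {n : ℕ} (hnm : n ∣ m) (P : Finset ℕ) (hP : SmallSet m P)
    (hnP : ∀ p, p.Prime → p ∣ n → p ∈ P) (hP2 : 2 ∣ m → 2 ∣ n)
    (F : ZMod m → ℤ) (hodd : OddF F) (hT : TateF F) (hsup : ∀ a, F a ≠ 0 → addOrderOf a ∣ n) :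
    F ∈ XX m ⊔ relSub m := by
  rcases hP with rfl | rfl | ⟨h2, h4, rfl | rfl⟩
  · exact smooth235 (XX m) (n := n) (fun p hp h => by simpa using hnP p hp h)
      (fun hf hn => exc12 hf hn) (fun hf hn => exc15 hf hn) (fun hf hn => exc20 hf hn)
      F hodd hT hsup
  · exact smooth237 (XX m) (n := n) (fun p hp h => by simpa using hnP p hp h)
      (fun hf hn => exc12 hf hn) (fun hf hn => exc21 hf hn) (fun hf hn => exc28 hf hn)
      F hodd hT hsup
  · have h4n : ¬ 4 ∣ n := fun h => h4 (h.trans hnm)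
    refine smooth_pq (XX m) (n := n) (p := 3) (q := 11) Nat.prime_three (by norm_num)
      (by norm_num) (by norm_num) (by norm_num) (fun p hp h => by simpa using hnP p hp h)
      h4n ?_ F hodd hT hsup
    intro hf hn
    have h66n : 66 ∣ n := by
      have h2n := hP2 h2
      have hn' : 33 ∣ n := hn
      omega
    exact exc33 (h66n.trans hnm) hf h66n
  · have h4n : ¬ 4 ∣ n := fun h => h4 (h.trans hnm)
    refine smooth_pq (XX m) (n := n) (p := 3) (q := 13) Nat.prime_three (by norm_num)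
      (by norm_num) (by norm_num) (by norm_num) (fun p hp h => by simpa using hnP p hp h)
      h4n ?_ F hodd hT hsup
    intro hf hn
    have h78n : 78 ∣ n := by
      have h2n := hP2 h2
      have hn' : 39 ∣ n := hn
      omega
    exact exc39 (h78n.trans hnm) hf h78n

lemma card_supp_le (s : Multiset (ZMod m)) :
    ((univ.filter fun a => oddPart s a ≠ 0).card : ℤ) ≤ 2 * s.card := by
  classical
  calc ((univ.filter fun a => oddPart s a ≠ 0).card : ℤ)
      = ∑ a ∈ univ.filter (fun a => oddPart s a ≠ 0), 1 := by simp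
    _ ≤ ∑ a ∈ univ.filter (fun a => oddPart s a ≠ 0), |oddPart s a| := by
        apply sum_le_sum
        intro a ha
        have h1 := (mem_filter.mp ha).2
        exact Int.one_le_abs h1
    _ ≤ ∑ a, |oddPart s a| :=
        sum_le_sum_of_subset_of_nonneg (filter_subset _ _) fun _ _ _ => abs_nonneg _
    _ ≤ 2 * s.card := l1_le s

/-- Main theorem. -/
theorem small_large (P : Finset ℕ) (hP : SmallSet m P) (s : Multiset (ZMod m)) (hs : IsTate s)
    (hm : ∀ q, q.Prime → q ∣ m → q ∈ P ∨ 16 * s.card + 1 < q) : IsAlg s := by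
  classical
  -- factorisation of the degree
  have hm0 : m ≠ 0 := NeZero.ne m
  set ms := ∏ p ∈ m.primeFactors.filter (· ∈ P), p ^ m.factorization p with hms
  set ml := ∏ p ∈ m.primeFactors.filter (· ∉ P), p ^ m.factorization p with hml
  have hmm : m = ms * ml := by
    rw [hms, hml, prod_filter_mul_prod_filter_not]
    exact (Nat.prod_factorization_pow_eq_self hm0).symm
  have hprime_ms : ∀ q, q.Prime → q ∣ ms → q ∈ P ∧ q ∣ m := by
    intro q hq hqm
    obtain ⟨p, hp, hqp⟩ := (Prime.dvd_finsetProd_iff hq.prime _).mp hqm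
    have h1 := mem_filter.mp hp
    have h2 := Nat.prime_of_mem_primeFactors h1.1
    have h3 := (Nat.prime_dvd_prime_iff_eq hq h2).mp (hq.dvd_of_dvd_pow hqp)
    rw [h3]
    exact ⟨h1.2, Nat.dvd_of_mem_primeFactors h1.1⟩
  have hprime_ml : ∀ q, q.Prime → q ∣ ml → q ∉ P ∧ q ∣ m := by
    intro q hq hqm
    obtain ⟨p, hp, hqp⟩ := (Prime.dvd_finsetProd_iff hq.prime _).mp hqm
    have h1 := mem_filter.mp hp
    have h2 := Nat.prime_of_mem_primeFactors h1.1
    have h3 := (Nat.prime_dvd_prime_iff_eq hq h2).mp (hq.dvd_of_dvd_pow hqp)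
    rw [h3]
    exact ⟨h1.2, Nat.dvd_of_mem_primeFactors h1.1⟩
  have hcop : Nat.Coprime ms ml := by
    apply Nat.coprime_of_dvd
    intro q hq h1 h2
    exact (hprime_ml q hq h2).1 (hprime_ms q hq h1).1
  have h2P : 2 ∈ P := by
    rcases hP with rfl | rfl | ⟨_, _, rfl | rfl⟩ <;> simp
  have hPcard : P.card ≤ 3 := by
    rcases hP with rfl | rfl | ⟨_, _, rfl | rfl⟩ <;> exact Finset.card_le_three
  have hml2 : ¬ 2 ∣ ml := fun h => (hprime_ml 2 Nat.prime_two h).1 h2P
  have hms0 : ms ≠ 0 := by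
    intro h
    rw [h, zero_mul] at hmm
    exact hm0 hmm
  have hcardms : ms.primeFactors.card ≤ 3 := by
    refine le_trans (card_le_card ?_) hPcard
    intro q hq
    exact (hprime_ms q (Nat.prime_of_mem_primeFactors hq) (Nat.dvd_of_mem_primeFactors hq)).1
  obtain ⟨F', h1, h2, h3, h4, _⟩ := reduce_large hmm hcop hml2 (oddPart s) (oddPart_odd s)
    (isTate_iff.mp hs).2.2 (by
      intro q hq hqm
      have h5 := hprime_ml q hq hqm
      have h6 : 16 * s.card + 1 < q := (hm q hq h5.2).resolve_left h5.1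
      have h7 : (univ.filter fun a => oddPart s a ≠ 0).card ≤ 2 * s.card := by
        exact_mod_cast card_supp_le s
      have h8 : 2 ^ ms.primeFactors.card ≤ 2 ^ 3 := Nat.pow_le_pow_right (by norm_num) hcardms
      calc 2 ^ ms.primeFactors.card * (univ.filter fun a => oddPart s a ≠ 0).card
          ≤ 2 ^ 3 * (2 * s.card) := Nat.mul_le_mul h8 h7
        _ < q - 1 := by omega)
  have h5 : F' ∈ XX m ⊔ relSub m := by
    apply small_mem (n := ms) (by rw [hmm]; exact Dvd.intro _ rfl) P hP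
      (fun p hp h => (hprime_ms p hp h).1) _ F' h2 h3 h4
    intro h
    rw [hmm] at h
    rcases (Nat.Prime.dvd_mul Nat.prime_two).mp h with h | h
    · exact h
    · exact absurd h hml2
  apply isAlg_of_mem hs
  have h6 : oddPart s = (oddPart s - F') + F' := by abel
  rw [h6, sup_comm]
  exact (XX m ⊔ relSub m).add_mem (AddSubgroup.mem_sup_right h1) h5

end Pool.Agent.Lib.MP_938ce2_ag_h99
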