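import Pool.Agent.Lib.MP_938ce2_ag_h99.Smooth

/-!
Degrees with at most three effective primes.
-/

set_option autoImplicit false
set_option linter.style.haveILetI false
set_option linter.unusedSectionVars false

open Finset

namespace Pool.Agent.Lib.MP_938ce2_ag_h99

/-- the prime, or four -/
def ep (p : ℕ) : ℕ := if p = 2 then 4 else p

lemma rad_ne_zero (f : ℕ) : rad f ≠ 0 := by
  unfold rad
  rw [Finset.prod_ne_zero_iff]
  intro p hp
  exact (Nat.prime_of_mem_primeFactors hp).ne_zero

lemma fac_rad {f p : ℕ} : (rad f).factorization p ≤ 1 := by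
  unfold rad
  rw [Nat.factorization_prod fun p hp => (Nat.prime_of_mem_primeFactors hp).ne_zero,
    Finsupp.finsetSum_apply]
  have h1 : ∀ q ∈ f.primeFactors, (q.factorization) p = if q = p then 1 else 0 := by
    intro q hq
    rw [(Nat.prime_of_mem_primeFactors hq).factorization, Finsupp.single_apply]
  rw [sum_congr rfl h1, Finset.sum_ite_eq']
  split_ifs <;> omega

lemma fac_eq {f p : ℕ} (hf0 : f ≠ 0) (hp : p.Prime) (hpf : p ∣ f) (h4 : f % 4 ≠ 2)
    (hr : f ∣ 2 * rad f) : f.factorization p = if p = 2 then 2 else 1 := by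
  have h1 : f.factorization p ≤ (2 * rad f).factorization p :=
    (Nat.factorization_le_iff_dvd hf0 (mul_ne_zero two_ne_zero (rad_ne_zero f))).mpr hr p
  rw [Nat.factorization_mul two_ne_zero (rad_ne_zero f), Finsupp.add_apply,
    Nat.prime_two.factorization, Finsupp.single_apply] at h1
  have h2 := fac_rad (f := f) (p := p)
  have h3 : 1 ≤ f.factorization p := (hp.dvd_iff_one_le_factorization hf0).mp hpf
  by_cases hp2 : p = 2
  · subst hp2
    rw [if_pos rfl] at h1 ⊢
    have h4' : 2 ^ 2 ∣ f := by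
      show 4 ∣ f
      omega
    have h5 := (Nat.prime_two.pow_dvd_iff_le_factorization hf0).mp h4'
    omega
  · rw [if_neg (fun h => hp2 h.symm)] at h1
    rw [if_neg hp2]
    omega

lemma eff_prod {f : ℕ} (hf0 : f ≠ 0) (h4 : f % 4 ≠ 2) (hr : f ∣ 2 * rad f) :
    f = ∏ p ∈ f.primeFactors, ep p := by
  conv_lhs => rw [← Nat.prod_factorization_pow_eq_self hf0]
  rw [Finsupp.prod, Nat.support_factorization]
  apply prod_congr rfl
  intro p hp
  rw [fac_eq hf0 (Nat.prime_of_mem_primeFactors hp) (Nat.dvd_of_mem_primeFactors hp) h4 hr]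
  unfold ep
  split_ifs with h
  · subst h
    rfl
  · exact pow_one p

lemma tot_prod {f : ℕ} (hf0 : f ≠ 0) (h4 : f % 4 ≠ 2) (hr : f ∣ 2 * rad f) :
    ∏ p ∈ f.primeFactors, (if p ∣ f / p then p else p - 1) = f.totient := by
  rw [Nat.totient_eq_prod_factorization hf0, Finsupp.prod, Nat.support_factorization]
  apply prod_congr rfl
  intro p hp
  have hpp := Nat.prime_of_mem_primeFactors hp
  have hpf := Nat.dvd_of_mem_primeFactors hp
  have h1 := fac_eq hf0 hpp hpf h4 hr
  have h2 : p ∣ f / p ↔ p ^ 2 ∣ f := by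
    rw [Nat.dvd_div_iff_mul_dvd hpf, pow_two]
  have h3 : p ^ 2 ∣ f ↔ 2 ≤ f.factorization p := hpp.pow_dvd_iff_le_factorization hf0
  rw [if_congr (h2.trans h3) rfl rfl, h1]
  by_cases hp2 : p = 2
  · subst hp2
    simp
  · rw [if_neg hp2]
    simp

variable {m : ℕ} [NeZero m]

lemma ep_mul_of_pair {f p q : ℕ} (hpq : p ≠ q) (h : f = ∏ l ∈ f.primeFactors, ep l)
    (hS : f.primeFactors = {p, q}) : f = ep p * ep q := by
  rw [hS, Finset.prod_pair hpq] at h
  exact h

/-- Degrees with at most three effective primes, under the existence of exceptional classes. -/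
theorem smooth_three (X : AddSubgroup (ZMod m → ℤ)) {n : ℕ} (S : Finset ℕ) (hS : S.card ≤ 3)
    (hn : ∀ p, p.Prime → p ∣ n → (p = 2 → 4 ∣ n) → p ∈ S)
    (hE : ∀ p q, p < q → p ∈ S → q ∈ S → ∀ hf : ep p * ep q ∣ m, ep p * ep q ∣ n →
      Exc (· ∣ n) X (ep p * ep q) p q hf)
    (F : ZMod m → ℤ) (hodd : OddF F) (hT : TateF F) (hsup : ∀ a, F a ≠ 0 → addOrderOf a ∣ n) :
    F ∈ X ⊔ relSub m := by
  have hD : ∀ f g, (f ∣ n) → g ∣ f → g ∣ n := fun f g h1 h2 => h2.trans h1
  refine mainA_aux (D := (· ∣ n)) hD X ?_ m F hodd hT (fun a _ => Nat.le_of_dvd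
    (Nat.pos_of_ne_zero (NeZero.ne m)) (addOrderOf_dvd_m a)) hsup
  intro f hf hDf hf1 hf4 hfr
  have hf0 : f ≠ 0 := f_ne_zero hf
  have hprod := eff_prod hf0 hf4 hfr
  have htot := tot_prod hf0 hf4 hfr
  have hsub : f.primeFactors ⊆ S := by
    intro p hp
    have hpp := Nat.prime_of_mem_primeFactors hp
    have hpf := Nat.dvd_of_mem_primeFactors hp
    refine hn p hpp (hpf.trans hDf) ?_
    rintro rfl
    have : 4 ∣ f := by omega
    exact this.trans hDf
  have hcard : f.primeFactors.card ≤ 3 := (card_le_card hsub).trans hS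
  have hall : ∀ {l : List ℕ}, (∀ x ∈ f.primeFactors, x ∈ l) → ∀ r, r.Prime → r ∣ f → r ∈ l :=
    fun h r hr hrf => h r (Nat.mem_primeFactors.mpr ⟨hr, hrf, hf0⟩)
  have hpos : 0 < f.primeFactors.card := by
    rw [Finset.card_pos, Nat.nonempty_primeFactors]
    omega
  have hc : f.primeFactors.card = 1 ∨ f.primeFactors.card = 2 ∨ f.primeFactors.card = 3 := by
    omega
  rcases hc with hc | hc | hc
  · obtain ⟨p, hp⟩ := Finset.card_eq_one.mp hc
    have hpm : p ∈ f.primeFactors := by rw [hp]; exact mem_singleton_self p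
    exact step_one hD X hf0 hf hDf p (Nat.prime_of_mem_primeFactors hpm)
      (Nat.dvd_of_mem_primeFactors hpm) (hall (by rw [hp]; simp))
  · obtain ⟨p', q', hpq', hp'⟩ := Finset.card_eq_two.mp hc
    obtain ⟨p, q, hpq, hp⟩ : ∃ p q, p < q ∧ f.primeFactors = {p, q} := by
      rcases lt_or_gt_of_ne hpq' with h | h
      · exact ⟨p', q', h, hp'⟩
      · exact ⟨q', p', h, by rw [hp', pair_comm]⟩
    have hpm : p ∈ f.primeFactors := by rw [hp]; simp
    have hqm : q ∈ f.primeFactors := by rw [hp]; simp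
    rw [hp, prod_pair hpq.ne] at htot
    have hfe := ep_mul_of_pair hpq.ne hprod hp
    have hall' := hall (l := [p, q]) (by rw [hp]; simp)
    have hpp := Nat.prime_of_mem_primeFactors hpm
    have hqq := Nat.prime_of_mem_primeFactors hqm
    have hpf := Nat.dvd_of_mem_primeFactors hpm
    have hqf := Nat.dvd_of_mem_primeFactors hqm
    have hpS := hsub hpm
    have hqS := hsub hqm
    clear hp hpm hqm hc hcard hpos hsub hprod hall hf4 hfr hf1
    subst hfe
    exact step_two hD X hf0 hf hDf p q hpp hqq hpq.ne hpf hqf hall' htot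
      (hE p q hpq hpS hqS hf hDf)
  · obtain ⟨p, q, r, hpq, hpr, hqr, hp⟩ := Finset.card_eq_three.mp hc
    have hpm : p ∈ f.primeFactors := by rw [hp]; simp
    have hqm : q ∈ f.primeFactors := by rw [hp]; simp
    have hrm : r ∈ f.primeFactors := by rw [hp]; simp
    have hpp := Nat.prime_of_mem_primeFactors hpm
    have hqq := Nat.prime_of_mem_primeFactors hqm
    have hrr := Nat.prime_of_mem_primeFactors hrm
    have hpf := Nat.dvd_of_mem_primeFactors hpm
    have hqf := Nat.dvd_of_mem_primeFactors hqm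
    have hrf := Nat.dvd_of_mem_primeFactors hrm
    have htot' : (if r ∣ f / r then r else r - 1) * ((if p ∣ f / p then p else p - 1) *
        (if q ∣ f / q then q else q - 1)) = f.totient := by
      rw [← htot, hp, prod_insert (by simp [hpq, hpr]), prod_pair hqr]
      ring
    have key : ∀ a b c : ℕ, a.Prime → b.Prime → c.Prime → a ∣ f → b ∣ f → c ∣ f → a ≠ b → a ≠ c →
        b ≠ c → ¬ f ∣ 2 * (a * b) := by
      intro a b c ha hb hc ha' hb' hc' hab hac hbc h
      have h1 : c ∣ 2 * (a * b) := hc'.trans h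
      rcases (Nat.Prime.dvd_mul hc).mp h1 with h2 | h2
      · have hc2 : c = 2 := (Nat.prime_dvd_prime_iff_eq hc Nat.prime_two).mp h2
        subst hc2
        have h4 : 4 ∣ 2 * (a * b) := by
          have : 4 ∣ f := by omega
          exact this.trans h
        have h5 : 2 ∣ a * b := by omega
        rcases (Nat.Prime.dvd_mul Nat.prime_two).mp h5 with h6 | h6
        · exact hac ((Nat.prime_dvd_prime_iff_eq Nat.prime_two ha).mp h6).symm
        · exact hbc ((Nat.prime_dvd_prime_iff_eq Nat.prime_two hb).mp h6).symm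
      · rcases (Nat.Prime.dvd_mul hc).mp h2 with h3 | h3
        · exact hac ((Nat.prime_dvd_prime_iff_eq hc ha).mp h3).symm
        · exact hbc ((Nat.prime_dvd_prime_iff_eq hc hb).mp h3).symm
    exact step_three hD X hf0 hf hDf p q r hpp hqq hrr hpf hqf hrf hpq hpr hqr
      (hall (l := [r, p, q]) (by rw [hp]; simp)) htot'
      (key p q r hpp hqq hrr hpf hqf hrf hpq hpr hqr)
      (key p r q hpp hrr hqq hpf hrf hqf hpr hpq hqr.symm)
      (key q r p hqq hrr hpp hqf hrf hpf hqr hpq.symm hpr.symm)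

end Pool.Agent.Lib.MP_938ce2_ag_h99
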