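import Pool.Agent.Lib.MP_938ce2_ag_h99.ExcData2
import Pool.Agent.Lib.MP_938ce2_ag_h99.Smooth2
import Pool.Agent.Lib.MP_938ce2_ag_h99.Final

/-!
Tate characters of even degree in terms of pairs of prime factors, with characters carried by
uniruled fourfolds.
-/

set_option autoImplicit false
set_option linter.style.haveILetI false
set_option linter.unusedSectionVars false

open Finset

namespace Pool.Agent.Lib.MP_938ce2_ag_h99

open Pool.Agent.Lib.MP_938ce2_ag_h6

variable {m : ℕ} [NeZero m]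

/-- tiny pairs of primes -/
def Tin (p q : ℕ) : Prop := p = 2 ∧ q ≤ 13 ∨ p = 3 ∧ q ≤ 19 ∨ p = 5 ∧ q = 7

instance (p q : ℕ) : Decidable (Tin p q) := by
  unfold Tin
  infer_instance

/-- there is an exceptional class for each tiny pair -/
theorem excAll {n p q : ℕ} (hq : q.Prime) (hpq : p < q) (h : Tin p q)
    (h2n : 2 ∣ n) (hnm : n ∣ m) (hf : ep p * ep q ∣ m) (hn : ep p * ep q ∣ n) :
    Exc (· ∣ n) (XF m) (ep p * ep q) p q hf := by
  have hXF : XX m ≤ XF m := XX_le_YY _
  rcases h with ⟨rfl, h⟩ | ⟨rfl, h⟩ | ⟨rfl, rfl⟩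
  · interval_cases q
    · exact (exc12 hf hn).mono hXF
    · exact absurd hq (by norm_num)
    · exact (exc20 hf hn).mono hXF
    · exact absurd hq (by norm_num)
    · exact (exc28 hf hn).mono hXF
    · exact absurd hq (by norm_num)
    · exact absurd hq (by norm_num)
    · exact absurd hq (by norm_num)
    · exact exc44 hf hn
    · exact absurd hq (by norm_num)
    · exact exc52 hf hn
  · interval_cases q
    · exact absurd hq (by norm_num)
    · exact (exc15 hf hn).mono hXF
    · exact absurd hq (by norm_num)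
    · exact (exc21 hf hn).mono hXF
    · exact absurd hq (by norm_num)
    · exact absurd hq (by norm_num)
    · exact absurd hq (by norm_num)
    · have h2 : 66 ∣ n := by
        have : 33 ∣ n := hn
        omega
      exact (exc33 (h2.trans hnm) hf h2).mono hXF
    · exact absurd hq (by norm_num)
    · have h2 : 78 ∣ n := by
        have : 39 ∣ n := hn
        omega
      exact (exc39 (h2.trans hnm) hf h2).mono hXF
    · exact absurd hq (by norm_num)
    · exact absurd hq (by norm_num)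
    · exact absurd hq (by norm_num)
    · have h2 : 102 ∣ n := by
        have : 51 ∣ n := hn
        omega
      exact exc51 (h2.trans hnm) hf h2
    · exact absurd hq (by norm_num)
    · have h2 : 114 ∣ n := by
        have : 57 ∣ n := hn
        omega
      exact exc57 (h2.trans hnm) hf h2
  · have h2 : 70 ∣ n := by
      have : 35 ∣ n := hn
      omega
    exact exc35 (h2.trans hnm) hf h2

/-- odd functions satisfying the Tate condition, with orders dividing `n` -/
theorem small_mem2 {n : ℕ} (hnm : n ∣ m) (h2n : 2 ∣ n) (S : Finset ℕ) (hS : S.card ≤ 3)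
    (hSp : ∀ p ∈ S, p.Prime)
    (hn : ∀ p, p.Prime → p ∣ n → (p = 2 → 4 ∣ n) → p ∈ S)
    (hST : ∀ p q, p < q → p ∈ S → q ∈ S → Tin p q)
    (F : ZMod m → ℤ) (hodd : OddF F) (hT : TateF F) (hsup : ∀ a, F a ≠ 0 → addOrderOf a ∣ n) :
    F ∈ XF m ⊔ relSub m :=
  smooth_three (XF m) S hS hn (fun p q hpq hp hq hf hfn =>
    excAll (hSp q hq) hpq (hST p q hpq hp hq) h2n hnm hf hfn) F hodd hT hsup

/-- the size of a prime -/
def sizeN (p : ℕ) : ℕ := if p = 2 then 2 else p - 1

lemma clique : ∀ S ∈ ({2, 3, 5, 7, 11, 13, 17, 19} : Finset ℕ).powerset,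
    (∀ p ∈ S, ∀ q ∈ S, p < q → Tin p q) → ¬ (2 ∈ S ∧ 3 ∈ S ∧ 5 ∈ S ∧ 7 ∈ S) →
    S.card ≤ 3 ∧ (S.card = 3 → 2 ∉ S → 3 ∈ S) := by
  decide +kernel

theorem tate_alg (h2 : 2 ∣ m) (h420 : ¬ 420 ∣ m) (s : Multiset (ZMod m)) (hs : IsTate s)
    (hex : ∃ p q, p < q ∧ Eff m p ∧ Eff m q ∧ Tin p q)
    (h : ∀ p q, p < q → Eff m p → Eff m q → Tin p q ∨ 64 * s.card < sizeN p * sizeN q) :
    IsAlgG Fano s := by
  classical
  by_cases hcard : s.card ≤ 4
  · exact IsAlgG.low s hs hcard
  have hev := (isTate_iff.mp hs).2.1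
  have h6 : 6 ≤ s.card := by
    obtain ⟨k, hk⟩ := hev
    omega
  have hm0 : m ≠ 0 := NeZero.ne m
  set ms := ∏ p ∈ m.primeFactors.filter (· ≤ 19), p ^ m.factorization p with hms
  set ml := ∏ p ∈ m.primeFactors.filter (¬ · ≤ 19), p ^ m.factorization p with hml
  have hmm : m = ms * ml := by
    rw [hms, hml, prod_filter_mul_prod_filter_not]
    exact (Nat.prod_factorization_pow_eq_self hm0).symm
  have hprime_ms : ∀ q, q.Prime → q ∣ ms → q ≤ 19 ∧ q ∣ m := by
    intro q hq hqm
    obtain ⟨p, hp, hqp⟩ := (Prime.dvd_finsetProd_iff hq.prime _).mp hqm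
    have h1 := mem_filter.mp hp
    have h2 := Nat.prime_of_mem_primeFactors h1.1
    have h3 := (Nat.prime_dvd_prime_iff_eq hq h2).mp (hq.dvd_of_dvd_pow hqp)
    rw [h3]
    exact ⟨h1.2, Nat.dvd_of_mem_primeFactors h1.1⟩
  have hprime_ml : ∀ q, q.Prime → q ∣ ml → 19 < q ∧ q ∣ m := by
    intro q hq hqm
    obtain ⟨p, hp, hqp⟩ := (Prime.dvd_finsetProd_iff hq.prime _).mp hqm
    have h1 := mem_filter.mp hp
    have h2 := Nat.prime_of_mem_primeFactors h1.1
    have h3 := (Nat.prime_dvd_prime_iff_eq hq h2).mp (hq.dvd_of_dvd_pow hqp)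
    rw [h3]
    exact ⟨not_le.mp h1.2, Nat.dvd_of_mem_primeFactors h1.1⟩
  have hcop : Nat.Coprime ms ml := by
    apply Nat.coprime_of_dvd
    intro q hq h1 h2
    have := (hprime_ml q hq h2).1
    have := (hprime_ms q hq h1).1
    omega
  have hml2 : ¬ 2 ∣ ml := fun h => by
    have := (hprime_ml 2 Nat.prime_two h).1
    omega
  have hms0 : ms ≠ 0 := by
    intro h
    rw [h, zero_mul] at hmm
    exact hm0 hmm
  have hmsm : ms ∣ m := ⟨ml, hmm⟩
  have h2ms : 2 ∣ ms := by
    rw [hmm] at h2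
    exact ((Nat.Prime.dvd_mul Nat.prime_two).mp h2).resolve_right hml2
  -- the effective small primes
  set S := ms.primeFactors.filter (fun p => p = 2 → 4 ∣ m) with hSdef
  have hSp : ∀ p ∈ S, p.Prime := fun p hp => Nat.prime_of_mem_primeFactors (mem_filter.mp hp).1
  have hSE : ∀ p ∈ S, Eff m p := fun p hp =>
    ⟨hSp p hp, (Nat.dvd_of_mem_primeFactors (mem_filter.mp hp).1).trans hmsm, (mem_filter.mp hp).2⟩
  have hS19 : ∀ p ∈ S, p ≤ 19 := fun p hp =>
    (hprime_ms p (hSp p hp) (Nat.dvd_of_mem_primeFactors (mem_filter.mp hp).1)).1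
  have hST : ∀ p q, p < q → p ∈ S → q ∈ S → Tin p q := by
    intro p q hpq hp hq
    rcases h p q hpq (hSE p hp) (hSE q hq) with h1 | h1
    · exact h1
    · exfalso
      have e1 : sizeN p ≤ 18 := by
        have := hS19 p hp
        unfold sizeN
        split_ifs <;> omega
      have e2 : sizeN q ≤ 18 := by
        have := hS19 q hq
        unfold sizeN
        split_ifs <;> omega
      have e3 : sizeN p * sizeN q ≤ 18 * 18 := Nat.mul_le_mul e1 e2
      omega
  have hSsub : S ∈ ({2, 3, 5, 7, 11, 13, 17, 19} : Finset ℕ).powerset := by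
    rw [mem_powerset]
    intro p hp
    have h1 := hS19 p hp
    have h2 := hSp p hp
    interval_cases p <;> first | decide | (exfalso; revert h2; norm_num)
  have hno : ¬ (2 ∈ S ∧ 3 ∈ S ∧ 5 ∈ S ∧ 7 ∈ S) := by
    rintro ⟨a2, a3, a5, a7⟩
    have b2 := (hSE 2 a2).2.2 rfl
    have b3 := (hSE 3 a3).2.1
    have b5 := (hSE 5 a5).2.1
    have b7 := (hSE 7 a7).2.1
    apply h420
    omega
  obtain ⟨hS3, hS3'⟩ := clique S hSsub (fun p hp q hq hpq => hST p q hpq hp hq) hno
  have hcardms : ms.primeFactors.card ≤ S.card + 1 := by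
    have h1 : ms.primeFactors ⊆ insert 2 S := by
      intro p hp
      rw [mem_insert]
      by_cases hp2 : p = 2
      · exact Or.inl hp2
      · exact Or.inr (mem_filter.mpr ⟨hp, fun h => absurd h hp2⟩)
    exact (card_le_card h1).trans (card_insert_le _ _)
  have hcardms2 : 2 ∈ S → ms.primeFactors.card ≤ S.card := by
    intro h2S
    apply card_le_card
    intro p hp
    by_cases hp2 : p = 2
    · rw [hp2]; exact h2S
    · exact mem_filter.mpr ⟨hp, fun h => absurd h hp2⟩
  -- large primes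
  obtain ⟨p0, q0, hpq0, hp0, hq0, hT0⟩ := hex
  have hp05 : p0 ≤ 5 := by
    unfold Tin at hT0
    omega
  have hlarge : ∀ q, q.Prime → q ∣ ml →
      2 ^ ms.primeFactors.card * (2 * s.card) < q - 1 := by
    intro q hq hqm
    have h5 := hprime_ml q hq hqm
    have hqE : Eff m q := ⟨hq, h5.2, fun h => by omega⟩
    have hqs : sizeN q = q - 1 := by
      unfold sizeN
      rw [if_neg (by omega)]
    have key : ∀ p, Eff m p → p ≤ 5 → 64 * s.card < sizeN p * (q - 1) := by
      intro p hp hp5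
      rcases h p q (by omega) hp hqE with h1 | h1
      · unfold Tin at h1
        omega
      · rwa [hqs] at h1
    have k0 := key p0 hp0 hp05
    have s0 : sizeN p0 ≤ 4 := by
      unfold sizeN
      split_ifs <;> omega
    have k1 : 64 * s.card < 4 * (q - 1) := lt_of_lt_of_le k0 (Nat.mul_le_mul_right _ s0)
    by_cases h4 : ms.primeFactors.card ≤ 3
    · have e : 2 ^ ms.primeFactors.card ≤ 2 ^ 3 := Nat.pow_le_pow_right (by norm_num) h4
      calc 2 ^ ms.primeFactors.card * (2 * s.card) ≤ 2 ^ 3 * (2 * s.card) :=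
            Nat.mul_le_mul_right _ e
        _ < q - 1 := by omega
    · have h2S : 2 ∉ S := fun h2S => h4 ((hcardms2 h2S).trans hS3)
      have h3S : 3 ∈ S := hS3' (by omega) h2S
      have k3 := key 3 (hSE 3 h3S) (by norm_num)
      have s3 : sizeN 3 = 2 := rfl
      rw [s3] at k3
      have e : 2 ^ ms.primeFactors.card ≤ 2 ^ 4 :=
        Nat.pow_le_pow_right (by norm_num) (hcardms.trans (by omega))
      calc 2 ^ ms.primeFactors.card * (2 * s.card) ≤ 2 ^ 4 * (2 * s.card) :=
            Nat.mul_le_mul_right _ e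
        _ < q - 1 := by omega
  obtain ⟨F', h1, h2', h3, h4, _⟩ := reduce_large hmm hcop hml2 (oddPart s) (oddPart_odd s)
    (isTate_iff.mp hs).2.2 (by
      intro q hq hqm
      have h7 : (univ.filter fun a => oddPart s a ≠ 0).card ≤ 2 * s.card := by
        exact_mod_cast card_supp_le s
      exact lt_of_le_of_lt (Nat.mul_le_mul_left _ h7) (hlarge q hq hqm))
  have h5 : F' ∈ XF m ⊔ relSub m := by
    apply small_mem2 hmsm h2ms S hS3 hSp ?_ hST F' h2' h3 h4
    intro p hp hpn hp4
    exact mem_filter.mpr ⟨Nat.mem_primeFactors.mpr ⟨hp, hpn, hms0⟩, fun e => (hp4 e).trans hmsm⟩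
  apply isAlgG_of_mem (fun s hs => hs.neg) hs
  have h6 : oddPart s = (oddPart s - F') + F' := by abel
  rw [h6]
  exact (XF m ⊔ relSub m).add_mem (AddSubgroup.mem_sup_right h1) h5

end Pool.Agent.Lib.MP_938ce2_ag_h99
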