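import Pool.Agent.Lib.MP_938ce2_ag_h99.Final2
import Pool.Agent.Lib.MP_938ce2_ag_h99.Drop

/-!
Tate characters of even degree: only the prime factors up to `6 l + 1` matter.
-/

set_option autoImplicit false
set_option linter.style.haveILetI false
set_option linter.unusedSectionVars false

open Finset

namespace Pool.Agent.Lib.MP_938ce2_ag_h99

open Pool.Agent.Lib.MP_938ce2_ag_h6

variable {m : ℕ} [NeZero m]

/-- tiny pairs of primes, for the classical constructions only or for all constructions -/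
def TinB (e : Bool) (p q : ℕ) : Prop :=
  p ≤ 3 ∧ q ≤ 7 ∨ p = 3 ∧ q ≤ 13 ∨ e = true ∧ Tin p q

/-- the additional class of characters -/
def GE (e : Bool) (s : Multiset (ZMod m)) : Prop := e = true ∧ Fano s

lemma GE_neg (e : Bool) : ∀ s : Multiset (ZMod m), GE e s → GE e (s.map fun x => -x) :=
  fun _ hs => ⟨hs.1, hs.2.neg⟩

lemma XF_le : XF m ≤ YY (GE (m := m) true) := by
  unfold XF YY
  apply AddSubgroup.closure_mono
  rintro _ ⟨r, hr, hc, rfl⟩
  exact ⟨r, hr, hc.imp_right fun h => ⟨rfl, h⟩, rfl⟩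

lemma TinB.tin {e : Bool} {p q : ℕ} (hp : p.Prime) (h : TinB e p q) : Tin p q := by
  have := hp.two_le
  unfold TinB Tin at *
  omega

theorem excB {e : Bool} {n p q : ℕ} (hp : p.Prime) (hq : q.Prime) (hpq : p < q) (h : TinB e p q)
    (h2n : 2 ∣ n) (hnm : n ∣ m) (hf : ep p * ep q ∣ m) (hn : ep p * ep q ∣ n) :
    Exc (· ∣ n) (YY (GE (m := m) e)) (ep p * ep q) p q hf := by
  have hXX : XX m ≤ YY (GE (m := m) e) := XX_le_YY _
  rcases h with ⟨h1, h2⟩ | ⟨rfl, h2⟩ | ⟨rfl, h⟩
  · interval_cases p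
    · exact absurd hp (by norm_num)
    · exact absurd hp (by norm_num)
    · interval_cases q
      · exact (exc12 hf hn).mono hXX
      · exact absurd hq (by norm_num)
      · exact (exc20 hf hn).mono hXX
      · exact absurd hq (by norm_num)
      · exact (exc28 hf hn).mono hXX
    · interval_cases q
      · exact absurd hq (by norm_num)
      · exact (exc15 hf hn).mono hXX
      · exact absurd hq (by norm_num)
      · exact (exc21 hf hn).mono hXX
  · interval_cases q
    · exact absurd hq (by norm_num)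
    · exact (exc15 hf hn).mono hXX
    · exact absurd hq (by norm_num)
    · exact (exc21 hf hn).mono hXX
    · exact absurd hq (by norm_num)
    · exact absurd hq (by norm_num)
    · exact absurd hq (by norm_num)
    · have h2 : 66 ∣ n := by
        have : 33 ∣ n := hn
        omega
      exact (exc33 (h2.trans hnm) hf h2).mono hXX
    · exact absurd hq (by norm_num)
    · have h2 : 78 ∣ n := by
        have : 39 ∣ n := hn
        omega
      exact (exc39 (h2.trans hnm) hf h2).mono hXX
  · exact (excAll hq hpq h h2n hnm hf hn).mono XF_le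

/-- Main theorem: if the effective primes up to `6 l + 1` are pairwise tiny, and `420` does not
divide the even number `m`, then all Tate characters of length `l` are algebraic. -/
theorem tate_alg2 (e : Bool) (h2 : 2 ∣ m) (h420 : ¬ 420 ∣ m) (s : Multiset (ZMod m))
    (hs : IsTate s)
    (h : ∀ p q, p < q → q ≤ 6 * s.card + 1 → Eff m p → Eff m q → TinB e p q) :
    IsAlgG (GE e) s := by
  classical
  by_cases hcard : s.card ≤ 4
  · exact IsAlgG.low s hs hcard
  set L := 6 * s.card + 1 with hL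
  have hm0 : m ≠ 0 := NeZero.ne m
  set ms := ∏ p ∈ m.primeFactors.filter (· ≤ L), p ^ m.factorization p with hms
  set ml := ∏ p ∈ m.primeFactors.filter (¬ · ≤ L), p ^ m.factorization p with hml
  have hmm : m = ms * ml := by
    rw [hms, hml, prod_filter_mul_prod_filter_not]
    exact (Nat.prod_factorization_pow_eq_self hm0).symm
  have hprime_ms : ∀ q, q.Prime → q ∣ ms → q ≤ L ∧ q ∣ m := by
    intro q hq hqm
    obtain ⟨p, hp, hqp⟩ := (Prime.dvd_finsetProd_iff hq.prime _).mp hqm
    have h1 := mem_filter.mp hp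
    have h2 := Nat.prime_of_mem_primeFactors h1.1
    have h3 := (Nat.prime_dvd_prime_iff_eq hq h2).mp (hq.dvd_of_dvd_pow hqp)
    rw [h3]
    exact ⟨h1.2, Nat.dvd_of_mem_primeFactors h1.1⟩
  have hprime_ml : ∀ q, q.Prime → q ∣ ml → L < q ∧ q ∣ m := by
    intro q hq hqm
    obtain ⟨p, hp, hqp⟩ := (Prime.dvd_finsetProd_iff hq.prime _).mp hqm
    have h1 := mem_filter.mp hp
    have h2 := Nat.prime_of_mem_primeFactors h1.1
    have h3 := (Nat.prime_dvd_prime_iff_eq hq h2).mp (hq.dvd_of_dvd_pow hqp)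
    rw [h3]
    exact ⟨not_le.mp h1.2, Nat.dvd_of_mem_primeFactors h1.1⟩
  have hml2 : ¬ 2 ∣ ml := fun h => by
    have := (hprime_ml 2 Nat.prime_two h).1
    omega
  have hms0 : ms ≠ 0 := by
    intro h
    rw [h, zero_mul] at hmm
    exact hm0 hmm
  have hmsm : ms ∣ m := ⟨ml, hmm⟩
  have h2ms : 2 ∣ ms := by
    rw [hmm] at h2
    exact ((Nat.Prime.dvd_mul Nat.prime_two).mp h2).resolve_right hml2
  -- drop the large primes
  obtain ⟨F0, d1, d2, d3, d4⟩ := drop_all (m := m) (m.primeFactors.filter (¬ · ≤ L))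
    (fun q hq => Nat.prime_of_mem_primeFactors (mem_filter.mp hq).1) (oddPart s) (oddPart_odd s)
    (isTate_iff.mp hs).2.2 (by
      intro q hq
      have h1 := (mem_filter.mp hq).2
      have h2 := l1_le s
      have h3 : (L : ℤ) < q := by exact_mod_cast not_le.mp h1
      rw [hL] at h3
      push_cast at h3
      linarith)
  have hsup : ∀ a, F0 a ≠ 0 → addOrderOf a ∣ ms := by
    intro a ha
    have h1 := (d4 a ha).2
    have h2 : addOrderOf a ∣ ms * ml := (addOrderOf_dvd_m a).trans (dvd_of_eq hmm)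
    apply Nat.Coprime.dvd_of_dvd_mul_right _ h2
    apply Nat.coprime_of_dvd
    intro q hq g1 g2
    have g3 := hprime_ml q hq g2
    exact h1 q (mem_filter.mpr ⟨Nat.mem_primeFactors.mpr ⟨hq, g3.2, hm0⟩, not_le.mpr g3.1⟩) g1
  -- the effective small primes
  set S := ms.primeFactors.filter (fun p => p = 2 → 4 ∣ m) with hSdef
  have hSp : ∀ p ∈ S, p.Prime := fun p hp => Nat.prime_of_mem_primeFactors (mem_filter.mp hp).1
  have hSE : ∀ p ∈ S, Eff m p := fun p hp =>
    ⟨hSp p hp, (Nat.dvd_of_mem_primeFactors (mem_filter.mp hp).1).trans hmsm, (mem_filter.mp hp).2⟩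
  have hSL : ∀ p ∈ S, p ≤ L := fun p hp =>
    (hprime_ms p (hSp p hp) (Nat.dvd_of_mem_primeFactors (mem_filter.mp hp).1)).1
  have hST : ∀ p q, p < q → p ∈ S → q ∈ S → TinB e p q := fun p q hpq hp hq =>
    h p q hpq (hSL q hq) (hSE p hp) (hSE q hq)
  have hS3 : S.card ≤ 3 := by
    by_cases hS1 : S.card ≤ 1
    · omega
    have hS19 : ∀ p ∈ S, p ≤ 19 := by
      intro p hp
      obtain ⟨x, hx, y, hy, hxy⟩ := Finset.one_lt_card.mp (not_le.mp hS1)
      obtain ⟨z, hz, hzp⟩ : ∃ z ∈ S, z ≠ p := by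
        by_cases hxp : x = p
        · exact ⟨y, hy, fun h => hxy (hxp.trans h.symm)⟩
        · exact ⟨x, hx, hxp⟩
      rcases lt_or_gt_of_ne hzp with h1 | h1
      · have h2 := (hST z p h1 hz hp).tin (hSp z hz)
        unfold Tin at h2
        omega
      · have h2 := (hST p z h1 hp hz).tin (hSp p hp)
        unfold Tin at h2
        omega
    have hSsub : S ∈ ({2, 3, 5, 7, 11, 13, 17, 19} : Finset ℕ).powerset := by
      rw [mem_powerset]
      intro p hp
      have h1 := hS19 p hp
      have h2 := hSp p hp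
      clear hp
      interval_cases p <;> first | decide | (exfalso; revert h2; norm_num)
    have hno : ¬ (2 ∈ S ∧ 3 ∈ S ∧ 5 ∈ S ∧ 7 ∈ S) := by
      rintro ⟨a2, a3, a5, a7⟩
      have b2 := (hSE 2 a2).2.2 rfl
      have b3 := (hSE 3 a3).2.1
      have b5 := (hSE 5 a5).2.1
      have b7 := (hSE 7 a7).2.1
      apply h420
      omega
    exact (clique S hSsub (fun p hp q hq hpq => (hST p q hpq hp hq).tin (hSp p hp)) hno).1
  have h5 : F0 ∈ YY (GE (m := m) e) ⊔ relSub m := by
    refine smooth_three (YY (GE e)) S hS3 ?_ ?_ F0 d2 d3 hsup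
    · intro p hp hpn hp4
      exact mem_filter.mpr ⟨Nat.mem_primeFactors.mpr ⟨hp, hpn, hms0⟩,
        fun e => (hp4 e).trans hmsm⟩
    · intro p q hpq hp hq hf hfn
      exact excB (hSp p hp) (hSp q hq) hpq (hST p q hpq hp hq) h2ms hmsm hf hfn
  apply isAlgG_of_mem (GE_neg e) hs
  have h6 : oddPart s = (oddPart s - F0) + F0 := by abel
  rw [h6]
  exact (YY (GE e) ⊔ relSub m).add_mem (AddSubgroup.mem_sup_right d1) h5

end Pool.Agent.Lib.MP_938ce2_ag_h99
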