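import Pool.Agent.Lib.MP_938ce2_ag_h99.Fun4
import Pool.Agent.Lib.MP_938ce2_ag_h99.Final3

/-!
Tate characters of length `l`: only the prime factors up to `2 l + 1` matter, and for the prime `3`
those up to `4 l + 1`.
-/

set_option autoImplicit false
set_option linter.style.haveILetI false
set_option linter.unusedSectionVars false

open Finset

namespace Pool.Agent.Lib.MP_938ce2_ag_h99

open Pool.Agent.Lib.MP_938ce2_ag_h6

lemma Eff.of_dvd_lcm {m f p : ℕ} (hf4 : f % 4 ≠ 2) (hf : f ∣ Nat.lcm 2 m) (hp : p ∈ f.primeFactors) :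
    Eff m p := by
  have hpp := Nat.prime_of_mem_primeFactors hp
  have hpf := Nat.dvd_of_mem_primeFactors hp
  have hlcm : Nat.lcm 2 m ∣ 2 * m := Nat.lcm_dvd_mul 2 m
  have key : p = 2 → 4 ∣ m := by
    rintro rfl
    have h4 : 4 ∣ f := by omega
    have h5 : 4 ∣ Nat.lcm 2 m := h4.trans hf
    by_cases h2 : 2 ∣ m
    · rwa [Nat.lcm_eq_right h2] at h5
    · exfalso
      have h6 : 4 ∣ 2 * m := h5.trans hlcm
      omega
  by_cases hp2 : p = 2
  · exact ⟨hpp, by rw [hp2]; exact (by norm_num : 2 ∣ 4).trans (key hp2), key⟩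
  · refine ⟨hpp, ?_, key⟩
    have h6 : p ∣ 2 * m := (hpf.trans hf).trans hlcm
    rcases (Nat.Prime.dvd_mul hpp).mp h6 with h7 | h7
    · exact absurd ((Nat.prime_dvd_prime_iff_eq hpp Nat.prime_two).mp h7) hp2
    · exact h7

variable {m : ℕ} [NeZero m]

theorem tate_fun4 {M : ℕ} [NeZero M] (hM : 2 * m ∣ M) {l : ℕ} (hl : 6 ≤ l)
    (h420 : ¬ 420 ∣ m)
    (h : ∀ p q, p < q → Eff m p → Eff m q → Tin p q ∨ (if p = 3 then 4 * l + 1 else 2 * l + 1) < q)
    {F : ZMod M → ℤ} (ho : OddF F) (hT : TateF F) (hN : ∑ a, |F a| ≤ 2 * l)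
    (hs : ∀ a, F a ≠ 0 → addOrderOf a ∣ m) : F ∈ XF M ⊔ relSub M := by
  classical
  have hlcm : Nat.lcm 2 m ∣ M := (Nat.lcm_dvd_mul 2 m).trans hM
  refine fun4 (XF M) (m0 := Nat.lcm 2 m) (l := l) hlcm (Nat.dvd_lcm_left 2 m) (by omega) ?_ ?_ ho hT hN
    (fun a ha => (hs a ha).trans (Nat.dvd_lcm_right 2 m))
  · intro h3 q hq hqm hq1 hq2
    have e3 : Eff m 3 := Eff.of_dvd_lcm (f := 3) (by norm_num) h3 (by
      rw [Nat.Prime.primeFactors Nat.prime_three]
      exact mem_singleton_self 3)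
    have eq : Eff m q := Eff.of_dvd_lcm (f := q) (by
      have := hq.eq_two_or_odd
      omega) hqm (by
      rw [Nat.Prime.primeFactors hq]
      exact mem_singleton_self q)
    have h6 : 6 ∣ M := by
      have h7 : 2 * m ∣ M := hM
      have h8 : 3 ∣ m := e3.2.1
      have h9 : 2 * 3 ∣ 2 * m := Nat.mul_dvd_mul_left 2 h8
      exact h9.trans h7
    rcases h 3 q (by omega) e3 eq with h5 | h5
    · have h10 : q ≤ 19 := by
        unfold Tin at h5
        omega
      refine ref3 h6 ?_
      interval_cases q <;> first | omega | (exfalso; revert hq; norm_num)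
    · rw [if_pos rfl] at h5
      omega
  · intro ns hns h2ns f hf hfn hf1 hf4 hfr hev hL
    right
    have hf0 : f ≠ 0 := f_ne_zero hf
    have hEff : ∀ p ∈ f.primeFactors, Eff m p := fun p hp =>
      Eff.of_dvd_lcm hf4 (hfn.trans hns) hp
    have hTin : ∀ p ∈ f.primeFactors, ∀ q ∈ f.primeFactors, p < q → Tin p q := by
      intro p hp q hq hpq
      rcases h p q hpq (hEff p hp) (hEff q hq) with h5 | h5
      · exact h5
      · have := hL q hq
        split_ifs at h5 <;> omega
    have hpos : 0 < f.primeFactors.card := by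
      rw [Finset.card_pos, Nat.nonempty_primeFactors]
      omega
    have hcard2 : 2 ≤ f.primeFactors.card := by
      obtain ⟨k, hk⟩ := hev
      omega
    have hS19 : ∀ p ∈ f.primeFactors, p ≤ 19 := by
      intro p hp
      obtain ⟨x, hx, y, hy, hxy⟩ := Finset.one_lt_card.mp (by omega : 1 < f.primeFactors.card)
      obtain ⟨z, hz, hzp⟩ : ∃ z ∈ f.primeFactors, z ≠ p := by
        by_cases hxp : x = p
        · exact ⟨y, hy, fun h => hxy (hxp.trans h.symm)⟩
        · exact ⟨x, hx, hxp⟩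
      rcases lt_or_gt_of_ne hzp with h1 | h1
      · have h2 := hTin z hz p hp h1
        unfold Tin at h2
        omega
      · have h2 := hTin p hp z hz h1
        unfold Tin at h2
        omega
    have hSsub : f.primeFactors ∈ ({2, 3, 5, 7, 11, 13, 17, 19} : Finset ℕ).powerset := by
      rw [mem_powerset]
      intro p hp
      have h1 := hS19 p hp
      have h2 := Nat.prime_of_mem_primeFactors hp
      clear hp
      interval_cases p <;> first | decide | (exfalso; revert h2; norm_num)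
    have hno : ¬ (2 ∈ f.primeFactors ∧ 3 ∈ f.primeFactors ∧ 5 ∈ f.primeFactors ∧
        7 ∈ f.primeFactors) := by
      rintro ⟨a2, a3, a5, a7⟩
      have b2 := (hEff 2 a2).2.2 rfl
      have b3 := (hEff 3 a3).2.1
      have b5 := (hEff 5 a5).2.1
      have b7 := (hEff 7 a7).2.1
      apply h420
      omega
    have h3 := (clique _ hSsub hTin hno).1
    have hc2 : f.primeFactors.card = 2 := by
      obtain ⟨k, hk⟩ := hev
      omega
    obtain ⟨p', q', hpq', hp'⟩ := Finset.card_eq_two.mp hc2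
    obtain ⟨p, q, hpq, hp⟩ : ∃ p q, p < q ∧ f.primeFactors = {p, q} := by
      rcases lt_or_gt_of_ne hpq' with h | h
      · exact ⟨p', q', h, hp'⟩
      · exact ⟨q', p', h, by rw [hp', pair_comm]⟩
    refine ⟨p, q, hpq, hp, ?_⟩
    have hpm : p ∈ f.primeFactors := by rw [hp]; simp
    have hqm : q ∈ f.primeFactors := by rw [hp]; simp
    have hfe := ep_mul_of_pair hpq.ne (eff_prod hf0 hf4 hfr) hp
    have hT' := hTin p hpm q hqm hpq
    have hqq := Nat.prime_of_mem_primeFactors hqm
    clear hp hpm hqm hTin hEff hL hev hpos hcard2 hS19 hSsub hno h3 hc2 hp' hf4 hfr hf1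
    subst hfe
    exact excAll hqq hpq hT' h2ns (hns.trans hlcm) hf hfn

/-- Main theorem: algebraicity from the pairs of small effective primes. -/
theorem tate_alg4 (hm : m ∣ 2 * m) (h420 : ¬ 420 ∣ m) {s : Multiset (ZMod m)} (hs : IsTate s)
    (h : ∀ p q, p < q → Eff m p → Eff m q →
      Tin p q ∨ (if p = 3 then 4 * s.card + 1 else 2 * s.card + 1) < q) :
    haveI : NeZero (2 * m) := ⟨mul_ne_zero (by norm_num) (NeZero.ne m)⟩
    IsAlgG Fano (s.map (jj hm)) := by
  haveI : NeZero (2 * m) := ⟨mul_ne_zero (by norm_num) (NeZero.ne m)⟩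
  set s' := s.map (jj hm) with hs'
  have hT := hs.lift hm
  have hcard : s'.card = s.card := Multiset.card_map _ _
  by_cases h4 : s.card ≤ 4
  · exact IsAlgG.low s' hT (by rw [hcard]; exact h4)
  have hev := (isTate_iff.mp hs).2.1
  have h6 : 6 ≤ s.card := by
    obtain ⟨k, hk⟩ := hev
    omega
  have hl1 := l1_le s'
  have hmem := tate_fun4 (m := m) (M := 2 * m) dvd_rfl h6 h420 h (F := oddPart s') (oddPart_odd s')
    (isTate_iff.mp hT).2.2 (by
      rw [hcard] at hl1
      exact hl1) (by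
      intro a ha
      by_cases h : ∃ y, jj hm y = a
      · obtain ⟨y, rfl⟩ := h
        exact Pool.Agent.Lib.MP_938ce2_ag_H7f.order_jj_dvd hm y
      · push Not at h
        exact absurd (oddPart_lift_of_forall_ne hm s h) ha)
  exact isAlgG_of_mem (fun r hr => hr.neg) hT hmem

end Pool.Agent.Lib.MP_938ce2_ag_h99
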