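import Pool.Agent.Lib.MP_938ce2_ag_h99.Level

/-!
Characters of `(ZMod f)ˣ` and mixed differences.
-/

set_option autoImplicit false
set_option linter.style.haveILetI false
set_option linter.unusedSectionVars false

open Finset

namespace Pool.Agent.Lib.MP_938ce2_ag_h99

variable {f : ℕ} [NeZero f]

/-- Fourier inversion on `(ZMod f)ˣ` -/
lemma eq_zero_of_char_sums (F : (ZMod f)ˣ → ℤ)
    (h : ∀ χ : DirichletCharacter ℂ f, ∑ u : (ZMod f)ˣ, χ (u : ZMod f) * (F u : ℂ) = 0) :
    ∀ x, F x = 0 := by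
  intro v
  have h1 : ∑ χ : DirichletCharacter ℂ f, χ ((v : ZMod f)⁻¹) *
      ∑ u : (ZMod f)ˣ, χ (u : ZMod f) * (F u : ℂ) = 0 := by
    apply sum_eq_zero
    intro χ _
    rw [h χ, mul_zero]
  have h2 : ∑ χ : DirichletCharacter ℂ f, χ ((v : ZMod f)⁻¹) *
      ∑ u : (ZMod f)ˣ, χ (u : ZMod f) * (F u : ℂ)
      = ∑ u : (ZMod f)ˣ, (F u : ℂ) * ∑ χ : DirichletCharacter ℂ f,
        χ ((v : ZMod f)⁻¹) * χ (u : ZMod f) := by
    simp_rw [mul_sum]
    rw [sum_comm]
    refine sum_congr rfl fun u _ => sum_congr rfl fun χ _ => ?_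
    ring
  rw [h2] at h1
  have h3 : ∀ u : (ZMod f)ˣ, ∑ χ : DirichletCharacter ℂ f,
        χ ((v : ZMod f)⁻¹) * χ (u : ZMod f) = if v = u then (f.totient : ℂ) else 0 := by
    intro u
    rw [DirichletCharacter.sum_char_inv_mul_char_eq ℂ v.isUnit (u : ZMod f)]
    simp [Units.ext_iff]
  simp_rw [h3] at h1
  rw [sum_eq_single v] at h1
  · simp only [if_true] at h1
    have h4 : (f.totient : ℂ) ≠ 0 := by
      have := Nat.totient_pos.mpr (Nat.pos_of_ne_zero (NeZero.ne f))
      exact_mod_cast this.ne'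
    have h5 := (mul_eq_zero.mp h1).resolve_right h4
    exact_mod_cast h5
  · intro u _ hu
    rw [if_neg (Ne.symm hu), mul_zero]
  · intro hv
    exact absurd (mem_univ v) hv

lemma char_sum_translate (χ : DirichletCharacter ℂ f) (F : (ZMod f)ˣ → ℤ) (k : (ZMod f)ˣ) :
    ∑ u : (ZMod f)ˣ, χ (u : ZMod f) * (F (k * u) : ℂ)
      = χ ((k⁻¹ : (ZMod f)ˣ) : ZMod f) * ∑ u : (ZMod f)ˣ, χ (u : ZMod f) * (F u : ℂ) := by
  rw [mul_sum]
  refine Fintype.sum_equiv (Equiv.mulLeft k) _ _ fun u => ?_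
  rw [Equiv.coe_mulLeft, ← mul_assoc, ← map_mul, ← Units.val_mul, inv_mul_cancel_left]

/-- If the Fourier transform of `F` is supported on characters trivial on some member of `L`,
then all mixed differences of `F` along `L` vanish. -/
theorem MD_of_char : ∀ (L : List (Subgroup (ZMod f)ˣ)) (F : (ZMod f)ˣ → ℤ),
    (∀ χ : DirichletCharacter ℂ f, (∀ K ∈ L, ∃ k ∈ K, χ ((k : (ZMod f)ˣ) : ZMod f) ≠ 1) →
      ∑ u : (ZMod f)ˣ, χ (u : ZMod f) * (F u : ℂ) = 0) → MD L F := by
  intro L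
  induction L with
  | nil =>
    intro F h x
    exact eq_zero_of_char_sums F (fun χ => h χ (by simp)) x
  | cons K L ih =>
    intro F h
    rw [MD_cons]
    intro k hk
    apply ih
    intro χ hχ
    have h1 : ∑ u : (ZMod f)ˣ, χ (u : ZMod f) * ((F u - F (k * u) : ℤ) : ℂ)
        = (1 - χ ((k⁻¹ : (ZMod f)ˣ) : ZMod f)) * ∑ u : (ZMod f)ˣ, χ (u : ZMod f) * (F u : ℂ) := by
      rw [sub_mul, one_mul, ← char_sum_translate, ← sum_sub_distrib]
      refine sum_congr rfl fun u _ => ?_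
      push_cast
      ring
    rw [h1]
    by_cases hK : ∃ k ∈ K, χ ((k : (ZMod f)ˣ) : ZMod f) ≠ 1
    · rw [h χ, mul_zero]
      intro K' hK'
      rcases List.mem_cons.mp hK' with rfl | hK'
      · exact hK
      · exact hχ K' hK'
    · push Not at hK
      rw [hK _ (K.inv_mem hk), sub_self, zero_mul]

/-- The subgroup of units which are `1` modulo `f / p`. -/
def Kp (f p : ℕ) : Subgroup (ZMod f)ˣ where
  carrier := {u | (u : ZMod f) * (p : ZMod f) = p}
  mul_mem' := by
    intro a b ha hb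
    simp only [Set.mem_ofPred_eq, Units.val_mul] at *
    rw [mul_assoc, hb, ha]
  one_mem' := by simp
  inv_mem' := by
    intro a ha
    simp only [Set.mem_ofPred_eq] at *
    conv_lhs => rw [← ha]
    rw [← mul_assoc, Units.inv_mul, one_mul]

lemma mem_Kp {f p : ℕ} {u : (ZMod f)ˣ} : u ∈ Kp f p ↔ (u : ZMod f) * (p : ZMod f) = p := Iff.rfl

lemma mem_Kp_iff_unitsMap {p : ℕ} (hp : p ∣ f) (u : (ZMod f)ˣ) :
    u ∈ Kp f p ↔ ZMod.unitsMap (Nat.div_dvd_of_dvd hp) u = 1 := by
  have hp0 : p ≠ 0 := by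
    rintro rfl
    exact NeZero.ne f (Nat.eq_zero_of_zero_dvd hp)
  rw [mem_Kp]
  obtain ⟨z, hz⟩ := ZMod.intCast_surjective (u : ZMod f)
  have h1 : ZMod.unitsMap (Nat.div_dvd_of_dvd hp) u = 1 ↔ ((z : ℤ) : ZMod (f / p)) = 1 := by
    rw [Units.ext_iff, ZMod.unitsMap_val, ← hz]
    rw [ZMod.cast_intCast (Nat.div_dvd_of_dvd hp)]
    rfl
  rw [h1, ← hz]
  have h2 : ((z : ℤ) : ZMod f) * (p : ZMod f) = p ↔ (((z - 1) * p : ℤ) : ZMod f) = 0 := by
    push_cast
    rw [sub_mul, one_mul, sub_eq_zero]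
  have h3 : ((z : ℤ) : ZMod (f / p)) = 1 ↔ ((z - 1 : ℤ) : ZMod (f / p)) = 0 := by
    push_cast
    rw [sub_eq_zero]
  rw [h2, h3, ZMod.intCast_zmod_eq_zero_iff_dvd, ZMod.intCast_zmod_eq_zero_iff_dvd]
  obtain ⟨e, rfl⟩ := hp
  rw [Nat.mul_div_cancel_left e (Nat.pos_of_ne_zero hp0)]
  have hp0' : (p : ℤ) ≠ 0 := by exact_mod_cast hp0
  push_cast
  rw [mul_comm (p : ℤ) (e : ℤ)]
  exact mul_dvd_mul_iff_right hp0'

lemma Kp_eq_ker {p : ℕ} (hp : p ∣ f) : Kp f p = (ZMod.unitsMap (Nat.div_dvd_of_dvd hp)).ker := by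
  ext u
  rw [mem_Kp_iff_unitsMap hp, MonoidHom.mem_ker]

/-- A character which is nontrivial on all `Kp f p` is primitive. -/
lemma isPrimitive_of_forall {χ : DirichletCharacter ℂ f}
    (h : ∀ p, p.Prime → p ∣ f → ∃ k ∈ Kp f p, χ ((k : (ZMod f)ˣ) : ZMod f) ≠ 1) :
    χ.IsPrimitive := by
  by_contra hc
  rw [DirichletCharacter.isPrimitive_def] at hc
  have hd : χ.conductor ∣ f := χ.conductor_dvd_level
  obtain ⟨e, he⟩ := hd
  have he1 : e ≠ 1 := by
    rintro rfl
    rw [mul_one] at he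
    exact hc he.symm
  obtain ⟨p, hp, hpe⟩ := Nat.exists_prime_and_dvd he1
  obtain ⟨e', rfl⟩ := hpe
  have he' : f = p * (χ.conductor * e') := by
    calc f = χ.conductor * (p * e') := he
      _ = _ := by ring
  have hpf : p ∣ f := ⟨χ.conductor * e', he'⟩
  have hdiv : f / p = χ.conductor * e' := Nat.div_eq_of_eq_mul_right hp.pos he'
  have hft : χ.FactorsThrough (f / p) := by
    rw [← DirichletCharacter.mem_conductorSet_iff,
      DirichletCharacter.mem_conductorSet_iff_conductor_dvd χ (Nat.div_dvd_of_dvd hpf), hdiv]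
    exact Dvd.intro _ rfl
  rw [DirichletCharacter.factorsThrough_iff_ker_unitsMap (Nat.div_dvd_of_dvd hpf)] at hft
  obtain ⟨k, hk, hk1⟩ := h p hp hpf
  rw [Kp_eq_ker hpf] at hk
  have := hft hk
  rw [MonoidHom.mem_ker] at this
  apply hk1
  rw [← MulChar.coe_toUnitHom, this]
  rfl

lemma isPrimitive_inv {χ : DirichletCharacter ℂ f} (h : χ.IsPrimitive) : (χ⁻¹).IsPrimitive := by
  rw [DirichletCharacter.isPrimitive_def] at *
  have h1 := DirichletCharacter.conductor_zpow_dvd χ (-1)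
  have h2 := DirichletCharacter.conductor_zpow_dvd (χ⁻¹) (-1)
  rw [zpow_neg_one] at h1 h2
  rw [inv_inv] at h2
  exact (Nat.dvd_antisymm h1 h2).trans h

/-- sum over the fibres of `unitsMap` -/
lemma sum_unitsMap {m : ℕ} [NeZero m] (hf : f ∣ m) (φ : (ZMod f)ˣ → ℂ) :
    ∃ κ : ℕ, κ ≠ 0 ∧ ∑ t : (ZMod m)ˣ, φ (ZMod.unitsMap hf t) = κ * ∑ v, φ v := by
  classical
  have hsurj := ZMod.unitsMap_surjective hf
  refine ⟨(univ.filter (fun t : (ZMod m)ˣ => ZMod.unitsMap hf t = 1)).card, ?_, ?_⟩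
  · rw [Finset.card_ne_zero]
    exact ⟨1, by simp⟩
  · rw [← Finset.sum_fiberwise_of_maps_to (s := univ) (t := univ) (g := ZMod.unitsMap hf)
      (fun _ _ => mem_univ _), mul_sum]
    refine sum_congr rfl fun v _ => ?_
    have h1 : ∀ t ∈ univ.filter (fun t : (ZMod m)ˣ => ZMod.unitsMap hf t = v),
        φ (ZMod.unitsMap hf t) = φ v := by
      intro t ht
      rw [(mem_filter.mp ht).2]
    rw [sum_congr rfl h1, sum_const, nsmul_eq_mul]
    congr 2
    obtain ⟨s, rfl⟩ := hsurj v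
    refine card_bij' (fun t _ => s⁻¹ * t) (fun t _ => s * t) ?_ ?_ ?_ ?_
    · intro t ht
      simp only [mem_filter, mem_univ, true_and] at ht ⊢
      rw [map_mul, map_inv, ht, inv_mul_cancel]
    · intro t ht
      simp only [mem_filter, mem_univ, true_and] at ht ⊢
      rw [map_mul, ht, mul_one]
    · intro t _; simp
    · intro t _; simp

/-- The Tate condition kills the primitive Fourier coefficients at the top level. -/
theorem char_sum_eq_zero {m : ℕ} [NeZero m] (hf : f ∣ m) (F : ZMod m → ℤ)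
    (hodd : ∀ a, F (-a) = - F a)
    (hT : ∀ t : (ZMod m)ˣ, ∑ a, F a * (((t : ZMod m) * a).val : ℤ) = 0)
    (hsup : ∀ a, F a ≠ 0 → f ∣ addOrderOf a → addOrderOf a = f)
    (χ : DirichletCharacter ℂ f) (hχ : χ.IsPrimitive) :
    ∑ u : (ZMod f)ˣ, χ (u : ZMod f) * (F (jj hf (u : ZMod f)) : ℂ) = 0 := by
  rcases χ.even_or_odd with hev | hod
  · -- even characters
    set S := ∑ u : (ZMod f)ˣ, χ (u : ZMod f) * (F (jj hf (u : ZMod f)) : ℂ) with hS
    have h1 : S = -S := by
      conv_lhs => rw [hS]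
      rw [hS, ← sum_neg_distrib]
      refine Fintype.sum_equiv (Equiv.neg _) _ _ fun u => ?_
      have e1 : jj hf (-(u : ZMod f)) = - jj hf (u : ZMod f) := map_neg _ _
      rw [Equiv.neg_apply, Units.val_neg, e1, hodd, hev.eval_neg]
      push_cast
      ring
    have h2 : (2 : ℂ) * S = 0 := by linear_combination h1
    exact (mul_eq_zero.mp h2).resolve_left two_ne_zero
  · set χm := DirichletCharacter.changeLevel hf χ with hχm
    have hχm1 : ∀ t : (ZMod m)ˣ, χm (t : ZMod m) = χ ((ZMod.unitsMap hf t : (ZMod f)ˣ) : ZMod f) := by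
      intro t
      rw [hχm, DirichletCharacter.changeLevel_eq_cast_of_dvd]
      rfl
    set V : ZMod m → ℂ := fun a => ∑ t : (ZMod m)ˣ, χm ((t⁻¹ : (ZMod m)ˣ) : ZMod m) *
      ((((t : ZMod m) * a).val : ℕ) : ℂ) with hV
    have hZ : ∑ a, (F a : ℂ) * V a = 0 := by
      have h1 : ∑ a, (F a : ℂ) * V a = ∑ t : (ZMod m)ˣ, χm ((t⁻¹ : (ZMod m)ˣ) : ZMod m) *
          ((∑ a, F a * (((t : ZMod m) * a).val : ℤ) : ℤ) : ℂ) := by
        simp_rw [hV, mul_sum]
        rw [sum_comm]
        refine sum_congr rfl fun t _ => ?_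
        push_cast
        rw [mul_sum]
        refine sum_congr rfl fun a _ => ?_
        ring
      rw [h1]
      apply sum_eq_zero
      intro t _
      rw [hT t]
      simp
    have hVs : ∀ (s : (ZMod m)ˣ) (a : ZMod m), V ((s : ZMod m) * a) = χm (s : ZMod m) * V a := by
      intro s a
      simp only [hV]
      rw [mul_sum]
      refine Fintype.sum_equiv (Equiv.mulRight s) _ _ fun t => ?_
      have : χm (s : ZMod m) * χm ((s⁻¹ : (ZMod m)ˣ) : ZMod m) = 1 := by
        rw [← map_mul, ← Units.val_mul, mul_inv_cancel, Units.val_one, map_one]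
      rw [Equiv.coe_mulRight, mul_inv_rev, Units.val_mul, map_mul, Units.val_mul,
        mul_assoc (t : ZMod m)]
      linear_combination (-(χm ((t⁻¹ : (ZMod m)ˣ) : ZMod m) *
        ((((t : ZMod m) * (s * a)).val : ℕ) : ℂ))) * this
    have hVlow : ∀ a : ZMod m, ¬ f ∣ addOrderOf a → V a = 0 := by
      intro a ha
      by_contra hVa
      have hdv : addOrderOf a ∣ m := addOrderOf_dvd_m a
      have hfac : χm.FactorsThrough (addOrderOf a) := by
        rw [DirichletCharacter.factorsThrough_iff_ker_unitsMap hdv]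
        intro s hs
        rw [MonoidHom.mem_ker] at hs ⊢
        obtain ⟨u, hu⟩ := exists_unit_of_order hdv (a := a) rfl
        have h1 : (s : ZMod m) * a = a := by
          conv_lhs => rw [← hu]
          rw [jj_mul]
          have h2 : ZMod.castHom hdv (ZMod (addOrderOf a)) (s : ZMod m) = 1 := by
            have := congrArg Units.val hs
            rw [ZMod.unitsMap_val] at this
            exact this
          rw [h2, one_mul, hu]
        have h3 := hVs s a
        rw [h1] at h3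
        have h4 : χm (s : ZMod m) = 1 := by
          have : (χm (s : ZMod m) - 1) * V a = 0 := by rw [sub_mul, ← h3]; ring
          have := (mul_eq_zero.mp this).resolve_right hVa
          linear_combination this
        rw [← MulChar.coe_toUnitHom] at h4
        exact Units.ext h4
      have hcd : χm.conductor ∣ addOrderOf a := by
        rw [← DirichletCharacter.mem_conductorSet_iff_conductor_dvd χm hdv]
        exact hfac
      rw [hχm, DirichletCharacter.conductor_changeLevel, hχ] at hcd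
      exact ha hcd
    have hVtop : ∀ u : (ZMod f)ˣ, V (jj hf (u : ZMod f)) = χ (u : ZMod f) * V (jj hf 1) := by
      intro u
      obtain ⟨s, hs⟩ := ZMod.unitsMap_surjective hf u
      have h1 : jj hf (u : ZMod f) = (s : ZMod m) * jj hf 1 := by
        rw [jj_mul, mul_one, ← hs, ZMod.unitsMap_val]
        rfl
      rw [h1, hVs, hχm1, hs]
    have hV1 : V (jj hf 1) ≠ 0 := by
      have h1 : V (jj hf 1) = (m / f : ℕ) * ∑ t : (ZMod m)ˣ,
          (fun v : (ZMod f)ˣ => χ⁻¹ (v : ZMod f) * ((v : ZMod f).val : ℂ)) (ZMod.unitsMap hf t) := by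
        simp only [hV]
        rw [mul_sum]
        refine sum_congr rfl fun t _ => ?_
        rw [jj_mul, mul_one, jj_val, hχm1, map_inv, MulChar.inv_apply_eq_inv']
        have h2 : χ (((ZMod.unitsMap hf t)⁻¹ : (ZMod f)ˣ) : ZMod f)
            = (χ ((ZMod.unitsMap hf t : (ZMod f)ˣ) : ZMod f))⁻¹ := by
          apply eq_inv_of_mul_eq_one_left
          rw [← map_mul, ← Units.val_mul, inv_mul_cancel, Units.val_one, map_one]
        rw [h2]
        have h3 : ZMod.castHom hf (ZMod f) (t : ZMod m) = ((ZMod.unitsMap hf t : (ZMod f)ˣ) : ZMod f) := by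
          rw [ZMod.unitsMap_val]; rfl
        rw [h3]
        push_cast
        ring
      obtain ⟨κ, hκ, hκs⟩ := sum_unitsMap hf
        (fun v : (ZMod f)ˣ => χ⁻¹ (v : ZMod f) * ((v : ZMod f).val : ℂ))
      rw [h1, hκs]
      have h4 : ∑ v : (ZMod f)ˣ, χ⁻¹ (v : ZMod f) * ((v : ZMod f).val : ℂ)
          = ∑ x : ZMod f, χ⁻¹ x * (x.val : ℂ) := by
        refine Fintype.sum_of_injective (fun v : (ZMod f)ˣ => (v : ZMod f)) Units.val_injective
          _ _ ?_ fun _ => rfl
        intro x hx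
        have : ¬ IsUnit x := fun ⟨u, hu⟩ => hx ⟨u, hu⟩
        rw [MulChar.map_nonunit _ this, zero_mul]
      rw [h4]
      have hodd' : (χ⁻¹).Odd := by
        have h1 : χ (-1) = -1 := hod
        show χ⁻¹ (-1) = -1
        rw [MulChar.inv_apply_eq_inv', h1]
        norm_num
      have h5 := sum_mul_val_ne_zero (isPrimitive_inv hχ) hodd'
      have h6 : ((m / f : ℕ) : ℂ) ≠ 0 := by
        have : m / f ≠ 0 := (Nat.div_pos (Nat.le_of_dvd (Nat.pos_of_ne_zero (NeZero.ne m)) hf)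
          (Nat.pos_of_ne_zero (f_ne_zero hf))).ne'
        exact_mod_cast this
      exact mul_ne_zero h6 (mul_ne_zero (by exact_mod_cast hκ) h5)
    have hfin : ∑ a, (F a : ℂ) * V a = ∑ u : (ZMod f)ˣ, (F (jj hf (u : ZMod f)) : ℂ) *
        V (jj hf (u : ZMod f)) := by
      symm
      refine Fintype.sum_of_injective (fun u : (ZMod f)ˣ => jj hf (u : ZMod f))
        (fun u v h => Units.ext (jj_injective hf h)) _ _ ?_ fun _ => rfl
      intro a ha
      by_cases hFa : F a = 0
      · rw [hFa]; simp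
      · by_cases h2 : f ∣ addOrderOf a
        · exact absurd (exists_unit_of_order hf (hsup a hFa h2)) ha
        · rw [hVlow a h2, mul_zero]
    rw [hfin] at hZ
    have h7 : ∑ u : (ZMod f)ˣ, (F (jj hf (u : ZMod f)) : ℂ) * V (jj hf (u : ZMod f))
        = V (jj hf 1) * ∑ u : (ZMod f)ˣ, χ (u : ZMod f) * (F (jj hf (u : ZMod f)) : ℂ) := by
      rw [mul_sum]
      refine sum_congr rfl fun u _ => ?_
      rw [hVtop]
      ring
    rw [h7] at hZ
    exact (mul_eq_zero.mp hZ).resolve_left hV1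

end Pool.Agent.Lib.MP_938ce2_ag_h99
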