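import Pool.Agent.Lib.MP_938ce2_ag_h99.SplitGen
import Pool.Agent.Lib.MP_938ce2_ag_h99.Smooth2

/-!
The step of the descent at a level with any number of primes.
-/

set_option autoImplicit false
set_option linter.style.haveILetI false
set_option linter.unusedSectionVars false

open Finset

namespace Pool.Agent.Lib.MP_938ce2_ag_h99

/-- half functions -/
def HalfF (f : ℕ) (θ : ℕ → (ZMod f)ˣ → ℤ) : Prop :=
  (∀ p ∈ f.primeFactors, ∀ x, θ p ((-1) * x) = 1 - θ p x) ∧
    ∀ p ∈ f.primeFactors, ∀ q ∈ f.primeFactors, p ≠ q → ∀ z ∈ Kp f q, ∀ x,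
      θ p (z * x) = θ p x

lemma ep_pos {p : ℕ} (hp : p.Prime) : 0 < ep p := by
  unfold ep
  split_ifs
  · norm_num
  · exact hp.pos

lemma ep_dvd {f p : ℕ} (hf : f = ∏ p ∈ f.primeFactors, ep p) (hp : p ∈ f.primeFactors) :
    ep p ∣ f :=
  (Finset.dvd_prod_of_mem ep hp).trans (dvd_of_eq hf.symm)

lemma coprime_ep {p q : ℕ} (hp : p.Prime) (hq : q.Prime) (hpq : p ≠ q) :
    Nat.Coprime q (ep p) := by
  unfold ep
  split_ifs with h
  · subst h
    show Nat.Coprime q (2 ^ 2)
    exact Nat.Coprime.pow_right _ ((Nat.coprime_primes hq hp).mpr (Ne.symm hpq))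
  · exact (Nat.coprime_primes hq hp).mpr (Ne.symm hpq)

lemma cast_Kp {f p q : ℕ} (hp : p.Prime) (hq : q.Prime) (hpq : p ≠ q) (h : ep p ∣ f)
    {z : (ZMod f)ˣ} (hz : z ∈ Kp f q) : ZMod.castHom h (ZMod (ep p)) (z : ZMod f) = 1 := by
  have h1 : (z : ZMod f) * (q : ZMod f) = q := mem_Kp.mp hz
  have h2 := congrArg (ZMod.castHom h (ZMod (ep p))) h1
  rw [map_mul, map_natCast] at h2
  have h3 : IsUnit ((q : ℕ) : ZMod (ep p)) := by
    rw [ZMod.isUnit_iff_coprime]
    exact coprime_ep hp hq hpq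
  exact h3.mul_right_cancel (by rw [h2, one_mul])

lemma neg_val_unit {n : ℕ} [NeZero n] (a : ZMod n) (ha : 2 * a.val ≠ n) (h0 : a ≠ 0) :
    (2 * (-a).val < n ↔ ¬ 2 * a.val < n) := by
  haveI : NeZero a := ⟨h0⟩
  rw [ZMod.val_neg_of_ne_zero]
  have := a.val_lt
  omega

/-- the standard half function -/
noncomputable def half (f p : ℕ) (u : (ZMod f)ˣ) : ℤ :=
  if h : ep p ∣ f then
    (if 2 * (ZMod.castHom h (ZMod (ep p)) (u : ZMod f)).val < ep p then 1 else 0) else 0

lemma halfF_half {f : ℕ} (hf : f = ∏ p ∈ f.primeFactors, ep p) : HalfF f (half f) := by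
  constructor
  · intro p hp x
    have hpp := Nat.prime_of_mem_primeFactors hp
    have h := ep_dvd hf hp
    haveI : NeZero (ep p) := ⟨(ep_pos hpp).ne'⟩
    unfold half
    rw [dif_pos h, dif_pos h]
    set a := ZMod.castHom h (ZMod (ep p)) (x : ZMod f) with ha
    have hua : IsUnit a := x.isUnit.map _
    have e1 : ZMod.castHom h (ZMod (ep p)) (((-1) * x : (ZMod f)ˣ) : ZMod f) = -a := by
      rw [neg_one_mul, Units.val_neg, map_neg]
    rw [e1]
    have hne : 2 * a.val ≠ ep p := by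
      intro h2
      by_cases hp2 : p = 2
      · have h3 : ep p = 4 := by rw [hp2]; rfl
        have h4 : a.val = 2 := by omega
        have h5 : a = ((2 : ℕ) : ZMod (ep p)) := by rw [← h4, ZMod.natCast_zmod_val]
        rw [h5, ZMod.isUnit_iff_coprime, h3] at hua
        exact absurd hua (by decide)
      · have h3 : ep p = p := by unfold ep; rw [if_neg hp2]
        have h4 := hpp.eq_two_or_odd
        omega
    have h0 : a ≠ 0 := by
      intro h0
      rw [h0] at hua
      have h1 := isUnit_zero_iff.mp hua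
      have h2 : ep p ≠ 1 := by
        unfold ep
        split_ifs
        · norm_num
        · exact hpp.one_lt.ne'
      haveI : Fact (1 < ep p) := ⟨by have := ep_pos hpp; omega⟩
      exact zero_ne_one h1
    have h6 := neg_val_unit a hne h0
    by_cases h7 : 2 * a.val < ep p
    · rw [if_pos h7, if_neg (fun h8 => (h6.mp h8) h7)]
      rfl
    · rw [if_neg h7, if_pos (h6.mpr h7)]
      rfl
  · intro p hp q hq hpq z hz x
    have hpp := Nat.prime_of_mem_primeFactors hp
    have hqq := Nat.prime_of_mem_primeFactors hq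
    have h := ep_dvd hf hp
    unfold half
    rw [dif_pos h, dif_pos h, Units.val_mul, map_mul, cast_Kp hpp hqq hpq h hz, one_mul]

variable {m : ℕ} [NeZero m]

lemma OddF.zsmul {F : ZMod m → ℤ} (hF : OddF F) (n : ℤ) : OddF (n • F) := by
  intro a
  have h := hF a
  simp only [Pi.smul_apply, smul_eq_mul]
  rw [h]
  ring

lemma TateF.zsmul {F : ZMod m → ℤ} (hF : TateF F) (n : ℤ) : TateF (n • F) := by
  intro t
  have h := hF t
  simp only [Pi.smul_apply, smul_eq_mul, mul_assoc]
  rw [← Finset.mul_sum, h, mul_zero]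

/-- an exceptional class at a level with any number of primes -/
def ExcT (D : ℕ → Prop) (X : AddSubgroup (ZMod m → ℤ)) (f : ℕ) (hf : f ∣ m) : Prop :=
  ∃ (θ : ℕ → (ZMod f)ˣ → ℤ) (E : ZMod m → ℤ), HalfF f θ ∧ E ∈ X ⊔ relSub m ∧ OddF E ∧ TateF E ∧
    (∀ a, E a ≠ 0 → addOrderOf a ≤ f ∧ D (addOrderOf a)) ∧
    ∀ u : (ZMod f)ˣ, E (jj hf (u : ZMod f))
      = ∏ p ∈ f.primeFactors, θ p u - ∏ p ∈ f.primeFactors, (1 - θ p u)

lemma card_spanL {f : ℕ} [NeZero f] : ∀ ps : List ℕ, (∀ p ∈ ps, p.Prime ∧ p ∣ f) → ps.Nodup →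
    Nat.card (spanL (ps.map (Kp f)) : Subgroup (ZMod f)ˣ)
      = (ps.map fun p => if p ∣ f / p then p else p - 1).prod
  | [], _, _ => by
      simp [spanL]
  | p :: ps, h, hnd => by
      have h1 := card_spanL ps (fun q hq => h q (List.mem_cons_of_mem _ hq))
        (List.nodup_cons.mp hnd).2
      have h2 := disjoint_Kp_span (h p List.mem_cons_self).1 ps
        (fun q hq => h q (List.mem_cons_of_mem _ hq)) (List.nodup_cons.mp hnd).1
      rw [List.map_cons, List.map_cons, List.prod_cons, ← h1]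
      show Nat.card ↥(Kp f p ⊔ spanL (ps.map (Kp f))) = _
      rw [card_sup h2, card_Kp (h p List.mem_cons_self).1 (h p List.mem_cons_self).2]

/-- The step of the descent at any effective level. -/
theorem step_many {D : ℕ → Prop} (hD : ∀ f g, D f → g ∣ f → D g)
    (X : AddSubgroup (ZMod m → ℤ)) {f : ℕ} (hf : f ∣ m) (hDf : D f) (hf1 : f ≠ 1)
    (hf4 : f % 4 ≠ 2) (hfr : f ∣ 2 * rad f) (hex : Even f.primeFactors.card → ExcT D X f hf) :
    Step D X f := by
  have hf0 : f ≠ 0 := f_ne_zero hf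
  haveI : NeZero f := ⟨hf0⟩
  have hprod := eff_prod hf0 hf4 hfr
  have htot := tot_prod hf0 hf4 hfr
  intro F hodd hT hsup hDF
  set ps := f.primeFactors.toList with hps
  have hmem : ∀ p, p ∈ ps ↔ p ∈ f.primeFactors := fun p => by rw [hps, Finset.mem_toList]
  have hprime : ∀ p ∈ ps, p.Prime ∧ p ∣ f := fun p hp =>
    ⟨Nat.prime_of_mem_primeFactors ((hmem p).mp hp), Nat.dvd_of_mem_primeFactors ((hmem p).mp hp)⟩
  have hnd : ps.Nodup := Finset.nodup_toList _
  have hne : ps ≠ [] := by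
    intro h0
    have h1 : f.primeFactors.card = 0 := by
      rw [← Finset.length_toList, ← hps, h0]
      rfl
    rw [Finset.card_eq_zero, Nat.primeFactors_eq_empty] at h1
    omega
  have hlen : ps.length = f.primeFactors.card := by rw [hps, Finset.length_toList]
  have htop : spanL ((ps ++ []).map (Kp f)) = ⊤ := by
    rw [List.append_nil]
    apply Subgroup.eq_top_of_card_eq
    rw [card_spanL ps hprime hnd, Nat.card_eq_fintype_card, ZMod.card_units_eq_totient, ← htot,
      hps, Finset.prod_map_toList]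
  obtain ⟨θ, hθ, hE⟩ : ∃ θ : ℕ → (ZMod f)ˣ → ℤ, HalfF f θ ∧ (Even f.primeFactors.card →
      ∃ E : ZMod m → ℤ, E ∈ X ⊔ relSub m ∧ OddF E ∧ TateF E ∧
      (∀ a, E a ≠ 0 → addOrderOf a ≤ f ∧ D (addOrderOf a)) ∧
      ∀ u : (ZMod f)ˣ, E (jj hf (u : ZMod f))
        = ∏ p ∈ f.primeFactors, θ p u - ∏ p ∈ f.primeFactors, (1 - θ p u)) := by
    by_cases he : Even f.primeFactors.card
    · obtain ⟨θ, E, h1, h2⟩ := hex he
      exact ⟨θ, h1, fun _ => ⟨E, h2⟩⟩
    · exact ⟨half f, halfF_half hprod, fun h => absurd h he⟩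
  have hMD := MD_top hf F hodd hT (sup_of_le hsup) ps
    (fun p hp hpf => (hmem p).mpr (Nat.mem_primeFactors.mpr ⟨hp, hpf, hf0⟩))
  obtain ⟨G, n, hn, g1, g2, -, g4⟩ := split_gen (-1 : (ZMod f)ˣ) (by simp) (Kp f) ps
    (fun p hp qs hqs hpq => disjoint_Kp_span (hprime p hp).1 qs
      (fun q hq => hprime q (hqs q hq)) hpq) θ
    (fun p hp x => hθ.1 p ((hmem p).mp hp) x)
    (fun p hp q hq hpq z hz x => hθ.2 p ((hmem p).mp hp) q ((hmem q).mp hq) hpq z hz x)
    ps hne [] (by rw [List.append_nil]; exact hnd) (by rw [List.append_nil]; exact fun p hp => hp)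
    htop (-1) (by norm_num) (fun u : (ZMod f)ˣ => F (jj hf (u : ZMod f)))
    (fun u => by rw [odd_top hf hodd, neg_one_mul]) (by
      intro z hz x
      have : z = 1 := by simpa [spanL] using hz
      rw [this, one_mul]) hMD
  have g1' : ∀ p ∈ ps, ∀ z ∈ Kp f p, ∀ x, G p (z * x) = G p x := fun p hp z hz x =>
    g1 p hp z (Subgroup.mem_sup_left hz) x
  have hfin : ∀ H F' : ZMod m → ℤ, (∀ a, H a ≠ 0 → addOrderOf a ≤ f) →
      (∀ a, H a ≠ 0 → D (addOrderOf a)) → Peeled f H F' →
      (∀ a, F' a ≠ 0 → addOrderOf a < f) ∧ (∀ a, F' a ≠ 0 → D (addOrderOf a)) := by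
    intro H F' hHsup hDH ⟨_, _, _, h4, h5⟩
    constructor
    · intro a ha
      by_cases hFa : F' a = H a
      · rw [hFa] at ha
        rcases lt_or_eq_of_le (hHsup a ha) with h8 | h8
        · exact h8
        · exact absurd (h4 a h8) (by rw [hFa]; exact ha)
      · have h7 := Nat.le_of_dvd (Nat.pos_of_ne_zero (NeZero.ne f)) (h5 a hFa)
        rcases lt_or_eq_of_le h7 with h8 | h8
        · exact h8
        · exact absurd (h4 a h8) ha
    · intro a ha
      by_cases hFa : F' a = H a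
      · rw [hFa] at ha
        exact hDH a ha
      · exact hD _ _ hDf (h5 a hFa)
  by_cases hn0 : n = 0
  · obtain ⟨F', hP⟩ := Peeled.of_peel hf hodd hT ps hprime G g1'
      (fun u => by have := g4 u; rw [hn0] at this; simpa using this)
      (fun p hp u => by rw [g2 p hp]; ring)
    obtain ⟨k1, k2⟩ := hfin F F' hsup hDF hP
    exact ⟨F', (le_sup_right : relSub m ≤ X ⊔ relSub m) hP.1, hP.2.1, hP.2.2.1, k1, k2⟩
  · have hev : Even f.primeFactors.card := by
      have h1 := hn hn0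
      rw [← hlen]
      by_contra ho
      rw [Nat.not_even_iff_odd] at ho
      rw [Even.neg_one_pow (ho.add_one)] at h1
      norm_num at h1
    obtain ⟨E, hEX, hEodd, hET, hEsup, hEtop⟩ := hE hev
    have hsm : ∀ a, (n • E) a = n * E a := fun a => by simp
    have hodd' : OddF (F - n • E) := hodd.sub (hEodd.zsmul n)
    have hT' : TateF (F - n • E) := hT.sub (hET.zsmul n)
    have hsupE : ∀ a, (F - n • E) a ≠ 0 → addOrderOf a ≤ f ∧ D (addOrderOf a) := by
      intro a ha
      by_cases hFa : F a = 0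
      · apply hEsup
        intro h0
        apply ha
        rw [Pi.sub_apply, hsm, hFa, h0]
        ring
      · exact ⟨hsup a hFa, hDF a hFa⟩
    obtain ⟨F', hP⟩ := Peeled.of_peel hf hodd' hT' ps hprime G g1'
      (fun u => by
        have h1 := g4 u
        rw [Pi.sub_apply, hsm, hEtop u, h1]
        rw [hps, Finset.prod_map_toList, Finset.prod_map_toList]
        ring)
      (fun p hp u => by rw [g2 p hp]; ring)
    obtain ⟨k1, k2⟩ := hfin (F - n • E) F' (fun a ha => (hsupE a ha).1)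
      (fun a ha => (hsupE a ha).2) hP
    refine ⟨F', ?_, hP.2.1, hP.2.2.1, k1, k2⟩
    have h1 : F - F' = n • E + (F - n • E - F') := by abel
    rw [h1]
    exact (X ⊔ relSub m).add_mem ((X ⊔ relSub m).zsmul_mem hEX n)
      ((le_sup_right : relSub m ≤ X ⊔ relSub m) hP.1)

/-- All odd Tate functions whose support has orders dividing `n`, when all even levels are good. -/
theorem smooth_many (X : AddSubgroup (ZMod m → ℤ)) {n : ℕ}
    (hE : ∀ f (hf : f ∣ m), f ∣ n → f ≠ 1 → f % 4 ≠ 2 → f ∣ 2 * rad f →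
      Even f.primeFactors.card → ExcT (· ∣ n) X f hf ∨
        ∃ p q, p < q ∧ f.primeFactors = {p, q} ∧ Exc (· ∣ n) X f p q hf)
    (F : ZMod m → ℤ) (hodd : OddF F) (hT : TateF F) (hsup : ∀ a, F a ≠ 0 → addOrderOf a ∣ n) :
    F ∈ X ⊔ relSub m := by
  have hD : ∀ f g, (f ∣ n) → g ∣ f → g ∣ n := fun f g h1 h2 => h2.trans h1
  refine mainA_aux (D := (· ∣ n)) hD X ?_ m F hodd hT (fun a _ => Nat.le_of_dvd
    (Nat.pos_of_ne_zero (NeZero.ne m)) (addOrderOf_dvd_m a)) hsup
  intro f hf hDf hf1 hf4 hfr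
  have hf0 : f ≠ 0 := f_ne_zero hf
  by_cases hpair : ∃ p q, p < q ∧ f.primeFactors = {p, q} ∧ Exc (· ∣ n) X f p q hf
  · obtain ⟨p, q, hpq, hp, hEx⟩ := hpair
    have htot := tot_prod hf0 hf4 hfr
    have hpm : p ∈ f.primeFactors := by rw [hp]; simp
    have hqm : q ∈ f.primeFactors := by rw [hp]; simp
    rw [hp, prod_pair hpq.ne] at htot
    exact step_two hD X hf0 hf hDf p q (Nat.prime_of_mem_primeFactors hpm)
      (Nat.prime_of_mem_primeFactors hqm) hpq.ne (Nat.dvd_of_mem_primeFactors hpm)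
      (Nat.dvd_of_mem_primeFactors hqm)
      (fun r hr hrf => by
        have : r ∈ f.primeFactors := Nat.mem_primeFactors.mpr ⟨hr, hrf, hf0⟩
        rw [hp] at this
        simpa using this) htot hEx
  · exact step_many hD X hf hDf hf1 hf4 hfr fun he =>
      (hE f hf hDf hf1 hf4 hfr he).resolve_right hpair

end Pool.Agent.Lib.MP_938ce2_ag_h99
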