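import Pool.Agent.Lib.MP_938ce2_ag_h99.RefThree4
import Pool.Agent.Lib.MP_938ce2_ag_h99.LevelMany

/-!
Odd functions of norm at most `2 l`: only the primes up to `2 l + 1` matter.
-/

set_option autoImplicit false
set_option linter.style.haveILetI false
set_option linter.unusedSectionVars false

open Finset

namespace Pool.Agent.Lib.MP_938ce2_ag_h99

open Pool.Agent.Lib.MP_938ce2_ag_H7f Pool.Agent.Lib.MP_938ce2_ag_H7e

variable {m : ℕ} [NeZero m]

/-- Odd Tate functions of norm at most `2 l` are generated by relations and the classes in `X`, if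
all the levels with an even number of primes up to `2 l + 1` are good and there are reference
functions for the pairs of `3` and a prime up to `4 l + 1`. -/
theorem fun4 (X : AddSubgroup (ZMod m → ℤ)) {m0 l : ℕ} (hm0 : m0 ∣ m) (h2 : 2 ∣ m0)
    (hl : 1 ≤ l)
    (hR : 3 ∣ m0 → ∀ q, q.Prime → q ∣ m0 → 2 * l + 1 < q → q ≤ 4 * l + 1 → Ref3 m X q)
    (hE : ∀ ns, ns ∣ m0 → 2 ∣ ns → ∀ f (hf : f ∣ m), f ∣ ns → f ≠ 1 → f % 4 ≠ 2 →
      f ∣ 2 * rad f → Even f.primeFactors.card → (∀ p ∈ f.primeFactors, p ≤ 2 * l + 1) →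
      ExcT (· ∣ ns) X f hf ∨
        ∃ p q, p < q ∧ f.primeFactors = {p, q} ∧ Exc (· ∣ ns) X f p q hf)
    {F : ZMod m → ℤ} (ho : OddF F) (hT : TateF F) (hN : ∑ a, |F a| ≤ 2 * l)
    (hs : ∀ a, F a ≠ 0 → addOrderOf a ∣ m0) : F ∈ X ⊔ relSub m := by
  classical
  set L := 2 * l + 1 with hL
  have hm00 : m0 ≠ 0 := fun h => NeZero.ne m (by rw [h] at hm0; exact Nat.eq_zero_of_zero_dvd hm0)
  set ms := ∏ p ∈ m0.primeFactors.filter (· ≤ L), p ^ m0.factorization p with hms
  set ml := ∏ p ∈ m0.primeFactors.filter (¬ · ≤ L), p ^ m0.factorization p with hml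
  have hmm : m0 = ms * ml := by
    rw [hms, hml, prod_filter_mul_prod_filter_not]
    exact (Nat.prod_factorization_pow_eq_self hm00).symm
  have hprime_ms : ∀ q, q.Prime → q ∣ ms → q ≤ L ∧ q ∣ m0 := by
    intro q hq hqm
    obtain ⟨p, hp, hqp⟩ := (Prime.dvd_finsetProd_iff hq.prime _).mp hqm
    have h1 := mem_filter.mp hp
    have h2 := Nat.prime_of_mem_primeFactors h1.1
    have h3 := (Nat.prime_dvd_prime_iff_eq hq h2).mp (hq.dvd_of_dvd_pow hqp)
    rw [h3]
    exact ⟨h1.2, Nat.dvd_of_mem_primeFactors h1.1⟩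
  have hprime_ml : ∀ q, q.Prime → q ∣ ml → L < q ∧ q ∣ m0 := by
    intro q hq hqm
    obtain ⟨p, hp, hqp⟩ := (Prime.dvd_finsetProd_iff hq.prime _).mp hqm
    have h1 := mem_filter.mp hp
    have h2 := Nat.prime_of_mem_primeFactors h1.1
    have h3 := (Nat.prime_dvd_prime_iff_eq hq h2).mp (hq.dvd_of_dvd_pow hqp)
    rw [h3]
    exact ⟨not_le.mp h1.2, Nat.dvd_of_mem_primeFactors h1.1⟩
  have hml2 : ¬ 2 ∣ ml := fun h => by
    have := (hprime_ml 2 Nat.prime_two h).1
    omega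
  have hmsm : ms ∣ m0 := ⟨ml, hmm⟩
  have h2ms : 2 ∣ ms := by
    rw [hmm] at h2
    exact ((Nat.Prime.dvd_mul Nat.prime_two).mp h2).resolve_right hml2
  have h6 : 3 ∣ m0 → 6 ∣ m0 := by
    intro h3
    omega
  obtain ⟨F0, d1, d2, d3, _, d4⟩ := drop_all4 (m := m) X (h2.trans hm0) (N := 2 * l) h6
    (m0.primeFactors.filter (¬ · ≤ L)) (by
      intro q hq
      have h1 := mem_filter.mp hq
      have h3 := Nat.prime_of_mem_primeFactors h1.1
      have h4 : L < q := not_le.mp h1.2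
      refine ⟨h3, by omega, ?_, ?_⟩
      · have : ((2 * l + 1 : ℕ) : ℤ) < q := by exact_mod_cast h4
        push_cast at this
        linarith
      · intro h5 _ h7
        refine hR h5 q h3 (Nat.dvd_of_mem_primeFactors h1.1) h4 ?_
        have : (q : ℤ) ≤ ((4 * l + 1 : ℕ) : ℤ) := by
          push_cast
          linarith
        exact_mod_cast this) F ho hT hN hs
  have hsup : ∀ a, F0 a ≠ 0 → addOrderOf a ∣ ms := by
    intro a ha
    obtain ⟨h1, h3⟩ := d4 a ha
    have h4 : addOrderOf a ∣ m0 := by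
      rcases h1 with h | ⟨h, h'⟩
      · exact hs a h
      · exact h'.trans (h6 h)
    have h5 : addOrderOf a ∣ ms * ml := h4.trans (dvd_of_eq hmm)
    apply Nat.Coprime.dvd_of_dvd_mul_right _ h5
    apply Nat.coprime_of_dvd
    intro q hq g1 g2
    have g3 := hprime_ml q hq g2
    exact h3 q (mem_filter.mpr ⟨Nat.mem_primeFactors.mpr ⟨hq, g3.2, hm00⟩, not_le.mpr g3.1⟩) g1
  have hF0 : F0 ∈ X ⊔ relSub m := by
    refine smooth_many X (n := ms) ?_ F0 d2 d3 hsup
    intro f hf hfn hf1 hf4 hfr hev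
    exact hE ms hmsm h2ms f hf hfn hf1 hf4 hfr hev fun p hp =>
      (hprime_ms p (Nat.prime_of_mem_primeFactors hp)
        ((Nat.dvd_of_mem_primeFactors hp).trans hfn)).1
  have h8 : F = (F - F0) + F0 := by abel
  rw [h8]
  exact (X ⊔ relSub m).add_mem d1 hF0

end Pool.Agent.Lib.MP_938ce2_ag_h99
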