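import Pool.Agent.Lib.MP_938ce2_ag_h99.Peel

/-!
Orders and independence of the groups `Kp f p`.
-/

set_option autoImplicit false
set_option linter.style.haveILetI false
set_option linter.unusedSectionVars false

open Finset

namespace Pool.Agent.Lib.MP_938ce2_ag_h99

variable {f : ℕ} [NeZero f]

lemma card_Kp_mul {p : ℕ} (hpf : p ∣ f) :
    Nat.card (Kp f p) * (f / p).totient = f.totient := by
  have hd := Nat.div_dvd_of_dvd hpf
  haveI : NeZero (f / p) := ⟨fun h => NeZero.ne f (by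
    have := Nat.div_mul_cancel hpf
    rw [h, zero_mul] at this
    exact this.symm)⟩
  rw [Kp_eq_ker hpf]
  have h1 := Subgroup.card_eq_card_quotient_mul_card_subgroup (ZMod.unitsMap hd).ker
  have h2 : Nat.card ((ZMod f)ˣ ⧸ (ZMod.unitsMap hd).ker) = Nat.card ((ZMod (f / p))ˣ) :=
    Nat.card_congr (QuotientGroup.quotientKerEquivOfSurjective _
      (ZMod.unitsMap_surjective hd)).toEquiv
  rw [h2] at h1
  rw [Nat.card_eq_fintype_card (α := (ZMod f)ˣ), ZMod.card_units_eq_totient,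
    Nat.card_eq_fintype_card (α := (ZMod (f / p))ˣ), ZMod.card_units_eq_totient] at h1
  rw [h1, mul_comm]

lemma card_Kp {p : ℕ} (hp : p.Prime) (hpf : p ∣ f) :
    Nat.card (Kp f p) = if p ∣ f / p then p else p - 1 := by
  have h1 := card_Kp_mul hpf
  have hfe : f = p * (f / p) := (Nat.mul_div_cancel' hpf).symm
  have hpos : 0 < (f / p).totient := by
    apply Nat.totient_pos.mpr
    rcases Nat.eq_zero_or_pos (f / p) with h | h
    · rw [h, mul_zero] at hfe
      exact absurd hfe (NeZero.ne f)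
    · exact h
  apply Nat.eq_of_mul_eq_mul_right hpos
  rw [h1]
  split_ifs with hd
  · conv_lhs => rw [hfe]
    exact Nat.totient_mul_of_prime_of_dvd hp hd
  · conv_lhs => rw [hfe]
    exact Nat.totient_mul_of_prime_of_not_dvd hp hd

lemma kap_le_wt {p : ℕ} (hp : p.Prime) (hpf : p ∣ f) (hf4 : f % 4 ≠ 2) :
    kap f p ≤ wt (Kp f p) := by
  have hc := card_Kp hp hpf
  have hfe : f = p * (f / p) := (Nat.mul_div_cancel' hpf).symm
  unfold kap wt
  rw [hc]
  rcases hp.eq_two_or_odd' with rfl | hodd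
  · have h4 : 2 ∣ f / 2 := by omega
    rw [if_pos h4, if_pos h4]
    have h5 : Even (2 : ℕ) := ⟨1, rfl⟩
    rw [if_pos h5]
    split_ifs <;> norm_num
  · have h6 : (f / p) % 4 ≠ 2 := by
      intro h
      apply hf4
      rw [hfe, Nat.mul_mod, h]
      obtain ⟨k, rfl⟩ := hodd
      have : (2 * k + 1) % 4 = 1 ∨ (2 * k + 1) % 4 = 3 := by omega
      rcases this with h | h <;> rw [h]
    rw [if_neg h6]
    split_ifs with h7 h8 h8
    · norm_num
    · norm_num
    · norm_num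
    · exfalso
      apply h8
      obtain ⟨k, rfl⟩ := hodd
      exact ⟨k, by omega⟩

/-- stabiliser of an element of `ZMod f` -/
def stab (f : ℕ) (x : ZMod f) : Subgroup (ZMod f)ˣ where
  carrier := {u | (u : ZMod f) * x = x}
  mul_mem' := by
    intro a b ha hb
    simp only [Set.mem_ofPred_eq, Units.val_mul] at *
    rw [mul_assoc, hb, ha]
  one_mem' := by simp
  inv_mem' := by
    intro a ha
    simp only [Set.mem_ofPred_eq] at *
    conv_lhs => rw [← ha]
    rw [← mul_assoc, Units.inv_mul, one_mul]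

lemma mem_stab {f : ℕ} {x : ZMod f} {u : (ZMod f)ˣ} : u ∈ stab f x ↔ (u : ZMod f) * x = x :=
  Iff.rfl

lemma Kp_le_stab {q : ℕ} {n : ℕ} (h : q ∣ n) : Kp f q ≤ stab f (n : ZMod f) := by
  intro u hu
  obtain ⟨k, rfl⟩ := h
  rw [mem_stab, Nat.cast_mul, ← mul_assoc, mem_Kp.mp hu]

lemma spanL_le_stab (n : ℕ) : ∀ qs : List ℕ, (∀ q ∈ qs, q ∣ n) →
    spanL (qs.map (Kp f)) ≤ stab f (n : ZMod f)
  | [], _ => bot_le
  | q :: qs, h => by
      have h1 : Kp f q ≤ stab f (n : ZMod f) := Kp_le_stab (h q List.mem_cons_self)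
      have h2 := spanL_le_stab n qs fun q' hq' => h q' (List.mem_cons_of_mem _ hq')
      exact sup_le h1 h2

lemma disjoint_Kp_span {p : ℕ} (hp : p.Prime) (qs : List ℕ) (hqs : ∀ q ∈ qs, q.Prime ∧ q ∣ f)
    (hpq : p ∉ qs) : Disjoint (Kp f p) (spanL (qs.map (Kp f))) := by
  have hf0 : f ≠ 0 := NeZero.ne f
  set n := f / p ^ (f.factorization p) with hn
  have hcop : Nat.Coprime p n := Nat.coprime_ordCompl hp hf0
  have hdiv : ∀ q ∈ qs, q ∣ n := by
    intro q hq
    have h1 : q ∣ f := (hqs q hq).2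
    have h2 : p ^ (f.factorization p) * n = f := Nat.ordProj_mul_ordCompl_eq_self f p
    rw [← h2] at h1
    have hne : q ≠ p := fun h => hpq (h ▸ hq)
    have h3 : Nat.Coprime q (p ^ (f.factorization p)) :=
      Nat.Coprime.pow_right _ ((Nat.coprime_primes (hqs q hq).1 hp).mpr hne)
    exact h3.dvd_of_dvd_mul_left h1
  rw [Subgroup.disjoint_def]
  intro x hx hx2
  have h1 : (x : ZMod f) * (p : ZMod f) = p := hx
  have h2 : (x : ZMod f) * (n : ZMod f) = n := spanL_le_stab n qs hdiv hx2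
  have hbez := Nat.gcd_eq_gcd_ab p n
  rw [hcop.gcd_eq_one] at hbez
  have h3 : (1 : ZMod f) = (p : ZMod f) * ((Nat.gcdA p n : ℤ) : ZMod f)
      + (n : ZMod f) * ((Nat.gcdB p n : ℤ) : ZMod f) := by
    have := congrArg (fun z : ℤ => (z : ZMod f)) hbez
    push_cast at this
    exact this
  apply Units.ext
  calc (x : ZMod f) = x * 1 := (mul_one _).symm
    _ = x * ((p : ZMod f) * ((Nat.gcdA p n : ℤ) : ZMod f)
      + (n : ZMod f) * ((Nat.gcdB p n : ℤ) : ZMod f)) := by rw [← h3]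
    _ = (x * p) * ((Nat.gcdA p n : ℤ) : ZMod f) + (x * n) * ((Nat.gcdB p n : ℤ) : ZMod f) := by ring
    _ = 1 := by rw [h1, h2, ← h3]

lemma indep_Kp : ∀ ps : List ℕ, (∀ q ∈ ps, q.Prime ∧ q ∣ f) → ps.Nodup →
    IndepL (ps.map (Kp f))
  | [], _, _ => trivial
  | p :: ps, h, hnd => by
      refine ⟨disjoint_Kp_span (h p List.mem_cons_self).1 ps
        (fun q hq => h q (List.mem_cons_of_mem _ hq)) (List.nodup_cons.mp hnd).1, ?_⟩
      exact indep_Kp ps (fun q hq => h q (List.mem_cons_of_mem _ hq)) (List.nodup_cons.mp hnd).2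

lemma sup_of_le {m : ℕ} {F : ZMod m → ℤ} [NeZero m] (hsup : ∀ a, F a ≠ 0 → addOrderOf a ≤ f) :
    ∀ a, F a ≠ 0 → f ∣ addOrderOf a → addOrderOf a = f := by
  intro a ha hd
  have hpos : 0 < addOrderOf a :=
    Nat.pos_of_dvd_of_pos (addOrderOf_dvd_m a) (Nat.pos_of_ne_zero (NeZero.ne m))
  exact le_antisymm (hsup a ha) (Nat.le_of_dvd hpos hd)

/-- mixed differences at the top level vanish -/
theorem MD_top {m : ℕ} [NeZero m] (hf : f ∣ m) (F : ZMod m → ℤ) (hodd : OddF F) (hT : TateF F)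
    (hsup : ∀ a, F a ≠ 0 → f ∣ addOrderOf a → addOrderOf a = f) (ps : List ℕ)
    (hps : ∀ p, p.Prime → p ∣ f → p ∈ ps) :
    MD (ps.map (Kp f)) (fun u : (ZMod f)ˣ => F (jj hf (u : ZMod f))) := by
  apply MD_of_char
  intro χ hχ
  apply char_sum_eq_zero hf F hodd hT hsup χ
  apply isPrimitive_of_forall
  intro p hp hpf
  exact hχ (Kp f p) (List.mem_map.mpr ⟨p, hps p hp hpf, rfl⟩)

end Pool.Agent.Lib.MP_938ce2_ag_h99
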