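import Pool.Agent.Lib.MP_938ce2_ag_h99.Groups

/-!
Integral odd splittings of odd functions with vanishing mixed differences.
-/

set_option autoImplicit false
set_option linter.style.haveILetI false
set_option linter.unusedSectionVars false

open Finset

namespace Pool.Agent.Lib.MP_938ce2_ag_h99

variable {A : Type*} [CommGroup A]

/-- an equivariant coordinate along `K`, invariant under `H` -/
lemma exists_coord (K H : Subgroup A) (hd : Disjoint K H) : ∃ k : A → A, (∀ x, k x ∈ K) ∧
    (∀ z ∈ K, ∀ x, k (z * x) = z * k x) ∧ (∀ h ∈ H, ∀ x, k (h * x) = k x) := by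
  classical
  set rep : A → A := fun x => (QuotientGroup.mk (s := K ⊔ H) x).out with hrep
  have h1 : ∀ x, x * (rep x)⁻¹ ∈ K ⊔ H := by
    intro x
    have h2 : (QuotientGroup.mk (s := K ⊔ H) (rep x)) = QuotientGroup.mk (s := K ⊔ H) x :=
      Quotient.out_eq _
    rw [QuotientGroup.eq] at h2
    rw [mul_comm]
    exact h2
  have h2 : ∀ x, ∃ z ∈ K, ∃ h ∈ H, z * h = x * (rep x)⁻¹ := fun x => Subgroup.mem_sup.mp (h1 x)
  choose k hk y hy hky using h2
  have huniq : ∀ z ∈ K, ∀ h ∈ H, ∀ x, z * h = x * (rep x)⁻¹ → z = k x := by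
    intro z hz h hh x hx
    have e : (k x)⁻¹ * z = y x * h⁻¹ := by
      have e1 : z * h = k x * y x := by rw [hx, hky]
      calc (k x)⁻¹ * z = (k x)⁻¹ * (z * h) * h⁻¹ := by group
        _ = (k x)⁻¹ * (k x * y x) * h⁻¹ := by rw [e1]
        _ = y x * h⁻¹ := by group
    have e2 : (k x)⁻¹ * z ∈ K := K.mul_mem (K.inv_mem (hk x)) hz
    have e3 : (k x)⁻¹ * z ∈ H := by rw [e]; exact H.mul_mem (hy x) (H.inv_mem hh)
    have e4 := Subgroup.disjoint_def.mp hd e2 e3
    exact (inv_mul_eq_one.mp e4).symm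
  have hrepinv : ∀ g ∈ K ⊔ H, ∀ x, rep (g * x) = rep x := by
    intro g hg x
    have : (QuotientGroup.mk (s := K ⊔ H) (g * x)) = QuotientGroup.mk (s := K ⊔ H) x := by
      rw [QuotientGroup.eq, mul_inv_rev, mul_comm x⁻¹, mul_assoc, inv_mul_cancel, mul_one]
      exact (K ⊔ H).inv_mem hg
    simp only [hrep]
    rw [this]
  refine ⟨k, hk, ?_, ?_⟩
  · intro z hz x
    symm
    apply huniq _ (K.mul_mem hz (hk x)) _ (hy x)
    rw [hrepinv z (Subgroup.mem_sup_left hz), mul_assoc, hky, mul_assoc]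
  · intro h hh x
    symm
    apply huniq _ (hk x) _ (H.mul_mem hh (hy x))
    rw [hrepinv h (Subgroup.mem_sup_right hh), mul_left_comm, hky, mul_assoc]

lemma MD_of_inv {K : Subgroup A} : ∀ (L : List (Subgroup A)), K ∈ L → ∀ F : A → ℤ,
    (∀ z ∈ K, ∀ x, F (z * x) = F x) → MD L F
  | [], h, _, _ => by simp at h
  | K' :: L, h, F, hF => by
      rw [MD_cons]
      intro k hk
      rcases List.mem_cons.mp h with rfl | h
      · have : (fun y => F y - F (k * y)) = (0 : A → ℤ) := by
          funext y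
          rw [hF k hk, sub_self]
          rfl
        rw [this]
        exact MD_zero L
      · apply MD_of_inv L h
        intro z hz x
        rw [hF z hz, mul_left_comm, hF z hz]

lemma MD.add {L : List (Subgroup A)} {F G : A → ℤ} (hF : MD L F) (hG : MD L G) :
    MD L (fun x => F x + G x) := by
  have h1 : MD L (fun x => (0 : A → ℤ) x - G x) := (MD_zero L).sub hG
  have h2 := hF.sub h1
  convert h2 using 2 with x
  simp

/-- splitting off the part invariant under the first subgroup, using a coordinate -/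
lemma split_first {K : Subgroup A} {L : List (Subgroup A)} {F : A → ℤ} (hF : MD (K :: L) F)
    (k : A → A) (hk1 : ∀ x, k x ∈ K) (hk3 : ∀ h ∈ spanL L, ∀ x, k (h * x) = k x) :
    MD L (fun x => F x - F ((k x)⁻¹ * x)) := by
  intro x
  have h1 := (MD_cons.mp hF) _ (K.inv_mem (hk1 x)) x
  refine MDat_congr L _ _ x ?_ h1
  intro y hy
  rw [hk3 y hy]

/-- odd integral splitting when `c` is not in the span -/
theorem int_split (c : A) (hc2 : c * c = 1) (K : ℕ → Subgroup A) : ∀ ps : List ℕ, ps.Nodup →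
    IndepL (ps.map K) → c ∉ spanL (ps.map K) → ∀ F : A → ℤ, MD (ps.map K) F →
    (∀ x, F (c * x) = - F x) →
    ∃ G : ℕ → A → ℤ, (∀ p ∈ ps, ∀ z ∈ K p, ∀ x, G p (z * x) = G p x) ∧
      (∀ x, F x = (ps.map fun p => G p x).sum) ∧
      (∀ p ∈ ps, ∀ x, G p (c * x) = - G p x) := by
  intro ps
  induction ps with
  | nil =>
    intro _ _ _ F hF _
    refine ⟨fun _ => 0, by simp, ?_, by simp⟩
    intro x
    have : F x = 0 := hF x
    simp [this]
  | cons p ps ih =>
    intro hnd hI hc F hF hodd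
    have hpn : p ∉ ps := (List.nodup_cons.mp hnd).1
    set L := ps.map K with hL
    have hd : Disjoint (K p) (spanL L ⊔ Subgroup.zpowers c) := by
      rw [Subgroup.disjoint_def]
      intro z hz hz2
      obtain ⟨h, hh, y, hy, rfl⟩ := Subgroup.mem_sup.mp hz2
      have hy2 : y = 1 ∨ y = c := by
        obtain ⟨i, rfl⟩ := Subgroup.mem_zpowers_iff.mp hy
        rcases Int.even_or_odd' i with ⟨j, rfl | rfl⟩
        · left
          rw [zpow_mul, zpow_ofNat, pow_two, hc2, one_zpow]
        · right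
          rw [zpow_add, zpow_mul, zpow_ofNat, pow_two, hc2, one_zpow, one_mul, zpow_one]
      rcases hy2 with rfl | rfl
      · rw [mul_one] at hz ⊢
        exact Subgroup.disjoint_def.mp hI.1 hz hh
      · exfalso
        apply hc
        have : y = (h * y) * h⁻¹ := by rw [mul_comm h y, mul_inv_cancel_right]
        rw [this]
        exact Subgroup.mul_mem_sup hz ((spanL L).inv_mem hh)
    obtain ⟨k, hk1, hk2, hk3⟩ := exists_coord (K p) _ hd
    have hk3' : ∀ h ∈ spanL L, ∀ x, k (h * x) = k x := fun h hh =>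
      hk3 h (Subgroup.mem_sup_left hh)
    have hkc : ∀ x, k (c * x) = k x := hk3 c (Subgroup.mem_sup_right (Subgroup.mem_zpowers c))
    set B : A → ℤ := fun x => F ((k x)⁻¹ * x) with hB
    have hBinv : ∀ z ∈ K p, ∀ x, B (z * x) = B x := by
      intro z hz x
      simp only [hB]
      rw [hk2 z hz, mul_inv_rev, mul_assoc, inv_mul_cancel_left]
    have hBodd : ∀ x, B (c * x) = - B x := by
      intro x
      simp only [hB]
      rw [hkc, mul_left_comm, hodd]
    have hD := split_first hF k hk1 hk3'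
    have hDodd : ∀ x, F (c * x) - B (c * x) = - (F x - B x) := by
      intro x
      rw [hodd, hBodd]
      ring
    have hc' : c ∉ spanL L := fun h => hc (Subgroup.mem_sup_right h)
    obtain ⟨G, hG1, hG2, hG3⟩ := ih (List.nodup_cons.mp hnd).2 hI.2 hc' (fun x => F x - B x) hD hDodd
    refine ⟨fun r => if r = p then B else G r, ?_, ?_, ?_⟩
    · intro r hr z hz x
      by_cases hrp : r = p
      · subst hrp
        simp only [if_true]
        exact hBinv z hz x
      · simp only [hrp, if_false]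
        exact hG1 r ((List.mem_cons.mp hr).resolve_left hrp) z hz x
    · intro x
      have h1 := hG2 x
      rw [List.map_cons, List.sum_cons]
      have h2 : (ps.map fun r => (if r = p then B else G r) x)
          = ps.map fun r => G r x := by
        apply List.map_congr_left
        intro r hr
        have : r ≠ p := fun h => hpn (h ▸ hr)
        simp [this]
      rw [h2, ← h1]
      simp
    · intro r hr x
      by_cases hrp : r = p
      · subst hrp
        simp only [if_true]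
        exact hBodd x
      · simp only [hrp, if_false]
        exact hG3 r ((List.mem_cons.mp hr).resolve_left hrp) x

/-- the case of two subgroups spanning everything -/
theorem split_two (c c1 c2 : A) (K1 K2 : Subgroup A) (hd : Disjoint K1 K2)
    (htop : K1 ⊔ K2 = ⊤) (hc1 : c1 ∈ K1) (hc2 : c2 ∈ K2) (hc : c = c1 * c2)
    (F : A → ℤ) (hF : MD [K1, K2] F) (hodd : ∀ x, F (c * x) = - F x)
    (hpar : Even (F 1 + F c2)) :
    ∃ G1 G2 : A → ℤ, (∀ z ∈ K1, ∀ x, G1 (z * x) = G1 x) ∧ (∀ z ∈ K2, ∀ x, G2 (z * x) = G2 x) ∧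
      (∀ x, F x = G1 x + G2 x) ∧ (∀ x, G1 (c * x) = - G1 x) ∧ (∀ x, G2 (c * x) = - G2 x) := by
  obtain ⟨k, hk1, hk2, hk3⟩ := exists_coord K1 K2 hd
  have hspan : spanL [K2] = K2 := by simp [spanL]
  set u : A → ℤ := fun x => F ((k x)⁻¹ * x) with hu
  set v : A → ℤ := fun x => F x - u x with hv
  have huinv : ∀ z ∈ K1, ∀ x, u (z * x) = u x := by
    intro z hz x
    simp only [hu]
    rw [hk2 z hz, mul_inv_rev, mul_assoc, inv_mul_cancel_left]
  have hvMD : MD [K2] v := split_first hF k hk1 (by rw [hspan]; exact hk3)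
  have hvinv : ∀ z ∈ K2, ∀ x, v (z * x) = v x := by
    intro z hz x
    have h1 : v x - v (z * x) = 0 := hvMD x z hz
    omega
  -- the constant
  have hconst : ∀ x y, u (c * x) + u x = u (c * y) + u y := by
    have e1 : ∀ x, u (c * x) + u x = -(v (c * x) + v x) := by
      intro x
      simp only [hv]
      have := hodd x
      linarith
    have e2 : ∀ z ∈ K1, ∀ x, u (c * (z * x)) + u (z * x) = u (c * x) + u x := by
      intro z hz x
      rw [mul_left_comm, huinv z hz, huinv z hz]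
    have e3 : ∀ z ∈ K2, ∀ x, u (c * (z * x)) + u (z * x) = u (c * x) + u x := by
      intro z hz x
      rw [e1, e1, mul_left_comm, hvinv z hz, hvinv z hz]
    intro x y
    have h1 : x * y⁻¹ ∈ K1 ⊔ K2 := by rw [htop]; exact Subgroup.mem_top _
    obtain ⟨z1, hz1, z2, hz2, h2⟩ := Subgroup.mem_sup.mp h1
    have h3 : x = z1 * (z2 * y) := by rw [← mul_assoc, h2, inv_mul_cancel_right]
    rw [h3, e2 z1 hz1, e3 z2 hz2]
  set e := u (c * 1) + u 1 with he
  have hpar2 : Even e := by
    have h1 : u c2 = u (c * 1) := by rw [mul_one, hc, huinv c1 hc1]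
    have h2 : v c2 = v 1 := by
      have := hvinv c2 hc2 1
      rwa [mul_one] at this
    have h3 : F 1 + F c2 = e + 2 * v 1 := by
      have e1 : F 1 = u 1 + v 1 := by simp [hv]
      have e2 : F c2 = u c2 + v c2 := by simp [hv]
      rw [e1, e2, h1, h2, he]
      ring
    rw [h3] at hpar
    have h4 : Even (2 * v 1) := even_two_mul _
    exact (Int.even_add.mp hpar).mpr h4
  obtain ⟨d, hd'⟩ := hpar2
  refine ⟨fun x => u x - d, fun x => v x + d, ?_, ?_, ?_, ?_, ?_⟩
  · intro z hz x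
    simp only
    rw [huinv z hz]
  · intro z hz x
    simp only
    rw [hvinv z hz]
  · intro x
    simp only [hv]
    ring
  · intro x
    have h1 := hconst x 1
    rw [← he] at h1
    simp only
    linarith
  · intro x
    have h1 := hconst x 1
    rw [← he] at h1
    have h2 := hodd x
    simp only [hv]
    linarith

/-- a `0,1`-valued function exchanged by `c`, invariant under `H` -/
lemma exists_half (c : A) (hc2 : c * c = 1) (H : Subgroup A) (hc : c ∉ H) :
    ∃ θ : A → ℤ, (∀ x, θ (c * x) = 1 - θ x) ∧ (∀ h ∈ H, ∀ x, θ (h * x) = θ x) := by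
  classical
  have hz : ∀ y ∈ Subgroup.zpowers c, y = 1 ∨ y = c := by
    intro y hy
    obtain ⟨i, rfl⟩ := Subgroup.mem_zpowers_iff.mp hy
    rcases Int.even_or_odd' i with ⟨j, rfl | rfl⟩
    · left
      rw [zpow_mul, zpow_ofNat, pow_two, hc2, one_zpow]
    · right
      rw [zpow_add, zpow_mul, zpow_ofNat, pow_two, hc2, one_zpow, one_mul, zpow_one]
  have hd : Disjoint (Subgroup.zpowers c) H := by
    rw [Subgroup.disjoint_def]
    intro y hy hyH
    rcases hz y hy with rfl | rfl
    · rfl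
    · exact absurd hyH hc
  have hc1 : c ≠ 1 := fun h => hc (h ▸ H.one_mem)
  obtain ⟨k, hk1, hk2, hk3⟩ := exists_coord (Subgroup.zpowers c) H hd
  refine ⟨fun x => if k x = 1 then 1 else 0, ?_, ?_⟩
  · intro x
    simp only
    rw [hk2 c (Subgroup.mem_zpowers c)]
    rcases hz _ (hk1 x) with h | h
    · rw [h]
      simp [hc1]
    · rw [h, hc2]
      simp [hc1]
  · intro h hh x
    simp only
    rw [hk3 h hh]

/-- the case of three subgroups spanning everything -/
theorem split_three (c c3 c12 : A) (hcc : c * c = 1) (K1 K2 K3 : Subgroup A)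
    (hI : IndepL [K3, K1, K2]) (hd1 : Disjoint K1 (K2 ⊔ K3))
    (htop : K3 ⊔ (K1 ⊔ K2) = ⊤) (hc3 : c3 ∈ K3) (hc12 : c12 ∈ K1 ⊔ K2)
    (hc : c = c3 * c12) (h13 : c ∉ K1 ⊔ K3) (h23 : c ∉ K2 ⊔ K3) (h12 : c ∉ K1 ⊔ K2)
    (F : A → ℤ) (hF : MD [K3, K1, K2] F) (hodd : ∀ x, F (c * x) = - F x) :
    ∃ G1 G2 G3 : A → ℤ, (∀ z ∈ K1, ∀ x, G1 (z * x) = G1 x) ∧
      (∀ z ∈ K2, ∀ x, G2 (z * x) = G2 x) ∧ (∀ z ∈ K3, ∀ x, G3 (z * x) = G3 x) ∧
      (∀ x, F x = G1 x + G2 x + G3 x) ∧ (∀ x, G1 (c * x) = - G1 x) ∧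
      (∀ x, G2 (c * x) = - G2 x) ∧ (∀ x, G3 (c * x) = - G3 x) := by
  have hsp12 : spanL [K1, K2] = K1 ⊔ K2 := by simp [spanL]
  have hsp2 : spanL [K2] = K2 := by simp [spanL]
  have hd3 : Disjoint K3 (K1 ⊔ K2) := by rw [← hsp12]; exact hI.1
  obtain ⟨k, hk1, hk2, hk3⟩ := exists_coord K3 (K1 ⊔ K2) hd3
  set f0 : A → ℤ := fun x => F ((k x)⁻¹ * x) with hf0
  have hf0inv : ∀ z ∈ K3, ∀ x, f0 (z * x) = f0 x := by
    intro z hz x
    simp only [hf0]
    rw [hk2 z hz, mul_inv_rev, mul_assoc, inv_mul_cancel_left]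
  have hD0 : MD [K1, K2] (fun x => F x - f0 x) :=
    split_first hF k hk1 (by rw [hsp12]; exact hk3)
  have hf0c : ∀ x, f0 (c * x) = - F (c3⁻¹ * ((k x)⁻¹ * x)) := by
    intro x
    simp only [hf0]
    have h1 : k (c * x) = c3 * k x := by
      rw [hc, mul_assoc, hk2 c3 hc3, hk3 c12 hc12]
    rw [h1, mul_inv_rev, ← hodd]
    congr 1
    rw [mul_comm (k x)⁻¹ c3⁻¹, mul_assoc, mul_left_comm (k x)⁻¹ c x, mul_left_comm c3⁻¹ c]
  set e : A → ℤ := fun x => f0 x + f0 (c * x) with he
  have heMD : MD [K1, K2] e := by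
    intro x
    have h1 := ((MD_cons.mp hF) _ (K3.inv_mem hc3)).translate ((k x)⁻¹) x
    refine MDat_congr _ _ _ x ?_ h1
    intro y hy
    rw [hsp12] at hy
    simp only [he]
    rw [hf0c]
    simp only [hf0]
    rw [hk3 y hy]
    ring
  have heinv : ∀ z ∈ K3, ∀ x, e (z * x) = e x := by
    intro z hz x
    simp only [he]
    rw [hf0inv z hz, mul_left_comm, hf0inv z hz]
  have hec : ∀ x, e (c * x) = e x := by
    intro x
    simp only [he]
    rw [← mul_assoc c c x, hcc, one_mul]
    ring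
  -- split `e`
  obtain ⟨l, hl1, hl2, hl3⟩ := exists_coord K1 (K2 ⊔ K3) hd1
  set u : A → ℤ := fun x => e ((l x)⁻¹ * x) with hu
  set v : A → ℤ := fun x => e x - u x with hv
  have hu1 : ∀ z ∈ K1, ∀ x, u (z * x) = u x := by
    intro z hz x
    simp only [hu]
    rw [hl2 z hz, mul_inv_rev, mul_assoc, inv_mul_cancel_left]
  have hu3 : ∀ z ∈ K3, ∀ x, u (z * x) = u x := by
    intro z hz x
    simp only [hu]
    rw [hl3 z (Subgroup.mem_sup_right hz), mul_left_comm, heinv z hz]
  have hv3 : ∀ z ∈ K3, ∀ x, v (z * x) = v x := by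
    intro z hz x
    simp only [hv]
    rw [heinv z hz, hu3 z hz]
  have hvMD : MD [K2] v := split_first heMD l hl1 (by
    rw [hsp2]; exact fun h hh => hl3 h (Subgroup.mem_sup_left hh))
  have hv2 : ∀ z ∈ K2, ∀ x, v (z * x) = v x := by
    intro z hz x
    have h1 : v x - v (z * x) = 0 := hvMD x z hz
    omega
  have hconst : ∀ h : A → ℤ, (∀ z ∈ K1, ∀ x, h (z * x) = h x) → (∀ z ∈ K2, ∀ x, h (z * x) = h x) →
      (∀ z ∈ K3, ∀ x, h (z * x) = h x) → ∀ x y, h x = h y := by
    intro h e1 e2 e3 x y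
    have h1 : x * y⁻¹ ∈ K3 ⊔ (K1 ⊔ K2) := by rw [htop]; exact Subgroup.mem_top _
    obtain ⟨z3, hz3, w, hw, h2⟩ := Subgroup.mem_sup.mp h1
    obtain ⟨z1, hz1, z2, hz2, rfl⟩ := Subgroup.mem_sup.mp hw
    have h3 : x = z3 * (z1 * (z2 * y)) := by
      have : z3 * (z1 * (z2 * y)) = (z3 * (z1 * z2)) * y := by group
      rw [this, h2, inv_mul_cancel_right]
    rw [h3, e3 z3 hz3, e1 z1 hz1, e2 z2 hz2]
  have huc : ∀ x, u (c * x) = u x := by
    have e0 : ∀ x, u (c * x) - u x = -(v (c * x) - v x) := by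
      intro x
      simp only [hv]
      rw [hec]
      ring
    have e1 := hconst (fun x => u (c * x) - u x)
      (by
        intro z hz x
        rw [mul_left_comm, hu1 z hz, hu1 z hz])
      (by
        intro z hz x
        rw [e0, e0, mul_left_comm, hv2 z hz, hv2 z hz])
      (by
        intro z hz x
        rw [mul_left_comm, hu3 z hz, hu3 z hz])
    intro x
    have h1 := e1 x (c * x)
    rw [← mul_assoc c c x, hcc, one_mul] at h1
    omega
  have hvc : ∀ x, v (c * x) = v x := by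
    intro x
    simp only [hv]
    rw [hec, huc]
  obtain ⟨θ1, hθ1, hθ1'⟩ := exists_half c hcc (K1 ⊔ K3) h13
  obtain ⟨θ2, hθ2, hθ2'⟩ := exists_half c hcc (K2 ⊔ K3) h23
  set u' : A → ℤ := fun x => θ1 x * u x with hu'
  set v' : A → ℤ := fun x => θ2 x * v x with hv'
  have hu'1 : ∀ z ∈ K1, ∀ x, u' (z * x) = u' x := by
    intro z hz x
    simp only [hu']
    rw [hθ1' z (Subgroup.mem_sup_left hz), hu1 z hz]
  have hu'3 : ∀ z ∈ K3, ∀ x, u' (z * x) = u' x := by
    intro z hz x
    simp only [hu']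
    rw [hθ1' z (Subgroup.mem_sup_right hz), hu3 z hz]
  have hv'2 : ∀ z ∈ K2, ∀ x, v' (z * x) = v' x := by
    intro z hz x
    simp only [hv']
    rw [hθ2' z (Subgroup.mem_sup_left hz), hv2 z hz]
  have hv'3 : ∀ z ∈ K3, ∀ x, v' (z * x) = v' x := by
    intro z hz x
    simp only [hv']
    rw [hθ2' z (Subgroup.mem_sup_right hz), hv3 z hz]
  set B : A → ℤ := fun x => f0 x - u' x - v' x with hB
  have hB3 : ∀ z ∈ K3, ∀ x, B (z * x) = B x := by
    intro z hz x
    simp only [hB]
    rw [hf0inv z hz, hu'3 z hz, hv'3 z hz]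
  have hBodd : ∀ x, B (c * x) = - B x := by
    intro x
    have e1 : u' (c * x) = u x - u' x := by
      simp only [hu']
      rw [hθ1, huc]
      ring
    have e2 : v' (c * x) = v x - v' x := by
      simp only [hv']
      rw [hθ2, hvc]
      ring
    have e3 : f0 (c * x) = u x + v x - f0 x := by
      have : e x = u x + v x := by simp [hv]
      simp only [he] at this
      linarith
    simp only [hB]
    rw [e1, e2, e3]
    ring
  have hDMD : MD [K1, K2] (fun x => F x - B x) := by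
    have h1 := (hD0.add (MD_of_inv [K1, K2] (K := K1) (by simp) u' hu'1)).add
      (MD_of_inv [K1, K2] (K := K2) (by simp) v' hv'2)
    convert h1 using 2 with x
    simp only [hB]
    ring
  have hDodd : ∀ x, F (c * x) - B (c * x) = -(F x - B x) := by
    intro x
    rw [hodd, hBodd]
    ring
  -- now the two remaining subgroups
  set KK : ℕ → Subgroup A := fun i => if i = 0 then K1 else K2 with hKK
  have hmap : ([0, 1] : List ℕ).map KK = [K1, K2] := by simp [hKK]
  obtain ⟨G, hG1, hG2, hG3⟩ := int_split c hcc KK [0, 1] (by simp)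
    (by rw [hmap]; exact hI.2) (by rw [hmap, hsp12]; exact h12) (fun x => F x - B x)
    (by rw [hmap]; exact hDMD) hDodd
  refine ⟨G 0, G 1, B, ?_, ?_, hB3, ?_, ?_, ?_, hBodd⟩
  · intro z hz x
    exact hG1 0 (by simp) z (by simpa [hKK] using hz) x
  · intro z hz x
    exact hG1 1 (by simp) z (by simpa [hKK] using hz) x
  · intro x
    have := hG2 x
    simp only [List.map_cons, List.map_nil, List.sum_cons, List.sum_nil, add_zero] at this
    linarith
  · exact hG3 0 (by simp)
  · exact hG3 1 (by simp)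

end Pool.Agent.Lib.MP_938ce2_ag_h99
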