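import Mathlib

/-!
Functions on a finite commutative group all of whose mixed differences along a list of subgroups
vanish: minimal norm and efficient decomposition of sparse functions.
-/

set_option autoImplicit false

open Finset

namespace Pool.Agent.Lib.MP_938ce2_ag_h99

variable {A : Type*} [CommGroup A]

/-- all mixed differences of `F` along `L` vanish at `x` -/
def MDat : List (Subgroup A) → (A → ℤ) → A → Prop
  | [], F, x => F x = 0
  | K :: L, F, x => ∀ k ∈ K, MDat L (fun y => F y - F (k * y)) x

/-- all mixed differences of `F` along `L` vanish -/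
def MD (L : List (Subgroup A)) (F : A → ℤ) : Prop := ∀ x, MDat L F x

/-- the subgroup generated by the members of the list -/
def spanL : List (Subgroup A) → Subgroup A
  | [] => ⊥
  | K :: L => K ⊔ spanL L

/-- independence -/
def IndepL : List (Subgroup A) → Prop
  | [] => True
  | K :: L => Disjoint K (spanL L) ∧ IndepL L

lemma MD_cons {K : Subgroup A} {L : List (Subgroup A)} {F : A → ℤ} :
    MD (K :: L) F ↔ ∀ k ∈ K, MD L (fun y => F y - F (k * y)) := by
  constructor
  · intro h k hk x
    exact h x k hk
  · intro h x k hk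
    exact h k hk x

lemma MDat_congr (L : List (Subgroup A)) : ∀ (F G : A → ℤ) (x : A),
    (∀ y ∈ spanL L, F (y * x) = G (y * x)) → MDat L F x → MDat L G x := by
  induction L with
  | nil =>
    intro F G x h hF
    have := h 1 (Subgroup.one_mem _)
    rw [one_mul] at this
    simp only [MDat] at hF ⊢
    rw [← this, hF]
  | cons K L ih =>
    intro F G x h hF k hk
    refine ih _ _ x ?_ (hF k hk)
    intro y hy
    have h1 : y ∈ spanL (K :: L) := Subgroup.mem_sup_right hy
    have h2 : k * y ∈ spanL (K :: L) := Subgroup.mul_mem_sup hk hy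
    rw [h y h1, ← mul_assoc, h _ h2]

lemma MDat_translate (L : List (Subgroup A)) : ∀ (F : A → ℤ) (c x : A),
    MDat L F (c * x) → MDat L (fun y => F (c * y)) x := by
  induction L with
  | nil => intro F c x h; exact h
  | cons K L ih =>
    intro F c x h k hk
    have := ih _ c x (h k hk)
    simp only at this ⊢
    convert this using 4 with y
    rw [mul_left_comm]

lemma MD.translate {L : List (Subgroup A)} {F : A → ℤ} (h : MD L F) (c : A) :
    MD L (fun y => F (c * y)) := fun x => MDat_translate L F c x (h _)

lemma MD_zero (L : List (Subgroup A)) : MD L (0 : A → ℤ) := by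
  induction L with
  | nil => intro x; rfl
  | cons K L ih =>
    rw [MD_cons]
    intro k _
    convert ih using 1
    funext x
    simp

lemma MD.sub {L : List (Subgroup A)} : ∀ {F G : A → ℤ}, MD L F → MD L G →
    MD L (fun x => F x - G x) := by
  induction L with
  | nil =>
    intro F G hF hG x
    have h1 : F x = 0 := hF x
    have h2 : G x = 0 := hG x
    show F x - G x = 0
    rw [h1, h2, sub_zero]
  | cons K L ih =>
    intro F G hF hG
    rw [MD_cons] at *
    intro k hk
    have := ih (hF k hk) (hG k hk)
    convert this using 2 with x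
    ring

variable [Fintype A]

open Classical in
/-- the sum of `|F|` over the coset of `x` -/
noncomputable def orbSum (H : Subgroup A) (F : A → ℤ) (x : A) : ℤ :=
  ∑ y ∈ univ.filter (· ∈ H), |F (y * x)|

open Classical in
lemma orbSum_mul_mem {H : Subgroup A} (F : A → ℤ) {h : A} (hh : h ∈ H) (x : A) :
    orbSum H F (h * x) = orbSum H F x := by
  unfold orbSum
  refine sum_bij' (fun y _ => y * h) (fun y _ => y * h⁻¹) ?_ ?_ ?_ ?_ ?_
  · intro y hy
    simp only [mem_filter, mem_univ, true_and] at hy ⊢
    exact H.mul_mem hy hh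
  · intro y hy
    simp only [mem_filter, mem_univ, true_and] at hy ⊢
    exact H.mul_mem hy (H.inv_mem hh)
  · intro y _; simp
  · intro y _; simp
  · intro y _; rw [mul_assoc]

lemma orbSum_nonneg (H : Subgroup A) (F : A → ℤ) (x : A) : 0 ≤ orbSum H F x :=
  sum_nonneg fun _ _ => abs_nonneg _

open Classical in
lemma abs_le_orbSum (H : Subgroup A) (F : A → ℤ) (x : A) : |F x| ≤ orbSum H F x := by
  have h1 := single_le_sum (f := fun y => |F (y * x)|) (s := univ.filter (· ∈ H))
    (fun _ _ => abs_nonneg _) (a := 1) (by simp [H.one_mem])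
  simpa [orbSum] using h1

lemma orbSum_sub_le (H : Subgroup A) (F G : A → ℤ) (x : A) :
    orbSum H (fun y => F y - G y) x ≤ orbSum H F x + orbSum H G x := by
  unfold orbSum
  rw [← sum_add_distrib]
  exact sum_le_sum fun y _ => abs_sub _ _

lemma orbSum_translate (H : Subgroup A) (F : A → ℤ) (c x : A) :
    orbSum H (fun y => F (c * y)) x = orbSum H F (c * x) := by
  unfold orbSum
  refine sum_congr rfl fun y _ => ?_
  rw [mul_left_comm]

lemma orbSum_congr (H : Subgroup A) (F G : A → ℤ) (x : A)
    (h : ∀ y ∈ H, F (y * x) = G (y * x)) : orbSum H F x = orbSum H G x := by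
  classical
  unfold orbSum
  refine sum_congr rfl fun y hy => ?_
  simp only [mem_filter, mem_univ, true_and] at hy
  rw [h y hy]

open Classical in
lemma orbSum_sup {K H : Subgroup A} (hd : Disjoint K H) (F : A → ℤ) (x : A) :
    orbSum (K ⊔ H) F x = ∑ z ∈ univ.filter (· ∈ K), orbSum H F (z * x) := by
  unfold orbSum
  rw [← sum_product' (univ.filter (· ∈ K)) (univ.filter (· ∈ H)) (fun z y => |F (y * (z * x))|)]
  symm
  refine sum_bij (fun p _ => p.2 * p.1) ?_ ?_ ?_ ?_
  · intro p hp
    simp only [mem_product, mem_filter, mem_univ, true_and] at hp ⊢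
    rw [mul_comm]
    exact Subgroup.mul_mem_sup hp.1 hp.2
  · intro p hp q hq h
    simp only [mem_product, mem_filter, mem_univ, true_and] at hp hq
    have e1 : q.1⁻¹ * p.1 = q.2 * p.2⁻¹ := by
      have : p.2 * p.1 = q.2 * q.1 := h
      calc q.1⁻¹ * p.1 = q.1⁻¹ * p.2⁻¹ * (p.2 * p.1) := by group
        _ = q.1⁻¹ * p.2⁻¹ * (q.2 * q.1) := by rw [this]
        _ = q.2 * p.2⁻¹ := by
            rw [mul_comm q.2 q.1, ← mul_assoc, mul_assoc q.1⁻¹, mul_comm p.2⁻¹ q.1]
            group
            rw [mul_comm]
    have h1 : q.1⁻¹ * p.1 ∈ K := K.mul_mem (K.inv_mem hq.1) hp.1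
    have h2 : q.1⁻¹ * p.1 ∈ H := by rw [e1]; exact H.mul_mem hq.2 (H.inv_mem hp.2)
    have h3 : q.1⁻¹ * p.1 = 1 := by
      have := Subgroup.disjoint_def.mp hd h1 h2
      exact this
    have h4 : q.2 * p.2⁻¹ = 1 := by rw [← e1, h3]
    ext
    · exact (inv_mul_eq_one.mp h3).symm
    · exact (mul_inv_eq_one.mp h4).symm
  · intro w hw
    simp only [mem_filter, mem_univ, true_and] at hw
    obtain ⟨z, hz, y, hy, rfl⟩ := Subgroup.mem_sup.mp hw
    exact ⟨(z, y), by simp [hz, hy], mul_comm _ _⟩
  · intro p _
    rw [mul_assoc]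

/-- A nonzero function with vanishing mixed differences has large norm. -/
theorem min_norm (P : ℤ) (L : List (Subgroup A)) : IndepL L →
    (∀ K ∈ L, P ≤ (Nat.card K : ℤ)) → ∀ F : A → ℤ, MD L F → ∀ x, F x ≠ 0 →
    P ≤ orbSum (spanL L) F x := by
  classical
  induction L with
  | nil =>
    intro _ _ F hF x hx
    exact absurd (hF x) hx
  | cons K L ih =>
    intro hI hP F hF x hx
    have hIH := ih hI.2 (fun K' hK' => hP K' (List.mem_cons_of_mem _ hK'))
    have hsup : orbSum (spanL (K :: L)) F x
        = ∑ z ∈ univ.filter (· ∈ K), orbSum (spanL L) F (z * x) := orbSum_sup hI.1 F x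
    rw [hsup]
    rw [MD_cons] at hF
    by_cases hc : ∃ z ∈ K, ∃ y ∈ spanL L, F (y * x) ≠ F (z * (y * x))
    · obtain ⟨z, hz, y, hy, hne⟩ := hc
      have h1 := hIH _ (hF z hz) (y * x) (by simpa [sub_eq_zero] using hne)
      rw [orbSum_mul_mem _ hy] at h1
      have h2 := orbSum_sub_le (spanL L) F (fun y => F (z * y)) x
      rw [orbSum_translate] at h2
      have hz1 : (1 : A) ≠ z := by
        rintro rfl
        apply hne
        rw [one_mul]
      have h3 : ∑ w ∈ ({1, z} : Finset A), orbSum (spanL L) F (w * x)
          ≤ ∑ z ∈ univ.filter (· ∈ K), orbSum (spanL L) F (z * x) := by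
        apply sum_le_sum_of_subset_of_nonneg
        · intro w hw
          simp only [mem_insert, mem_singleton] at hw
          simp only [mem_filter, mem_univ, true_and]
          rcases hw with rfl | rfl
          · exact K.one_mem
          · exact hz
        · intro w _ _
          exact orbSum_nonneg _ _ _
      rw [sum_pair hz1, one_mul] at h3
      linarith
    · push Not at hc
      have h1 : ∀ z ∈ univ.filter (· ∈ K), orbSum (spanL L) F (z * x) = orbSum (spanL L) F x := by
        intro z hz
        simp only [mem_filter, mem_univ, true_and] at hz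
        rw [← orbSum_translate]
        apply orbSum_congr
        intro y hy
        rw [hc z hz y hy]
      rw [sum_congr rfl h1, sum_const, nsmul_eq_mul]
      have h2 : ((univ.filter (· ∈ K)).card : ℤ) = Nat.card K := by
        rw [Nat.card_eq_fintype_card, Fintype.card_subtype]
      rw [h2]
      have h3 := hP K (List.mem_cons_self)
      have h4 : 1 ≤ orbSum (spanL L) F x := by
        have := abs_le_orbSum (spanL L) F x
        have h5 : 1 ≤ |F x| := Int.one_le_abs hx
        linarith
      nlinarith [Nat.cast_nonneg (α := ℤ) (Nat.card K)]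

/-- the weight of a subgroup -/
noncomputable def wt (K : Subgroup A) : ℤ := if Even (Nat.card K) then 2 else 1

lemma wt_le_card (K : Subgroup A) : wt K ≤ Nat.card K := by
  unfold wt
  have h : 0 < Nat.card K := Nat.card_pos
  split_ifs with he
  · obtain ⟨r, hr⟩ := he
    have : 2 ≤ Nat.card K := by omega
    exact_mod_cast this
  · exact_mod_cast h

omit [Fintype A] in
lemma wt_nonneg (K : Subgroup A) : 0 ≤ wt K := by
  unfold wt
  split_ifs <;> norm_num

open Classical in
lemma card_filter_mem (K : Subgroup A) : ((univ.filter (· ∈ K)).card : ℤ) = Nat.card K := by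
  rw [Nat.card_eq_fintype_card, Fintype.card_subtype]

open Classical in
/-- Splitting off the part of a sparse function which is invariant under the first subgroup. -/
theorem stage (P : ℤ) (K : Subgroup A) (L : List (Subgroup A)) (hI : IndepL (K :: L))
    (hP : ∀ K' ∈ L, P ≤ (Nat.card K' : ℤ)) (F : A → ℤ) (hF : MD (K :: L) F)
    (hsmall : ∀ x, 2 * orbSum (spanL (K :: L)) F x < P * Nat.card K) :
    ∃ B : A → ℤ, (∀ z ∈ K, ∀ x, B (z * x) = B x) ∧ MD L (fun x => F x - B x) ∧
      (∀ x, wt K * |B x| + ∑ z ∈ univ.filter (· ∈ K), |F (z * x) - B (z * x)|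
        ≤ ∑ z ∈ univ.filter (· ∈ K), |F (z * x)|) ∧
      (∀ c : A, (∀ x, F (c * x) = - F x) → ∀ x, B (c * x) = - B x) := by
  have hsup : ∀ x, orbSum (spanL (K :: L)) F x
        = ∑ z ∈ univ.filter (· ∈ K), orbSum (spanL L) F (z * x) := fun x => orbSum_sup hI.1 F x
  have hcardK : ((univ.filter (· ∈ K)).card : ℤ) = Nat.card K := card_filter_mem K
  set good : A → A → Prop := fun x z => z ∈ K ∧ 2 * orbSum (spanL L) F (z * x) < P with hgood
  have hex : ∀ x, ∃ z, good x z := by
    intro x
    by_contra hno
    push Not at hno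
    have h1 : ∑ z ∈ univ.filter (· ∈ K), P ≤ ∑ z ∈ univ.filter (· ∈ K),
        2 * orbSum (spanL L) F (z * x) := by
      apply sum_le_sum
      intro z hz
      simp only [mem_filter, mem_univ, true_and] at hz
      by_contra hlt
      push Not at hlt
      exact hno z ⟨hz, hlt⟩
    rw [sum_const, nsmul_eq_mul, hcardK, ← mul_sum, ← hsup] at h1
    have := hsmall x
    linarith [mul_comm P (Nat.card K : ℤ)]
  choose zc hzc using hex
  -- difference of two translates
  have hdiff : ∀ z ∈ K, ∀ z' ∈ K, MD L (fun w => F (z * w) - F (z' * w)) := by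
    intro z hz z' hz'
    have h1 := (MD_cons.mp hF) (z' * z⁻¹) (K.mul_mem hz' (K.inv_mem hz))
    have h2 := MD.translate h1 z
    convert h2 using 3 with w
    rw [← mul_assoc, inv_mul_cancel_right]
  have hmin := min_norm P L hI.2 hP
  have hkey : ∀ x z z', good x z → good x z' → ∀ y ∈ spanL L,
      F (z * (y * x)) = F (z' * (y * x)) := by
    intro x z z' hz hz' y hy
    by_contra hne
    have h1 := hmin _ (hdiff z hz.1 z' hz'.1) (y * x) (by simpa [sub_eq_zero] using hne)
    rw [orbSum_mul_mem _ hy] at h1
    have h2 := orbSum_sub_le (spanL L) (fun y => F (z * y)) (fun y => F (z' * y)) x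
    rw [orbSum_translate, orbSum_translate] at h2
    have h3 := hz.2
    have h4 := hz'.2
    linarith
  have hgoodspan : ∀ x z, ∀ y ∈ spanL L, good x z → good (y * x) z := by
    intro x z y hy hz
    refine ⟨hz.1, ?_⟩
    rw [mul_left_comm, orbSum_mul_mem _ hy]
    exact hz.2
  set B : A → ℤ := fun x => F (zc x * x) with hB
  have hBval : ∀ x z, good x z → ∀ y ∈ spanL L, B (y * x) = F (z * (y * x)) := by
    intro x z hz y hy
    have h1 := hgoodspan x z y hy hz
    have h2 := hkey (y * x) (zc (y * x)) z (hzc _) h1 1 (Subgroup.one_mem _)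
    simpa [hB] using h2
  have hBinv : ∀ z ∈ K, ∀ x, B (z * x) = B x := by
    intro z hz x
    have h1 : good x (zc (z * x) * z) := by
      have := hzc (z * x)
      refine ⟨K.mul_mem this.1 hz, ?_⟩
      rw [mul_assoc]
      exact this.2
    have h2 := hBval x _ h1 1 (Subgroup.one_mem _)
    rw [one_mul] at h2
    rw [h2, mul_assoc]
  refine ⟨B, hBinv, ?_, ?_, ?_⟩
  · intro x
    have h1 := hdiff 1 K.one_mem (zc x) (hzc x).1 x
    refine MDat_congr L _ _ x ?_ h1
    intro y hy
    simp only [one_mul]
    rw [hBval x (zc x) (hzc x) y hy]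
  · intro x
    -- the bad translates
    set S := univ.filter (· ∈ K) with hS
    set bad := S.filter (fun z => ¬ good x z) with hbad
    set b := orbSum (spanL L) F (zc x * x) with hb
    have hb2 : 2 * b < P := (hzc x).2
    have hb0 : 0 ≤ b := orbSum_nonneg _ _ _
    have hgoodval : ∀ z ∈ S, good x z → orbSum (spanL L) F (z * x) = b := by
      intro z _ hz
      rw [hb, ← orbSum_translate, ← orbSum_translate]
      apply orbSum_congr
      intro y hy
      exact hkey x z (zc x) hz (hzc x) y hy
    have hbadval : ∀ z ∈ S, ¬ good x z → P - b ≤ orbSum (spanL L) F (z * x) := by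
      intro z hz hz'
      have hzK : z ∈ K := by simpa [hS] using hz
      by_cases hall : ∀ y ∈ spanL L, F (z * (y * x)) = F (zc x * (y * x))
      · exfalso
        apply hz'
        refine ⟨hzK, ?_⟩
        have : orbSum (spanL L) F (z * x) = b := by
          rw [hb, ← orbSum_translate, ← orbSum_translate]
          exact orbSum_congr _ _ _ _ hall
        rw [this]
        exact hb2
      · push Not at hall
        obtain ⟨y, hy, hne⟩ := hall
        have h1 := hmin _ (hdiff z hzK (zc x) (hzc x).1) (y * x)
          (by simpa [sub_eq_zero] using hne)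
        rw [orbSum_mul_mem _ hy] at h1
        have h2 := orbSum_sub_le (spanL L) (fun y => F (z * y)) (fun y => F (zc x * y)) x
        rw [orbSum_translate, orbSum_translate] at h2
        linarith
    have hcount : 2 * (bad.card : ℤ) < Nat.card K := by
      by_contra hno
      push Not at hno
      have h1 : ∑ z ∈ S, orbSum (spanL L) F (z * x) ≥ ∑ z ∈ S, (if good x z then b else P - b) := by
        apply sum_le_sum
        intro z hz
        split_ifs with hg
        · exact (hgoodval z hz hg).ge
        · exact hbadval z hz hg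
      have h2 : ∑ z ∈ S, (if good x z then b else P - b)
          = (Nat.card K - bad.card) * b + bad.card * (P - b) := by
        rw [sum_ite, sum_const, sum_const, nsmul_eq_mul, nsmul_eq_mul]
        have h3 : ((S.filter (fun z => good x z)).card : ℤ) + bad.card = Nat.card K := by
          rw [← hcardK, hbad]
          exact_mod_cast card_filter_add_card_filter_not _
        rw [← h3]
        ring
      have h3 := hsmall x
      rw [hsup x] at h3
      have h4 : (Nat.card K : ℤ) * (P - 2 * b) ≤ 2 * bad.card * (P - 2 * b) :=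
        mul_le_mul_of_nonneg_right hno (by linarith)
      rw [h2] at h1
      nlinarith
    set n := S.filter (fun z => F (z * x) ≠ B x) with hn
    have hnbad : n.card ≤ bad.card := by
      apply card_le_card
      intro z hz
      rw [hn, mem_filter] at hz
      rw [hbad, mem_filter]
      refine ⟨hz.1, fun hg => hz.2 ?_⟩
      have := hBval x z hg 1 (Subgroup.one_mem _)
      rw [one_mul] at this
      exact this.symm
    have hkap : wt K ≤ Nat.card K - 2 * n.card := by
      have h1 : (n.card : ℤ) ≤ bad.card := by exact_mod_cast hnbad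
      have h2 : 2 * (n.card : ℤ) < Nat.card K := by linarith
      unfold wt
      split_ifs with he
      · obtain ⟨r, hr⟩ := he
        rw [hr] at h2 ⊢
        push_cast at h2 ⊢
        omega
      · omega
    have hsum : ∑ z ∈ S, (|F (z * x) - B (z * x)| + (if F (z * x) = B x then |B x| else - |B x|))
        ≤ ∑ z ∈ S, |F (z * x)| := by
      apply sum_le_sum
      intro z hz
      have hzK : z ∈ K := by simpa [hS] using hz
      rw [hBinv z hzK]
      split_ifs with he
      · rw [he, sub_self, abs_zero, zero_add]
      · have := abs_sub (F (z * x)) (B x)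
        linarith
    rw [sum_add_distrib, sum_ite, sum_const, sum_const, nsmul_eq_mul, nsmul_eq_mul] at hsum
    have h3 : ((S.filter (fun z => F (z * x) = B x)).card : ℤ) + n.card = Nat.card K := by
      rw [← hcardK, hn]
      exact_mod_cast card_filter_add_card_filter_not _
    have h4 : ((S.filter (fun z => F (z * x) = B x)).card : ℤ) = Nat.card K - n.card := by
      linarith
    rw [h4] at hsum
    have h5 : wt K * |B x| ≤ (Nat.card K - 2 * n.card) * |B x| :=
      mul_le_mul_of_nonneg_right hkap (abs_nonneg _)
    have h6 : (S.filter (fun z => ¬ F (z * x) = B x)).card = n.card := rfl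
    rw [h6] at hsum
    linarith
  · intro c hc x
    have h1 : good (c * x) (zc x) := by
      refine ⟨(hzc x).1, ?_⟩
      have h2 : orbSum (spanL L) F (zc x * (c * x)) = orbSum (spanL L) F (zc x * x) := by
        unfold orbSum
        refine sum_congr rfl fun y _ => ?_
        have : y * (zc x * (c * x)) = c * (y * (zc x * x)) := by
          rw [mul_left_comm (zc x) c x, mul_left_comm y c]
        rw [this, hc, abs_neg]
      rw [h2]
      exact (hzc x).2
    have h3 := hBval (c * x) _ h1 1 (Subgroup.one_mem _)
    rw [one_mul] at h3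
    rw [h3, mul_left_comm, hc]

open Classical in
lemma orbSum_le_sum (H : Subgroup A) (F : A → ℤ) (x : A) : orbSum H F x ≤ ∑ y, |F y| := by
  unfold orbSum
  calc ∑ y ∈ univ.filter (· ∈ H), |F (y * x)| ≤ ∑ y, |F (y * x)| :=
        sum_le_sum_of_subset_of_nonneg (filter_subset _ _) fun _ _ _ => abs_nonneg _
    _ = ∑ y, |F y| := Fintype.sum_equiv (Equiv.mulRight x) _ _ fun y => rfl

/-- sizes of the subgroups in a list: the last at least `P`, the others at least `Q` -/
def Sizes (P Q : ℤ) (K : ℕ → Subgroup A) : List ℕ → Prop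
  | [] => True
  | [p] => P ≤ Nat.card (K p)
  | p :: q :: ps => Q ≤ Nat.card (K p) ∧ Sizes P Q K (q :: ps)

lemma Sizes.le {P Q : ℤ} (hPQ : P ≤ Q) {K : ℕ → Subgroup A} : ∀ {ps : List ℕ},
    Sizes P Q K ps → ∀ p ∈ ps, P ≤ (Nat.card (K p) : ℤ)
  | [], _, p, hp => by simp at hp
  | [q], h, p, hp => by
      rw [List.mem_singleton] at hp
      rw [hp]; exact h
  | q :: r :: ps, h, p, hp => by
      rcases List.mem_cons.mp hp with rfl | hp
      · exact hPQ.trans h.1
      · exact Sizes.le hPQ h.2 p hp

open Classical in
/-- A sparse function with vanishing mixed differences is an efficient sum of functions each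
invariant under one of the subgroups. -/
theorem decomp (P Q : ℤ) (hPQ : P ≤ Q) (hP0 : 0 ≤ P) (K : ℕ → Subgroup A) : ∀ ps : List ℕ,
    ps ≠ [] → ps.Nodup → IndepL (ps.map K) → Sizes P Q K ps → ∀ F : A → ℤ, MD (ps.map K) F →
    (2 ≤ ps.length → 2 * ∑ x, |F x| < P * Q) →
    ∃ G : ℕ → A → ℤ, (∀ p ∈ ps, ∀ z ∈ K p, ∀ x, G p (z * x) = G p x) ∧
      (∀ x, F x = (ps.map fun p => G p x).sum) ∧
      (∀ c : A, (∀ x, F (c * x) = - F x) → ∀ p ∈ ps, ∀ x, G p (c * x) = - G p x) ∧
      ((ps.map fun p => (wt (K p) : ℚ) * ((∑ x, |G p x| : ℤ) : ℚ) / (Nat.card (K p) : ℚ)).sum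
        ≤ ((∑ x, |F x| : ℤ) : ℚ)) := by
  intro ps
  induction ps with
  | nil => intro h; exact absurd rfl h
  | cons p ps ih =>
    intro _ hnd hI hS F hF hsm
    have hcardpos : (0 : ℚ) < (Nat.card (K p) : ℚ) := by exact_mod_cast Nat.card_pos
    rcases ps with _ | ⟨q, ps⟩
    · -- a single subgroup
      refine ⟨fun _ => F, ?_, ?_, ?_, ?_⟩
      · intro p' hp' z hz x
        rw [List.mem_singleton] at hp'
        subst hp'
        have := hF x z hz
        have h2 : F x - F (z * x) = 0 := this
        linarith
      · intro x; simp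
      · intro c hc p' _ x
        exact hc x
      · simp only [List.map_cons, List.map_nil, List.sum_cons, List.sum_nil, add_zero]
        rw [div_le_iff₀ hcardpos, mul_comm]
        apply mul_le_mul_of_nonneg_left
        · exact_mod_cast wt_le_card (K p)
        · exact_mod_cast sum_nonneg fun _ _ => abs_nonneg _
    · have hsm' := hsm (by simp)
      have hQ : Q ≤ Nat.card (K p) := hS.1
      have hsmall : ∀ x, 2 * orbSum (spanL (K p :: (q :: ps).map K)) F x < P * Nat.card (K p) := by
        intro x
        have h1 := orbSum_le_sum (spanL (K p :: (q :: ps).map K)) F x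
        have h2 : P * Q ≤ P * Nat.card (K p) := mul_le_mul_of_nonneg_left hQ hP0
        linarith
      have hP : ∀ K' ∈ (q :: ps).map K, P ≤ (Nat.card K' : ℤ) := by
        intro K' hK'
        obtain ⟨r, hr, rfl⟩ := List.mem_map.mp hK'
        exact Sizes.le hPQ hS.2 r hr
      obtain ⟨B, hBinv, hBMD, hBn, hBodd⟩ := stage P (K p) ((q :: ps).map K) hI hP F hF hsmall
      have hnd' : (q :: ps).Nodup := (List.nodup_cons.mp hnd).2
      have hpn : p ∉ q :: ps := (List.nodup_cons.mp hnd).1
      -- norm inequality
      have hswap : ∀ H : A → ℤ, ∑ x, ∑ z ∈ univ.filter (· ∈ K p), |H (z * x)|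
          = Nat.card (K p) * ∑ x, |H x| := by
        intro H
        rw [sum_comm]
        have h1 : ∀ z ∈ univ.filter (· ∈ K p), ∑ x, |H (z * x)| = ∑ x, |H x| := by
          intro z _
          exact Fintype.sum_equiv (Equiv.mulLeft z) _ _ fun y => rfl
        rw [sum_congr rfl h1, sum_const, nsmul_eq_mul, card_filter_mem]
      have hnorm : wt (K p) * ∑ x, |B x| + Nat.card (K p) * ∑ x, |F x - B x|
          ≤ Nat.card (K p) * ∑ x, |F x| := by
        have h1 := sum_le_sum (s := univ) fun x _ => hBn x
        rw [sum_add_distrib, ← mul_sum, hswap F, hswap (fun x => F x - B x)] at h1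
        exact h1
      have hBnn : (0 : ℤ) ≤ ∑ x, |B x| := sum_nonneg fun _ _ => abs_nonneg _
      have hle : ∑ x, |F x - B x| ≤ ∑ x, |F x| := by
        have h2 : (0 : ℤ) < Nat.card (K p) := by exact_mod_cast Nat.card_pos
        have h3 := mul_nonneg (wt_nonneg (K p)) hBnn
        nlinarith
      obtain ⟨G, hG1, hG2, hG3, hG4⟩ := ih (by simp) hnd' hI.2 hS.2 (fun x => F x - B x) hBMD
        (fun _ => by linarith)
      refine ⟨fun r => if r = p then B else G r, ?_, ?_, ?_, ?_⟩
      · intro r hr z hz x
        by_cases hrp : r = p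
        · subst hrp
          simp only [if_true]
          exact hBinv z hz x
        · simp only [hrp, if_false]
          exact hG1 r ((List.mem_cons.mp hr).resolve_left hrp) z hz x
      · intro x
        have h1 := hG2 x
        rw [List.map_cons, List.sum_cons]
        have h2 : ((q :: ps).map fun r => (if r = p then B else G r) x)
            = (q :: ps).map fun r => G r x := by
          apply List.map_congr_left
          intro r hr
          have : r ≠ p := fun h => hpn (h ▸ hr)
          simp [this]
        rw [h2, ← h1]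
        simp
      · intro c hc r hr x
        have hBc := hBodd c hc
        by_cases hrp : r = p
        · subst hrp
          simp only [if_true]
          exact hBc x
        · simp only [hrp, if_false]
          refine hG3 c ?_ r ((List.mem_cons.mp hr).resolve_left hrp) x
          intro y
          rw [hc, hBc]
          ring
      · rw [List.map_cons, List.sum_cons]
        have h2 : ((q :: ps).map fun r => (wt (K r) : ℚ) *
            ((∑ x, |(if r = p then B else G r) x| : ℤ) : ℚ) / (Nat.card (K r) : ℚ))
            = (q :: ps).map fun r => (wt (K r) : ℚ) * ((∑ x, |G r x| : ℤ) : ℚ)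
              / (Nat.card (K r) : ℚ) := by
          apply List.map_congr_left
          intro r hr
          have : r ≠ p := fun h => hpn (h ▸ hr)
          simp [this]
        rw [h2]
        simp only [if_true]
        have h3 : (wt (K p) : ℚ) * ((∑ x, |B x| : ℤ) : ℚ) / (Nat.card (K p) : ℚ)
            + ((∑ x, |F x - B x| : ℤ) : ℚ) ≤ ((∑ x, |F x| : ℤ) : ℚ) := by
          have h4 : (wt (K p) : ℚ) * ((∑ x, |B x| : ℤ) : ℚ)
            + (Nat.card (K p) : ℚ) * ((∑ x, |F x - B x| : ℤ) : ℚ)
              ≤ (Nat.card (K p) : ℚ) * ((∑ x, |F x| : ℤ) : ℚ) := by exact_mod_cast hnorm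
          rw [div_add' _ _ _ hcardpos.ne', div_le_iff₀ hcardpos]
          linarith
        linarith

end Pool.Agent.Lib.MP_938ce2_ag_h99
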