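import Pool.Agent.Lib.MP_938ce2_ag_h99.Groups

/-!
Sparse odd functions satisfying the Tate condition are relations.
-/

set_option autoImplicit false
set_option linter.style.haveILetI false
set_option linter.unusedSectionVars false

open Finset

namespace Pool.Agent.Lib.MP_938ce2_ag_h99

/-- effective primes of `m` -/
def Eff (m p : ℕ) : Prop := p.Prime ∧ p ∣ m ∧ (p = 2 → 4 ∣ m)

/-- size attached to a prime -/
def sz (p : ℕ) : ℤ := if p = 2 then 2 else p - 1

lemma sz_mono {p q : ℕ} (hp : p.Prime) (hpq : p ≤ q) : sz p ≤ sz q := by
  unfold sz
  have h2 := hp.two_le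
  split_ifs with h1 h3 h3
  · exact le_rfl
  · have : 3 ≤ q := by omega
    have : (3 : ℤ) ≤ q := by exact_mod_cast this
    linarith
  · omega
  · have : (p : ℤ) ≤ q := by exact_mod_cast hpq
    linarith

lemma sz_nonneg {p : ℕ} (hp : p.Prime) : 0 ≤ sz p := by
  unfold sz
  split_ifs
  · norm_num
  · have : (2 : ℤ) ≤ p := by exact_mod_cast hp.two_le
    linarith

lemma sz_le_card {f : ℕ} [NeZero f] {q : ℕ} (hq : q.Prime) (hqf : q ∣ f) (hf4 : f % 4 ≠ 2) :
    sz q ≤ Nat.card (Kp f q) := by
  rw [card_Kp hq hqf]
  unfold sz
  have h1 : 1 ≤ q := hq.one_lt.le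
  split_ifs with h2 h3 h3
  · subst h2
    norm_num
  · exfalso
    subst h2
    apply h3
    omega
  · push_cast
    linarith
  · rw [Nat.cast_sub h1]
    push_cast
    exact le_rfl

lemma Sizes_append {A : Type*} [CommGroup A] {P Q : ℤ} {K : ℕ → Subgroup A} {p1 : ℕ}
    (h1 : P ≤ Nat.card (K p1)) : ∀ rest : List ℕ, (∀ q ∈ rest, Q ≤ Nat.card (K q)) →
    Sizes P Q K (rest ++ [p1])
  | [], _ => h1
  | [q], h => ⟨h q List.mem_cons_self, h1⟩
  | q :: r :: rest, h => by
      refine ⟨h q List.mem_cons_self, ?_⟩
      exact Sizes_append h1 (r :: rest) fun q' hq' => h q' (List.mem_cons_of_mem _ hq')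

variable {m : ℕ} [NeZero m]

open Classical in
lemma top_sum {f : ℕ} [NeZero f] (hf : f ∣ m) (F : ZMod m → ℤ) :
    ∑ u : (ZMod f)ˣ, |F (jj hf (u : ZMod f))|
      = ∑ b ∈ univ.filter (fun b : ZMod m => addOrderOf b = f), |F b| := by
  refine sum_bij (fun u _ => jj hf (u : ZMod f)) ?_ ?_ ?_ ?_
  · intro u _
    rw [mem_filter]
    exact ⟨mem_univ _, addOrderOf_unit hf u⟩
  · intro u _ v _ h
    exact Units.ext (jj_injective hf h)
  · intro b hb
    obtain ⟨u, hu⟩ := exists_unit_of_order hf (mem_filter.mp hb).2
    exact ⟨u, mem_univ _, hu⟩
  · intro u _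
    rfl

open Classical in
lemma nrm_split {f : ℕ} [NeZero f] (hf : f ∣ m) (F : ZMod m → ℤ) :
    nrm F = ∑ b ∈ univ.filter (fun b : ZMod m => addOrderOf b ≠ f), w b * |F b|
      + (if f % 4 = 2 then 2 else 1) * ∑ u : (ZMod f)ˣ, |F (jj hf (u : ZMod f))| := by
  unfold nrm
  rw [← sum_filter_add_sum_filter_not univ (fun b : ZMod m => addOrderOf b = f)]
  rw [top_sum hf F, mul_sum, add_comm]
  congr 1
  refine sum_congr rfl fun b hb => ?_
  unfold w
  rw [(mem_filter.mp hb).2]

lemma nrm_nonneg (F : ZMod m → ℤ) : 0 ≤ nrm F :=
  sum_nonneg fun b _ => mul_nonneg (w_pos b).le (abs_nonneg _)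

open Classical in
theorem mainB_aux : ∀ (k : ℕ) (F : ZMod m → ℤ), OddF F → TateF F →
    (∀ a, F a ≠ 0 → addOrderOf a ≤ k) →
    (∀ p q, p ≠ q → Eff m p → Eff m q → 2 * nrm F < sz p * sz q) → F ∈ relSub m := by
  intro k
  induction k with
  | zero =>
    intro F _ _ hsup _
    have : F = 0 := by
      funext a
      by_contra ha
      have h1 := hsup a ha
      have h2 : 0 < addOrderOf a :=
        Nat.pos_of_dvd_of_pos (addOrderOf_dvd_m a) (Nat.pos_of_ne_zero (NeZero.ne m))
      omega
    rw [this]
    exact (relSub m).zero_mem
  | succ k ih =>
    intro F hodd hT hsup hsm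
    by_cases hf : (k + 1) ∣ m
    swap
    · apply ih F hodd hT _ hsm
      intro a ha
      have h1 := hsup a ha
      have h2 : addOrderOf a ≠ k + 1 := fun h => hf (h ▸ addOrderOf_dvd_m a)
      omega
    · set f := k + 1 with hfdef
      haveI : NeZero f := ⟨Nat.succ_ne_zero k⟩
      -- it suffices to find a good decomposition
      have hmain : ∀ F' : ZMod m → ℤ, F - F' ∈ relSub m → OddF F' → TateF F' →
          (∀ a, F' a ≠ 0 → addOrderOf a < f) → nrm F' ≤ nrm F → F ∈ relSub m := by
        intro F' h1 h2 h3 h4 h5
        have h6 : F' ∈ relSub m := by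
          apply ih F' h2 h3
          · intro a ha
            have := h4 a ha
            omega
          · intro p q hpq hp hq
            have := hsm p q hpq hp hq
            linarith
        have := (relSub m).add_mem h1 h6
        rwa [sub_add_cancel] at this
      by_cases hf4 : f % 4 = 2
      · -- level `2 mod 4`
        have h2f : 2 ∣ f := by omega
        have hcard : Nat.card (Kp f 2) = 1 := by
          rw [card_Kp Nat.prime_two h2f, if_neg (by omega)]
        have hK : ∀ z ∈ Kp f 2, z = 1 := by
          intro z hz
          have h1 := (Subgroup.card_eq_one (H := Kp f 2)).mp hcard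
          rw [h1] at hz
          exact Subgroup.mem_bot.mp hz
        obtain ⟨F', h1, h2, h3, h4, _, h5⟩ := peel_le hf F hodd hT hsup [2]
          (by
            intro p hp
            rw [List.mem_singleton] at hp
            rw [hp]
            exact ⟨Nat.prime_two, h2f⟩)
          (fun _ u => F (jj hf (u : ZMod f)))
          (by
            intro p hp z hz u
            rw [List.mem_singleton] at hp
            rw [hp] at hz
            rw [hK z hz, one_mul])
          (by intro u; simp)
          (by
            intro p _ u
            have e1 : jj hf (-(u : ZMod f)) = - jj hf (u : ZMod f) := map_neg _ _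
            rw [neg_one_mul, Units.val_neg, e1, hodd])
        refine hmain F' h1 h2 h3 h4 ?_
        simp only [List.map_cons, List.map_nil, List.sum_cons, List.sum_nil, add_zero] at h5
        rw [hcard] at h5
        have hkap : kap f 2 = 2 := by
          unfold kap
          rw [if_neg (by omega), if_neg (by omega)]
          norm_num
        rw [hkap] at h5
        have h6 := nrm_split hf F
        rw [if_pos hf4] at h6
        have h7 : ((nrm F' : ℤ) : ℚ) ≤ ((nrm F : ℤ) : ℚ) := by
          rw [h6]
          push_cast at h5 ⊢
          rw [div_one] at h5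
          exact h5
        exact_mod_cast h7
      · -- general level
        by_cases hf1 : f = 1
        · -- only the zero element
          have : F = 0 := by
            funext a
            by_contra ha
            have h1 := hsup a ha
            have h2 : 0 < addOrderOf a :=
              Nat.pos_of_dvd_of_pos (addOrderOf_dvd_m a) (Nat.pos_of_ne_zero (NeZero.ne m))
            have h3 : addOrderOf a = 1 := by omega
            rw [AddMonoid.addOrderOf_eq_one_iff] at h3
            rw [h3] at ha
            apply ha
            have h4 := hodd 0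
            rw [neg_zero] at h4
            show F 0 = 0
            omega
          rw [this]
          exact (relSub m).zero_mem
        · have hS : f.primeFactors.Nonempty := by
            rw [Nat.nonempty_primeFactors]
            omega
          set p1 := f.primeFactors.min' hS with hp1
          have hp1mem : p1 ∈ f.primeFactors := min'_mem _ _
          set rest := (f.primeFactors.erase p1).toList with hrest
          set ps := rest ++ [p1] with hps
          have hmemps : ∀ p, p ∈ ps ↔ p ∈ f.primeFactors := by
            intro p
            rw [hps, hrest, List.mem_append, Finset.mem_toList, List.mem_singleton,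
              Finset.mem_erase]
            constructor
            · rintro (⟨_, h⟩ | rfl)
              · exact h
              · exact hp1mem
            · intro h
              by_cases hpp : p = p1
              · right; exact hpp
              · left; exact ⟨hpp, h⟩
          have hprime : ∀ p ∈ ps, p.Prime ∧ p ∣ f := by
            intro p hp
            rw [hmemps, Nat.mem_primeFactors] at hp
            exact ⟨hp.1, hp.2.1⟩
          have hnd : ps.Nodup := by
            rw [hps, List.nodup_append]
            refine ⟨Finset.nodup_toList _, List.nodup_singleton _, ?_⟩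
            intro a ha b hb
            rw [hrest, Finset.mem_toList, Finset.mem_erase] at ha
            rw [List.mem_singleton] at hb
            rw [hb]
            exact ha.1
          have hMD := MD_top hf F hodd hT (sup_of_le hsup) ps (by
            intro p hp hpf
            rw [hmemps, Nat.mem_primeFactors]
            exact ⟨hp, hpf, NeZero.ne f⟩)
          have hEff : ∀ p ∈ f.primeFactors, Eff m p := by
            intro p hp
            rw [Nat.mem_primeFactors] at hp
            refine ⟨hp.1, hp.2.1.trans hf, ?_⟩
            rintro rfl
            have h4 : 4 ∣ f := by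
              have := hp.2.1
              omega
            exact h4.trans hf
          -- sizes
          obtain ⟨P, Q, hPQ, hP0, hSz, hsmall⟩ : ∃ P Q : ℤ, P ≤ Q ∧ 0 ≤ P ∧
              Sizes P Q (Kp f) ps ∧
              (2 ≤ ps.length → 2 * ∑ u : (ZMod f)ˣ, |F (jj hf (u : ZMod f))| < P * Q) := by
            have hp1p : p1.Prime := (Nat.mem_primeFactors.mp hp1mem).1
            have hp1f : p1 ∣ f := (Nat.mem_primeFactors.mp hp1mem).2.1
            by_cases hE : (f.primeFactors.erase p1).Nonempty
            · set p2 := (f.primeFactors.erase p1).min' hE with hp2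
              have hp2mem : p2 ∈ f.primeFactors.erase p1 := min'_mem _ _
              have hp2mem' := Finset.mem_erase.mp hp2mem
              have hp2p : p2.Prime := (Nat.mem_primeFactors.mp hp2mem'.2).1
              refine ⟨sz p1, sz p2, ?_, sz_nonneg hp1p, ?_, ?_⟩
              · exact sz_mono hp1p (min'_le _ _ hp2mem'.2)
              · apply Sizes_append
                · exact sz_le_card hp1p hp1f hf4
                · intro q hq
                  rw [hrest, Finset.mem_toList] at hq
                  have hq' := Finset.mem_erase.mp hq
                  have hqp := Nat.mem_primeFactors.mp hq'.2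
                  exact (sz_mono hp2p (min'_le _ _ hq)).trans (sz_le_card hqp.1 hqp.2.1 hf4)
              · intro _
                have h1 := hsm p1 p2 (Ne.symm hp2mem'.1) (hEff _ hp1mem) (hEff _ hp2mem'.2)
                have h2 := nrm_split hf F
                rw [if_neg hf4, one_mul] at h2
                have h3 : 0 ≤ ∑ b ∈ univ.filter (fun b : ZMod m => addOrderOf b ≠ f), w b * |F b| :=
                  sum_nonneg fun b _ => mul_nonneg (w_pos b).le (abs_nonneg _)
                linarith
            · rw [Finset.not_nonempty_iff_eq_empty] at hE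
              have hr : rest = [] := by rw [hrest, hE]; simp
              refine ⟨sz p1, sz p1, le_rfl, sz_nonneg hp1p, ?_, ?_⟩
              · rw [hps, hr]
                exact sz_le_card hp1p hp1f hf4
              · intro h2
                rw [hps, hr] at h2
                simp at h2
          obtain ⟨G, hG1, hG2, hG3, hG4⟩ := decomp P Q hPQ hP0 (Kp f) ps
            (by rw [hps]; simp) hnd (indep_Kp ps hprime hnd) hSz _ hMD hsmall
          have hc : ∀ x : (ZMod f)ˣ, F (jj hf (((-1) * x : (ZMod f)ˣ) : ZMod f))
              = - F (jj hf (x : ZMod f)) := by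
            intro u
            have e1 : jj hf (-(u : ZMod f)) = - jj hf (u : ZMod f) := map_neg _ _
            rw [neg_one_mul, Units.val_neg, e1, hodd]
          obtain ⟨F', h1, h2, h3, h4, _, h5⟩ := peel_le hf F hodd hT hsup ps hprime G hG1 hG2
            (fun p hp u => hG3 (-1) hc p hp u)
          refine hmain F' h1 h2 h3 h4 ?_
          have h6 := nrm_split hf F
          rw [if_neg hf4, one_mul] at h6
          have h7 : (ps.map fun p => (kap f p : ℚ) * ((∑ u, |G p u| : ℤ) : ℚ)
              / (Nat.card (Kp f p) : ℚ)).sum ≤ (ps.map fun p => (wt (Kp f p) : ℚ) *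
                ((∑ u, |G p u| : ℤ) : ℚ) / (Nat.card (Kp f p) : ℚ)).sum := by
            apply List.sum_le_sum
            intro p hp
            apply div_le_div_of_nonneg_right _ (by positivity)
            apply mul_le_mul_of_nonneg_right
            · exact_mod_cast kap_le_wt (hprime p hp).1 (hprime p hp).2 hf4
            · exact_mod_cast sum_nonneg fun _ _ => abs_nonneg _
          have h8 : ((nrm F' : ℤ) : ℚ) ≤ ((nrm F : ℤ) : ℚ) := by
            rw [h6]
            rw [Int.cast_add]
            linarith
          exact_mod_cast h8

/-- Sparse odd functions satisfying the Tate condition are relations. -/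
theorem mainB (F : ZMod m → ℤ) (hodd : OddF F) (hT : TateF F)
    (hsm : ∀ p q, p ≠ q → Eff m p → Eff m q → 2 * nrm F < sz p * sz q) : F ∈ relSub m :=
  mainB_aux m F hodd hT (fun a _ => Nat.le_of_dvd (Nat.pos_of_ne_zero (NeZero.ne m))
    (addOrderOf_dvd_m a)) hsm

end Pool.Agent.Lib.MP_938ce2_ag_h99
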