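import Pool.Agent.Lib.MP_938ce2_ag_h99.Fourier

/-!
Peeling the top level of an odd function satisfying the Tate condition.
-/

set_option autoImplicit false
set_option linter.style.haveILetI false
set_option linter.unusedSectionVars false

open Finset

namespace Pool.Agent.Lib.MP_938ce2_ag_h99

variable {m : ℕ} [NeZero m]

/-- fibre relation -/
def rel (p : ℕ) (g : ZMod m → ℤ) : ZMod m → ℤ := fun b => g ((p : ZMod m) * b) - g b

/-- the Tate condition for functions -/
def TateF (F : ZMod m → ℤ) : Prop :=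
  ∀ t : (ZMod m)ˣ, ∑ a, F a * (((t : ZMod m) * a).val : ℤ) = 0

/-- oddness -/
def OddF (F : ZMod m → ℤ) : Prop := ∀ a, F (-a) = - F a

/-- the group of relations -/
def relSub (m : ℕ) : AddSubgroup (ZMod m → ℤ) :=
  AddSubgroup.closure {h | ∃ (p : ℕ) (g : ZMod m → ℤ), p.Prime ∧ p ∣ m ∧ OddF g ∧
    (∀ a, g a ≠ 0 → ∃ b, a = (p : ZMod m) * b) ∧ h = rel p g}

lemma TateF.sub {F G : ZMod m → ℤ} (hF : TateF F) (hG : TateF G) : TateF (F - G) := by
  intro t
  have h1 := hF t
  have h2 := hG t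
  simp only [Pi.sub_apply, sub_mul, sum_sub_distrib]
  rw [h1, h2, sub_zero]

lemma TateF.add {F G : ZMod m → ℤ} (hF : TateF F) (hG : TateF G) : TateF (F + G) := by
  intro t
  have h1 := hF t
  have h2 := hG t
  simp only [Pi.add_apply, add_mul, sum_add_distrib]
  rw [h1, h2, add_zero]

lemma OddF.sub {F G : ZMod m → ℤ} (hF : OddF F) (hG : OddF G) : OddF (F - G) := by
  intro a
  simp only [Pi.sub_apply]
  rw [hF, hG]
  ring

lemma OddF.rel {g : ZMod m → ℤ} (hg : OddF g) (p : ℕ) : OddF (rel p g) := by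
  intro a
  simp only [Pool.Agent.Lib.MP_938ce2_ag_h99.rel]
  rw [mul_neg, hg, hg]
  ring

lemma OddF.sum_eq_zero {g : ZMod m → ℤ} (hg : OddF g) : ∑ a, g a = 0 := by
  have h1 : ∑ a, g a = - ∑ a, g a := by
    rw [← sum_neg_distrib]
    refine Fintype.sum_equiv (Equiv.neg _) _ _ fun a => ?_
    rw [Equiv.neg_apply, hg]
    ring
  omega

/-- the values of a fibre of multiplication by `p` -/
lemma fiber_val {p : ℕ} (hp : 0 < p) (hpm : p ∣ m) (b0 : ZMod m) :
    2 * ∑ b ∈ univ.filter (fun b : ZMod m => (p : ZMod m) * b = (p : ZMod m) * b0), (b.val : ℤ)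
      = 2 * ((((p : ZMod m) * b0).val : ℕ) : ℤ) + (p - 1) * m := by
  obtain ⟨m1, hm1⟩ := hpm
  have hm0 : 0 < m := Nat.pos_of_ne_zero (NeZero.ne m)
  have hm1p : 0 < m1 := by
    rcases Nat.eq_zero_or_pos m1 with h | h
    · rw [h, mul_zero] at hm1; omega
    · exact h
  have hmod : ∀ x y : ℕ, x ≡ y [MOD m] ↔ x ≡ y [MOD p * m1] := by
    intro x y; rw [← hm1]
  set v := b0.val % m1 with hv
  have hvlt : v < m1 := Nat.mod_lt _ hm1p
  have hlt : ∀ i, i < p → v + i * m1 < m := by
    intro i hi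
    calc v + i * m1 < m1 + i * m1 := by omega
      _ = (i + 1) * m1 := by ring
      _ ≤ p * m1 := Nat.mul_le_mul_right _ hi
      _ = m := hm1.symm
  -- key: p * b = p * b0 iff b.val % m1 = v
  have hkey : ∀ b : ZMod m, (p : ZMod m) * b = (p : ZMod m) * b0 ↔ b.val % m1 = v := by
    intro b
    have h1 : (p : ZMod m) * b = ((p * b.val : ℕ) : ZMod m) := by
      rw [Nat.cast_mul, ZMod.natCast_zmod_val]
    have h2 : (p : ZMod m) * b0 = ((p * b0.val : ℕ) : ZMod m) := by
      rw [Nat.cast_mul, ZMod.natCast_zmod_val]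
    rw [h1, h2, ZMod.natCast_eq_natCast_iff, hmod]
    constructor
    · intro h
      have h3 : b.val ≡ b0.val [MOD m1] := Nat.ModEq.mul_left_cancel' hp.ne' h
      rw [hv]
      exact h3
    · intro h
      exact Nat.ModEq.mul_left' p h
  have hcval : ((p : ZMod m) * b0).val = p * v := by
    have h1 : (p : ZMod m) * b0 = ((p * v : ℕ) : ZMod m) := by
      have h2 : (p : ZMod m) * b0 = ((p * b0.val : ℕ) : ZMod m) := by
        rw [Nat.cast_mul, ZMod.natCast_zmod_val]
      rw [h2, ZMod.natCast_eq_natCast_iff, hmod]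
      apply Nat.ModEq.mul_left'
      exact (Nat.mod_modEq _ _).symm
    rw [h1, ZMod.val_natCast_of_lt]
    calc p * v < p * m1 := Nat.mul_lt_mul_of_pos_left hvlt hp
      _ = m := hm1.symm
  have hsum : ∑ b ∈ univ.filter (fun b : ZMod m => (p : ZMod m) * b = (p : ZMod m) * b0),
      (b.val : ℤ) = ∑ i ∈ range p, ((v + i * m1 : ℕ) : ℤ) := by
    symm
    refine sum_bij (fun i _ => ((v + i * m1 : ℕ) : ZMod m)) ?_ ?_ ?_ ?_
    · intro i hi
      rw [mem_filter]
      refine ⟨mem_univ _, ?_⟩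
      rw [hkey, ZMod.val_natCast_of_lt (hlt i (mem_range.mp hi)), Nat.add_mul_mod_self_right,
        Nat.mod_eq_of_lt hvlt]
    · intro i hi j hj h
      have h1 := congrArg ZMod.val h
      rw [ZMod.val_natCast_of_lt (hlt i (mem_range.mp hi)),
        ZMod.val_natCast_of_lt (hlt j (mem_range.mp hj))] at h1
      exact Nat.eq_of_mul_eq_mul_right hm1p (by omega)
    · intro b hb
      rw [mem_filter] at hb
      have h1 := (hkey b).mp hb.2
      refine ⟨b.val / m1, ?_, ?_⟩
      · rw [mem_range, Nat.div_lt_iff_lt_mul hm1p]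
        have := ZMod.val_lt b
        rw [← hm1]
        exact this
      · rw [← h1, mul_comm (b.val / m1) m1, Nat.mod_add_div, ZMod.natCast_zmod_val]
    · intro i hi
      rw [ZMod.val_natCast_of_lt (hlt i (mem_range.mp hi))]
  rw [hsum, hcval]
  push_cast
  rw [sum_add_distrib, sum_const, card_range, ← sum_mul]
  have hg : 2 * ∑ i ∈ range p, (i : ℤ) = p * (p - 1) := by
    have := Finset.sum_range_id_mul_two p
    have h2 : (∑ i ∈ range p, (i : ℤ)) * 2 = p * (p - 1) := by
      have h3 : ((∑ i ∈ range p, i : ℕ) : ℤ) * 2 = ((p * (p - 1) : ℕ) : ℤ) := by exact_mod_cast this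
      rw [Nat.cast_mul, Nat.cast_sub hp] at h3
      push_cast at h3
      exact h3
    linarith
  have hm1' : (m : ℤ) = p * m1 := by exact_mod_cast hm1
  rw [hm1', nsmul_eq_mul]
  linear_combination (m1 : ℤ) * hg

/-- the fibre relations satisfy the Tate condition -/
theorem rel_tate {p : ℕ} (hp : 0 < p) (hpm : p ∣ m) {g : ZMod m → ℤ} (hg : OddF g)
    (hs : ∀ a, g a ≠ 0 → ∃ b, a = (p : ZMod m) * b) : TateF (rel p g) := by
  intro t
  have h1 : ∑ b, g ((p : ZMod m) * b) * (((t : ZMod m) * b).val : ℤ)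
      = ∑ c, g c * ∑ b ∈ univ.filter (fun b : ZMod m => (p : ZMod m) * b = c),
        (((t : ZMod m) * b).val : ℤ) := by
    rw [← Finset.sum_fiberwise_of_maps_to (s := univ) (t := univ)
      (g := fun b : ZMod m => (p : ZMod m) * b) (fun _ _ => mem_univ _)]
    refine sum_congr rfl fun c _ => ?_
    rw [mul_sum]
    refine sum_congr rfl fun b hb => ?_
    rw [(mem_filter.mp hb).2]
  have h2 : ∀ c, 2 * (g c * ∑ b ∈ univ.filter (fun b : ZMod m => (p : ZMod m) * b = c),
        (((t : ZMod m) * b).val : ℤ)) = 2 * (g c * (((t : ZMod m) * c).val : ℤ))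
          + g c * ((p - 1) * m) := by
    intro c
    by_cases hc : g c = 0
    · rw [hc]; ring
    · obtain ⟨b0, rfl⟩ := hs c hc
      have h3 : ∑ b ∈ univ.filter (fun b : ZMod m => (p : ZMod m) * b = (p : ZMod m) * b0),
        (((t : ZMod m) * b).val : ℤ) = ∑ b ∈ univ.filter (fun b : ZMod m => (p : ZMod m) * b
          = (p : ZMod m) * ((t : ZMod m) * b0)), (b.val : ℤ) := by
        refine sum_bij' (fun b _ => (t : ZMod m) * b)
          (fun b _ => ((t⁻¹ : (ZMod m)ˣ) : ZMod m) * b) ?_ ?_ ?_ ?_ ?_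
        · intro b hb
          simp only [mem_filter, mem_univ, true_and] at hb ⊢
          rw [mul_left_comm, hb, mul_left_comm]
        · intro b hb
          simp only [mem_filter, mem_univ, true_and] at hb ⊢
          rw [mul_left_comm, hb, mul_left_comm, ← mul_assoc _ (t : ZMod m), Units.inv_mul, one_mul]
        · intro b _
          rw [← mul_assoc, Units.inv_mul, one_mul]
        · intro b _
          rw [← mul_assoc, Units.mul_inv, one_mul]
        · intro b _
          rfl
      have h4 := fiber_val hp hpm ((t : ZMod m) * b0)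
      rw [h3, mul_left_comm 2, h4, mul_left_comm (p : ZMod m) (t : ZMod m) b0]
      ring
  have h5 : 2 * ∑ b, g ((p : ZMod m) * b) * (((t : ZMod m) * b).val : ℤ)
      = 2 * ∑ b, g b * (((t : ZMod m) * b).val : ℤ) := by
    rw [h1, mul_sum, sum_congr rfl fun c _ => h2 c, sum_add_distrib, ← mul_sum, ← sum_mul,
      hg.sum_eq_zero]
    ring
  simp only [rel, sub_mul, sum_sub_distrib]
  linarith

lemma TateF_of_mem_relSub {F : ZMod m → ℤ} (h : F ∈ relSub m) : TateF F := by
  unfold relSub at h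
  induction h using AddSubgroup.closure_induction with
  | mem x hx =>
    obtain ⟨p, g, hp, hpm, hg, hs, rfl⟩ := hx
    exact rel_tate hp.pos hpm hg hs
  | zero => intro t; simp
  | add x y _ _ hx hy => exact hx.add hy
  | neg x _ hx =>
    intro t
    have := hx t
    simp only [Pi.neg_apply, neg_mul, sum_neg_distrib]
    rw [this, neg_zero]

variable {f : ℕ}

open Classical in
/-- transport of a `Kp f p`-invariant function to the elements of order `f / p` -/
noncomputable def gOf (hf : f ∣ m) (p : ℕ) (G : (ZMod f)ˣ → ℤ) : ZMod m → ℤ := fun c =>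
  if h : ∃ u : (ZMod f)ˣ, c = (p : ZMod m) * jj hf (u : ZMod f) then G h.choose else 0

lemma natCast_mul_jj (hf : f ∣ m) (p : ℕ) (x : ZMod f) :
    (p : ZMod m) * jj hf x = jj hf ((p : ZMod f) * x) := by
  rw [jj_mul, map_natCast]

lemma gOf_apply (hf : f ∣ m) {p : ℕ} {G : (ZMod f)ˣ → ℤ}
    (hG : ∀ z ∈ Kp f p, ∀ u, G (z * u) = G u) (u : (ZMod f)ˣ) :
    gOf hf p G ((p : ZMod m) * jj hf (u : ZMod f)) = G u := by
  unfold gOf
  have h : ∃ v : (ZMod f)ˣ, (p : ZMod m) * jj hf (u : ZMod f) = (p : ZMod m) * jj hf (v : ZMod f) :=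
    ⟨u, rfl⟩
  rw [dif_pos h]
  have h1 := h.choose_spec
  set v := h.choose with hv
  rw [natCast_mul_jj, natCast_mul_jj] at h1
  have h2 := jj_injective hf h1
  have h3 : v * u⁻¹ ∈ Kp f p := by
    rw [mem_Kp, Units.val_mul, mul_assoc, mul_comm ((u⁻¹ : (ZMod f)ˣ) : ZMod f), ← mul_assoc,
      mul_comm (v : ZMod f), ← h2, mul_assoc, Units.mul_inv, mul_one]
  have h4 := hG _ h3 u
  rw [inv_mul_cancel_right] at h4
  exact h4

lemma gOf_ne_zero (hf : f ∣ m) {p : ℕ} {G : (ZMod f)ˣ → ℤ} {c : ZMod m}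
    (h : gOf hf p G c ≠ 0) : ∃ u : (ZMod f)ˣ, c = (p : ZMod m) * jj hf (u : ZMod f) := by
  unfold gOf at h
  by_contra hn
  rw [dif_neg hn] at h
  exact h rfl

lemma gOf_odd (hf : f ∣ m) {p : ℕ} {G : (ZMod f)ˣ → ℤ}
    (hG : ∀ z ∈ Kp f p, ∀ u, G (z * u) = G u) (hodd : ∀ u, G ((-1) * u) = - G u) :
    OddF (gOf hf p G) := by
  have key : ∀ u : (ZMod f)ˣ, gOf hf p G (-((p : ZMod m) * jj hf (u : ZMod f)))
      = - gOf hf p G ((p : ZMod m) * jj hf (u : ZMod f)) := by
    intro u
    have e1 : jj hf (-(u : ZMod f)) = - jj hf (u : ZMod f) := map_neg _ _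
    have h1 : -((p : ZMod m) * jj hf (u : ZMod f))
        = (p : ZMod m) * jj hf (((-1 * u : (ZMod f)ˣ)) : ZMod f) := by
      rw [neg_one_mul, Units.val_neg, e1, mul_neg]
    rw [h1, gOf_apply hf hG, gOf_apply hf hG, hodd]
  intro c
  by_cases h : ∃ u : (ZMod f)ˣ, c = (p : ZMod m) * jj hf (u : ZMod f)
  · obtain ⟨u, rfl⟩ := h
    exact key u
  · have h1 : gOf hf p G c = 0 := by
      by_contra hc
      exact h (gOf_ne_zero hf hc)
    have h2 : gOf hf p G (-c) = 0 := by
      by_contra hc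
      obtain ⟨u, hu⟩ := gOf_ne_zero hf hc
      apply h
      refine ⟨-1 * u, ?_⟩
      have e1 : jj hf (-(u : ZMod f)) = - jj hf (u : ZMod f) := map_neg _ _
      rw [neg_one_mul, Units.val_neg, e1, mul_neg, ← hu, neg_neg]
    rw [h1, h2, neg_zero]

lemma addOrderOf_natCast_mul {p : ℕ} (hp : p ≠ 0) {a : ZMod m} (hpa : p ∣ addOrderOf a) :
    addOrderOf ((p : ZMod m) * a) = addOrderOf a / p := by
  rw [← nsmul_eq_mul, addOrderOf_nsmul' a hp, Nat.gcd_eq_right hpa]

lemma gOf_order (hf : f ∣ m) {p : ℕ} (hp : p ≠ 0) (hpf : p ∣ f) {G : (ZMod f)ˣ → ℤ} {c : ZMod m}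
    (h : gOf hf p G c ≠ 0) : addOrderOf c = f / p := by
  obtain ⟨u, rfl⟩ := gOf_ne_zero hf h
  rw [addOrderOf_natCast_mul hp (by rw [addOrderOf_unit hf u]; exact hpf), addOrderOf_unit hf u]

/-- order of a `p`-division point -/
lemma order_of_mul {p : ℕ} (hp : p.Prime) {b : ZMod m} {e : ℕ}
    (h : addOrderOf ((p : ZMod m) * b) = e) : addOrderOf b = e ∨ addOrderOf b = p * e := by
  by_cases hd : p ∣ addOrderOf b
  · right
    rw [addOrderOf_natCast_mul hp.ne_zero hd] at h
    rw [← h, Nat.mul_div_cancel' hd]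
  · left
    rw [← nsmul_eq_mul, addOrderOf_nsmul' b hp.ne_zero] at h
    have : Nat.gcd (addOrderOf b) p = 1 := by
      rw [Nat.gcd_comm]
      exact (Nat.Prime.coprime_iff_not_dvd hp).mpr hd
    rw [this, Nat.div_one] at h
    exact h

/-- the weight of an element -/
noncomputable def w (a : ZMod m) : ℤ := if addOrderOf a % 4 = 2 then 2 else 1

lemma w_pos (a : ZMod m) : 0 < w a := by
  unfold w; split_ifs <;> norm_num

/-- the weighted norm -/
noncomputable def nrm (F : ZMod m → ℤ) : ℤ := ∑ a, w a * |F a|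

/-- cost of the relations at `p` from level `f` -/
def kap (f p : ℕ) : ℤ := (if (f / p) % 4 = 2 then 2 else 1) * (if p ∣ f / p then 1 else 2)

/-- the `ℓ¹` norm of the transported function -/
lemma sum_gOf (hf : f ∣ m) {p : ℕ} {G : (ZMod f)ˣ → ℤ}
    (hG : ∀ z ∈ Kp f p, ∀ u, G (z * u) = G u) [NeZero f] :
    (Nat.card (Kp f p) : ℤ) * ∑ c, |gOf hf p G c| = ∑ u, |G u| := by
  classical
  rw [← Finset.sum_fiberwise_of_maps_to (s := (univ : Finset (ZMod f)ˣ)) (t := univ)
      (g := fun u : (ZMod f)ˣ => (p : ZMod m) * jj hf (u : ZMod f)) (fun _ _ => mem_univ _),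
    mul_sum]
  refine sum_congr rfl fun c _ => ?_
  by_cases h : ∃ u : (ZMod f)ˣ, c = (p : ZMod m) * jj hf (u : ZMod f)
  · obtain ⟨v, rfl⟩ := h
    have h1 : ∀ u ∈ univ.filter (fun u : (ZMod f)ˣ => (p : ZMod m) * jj hf (u : ZMod f)
        = (p : ZMod m) * jj hf (v : ZMod f)), |G u| = |gOf hf p G ((p : ZMod m) * jj hf (v : ZMod f))| := by
      intro u hu
      rw [← (mem_filter.mp hu).2, gOf_apply hf hG]
    rw [sum_congr rfl h1, sum_const, nsmul_eq_mul]
    congr 1
    rw [← card_filter_mem (Kp f p)]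
    norm_cast
    symm
    refine card_bij' (fun u _ => u * v⁻¹) (fun z _ => z * v) ?_ ?_ ?_ ?_
    · intro u hu
      simp only [mem_filter, mem_univ, true_and] at hu ⊢
      rw [natCast_mul_jj, natCast_mul_jj] at hu
      have h2 := jj_injective hf hu
      rw [mem_Kp, Units.val_mul, mul_assoc, mul_comm ((v⁻¹ : (ZMod f)ˣ) : ZMod f), ← mul_assoc,
        mul_comm (u : ZMod f), h2, mul_assoc, Units.mul_inv, mul_one]
    · intro z hz
      simp only [mem_filter, mem_univ, true_and] at hz ⊢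
      rw [natCast_mul_jj, natCast_mul_jj, Units.val_mul, ← mul_assoc, mul_comm (p : ZMod f),
        mem_Kp.mp hz]
    · intro u _; simp
    · intro u _; simp
  · have h1 : gOf hf p G c = 0 := by
      by_contra hc
      exact h (gOf_ne_zero hf hc)
    rw [h1, abs_zero, mul_zero, eq_comm]
    apply sum_eq_zero
    intro u hu
    exact absurd ⟨u, (mem_filter.mp hu).2.symm⟩ h

open Classical in
/-- the cost of subtracting a relation, off the top level -/
lemma cost_rel (hf : f ∣ m) {p : ℕ} (hp : p.Prime) (hpf : p ∣ f) (G : (ZMod f)ˣ → ℤ) :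
    ∑ b ∈ univ.filter (fun b : ZMod m => addOrderOf b ≠ f), w b * |rel p (gOf hf p G) b|
      ≤ kap f p * ∑ c, |gOf hf p G c| := by
  set g := gOf hf p G with hg
  have hgo : ∀ c, g c ≠ 0 → addOrderOf c = f / p := fun c hc => gOf_order hf hp.ne_zero hpf hc
  set W : ℤ := if (f / p) % 4 = 2 then 2 else 1 with hW
  have hW0 : 0 ≤ W := by rw [hW]; split_ifs <;> norm_num
  have h1 : ∑ b ∈ univ.filter (fun b : ZMod m => addOrderOf b ≠ f), w b * |g b|
      ≤ W * ∑ c, |g c| := by
    rw [mul_sum]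
    refine (sum_le_sum_of_subset_of_nonneg (filter_subset _ _) fun b _ _ =>
      mul_nonneg (w_pos b).le (abs_nonneg _)).trans ?_
    apply sum_le_sum
    intro b _
    by_cases hb : g b = 0
    · rw [hb]; simp
    · have : w b = W := by
        unfold w
        rw [hgo b hb]
      rw [this]
  have h2 : ∑ b ∈ univ.filter (fun b : ZMod m => addOrderOf b ≠ f), w b * |g ((p : ZMod m) * b)|
      ≤ W * (if p ∣ f / p then 0 else 1) * ∑ c, |g c| := by
    have hord : ∀ b : ZMod m, addOrderOf b ≠ f → g ((p : ZMod m) * b) ≠ 0 →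
        addOrderOf b = f / p := by
      intro b hb hgb
      rcases order_of_mul hp (hgo _ hgb) with h | h
      · exact h
      · exact absurd (by rw [h, Nat.mul_div_cancel' hpf]) hb
    split_ifs with hd
    · rw [mul_zero, zero_mul]
      apply le_of_eq
      apply sum_eq_zero
      intro b hb
      have hb' := (mem_filter.mp hb).2
      by_contra hne
      have hgb : g ((p : ZMod m) * b) ≠ 0 := by
        intro h0; apply hne; rw [h0]; simp
      have h3 := hord b hb' hgb
      have h4 := hgo _ hgb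
      rw [addOrderOf_natCast_mul hp.ne_zero (by rw [h3]; exact hd), h3] at h4
      have h5 : 0 < f / p := by
        rw [← h3]
        exact Nat.pos_of_dvd_of_pos (addOrderOf_dvd_m b) (Nat.pos_of_ne_zero (NeZero.ne m))
      exact absurd h4 (Nat.div_lt_self h5 hp.one_lt).ne
    · rw [mul_one, mul_sum]
      have h3 : ∑ b ∈ univ.filter (fun b : ZMod m => addOrderOf b ≠ f),
          w b * |g ((p : ZMod m) * b)|
          = ∑ b ∈ univ.filter (fun b : ZMod m => addOrderOf b = f / p), W * |g ((p : ZMod m) * b)| := by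
        have h4 : ∑ b ∈ univ.filter (fun b : ZMod m => addOrderOf b ≠ f),
          w b * |g ((p : ZMod m) * b)| = ∑ b ∈ (univ.filter (fun b : ZMod m => addOrderOf b ≠ f)).filter
            (fun b => addOrderOf b = f / p), w b * |g ((p : ZMod m) * b)| := by
          symm
          apply sum_subset (filter_subset _ _)
          intro b hb hb2
          have hb' := (mem_filter.mp hb).2
          by_contra hne
          have hgb : g ((p : ZMod m) * b) ≠ 0 := by
            intro h0; apply hne; rw [h0]; simp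
          exact hb2 (mem_filter.mpr ⟨hb, hord b hb' hgb⟩)
        rw [h4]
        have h5 : (univ.filter (fun b : ZMod m => addOrderOf b ≠ f)).filter
            (fun b => addOrderOf b = f / p) = univ.filter (fun b : ZMod m => addOrderOf b = f / p) := by
          ext b
          simp only [mem_filter, mem_univ, true_and]
          constructor
          · exact fun h => h.2
          · intro h
            refine ⟨?_, h⟩
            rw [h]
            have hf0 : 0 < f := Nat.pos_of_ne_zero (f_ne_zero hf)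
            exact (Nat.div_lt_self hf0 hp.one_lt).ne
        rw [h5]
        refine sum_congr rfl fun b hb => ?_
        have : w b = W := by
          unfold w
          rw [(mem_filter.mp hb).2]
        rw [this]
      rw [h3]
      have hinj : Set.InjOn (fun b : ZMod m => (p : ZMod m) * b)
          (univ.filter (fun b : ZMod m => addOrderOf b = f / p)) := by
        intro a ha b hb hab
        simp only [coe_filter, mem_univ, true_and, Set.mem_ofPred_eq] at ha hb
        have h6 : p • (a - b) = 0 := by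
          rw [nsmul_eq_mul, mul_sub, sub_eq_zero]
          exact hab
        have h7 : (f / p) • (a - b) = 0 := by
          rw [smul_sub]
          have e1 : (f / p) • a = 0 := by rw [← ha]; exact addOrderOf_nsmul_eq_zero a
          have e2 : (f / p) • b = 0 := by rw [← hb]; exact addOrderOf_nsmul_eq_zero b
          rw [e1, e2, sub_zero]
        have h8 : addOrderOf (a - b) ∣ Nat.gcd p (f / p) :=
          Nat.dvd_gcd (addOrderOf_dvd_of_nsmul_eq_zero h6) (addOrderOf_dvd_of_nsmul_eq_zero h7)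
        rw [Nat.Coprime.gcd_eq_one ((Nat.Prime.coprime_iff_not_dvd hp).mpr hd), Nat.dvd_one, AddMonoid.addOrderOf_eq_one_iff] at h8
        exact sub_eq_zero.mp h8
      calc ∑ b ∈ univ.filter (fun b : ZMod m => addOrderOf b = f / p), W * |g ((p : ZMod m) * b)|
          = ∑ c ∈ (univ.filter (fun b : ZMod m => addOrderOf b = f / p)).image
              (fun b : ZMod m => (p : ZMod m) * b), W * |g c| := by
            rw [sum_image hinj]
        _ ≤ ∑ c, W * |g c| :=
            sum_le_sum_of_subset_of_nonneg (subset_univ _) fun c _ _ =>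
              mul_nonneg hW0 (abs_nonneg _)
  have h3 : ∑ b ∈ univ.filter (fun b : ZMod m => addOrderOf b ≠ f), w b * |rel p g b|
      ≤ ∑ b ∈ univ.filter (fun b : ZMod m => addOrderOf b ≠ f), (w b * |g ((p : ZMod m) * b)|
        + w b * |g b|) := by
    apply sum_le_sum
    intro b _
    rw [← mul_add]
    exact mul_le_mul_of_nonneg_left (abs_sub _ _) (w_pos b).le
  rw [sum_add_distrib] at h3
  have h4 : kap f p * ∑ c, |g c| = W * (if p ∣ f / p then 0 else 1) * ∑ c, |g c|
      + W * ∑ c, |g c| := by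
    unfold kap
    rw [← hW]
    split_ifs <;> ring
  rw [h4]
  linarith

lemma rel_mem (hf : f ∣ m) {p : ℕ} (hp : p.Prime) (hpf : p ∣ f) {G : (ZMod f)ˣ → ℤ}
    (hG : ∀ z ∈ Kp f p, ∀ u, G (z * u) = G u) (hodd : ∀ u, G ((-1) * u) = - G u) :
    rel p (gOf hf p G) ∈ relSub m := by
  apply AddSubgroup.subset_closure
  refine ⟨p, gOf hf p G, hp, hpf.trans hf, gOf_odd hf hG hodd, ?_, rfl⟩
  intro a ha
  obtain ⟨u, hu⟩ := gOf_ne_zero hf ha
  exact ⟨_, hu⟩

lemma list_sum_apply {ι : Type*} (ps : List ι) (h : ι → ZMod m → ℤ) (a : ZMod m) :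
    (ps.map h).sum a = (ps.map fun p => h p a).sum := by
  induction ps with
  | nil => simp
  | cons p ps ih => simp [ih]

lemma OddF_list_sum : ∀ (L : List (ZMod m → ℤ)), (∀ h ∈ L, OddF h) → OddF L.sum
  | [], _ => by intro a; simp
  | h :: L, hL => by
      intro a
      have h1 := hL h (List.mem_cons_self) a
      have h2 := OddF_list_sum L (fun h' hh' => hL h' (List.mem_cons_of_mem _ hh')) a
      rw [List.sum_cons, Pi.add_apply, Pi.add_apply, h1, h2]
      ring

lemma abs_list_sum_le {ι : Type*} (ps : List ι) (h : ι → ℤ) :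
    |(ps.map h).sum| ≤ (ps.map fun p => |h p|).sum := by
  induction ps with
  | nil => simp
  | cons p ps ih =>
    simp only [List.map_cons, List.sum_cons]
    exact (abs_add_le _ _).trans (by linarith)

open Classical in
/-- Peeling the top level. -/
theorem peel (hf : f ∣ m) [NeZero f] (F : ZMod m → ℤ) (hodd : OddF F) (hT : TateF F)
    (ps : List ℕ) (hps : ∀ p ∈ ps, p.Prime ∧ p ∣ f)
    (G : ℕ → (ZMod f)ˣ → ℤ) (hG1 : ∀ p ∈ ps, ∀ z ∈ Kp f p, ∀ u, G p (z * u) = G p u)
    (hG2 : ∀ u : (ZMod f)ˣ, F (jj hf (u : ZMod f)) = (ps.map fun p => G p u).sum)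
    (hG3 : ∀ p ∈ ps, ∀ u, G p ((-1) * u) = - G p u) :
    ∃ F' : ZMod m → ℤ, F - F' ∈ relSub m ∧ OddF F' ∧ TateF F' ∧
      (∀ a, addOrderOf a = f → F' a = 0) ∧
      (∀ a, F' a ≠ F a → addOrderOf a = f ∨ ∃ p ∈ ps, ∃ u : (ZMod f)ˣ, G p u ≠ 0 ∧
        addOrderOf a = f / p ∧ (a = (p : ZMod m) * jj hf (u : ZMod f) ∨
          (¬ p ∣ f / p ∧ (p : ZMod m) * a = (p : ZMod m) * jj hf (u : ZMod f)))) ∧
      ((nrm F' : ℤ) : ℚ) ≤ ((∑ b ∈ univ.filter (fun b : ZMod m => addOrderOf b ≠ f),
          w b * |F b| : ℤ) : ℚ)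
        + (ps.map fun p => (kap f p : ℚ) * ((∑ u, |G p u| : ℤ) : ℚ)
          / (Nat.card (Kp f p) : ℚ)).sum := by
  set R : ℕ → ZMod m → ℤ := fun p => rel p (gOf hf p (G p)) with hR
  have hRmem : ∀ p ∈ ps, R p ∈ relSub m := fun p hp =>
    rel_mem hf (hps p hp).1 (hps p hp).2 (hG1 p hp) (hG3 p hp)
  have hRsum : (ps.map R).sum ∈ relSub m := by
    apply AddSubgroup.list_sum_mem
    intro x hx
    obtain ⟨p, hp, rfl⟩ := List.mem_map.mp hx
    exact hRmem p hp
  have hRodd : OddF (ps.map R).sum := by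
    apply OddF_list_sum
    intro h hh
    obtain ⟨p, hp, rfl⟩ := List.mem_map.mp hh
    exact (gOf_odd hf (hG1 p hp) (hG3 p hp)).rel p
  have hf0 : 0 < f := Nat.pos_of_ne_zero (NeZero.ne f)
  refine ⟨F - (ps.map R).sum, ?_, hodd.sub hRodd, hT.sub (TateF_of_mem_relSub hRsum), ?_, ?_, ?_⟩
  · rw [sub_sub_cancel]
    exact hRsum
  · -- top level
    intro a ha
    have hgzero : ∀ p ∈ ps, gOf hf p (G p) a = 0 := by
      intro p hp
      by_contra hne
      have h1 := gOf_order hf (hps p hp).1.ne_zero (hps p hp).2 hne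
      have h2 := Nat.div_lt_self hf0 (hps p hp).1.one_lt
      omega
    obtain ⟨u, hu⟩ := exists_unit_of_order hf ha
    rw [Pi.sub_apply, list_sum_apply, sub_eq_zero, ← hu, hG2]
    congr 1
    apply List.map_congr_left
    intro p hp
    have h1 := hgzero p hp
    rw [← hu] at h1
    show G p u = gOf hf p (G p) ((p : ZMod m) * jj hf (u : ZMod f)) - gOf hf p (G p) (jj hf (u : ZMod f))
    rw [h1, gOf_apply hf (hG1 p hp), sub_zero]
  · -- changes
    intro a ha
    have h1 : (ps.map R).sum a ≠ 0 := by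
      intro h0
      apply ha
      rw [Pi.sub_apply, h0, sub_zero]
    rw [list_sum_apply] at h1
    obtain ⟨x, hx, hx0⟩ := List.exists_mem_ne_zero_of_sum_ne_zero h1
    obtain ⟨p, hp, rfl⟩ := List.mem_map.mp hx
    have hpp := (hps p hp).1
    have hpf := (hps p hp).2
    have hx1 : gOf hf p (G p) ((p : ZMod m) * a) - gOf hf p (G p) a ≠ 0 := hx0
    by_cases h2 : gOf hf p (G p) a = 0
    · have h3 : gOf hf p (G p) ((p : ZMod m) * a) ≠ 0 := by
        intro h0
        apply hx1
        rw [h0, h2, sub_zero]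
      have h4 := gOf_order hf hpp.ne_zero hpf h3
      rcases order_of_mul hpp h4 with h5 | h5
      · right
        obtain ⟨u, hu⟩ := gOf_ne_zero hf h3
        refine ⟨p, hp, u, ?_, h5, Or.inr ⟨?_, hu⟩⟩
        · rw [hu, gOf_apply hf (hG1 p hp)] at h3
          exact h3
        · intro hd
          have h6 := addOrderOf_natCast_mul (m := m) hpp.ne_zero (a := a) (by rw [h5]; exact hd)
          rw [h4, h5] at h6
          have h7 : 0 < f / p := Nat.div_pos (Nat.le_of_dvd hf0 hpf) hpp.pos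
          exact absurd h6.symm (Nat.div_lt_self h7 hpp.one_lt).ne
      · left
        rw [h5, Nat.mul_div_cancel' hpf]
    · right
      obtain ⟨u, hu⟩ := gOf_ne_zero hf h2
      refine ⟨p, hp, u, ?_, gOf_order hf hpp.ne_zero hpf h2, Or.inl hu⟩
      rw [hu, gOf_apply hf (hG1 p hp)] at h2
      exact h2
  · -- norm
    have htop : ∀ a : ZMod m, addOrderOf a = f → (F - (ps.map R).sum) a = 0 := by
      intro a ha
      obtain ⟨u, hu⟩ := exists_unit_of_order hf ha
      rw [Pi.sub_apply, list_sum_apply, sub_eq_zero, ← hu, hG2]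
      congr 1
      apply List.map_congr_left
      intro p hp
      have h1 : gOf hf p (G p) a = 0 := by
        by_contra hne
        have h1 := gOf_order hf (hps p hp).1.ne_zero (hps p hp).2 hne
        have h2 := Nat.div_lt_self (Nat.pos_of_ne_zero (NeZero.ne f)) (hps p hp).1.one_lt
        omega
      rw [← hu] at h1
      show G p u = gOf hf p (G p) ((p : ZMod m) * jj hf (u : ZMod f)) - gOf hf p (G p) (jj hf (u : ZMod f))
      rw [h1, gOf_apply hf (hG1 p hp), sub_zero]
    set T := univ.filter (fun b : ZMod m => addOrderOf b ≠ f) with hTdef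
    have h1 : nrm (F - (ps.map R).sum) = ∑ b ∈ T, w b * |(F - (ps.map R).sum) b| := by
      unfold nrm
      symm
      apply sum_subset (filter_subset _ _)
      intro b _ hb
      rw [mem_filter] at hb
      have hb' : addOrderOf b = f := by
        by_contra hne
        exact hb ⟨mem_univ _, hne⟩
      rw [htop b hb', abs_zero, mul_zero]
    have h2 : ∑ b ∈ T, w b * |(F - (ps.map R).sum) b| ≤ ∑ b ∈ T, w b * |F b|
        + (ps.map fun p => ∑ b ∈ T, w b * |R p b|).sum := by
      have h3 : (ps.map fun p => ∑ b ∈ T, w b * |R p b|).sum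
          = ∑ b ∈ T, w b * (ps.map fun p => |R p b|).sum := by
        have : ∀ qs : List ℕ, (qs.map fun p => ∑ b ∈ T, w b * |R p b|).sum
          = ∑ b ∈ T, w b * (qs.map fun p => |R p b|).sum := by
          intro qs
          induction qs with
          | nil => simp
          | cons q qs ih =>
            simp only [List.map_cons, List.sum_cons]
            rw [ih, ← sum_add_distrib]
            refine sum_congr rfl fun b _ => by ring
        exact this ps
      rw [h3, ← sum_add_distrib]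
      apply sum_le_sum
      intro b _
      rw [← mul_add]
      apply mul_le_mul_of_nonneg_left _ (w_pos b).le
      rw [Pi.sub_apply, list_sum_apply]
      refine (abs_sub _ _).trans ?_
      have := abs_list_sum_le ps (fun p => R p b)
      linarith
    have h4 : (((ps.map fun p => ∑ b ∈ T, w b * |R p b|).sum : ℤ) : ℚ)
        ≤ (ps.map fun p => (kap f p : ℚ) * ((∑ u, |G p u| : ℤ) : ℚ)
          / (Nat.card (Kp f p) : ℚ)).sum := by
      have h5 : ∀ p ∈ ps, ((∑ b ∈ T, w b * |R p b| : ℤ) : ℚ)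
          ≤ (kap f p : ℚ) * ((∑ u, |G p u| : ℤ) : ℚ) / (Nat.card (Kp f p) : ℚ) := by
        intro p hp
        have h6 := cost_rel hf (hps p hp).1 (hps p hp).2 (G p)
        have h7 := sum_gOf hf (hG1 p hp)
        have hc : (0 : ℚ) < (Nat.card (Kp f p) : ℚ) := by exact_mod_cast Nat.card_pos
        rw [le_div_iff₀ hc]
        have h8 : ((∑ b ∈ T, w b * |R p b| : ℤ) : ℚ) ≤ (kap f p : ℚ) *
            ((∑ c, |gOf hf p (G p) c| : ℤ) : ℚ) := by exact_mod_cast h6
        have h9 : (Nat.card (Kp f p) : ℚ) * ((∑ c, |gOf hf p (G p) c| : ℤ) : ℚ)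
            = ((∑ u, |G p u| : ℤ) : ℚ) := by exact_mod_cast h7
        calc ((∑ b ∈ T, w b * |R p b| : ℤ) : ℚ) * (Nat.card (Kp f p) : ℚ)
            ≤ ((kap f p : ℚ) * ((∑ c, |gOf hf p (G p) c| : ℤ) : ℚ)) * (Nat.card (Kp f p) : ℚ) :=
              mul_le_mul_of_nonneg_right h8 hc.le
          _ = (kap f p : ℚ) * ((∑ u, |G p u| : ℤ) : ℚ) := by rw [← h9]; ring
      have : ∀ qs : List ℕ, (∀ p ∈ qs, ((∑ b ∈ T, w b * |R p b| : ℤ) : ℚ)
          ≤ (kap f p : ℚ) * ((∑ u, |G p u| : ℤ) : ℚ) / (Nat.card (Kp f p) : ℚ)) →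
          (((qs.map fun p => ∑ b ∈ T, w b * |R p b|).sum : ℤ) : ℚ)
        ≤ (qs.map fun p => (kap f p : ℚ) * ((∑ u, |G p u| : ℤ) : ℚ)
          / (Nat.card (Kp f p) : ℚ)).sum := by
        intro qs
        induction qs with
        | nil => intro _; simp
        | cons q qs ih =>
          intro hq
          simp only [List.map_cons, List.sum_cons]
          rw [Int.cast_add]
          exact add_le_add (hq q (List.mem_cons_self)) (ih fun p hp => hq p (List.mem_cons_of_mem _ hp))
      exact this ps h5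
    rw [h1]
    have h2' : ((∑ b ∈ T, w b * |(F - (ps.map R).sum) b| : ℤ) : ℚ)
        ≤ ((∑ b ∈ T, w b * |F b| : ℤ) : ℚ) + (((ps.map fun p => ∑ b ∈ T, w b * |R p b|).sum : ℤ) : ℚ) := by
      exact_mod_cast h2
    linarith

/-- Peeling, in numerical order. -/
theorem peel_le (hf : f ∣ m) [NeZero f] (F : ZMod m → ℤ) (hodd : OddF F) (hT : TateF F)
    (hsup : ∀ a, F a ≠ 0 → addOrderOf a ≤ f) (ps : List ℕ) (hps : ∀ p ∈ ps, p.Prime ∧ p ∣ f)
    (G : ℕ → (ZMod f)ˣ → ℤ) (hG1 : ∀ p ∈ ps, ∀ z ∈ Kp f p, ∀ u, G p (z * u) = G p u)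
    (hG2 : ∀ u : (ZMod f)ˣ, F (jj hf (u : ZMod f)) = (ps.map fun p => G p u).sum)
    (hG3 : ∀ p ∈ ps, ∀ u, G p ((-1) * u) = - G p u) :
    ∃ F' : ZMod m → ℤ, F - F' ∈ relSub m ∧ OddF F' ∧ TateF F' ∧
      (∀ a, F' a ≠ 0 → addOrderOf a < f) ∧
      (∀ a, F' a ≠ 0 → F a ≠ 0 ∨ addOrderOf a ∣ f) ∧
      ((nrm F' : ℤ) : ℚ) ≤ ((∑ b ∈ univ.filter (fun b : ZMod m => addOrderOf b ≠ f),
          w b * |F b| : ℤ) : ℚ)
        + (ps.map fun p => (kap f p : ℚ) * ((∑ u, |G p u| : ℤ) : ℚ)
          / (Nat.card (Kp f p) : ℚ)).sum := by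
  obtain ⟨F', h1, h2, h3, h4, h5, h6⟩ := peel hf F hodd hT ps hps G hG1 hG2 hG3
  have hf0 : 0 < f := Nat.pos_of_ne_zero (NeZero.ne f)
  refine ⟨F', h1, h2, h3, ?_, ?_, h6⟩
  · intro a ha
    by_cases hFa : F' a = F a
    · rw [hFa] at ha
      have h7 := hsup a ha
      rcases lt_or_eq_of_le h7 with h8 | h8
      · exact h8
      · exact absurd (h4 a h8) (by rw [hFa]; exact ha)
    · rcases h5 a hFa with h7 | ⟨p, hp, u, _, h7, _⟩
      · exact absurd (h4 a h7) ha
      · rw [h7]
        exact Nat.div_lt_self hf0 (hps p hp).1.one_lt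
  · intro a ha
    by_cases hFa : F' a = F a
    · left
      rw [← hFa]
      exact ha
    · right
      rcases h5 a hFa with h7 | ⟨p, hp, u, _, h7, _⟩
      · exact absurd (h4 a h7) ha
      · rw [h7]
        exact Nat.div_dvd_of_dvd (hps p hp).2

end Pool.Agent.Lib.MP_938ce2_ag_h99
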