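import Pool.Agent.Lib.MP_938ce2_ag_h99.Drop4

/-!
The reference functions for points of order three, with supports.
-/

set_option autoImplicit false
set_option linter.style.haveILetI false
set_option linter.unusedSectionVars false

open Finset

namespace Pool.Agent.Lib.MP_938ce2_ag_h99

open Pool.Agent.Lib.MP_938ce2_ag_H7f Pool.Agent.Lib.MP_938ce2_ag_H7e Pool.Agent.Lib.MP_938ce2_ag_h6

variable {m Q n q : ℕ} [NeZero m]

/-- reduction to one sign -/
lemma ref3_of (hD : Dat m Q n q) [NeZero n] {K : ℕ} (h6 : 6 ∣ n) {b : ZMod n}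
    (hb : addOrderOf b = 3) {A : ZMod m → ℤ} {Y : AddSubgroup (ZMod m → ℤ)} {N0 : ℤ}
    (h : Ref hD K Y (jj h6 2) N0 A) (hN : 2 * N0 ≤ q - 1)
    (hA : ∀ a, part0 q A a ≠ 0 → addOrderOf a ∣ 6) :
    ∃ A N0, Ref hD K Y b N0 A ∧ 2 * N0 ≤ q - 1 ∧ ∀ a, part0 q A a ≠ 0 → addOrderOf a ∣ 6 := by
  obtain ⟨y, hy⟩ := exists_of_smul h6 (a := b) (by
    apply addOrderOf_dvd_iff_nsmul_eq_zero.mp
    rw [hb]
    norm_num)
  have h3 : (3 : ℕ) • y = 0 := by
    apply jj_injective h6
    rw [map_nsmul, hy, map_zero]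
    rw [← hb]
    exact addOrderOf_nsmul_eq_zero b
  have h0 : y ≠ 0 := by
    rintro rfl
    rw [map_zero] at hy
    rw [← hy, addOrderOf_zero] at hb
    omega
  rcases order_three_six h3 h0 with rfl | rfl
  · rw [← hy]
    exact ⟨A, N0, h, hN, hA⟩
  · have h4 : (4 : ZMod 6) = - 2 := by decide
    rw [← hy, h4, map_neg]
    refine ⟨-A, N0, h.neg, hN, ?_⟩
    intro a ha
    rw [part0_neg, Pi.neg_apply, neg_ne_zero] at ha
    exact hA a ha

lemma supp_six (hq : q.Prime) {f : ℕ} [NeZero f] (hfe : f = q * 6) (hf : f ∣ m) (L : List ℕ)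
    (a : ZMod m) (ha : part0 q (oddPart (quad hf L)) a ≠ 0) : addOrderOf a ∣ 6 := by
  obtain ⟨h1, h2⟩ := part0_supp ha
  have h3 : ∃ k, jj hf k = a := by
    by_contra hc
    push Not at hc
    exact h2 (oddPart_lift_of_forall_ne hf _ hc)
  obtain ⟨k, rfl⟩ := h3
  have h4 := (order_jj_dvd hf k).trans (dvd_of_eq hfe)
  exact (((Nat.Prime.coprime_iff_not_dvd hq).mpr h1).symm).dvd_of_dvd_mul_left h4

theorem ref3 (h6 : 6 ∣ m) (hq : q = 11 ∨ q = 13 ∨ q = 17 ∨ q = 19) : Ref3 m (XF m) q := by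
  intro Q n K hD hn hQ b hb
  have hK := K_ne_zero hD hQ
  have h6n : 6 ∣ n := by
    have h1 : Nat.Coprime 6 Q := by
      rw [hQ]
      apply Nat.Coprime.pow_right
      rcases hq with rfl | rfl | rfl | rfl <;> norm_num
    exact h1.dvd_of_dvd_mul_left (h6.trans (dvd_of_eq hD.hm))
  have hf : q * 6 ∣ m := by
    rw [hD.hm]
    exact mul_dvd_mul hD.qQ h6n
  rcases hq with rfl | rfl | rfl | rfl
  · exact ref3_of hD h6n hb (ref_of_list hD hK hQ (f := 66) (d := 6) (by norm_num) hf h6n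
      (by norm_num) [1, 25, 44, 62] (isTate_66 hf) (XX_le_YY _ (AddSubgroup.subset_closure
        ⟨_, isTate_66 hf, by rw [card_quad]; rfl, rfl⟩)) 2 (by decide +kernel) 2 (by decide +kernel)
      (by decide +kernel)) (by norm_num) (supp_six (by norm_num) (by norm_num) hf _)
  · exact ref3_of hD h6n hb (ref_of_list hD hK hQ (f := 78) (d := 6) (by norm_num) hf h6n
      (by norm_num) [1, 32, 61, 62] (isTate_78 hf) (XX_le_YY _ (AddSubgroup.subset_closure
        ⟨_, isTate_78 hf, by rw [card_quad]; rfl, rfl⟩)) 2 (by decide +kernel) 2 (by decide +kernel)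
      (by decide +kernel)) (by norm_num) (supp_six (by norm_num) (by norm_num) hf _)
  · exact ref3_of hD h6n hb (ref_of_list hD hK hQ (f := 102) (d := 6) (by norm_num) hf h6n
      (by norm_num) [1, 39, 62, 14, 55, 68, 73, 96] (isTate_102 hf)
      (mem_XF (isTate_102 hf) (fano_102 hf)) 2 (by decide +kernel) 2 (by decide +kernel)
      (by decide +kernel)) (by norm_num) (supp_six (by norm_num) (by norm_num) hf _)
  · exact ref3_of hD h6n hb (ref_of_list hD hK hQ (f := 114) (d := 6) (by norm_num) hf h6n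
      (by norm_num) [1, 13, 43, 57, 61, 90, 92, 99] (isTate_114 hf)
      (mem_XF (isTate_114 hf) (fano_114 hf)) 2 (by decide +kernel) 2 (by decide +kernel)
      (by decide +kernel)) (by norm_num) (supp_six (by norm_num) (by norm_num) hf _)

end Pool.Agent.Lib.MP_938ce2_ag_h99
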