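import Pool.Agent.Lib.MP_938ce2_ag_h99.MainA

/-!
Levels for smooth degrees.
-/

set_option autoImplicit false
set_option linter.style.haveILetI false
set_option linter.unusedSectionVars false

open Finset

namespace Pool.Agent.Lib.MP_938ce2_ag_h99

lemma mem_of_dvd_list_prod {l : List ℕ} (hl : ∀ x ∈ l, x.Prime) {r : ℕ} (hr : r.Prime)
    (h : r ∣ l.prod) : r ∈ l := by
  obtain ⟨a, ha, hra⟩ := (Prime.dvd_prod_iff hr.prime).mp h
  rw [(Nat.prime_dvd_prime_iff_eq hr (hl a ha)).mp hra]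
  exact ha

lemma rad_dvd {f : ℕ} {S : Finset ℕ} (h : ∀ p, p.Prime → p ∣ f → p ∈ S) :
    rad f ∣ ∏ p ∈ S, p := by
  apply Finset.prod_dvd_prod_of_subset
  intro p hp
  exact h p (Nat.prime_of_mem_primeFactors hp) (Nat.dvd_of_mem_primeFactors hp)

variable {m : ℕ} [NeZero m]

/-- prime levels -/
lemma step_one {D : ℕ → Prop} (hD : ∀ f g, D f → g ∣ f → D g) (X : AddSubgroup (ZMod m → ℤ))
    {f : ℕ} (hf0 : f ≠ 0) (hf : f ∣ m) (hDf : D f) (p : ℕ) (hp : p.Prime) (hpf : p ∣ f)
    (hall : ∀ r, r.Prime → r ∣ f → r ∈ [p]) : Step D X f := by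
  haveI : NeZero f := ⟨hf0⟩
  exact Step.of_peeled hD hDf fun F h1 h2 h3 => level_one hf hp hpf hall F h1 h2 h3

/-- the levels with two primes -/
lemma step_two {D : ℕ → Prop} (hD : ∀ f g, D f → g ∣ f → D g) (X : AddSubgroup (ZMod m → ℤ))
    {f : ℕ} (hf0 : f ≠ 0) (hf : f ∣ m) (hDf : D f) (p q : ℕ) (hp : p.Prime) (hq : q.Prime)
    (hpq : p ≠ q) (hpf : p ∣ f) (hqf : q ∣ f) (hall : ∀ r, r.Prime → r ∣ f → r ∈ [p, q])
    (hcard : (if p ∣ f / p then p else p - 1) * (if q ∣ f / q then q else q - 1) = f.totient)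
    (hE : Exc D X f p q hf) : Step D X f := by
  haveI : NeZero f := ⟨hf0⟩
  exact level_two hD X hf hDf hp hq hpf hqf hpq hall
    (by rw [card_Kp hp hpf, card_Kp hq hqf]; exact hcard) hE

lemma step_three {D : ℕ → Prop} (hD : ∀ f g, D f → g ∣ f → D g) (X : AddSubgroup (ZMod m → ℤ))
    {f : ℕ} (hf0 : f ≠ 0) (hf : f ∣ m) (hDf : D f) (p q r : ℕ) (hp : p.Prime) (hq : q.Prime)
    (hr : r.Prime)
    (hpf : p ∣ f) (hqf : q ∣ f) (hrf : r ∣ f)
    (hpq : p ≠ q) (hpr : p ≠ r) (hqr : q ≠ r) (hall : ∀ s, s.Prime → s ∣ f → s ∈ [r, p, q])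
    (hcard : (if r ∣ f / r then r else r - 1) * ((if p ∣ f / p then p else p - 1) *
      (if q ∣ f / q then q else q - 1)) = f.totient)
    (h1 : ¬ f ∣ 2 * (p * q)) (h2 : ¬ f ∣ 2 * (p * r)) (h3 : ¬ f ∣ 2 * (q * r)) :
    Step D X f := by
  haveI : NeZero f := ⟨hf0⟩
  exact Step.of_peeled hD hDf fun F e1 e2 e3 => level_three hf hp hq hr hpf hqf hrf hpq hpr hqr
    hall (by rw [card_Kp hp hpf, card_Kp hq hqf, card_Kp hr hrf]; exact hcard) h1 h2 h3 F e1 e2 e3

/-- prime factors 2, 3, 5 -/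
theorem smooth235 (X : AddSubgroup (ZMod m → ℤ)) {n : ℕ} (hn : ∀ p, p.Prime → p ∣ n → p ∈ [2, 3, 5])
    (hE12 : ∀ hf : 12 ∣ m, 12 ∣ n → Exc (· ∣ n) X 12 2 3 hf)
    (hE15 : ∀ hf : 15 ∣ m, 15 ∣ n → Exc (· ∣ n) X 15 3 5 hf)
    (hE20 : ∀ hf : 20 ∣ m, 20 ∣ n → Exc (· ∣ n) X 20 2 5 hf)
    (F : ZMod m → ℤ) (hodd : OddF F) (hT : TateF F) (hsup : ∀ a, F a ≠ 0 → addOrderOf a ∣ n) :
    F ∈ X ⊔ relSub m := by
  have hD : ∀ f g, (f ∣ n) → g ∣ f → g ∣ n := fun f g h1 h2 => h2.trans h1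
  refine mainA_aux (D := (· ∣ n)) hD X ?_ m F hodd hT (fun a _ => Nat.le_of_dvd
    (Nat.pos_of_ne_zero (NeZero.ne m)) (addOrderOf_dvd_m a)) hsup
  intro f hf hDf hf1 hf4 hfr
  have hf0 : f ≠ 0 := f_ne_zero hf
  have h1 : rad f ∣ 30 := by
    have := rad_dvd (f := f) (S := {2, 3, 5}) (by
      intro p hp hpf
      have := hn p hp (hpf.trans hDf)
      simpa using this)
    simpa using this
  have h2 : f ∣ 60 := hfr.trans (by
    obtain ⟨k, hk⟩ := h1
    exact ⟨k, by rw [show (60 : ℕ) = 2 * 30 from rfl, hk]; ring⟩)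
  have h3 : f ∈ ({1, 2, 3, 4, 5, 6, 10, 12, 15, 20, 30, 60} : Finset ℕ) := by
    have : f ∈ Nat.divisors 60 := Nat.mem_divisors.mpr ⟨h2, by norm_num⟩
    have e : Nat.divisors 60 = {1, 2, 3, 4, 5, 6, 10, 12, 15, 20, 30, 60} := by decide +kernel
    rwa [e] at this
  have p2 := Nat.prime_two
  have p3 := Nat.prime_three
  have p5 := Nat.prime_five
  simp only [Finset.mem_insert, Finset.mem_singleton] at h3
  rcases h3 with rfl | rfl | rfl | rfl | rfl | rfl | rfl | rfl | rfl | rfl | rfl | rfl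
  · exact absurd rfl hf1
  · exact absurd rfl hf4
  · exact step_one hD X hf0 hf hDf 3 p3 dvd_rfl fun r hr h =>
      mem_of_dvd_list_prod (by simp [p3]) hr (by simpa using h)
  · exact step_one hD X hf0 hf hDf 2 p2 (by norm_num) fun r hr h => by
      have := mem_of_dvd_list_prod (l := [2, 2]) (by simp [p2]) hr (by simpa using h)
      simpa using this
  · exact step_one hD X hf0 hf hDf 5 p5 dvd_rfl fun r hr h =>
      mem_of_dvd_list_prod (by simp [p5]) hr (by simpa using h)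
  · exact absurd rfl hf4
  · exact absurd rfl hf4
  · exact step_two hD X hf0 hf hDf 2 3 p2 p3 (by norm_num) (by norm_num) (by norm_num)
      (fun r hr h => by
        have := mem_of_dvd_list_prod (l := [2, 2, 3]) (by simp [p2, p3]) hr (by simpa using h)
        simpa using this) (by decide +kernel) (hE12 hf hDf)
  · exact step_two hD X hf0 hf hDf 3 5 p3 p5 (by norm_num) (by norm_num) (by norm_num)
      (fun r hr h => by
        have := mem_of_dvd_list_prod (l := [3, 5]) (by simp [p5, p3]) hr (by simpa using h)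
        simpa using this) (by decide +kernel) (hE15 hf hDf)
  · exact step_two hD X hf0 hf hDf 2 5 p2 p5 (by norm_num) (by norm_num) (by norm_num)
      (fun r hr h => by
        have := mem_of_dvd_list_prod (l := [2, 2, 5]) (by simp [p2, p5]) hr (by simpa using h)
        simpa using this) (by decide +kernel) (hE20 hf hDf)
  · exact absurd rfl hf4
  · exact step_three hD X hf0 hf hDf 2 3 5 p2 p3 p5 (by norm_num) (by norm_num) (by norm_num)
      (by norm_num) (by norm_num) (by norm_num)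
      (fun r hr h => by
        have := mem_of_dvd_list_prod (l := [2, 2, 3, 5]) (by simp [p2, p3, p5]) hr
          (by simpa using h)
        simp only [List.mem_cons, List.not_mem_nil, or_false] at this ⊢
        tauto) (by decide +kernel) (by norm_num) (by norm_num) (by norm_num)

/-- prime factors 2, 3, 7 -/
theorem smooth237 (X : AddSubgroup (ZMod m → ℤ)) {n : ℕ} (hn : ∀ p, p.Prime → p ∣ n → p ∈ [2, 3, 7])
    (hE12 : ∀ hf : 12 ∣ m, 12 ∣ n → Exc (· ∣ n) X 12 2 3 hf)
    (hE21 : ∀ hf : 21 ∣ m, 21 ∣ n → Exc (· ∣ n) X 21 3 7 hf)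
    (hE28 : ∀ hf : 28 ∣ m, 28 ∣ n → Exc (· ∣ n) X 28 2 7 hf)
    (F : ZMod m → ℤ) (hodd : OddF F) (hT : TateF F) (hsup : ∀ a, F a ≠ 0 → addOrderOf a ∣ n) :
    F ∈ X ⊔ relSub m := by
  have hD : ∀ f g, (f ∣ n) → g ∣ f → g ∣ n := fun f g h1 h2 => h2.trans h1
  refine mainA_aux (D := (· ∣ n)) hD X ?_ m F hodd hT (fun a _ => Nat.le_of_dvd
    (Nat.pos_of_ne_zero (NeZero.ne m)) (addOrderOf_dvd_m a)) hsup
  intro f hf hDf hf1 hf4 hfr
  have hf0 : f ≠ 0 := f_ne_zero hf
  have h1 : rad f ∣ 42 := by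
    have := rad_dvd (f := f) (S := {2, 3, 7}) (by
      intro p hp hpf
      have := hn p hp (hpf.trans hDf)
      simpa using this)
    simpa using this
  have h2 : f ∣ 84 := hfr.trans (by
    obtain ⟨k, hk⟩ := h1
    exact ⟨k, by rw [show (84 : ℕ) = 2 * 42 from rfl, hk]; ring⟩)
  have h3 : f ∈ ({1, 2, 3, 4, 6, 7, 12, 14, 21, 28, 42, 84} : Finset ℕ) := by
    have : f ∈ Nat.divisors 84 := Nat.mem_divisors.mpr ⟨h2, by norm_num⟩
    have e : Nat.divisors 84 = {1, 2, 3, 4, 6, 7, 12, 14, 21, 28, 42, 84} := by decide +kernel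
    rwa [e] at this
  have p2 := Nat.prime_two
  have p3 := Nat.prime_three
  have p7 : Nat.Prime 7 := by norm_num
  simp only [Finset.mem_insert, Finset.mem_singleton] at h3
  rcases h3 with rfl | rfl | rfl | rfl | rfl | rfl | rfl | rfl | rfl | rfl | rfl | rfl
  · exact absurd rfl hf1
  · exact absurd rfl hf4
  · exact step_one hD X hf0 hf hDf 3 p3 dvd_rfl fun r hr h =>
      mem_of_dvd_list_prod (by simp [p3]) hr (by simpa using h)
  · exact step_one hD X hf0 hf hDf 2 p2 (by norm_num) fun r hr h => by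
      have := mem_of_dvd_list_prod (l := [2, 2]) (by simp [p2]) hr (by simpa using h)
      simpa using this
  · exact absurd rfl hf4
  · exact step_one hD X hf0 hf hDf 7 p7 dvd_rfl fun r hr h =>
      mem_of_dvd_list_prod (by simp [p7]) hr (by simpa using h)
  · exact step_two hD X hf0 hf hDf 2 3 p2 p3 (by norm_num) (by norm_num) (by norm_num)
      (fun r hr h => by
        have := mem_of_dvd_list_prod (l := [2, 2, 3]) (by simp [p2, p3]) hr (by simpa using h)
        simpa using this) (by decide +kernel) (hE12 hf hDf)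
  · exact absurd rfl hf4
  · exact step_two hD X hf0 hf hDf 3 7 p3 p7 (by norm_num) (by norm_num) (by norm_num)
      (fun r hr h => by
        have := mem_of_dvd_list_prod (l := [3, 7]) (by simp [p7, p3]) hr (by simpa using h)
        simpa using this) (by decide +kernel) (hE21 hf hDf)
  · exact step_two hD X hf0 hf hDf 2 7 p2 p7 (by norm_num) (by norm_num) (by norm_num)
      (fun r hr h => by
        have := mem_of_dvd_list_prod (l := [2, 2, 7]) (by simp [p2, p7]) hr (by simpa using h)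
        simpa using this) (by decide +kernel) (hE28 hf hDf)
  · exact absurd rfl hf4
  · exact step_three hD X hf0 hf hDf 2 3 7 p2 p3 p7 (by norm_num) (by norm_num) (by norm_num)
      (by norm_num) (by norm_num) (by norm_num)
      (fun r hr h => by
        have := mem_of_dvd_list_prod (l := [2, 2, 3, 7]) (by simp [p2, p3, p7]) hr
          (by simpa using h)
        simp only [List.mem_cons, List.not_mem_nil, or_false] at this ⊢
        tauto) (by decide +kernel) (by norm_num) (by norm_num) (by norm_num)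

end Pool.Agent.Lib.MP_938ce2_ag_h99
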