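import Pool.Agent.Lib.MP_938ce2_ag_h99.IntSplit

/-!
Integral splittings of functions with vanishing mixed differences along any number of subgroups.
-/

set_option autoImplicit false
set_option linter.style.haveILetI false
set_option linter.unusedSectionVars false

open Finset

namespace Pool.Agent.Lib.MP_938ce2_ag_h99

variable {A : Type*} [CommGroup A]

lemma MDat_mul_inv (L : List (Subgroup A)) : ∀ (F g : A → ℤ) (x : A),
    (∀ y ∈ spanL L, ∀ z, g (y * z) = g z) → MDat L F x → MDat L (fun y => g y * F y) x := by
  induction L with
  | nil =>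
    intro F g x _ hF
    have h1 : F x = 0 := hF
    show g x * F x = 0
    rw [h1, mul_zero]
  | cons K L ih =>
    intro F g x hg hF k hk
    have h1 := ih _ g x (fun y hy => hg y (Subgroup.mem_sup_right hy)) (hF k hk)
    refine MDat_congr _ _ _ x ?_ h1
    intro y _
    beta_reduce
    rw [hg k (Subgroup.mem_sup_left hk)]
    ring

lemma MD.mul_inv {L : List (Subgroup A)} {F g : A → ℤ} (hF : MD L F)
    (hg : ∀ y ∈ spanL L, ∀ z, g (y * z) = g z) : MD L (fun y => g y * F y) :=
  fun x => MDat_mul_inv L F g x hg (hF x)

lemma spanL_append : ∀ L M : List (Subgroup A), spanL (L ++ M) = spanL L ⊔ spanL M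
  | [], M => by simp [spanL]
  | K :: L, M => by
      rw [List.cons_append]
      simp only [spanL]
      rw [spanL_append L M, sup_assoc]

lemma le_spanL {K : ℕ → Subgroup A} {p : ℕ} : ∀ {ps : List ℕ}, p ∈ ps → K p ≤ spanL (ps.map K)
  | [], h => by simp at h
  | q :: ps, h => by
      rw [List.map_cons]
      simp only [spanL]
      rcases List.mem_cons.mp h with rfl | h
      · exact le_sup_left
      · exact (le_spanL h).trans le_sup_right

/-- invariance under the members gives invariance under the span -/
lemma inv_spanL {K : ℕ → Subgroup A} {f : A → ℤ} : ∀ {ps : List ℕ},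
    (∀ p ∈ ps, ∀ z ∈ K p, ∀ x, f (z * x) = f x) → ∀ z ∈ spanL (ps.map K), ∀ x, f (z * x) = f x
  | [], _, z, hz, x => by
      have : z = 1 := by simpa [spanL] using hz
      rw [this, one_mul]
  | q :: ps, h, z, hz, x => by
      rw [List.map_cons] at hz
      simp only [spanL] at hz
      obtain ⟨a, ha, b, hb, rfl⟩ := Subgroup.mem_sup.mp hz
      rw [mul_assoc, h q List.mem_cons_self a ha,
        inv_spanL (fun p hp => h p (List.mem_cons_of_mem _ hp)) b hb]

lemma inv_sup {K H : Subgroup A} {f : A → ℤ} (h1 : ∀ z ∈ K, ∀ x, f (z * x) = f x)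
    (h2 : ∀ z ∈ H, ∀ x, f (z * x) = f x) : ∀ z ∈ K ⊔ H, ∀ x, f (z * x) = f x := by
  intro z hz x
  obtain ⟨a, ha, b, hb, rfl⟩ := Subgroup.mem_sup.mp hz
  rw [mul_assoc, h1 a ha, h2 b hb]

/-- independence relative to `H` -/
def IndepH (H : Subgroup A) : List (Subgroup A) → Prop
  | [] => True
  | K :: L => Disjoint K (spanL L ⊔ H) ∧ IndepH H L

lemma MD_list_sum {L : List (Subgroup A)} {u : ℕ → A → ℤ} : ∀ {qs : List ℕ},
    (∀ q ∈ qs, MD L (u q)) → MD L (fun x => (qs.map fun q => u q x).sum)
  | [], _ => by
      simp only [List.map_nil, List.sum_nil]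
      exact MD_zero L
  | q :: qs, h => by
      simp only [List.map_cons, List.sum_cons]
      exact (h q List.mem_cons_self).add (MD_list_sum fun p hp => h p (List.mem_cons_of_mem _ hp))

/-- signed integral splitting when `c` is not in the span -/
theorem int_split_sign (c : A) (hc2 : c * c = 1) (σ : ℤ) (K : ℕ → Subgroup A) (H : Subgroup A) :
    ∀ ps : List ℕ, ps.Nodup → IndepH H (ps.map K) → c ∉ spanL (ps.map K) ⊔ H →
    ∀ F : A → ℤ, MD (ps.map K) F → (∀ x, F (c * x) = σ * F x) →
    (∀ z ∈ H, ∀ x, F (z * x) = F x) →
    ∃ G : ℕ → A → ℤ, (∀ p ∈ ps, ∀ z ∈ K p ⊔ H, ∀ x, G p (z * x) = G p x) ∧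
      (∀ x, F x = (ps.map fun p => G p x).sum) ∧
      (∀ p ∈ ps, ∀ x, G p (c * x) = σ * G p x) := by
  intro ps
  induction ps with
  | nil =>
    intro _ _ _ F hF _ _
    refine ⟨fun _ => 0, by simp, ?_, by simp⟩
    intro x
    have : F x = 0 := hF x
    simp [this]
  | cons p ps ih =>
    intro hnd hI hc F hF hodd hH
    have hpn : p ∉ ps := (List.nodup_cons.mp hnd).1
    set L := ps.map K with hL
    have hd : Disjoint (K p) ((spanL L ⊔ H) ⊔ Subgroup.zpowers c) := by
      rw [Subgroup.disjoint_def]
      intro z hz hz2
      obtain ⟨h, hh, y, hy, rfl⟩ := Subgroup.mem_sup.mp hz2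
      have hy2 : y = 1 ∨ y = c := by
        obtain ⟨i, rfl⟩ := Subgroup.mem_zpowers_iff.mp hy
        rcases Int.even_or_odd' i with ⟨j, rfl | rfl⟩
        · left
          rw [zpow_mul, zpow_ofNat, pow_two, hc2, one_zpow]
        · right
          rw [zpow_add, zpow_mul, zpow_ofNat, pow_two, hc2, one_zpow, one_mul, zpow_one]
      rcases hy2 with rfl | rfl
      · rw [mul_one] at hz ⊢
        exact Subgroup.disjoint_def.mp hI.1 hz hh
      · exfalso
        apply hc
        have h3 : y = (h * y) * h⁻¹ := by rw [mul_comm h y, mul_inv_cancel_right]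
        rw [h3, List.map_cons]
        simp only [spanL]
        rw [sup_assoc]
        exact Subgroup.mul_mem_sup hz ((spanL L ⊔ H).inv_mem hh)
    obtain ⟨k, hk1, hk2, hk3⟩ := exists_coord (K p) _ hd
    have hk3' : ∀ h ∈ spanL L, ∀ x, k (h * x) = k x := fun h hh =>
      hk3 h (Subgroup.mem_sup_left (Subgroup.mem_sup_left hh))
    have hk3'' : ∀ h ∈ H, ∀ x, k (h * x) = k x := fun h hh =>
      hk3 h (Subgroup.mem_sup_left (Subgroup.mem_sup_right hh))
    have hkc : ∀ x, k (c * x) = k x := hk3 c (Subgroup.mem_sup_right (Subgroup.mem_zpowers c))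
    set B : A → ℤ := fun x => F ((k x)⁻¹ * x) with hB
    have hBinv : ∀ z ∈ K p, ∀ x, B (z * x) = B x := by
      intro z hz x
      simp only [hB]
      rw [hk2 z hz, mul_inv_rev, mul_assoc, inv_mul_cancel_left]
    have hBH : ∀ z ∈ H, ∀ x, B (z * x) = B x := by
      intro z hz x
      simp only [hB]
      rw [hk3'' z hz, mul_left_comm, hH z hz]
    have hBodd : ∀ x, B (c * x) = σ * B x := by
      intro x
      simp only [hB]
      rw [hkc, mul_left_comm, hodd]
    have hD := split_first hF k hk1 hk3'
    have hDodd : ∀ x, F (c * x) - B (c * x) = σ * (F x - B x) := by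
      intro x
      rw [hodd, hBodd]
      ring
    have hDH : ∀ z ∈ H, ∀ x, F (z * x) - B (z * x) = F x - B x := by
      intro z hz x
      rw [hH z hz, hBH z hz]
    have hc' : c ∉ spanL L ⊔ H := fun h => hc (by
      rw [List.map_cons]
      simp only [spanL]
      rw [sup_assoc]
      exact Subgroup.mem_sup_right h)
    obtain ⟨G, hG1, hG2, hG3⟩ := ih (List.nodup_cons.mp hnd).2 hI.2 hc' (fun x => F x - B x) hD
      hDodd hDH
    refine ⟨fun r => if r = p then B else G r, ?_, ?_, ?_⟩
    · intro r hr z hz x
      by_cases hrp : r = p
      · subst hrp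
        simp only [if_true]
        exact inv_sup hBinv hBH z hz x
      · simp only [hrp, if_false]
        exact hG1 r ((List.mem_cons.mp hr).resolve_left hrp) z hz x
    · intro x
      have h1 := hG2 x
      rw [List.map_cons, List.sum_cons]
      have h2 : (ps.map fun r => (if r = p then B else G r) x)
          = ps.map fun r => G r x := by
        apply List.map_congr_left
        intro r hr
        have : r ≠ p := fun h => hpn (h ▸ hr)
        simp [this]
      rw [h2, ← h1]
      simp
    · intro r hr x
      by_cases hrp : r = p
      · subst hrp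
        simp only [if_true]
        exact hBodd x
      · simp only [hrp, if_false]
        exact hG3 r ((List.mem_cons.mp hr).resolve_left hrp) x

/-- Signed splitting for any number of independent subgroups which together with `hs` span
everything: one obstruction, represented by the product of the half functions. -/
theorem split_gen (c : A) (hc2 : c * c = 1) (K : ℕ → Subgroup A) (S : List ℕ)
    (hdis : ∀ p ∈ S, ∀ qs : List ℕ, (∀ q ∈ qs, q ∈ S) → p ∉ qs →
      Disjoint (K p) (spanL (qs.map K)))
    (θ : ℕ → A → ℤ) (hθc : ∀ p ∈ S, ∀ x, θ p (c * x) = 1 - θ p x)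
    (hθ : ∀ p ∈ S, ∀ q ∈ S, p ≠ q → ∀ z ∈ K q, ∀ x, θ p (z * x) = θ p x) :
    ∀ ps : List ℕ, ps ≠ [] → ∀ hs : List ℕ, (ps ++ hs).Nodup → (∀ p ∈ ps ++ hs, p ∈ S) →
    spanL ((ps ++ hs).map K) = ⊤ → ∀ σ : ℤ, σ * σ = 1 → ∀ F : A → ℤ,
    (∀ x, F (c * x) = σ * F x) → (∀ z ∈ spanL (hs.map K), ∀ x, F (z * x) = F x) →
    MD (ps.map K) F →
    ∃ (G : ℕ → A → ℤ) (n : ℤ), (n ≠ 0 → σ = (-1) ^ (ps.length + 1)) ∧
      (∀ p ∈ ps, ∀ z ∈ K p ⊔ spanL (hs.map K), ∀ x, G p (z * x) = G p x) ∧
      (∀ p ∈ ps, ∀ x, G p (c * x) = σ * G p x) ∧
      (ps.length = 1 → ∀ p ∈ ps, ∀ x, G p x = 0) ∧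
      (∀ x, F x = (ps.map fun p => G p x).sum
        + n * ((ps.map fun p => θ p x).prod + σ * (ps.map fun p => 1 - θ p x).prod)) := by
  intro ps
  induction ps with
  | nil => intro h; exact absurd rfl h
  | cons p ps ih =>
    intro _ hs hnd hS htop σ hσ F hodd hH hF
    set H := spanL (hs.map K) with hHdef
    by_cases hps : ps = []
    · -- one subgroup
      subst hps
      have h1 : K p ⊔ H = ⊤ := by
        have : spanL (([p] ++ hs).map K) = K p ⊔ H := by
          rw [List.singleton_append, List.map_cons]
          rfl
        rw [← this]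
        exact htop
      have hKp : ∀ z ∈ K p, ∀ x, F (z * x) = F x := by
        intro z hz x
        have h2 : F x - F (z * x) = 0 := hF x z hz
        linarith
      have hconst : ∀ x, F x = F 1 := by
        intro x
        have h2 := inv_sup hKp hH x (by rw [h1]; exact Subgroup.mem_top _) 1
        rwa [mul_one] at h2
      have hcc := hodd 1
      rw [hconst (c * 1)] at hcc
      have hσ2 : σ = 1 ∨ σ = -1 := by
        have : (σ - 1) * (σ + 1) = 0 := by linarith
        rcases mul_eq_zero.mp this with h | h
        · left; linarith
        · right; linarith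
      rcases hσ2 with rfl | rfl
      · refine ⟨fun _ _ => 0, F 1, ?_, ?_, ?_, ?_, ?_⟩
        · intro _; simp
        · intro _ _ _ _ _; rfl
        · intro _ _ _; simp
        · intro _ _ _ _; rfl
        · intro x
          rw [hconst x]
          simp
      · refine ⟨fun _ _ => 0, 0, ?_, ?_, ?_, ?_, ?_⟩
        · intro h; exact absurd rfl h
        · intro _ _ _ _ _; rfl
        · intro _ _ _; simp
        · intro _ _ _ _; rfl
        · intro x
          rw [hconst x]
          have : F 1 = 0 := by linarith
          simp [this]
    · set L := ps.map K with hL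
      have hpS : p ∈ S := hS p (by simp)
      have hpsS : ∀ q ∈ ps, q ∈ S := fun q hq => hS q (by simp [hq])
      have hhsS : ∀ q ∈ hs, q ∈ S := fun q hq => hS q (by simp [hq])
      have hnd2 := List.nodup_cons.mp (by simpa using hnd : (p :: (ps ++ hs)).Nodup)
      have hpnot : p ∉ ps ++ hs := hnd2.1
      have hpps : p ∉ ps := fun h => hpnot (List.mem_append_left _ h)
      have hphs : p ∉ hs := fun h => hpnot (List.mem_append_right _ h)
      have hndps : ps.Nodup := (List.nodup_append.mp hnd2.2).1
      have hdisj : ∀ q ∈ ps, q ∉ hs := by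
        intro q hq hq2
        exact (List.nodup_append.mp hnd2.2).2.2 q hq q hq2 rfl
      have hspan : spanL ((ps ++ hs).map K) = spanL L ⊔ H := by
        rw [List.map_append, spanL_append]
      have hdp : Disjoint (K p) (spanL L ⊔ H) := by
        rw [← hspan]
        refine hdis p hpS _ ?_ hpnot
        intro q hq
        exact hS q (List.mem_cons_of_mem _ hq)
      have htop' : K p ⊔ (spanL L ⊔ H) = ⊤ := by
        rw [← hspan]
        exact htop
      obtain ⟨cp, hcp, c', hc', hcc⟩ := Subgroup.mem_sup.mp
        (show c ∈ K p ⊔ (spanL L ⊔ H) by rw [htop']; exact Subgroup.mem_top _)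
      obtain ⟨k, hk1, hk2, hk3⟩ := exists_coord (K p) (spanL L ⊔ H) hdp
      have hk3' : ∀ h ∈ spanL L, ∀ x, k (h * x) = k x := fun h hh =>
        hk3 h (Subgroup.mem_sup_left hh)
      have hk3'' : ∀ h ∈ H, ∀ x, k (h * x) = k x := fun h hh =>
        hk3 h (Subgroup.mem_sup_right hh)
      set f0 : A → ℤ := fun x => F ((k x)⁻¹ * x) with hf0
      have hf0inv : ∀ z ∈ K p, ∀ x, f0 (z * x) = f0 x := by
        intro z hz x
        simp only [hf0]
        rw [hk2 z hz, mul_inv_rev, mul_assoc, inv_mul_cancel_left]
      have hf0H : ∀ z ∈ H, ∀ x, f0 (z * x) = f0 x := by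
        intro z hz x
        simp only [hf0]
        rw [hk3'' z hz, mul_left_comm, hH z hz]
      have hD0 : MD L (fun x => F x - f0 x) := split_first hF k hk1 hk3'
      have hf0c : ∀ x, f0 (c * x) = σ * F (cp⁻¹ * ((k x)⁻¹ * x)) := by
        intro x
        simp only [hf0]
        have h1 : k (c * x) = cp * k x := by
          rw [← hcc, mul_assoc, hk2 cp hcp, hk3 c' hc']
        rw [h1, mul_inv_rev, ← hodd]
        congr 1
        rw [mul_comm (k x)⁻¹ cp⁻¹, mul_assoc, mul_left_comm (k x)⁻¹ c x, mul_left_comm cp⁻¹ c]
      set e : A → ℤ := fun x => f0 x - σ * f0 (c * x) with he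
      have heMD : MD L e := by
        intro x
        have h1 := ((MD_cons.mp hF) _ ((K p).inv_mem hcp)).translate ((k x)⁻¹) x
        refine MDat_congr _ _ _ x ?_ h1
        intro y hy
        simp only [he]
        rw [hf0c]
        simp only [hf0]
        rw [hk3' y hy]
        linear_combination (F (cp⁻¹ * ((k x)⁻¹ * (y * x)))) * hσ
      have heinv : ∀ z ∈ K p, ∀ x, e (z * x) = e x := by
        intro z hz x
        simp only [he]
        rw [hf0inv z hz, mul_left_comm, hf0inv z hz]
      have heH : ∀ z ∈ H, ∀ x, e (z * x) = e x := by
        intro z hz x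
        simp only [he]
        rw [hf0H z hz, mul_left_comm, hf0H z hz]
      have hec : ∀ x, e (c * x) = -σ * e x := by
        intro x
        simp only [he]
        rw [← mul_assoc c c x, hc2, one_mul]
        linear_combination (-f0 (c * x)) * hσ
      -- induction hypothesis
      obtain ⟨G', n', hn', g1, g2, g3, g4⟩ := ih hps (p :: hs)
        (by rw [List.nodup_middle]; simpa using hnd)
        (by
          intro q hq
          apply hS
          simp only [List.mem_append, List.mem_cons] at hq ⊢
          tauto)
        (by
          rw [List.map_append, spanL_append, List.map_cons]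
          simp only [spanL]
          rw [← htop', ← hL, ← hHdef]
          rw [sup_left_comm])
        (-σ) (by linear_combination hσ) e hec
        (by
          rw [List.map_cons]
          simp only [spanL]
          exact inv_sup heinv heH) heMD
      rw [List.map_cons] at g1
      simp only [spanL] at g1
      rw [← hHdef] at g1
      -- invariance of the half functions
      have hθH : ∀ q ∈ S, q ∉ hs → ∀ z ∈ H, ∀ x, θ q (z * x) = θ q x := by
        intro q hq hqh z hz x
        refine inv_spanL (ps := hs) ?_ z hz x
        intro r hr z hz x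
        exact hθ q hq r (hhsS r hr) (fun h => hqh (h ▸ hr)) z hz x
      have hu : ∀ q ∈ ps, ∃ u : A → ℤ, (∀ z ∈ K q ⊔ (K p ⊔ H), ∀ x, u (z * x) = u x) ∧
          ∀ x, u x - σ * u (c * x) = G' q x := by
        intro q hq
        by_cases hlen : ps.length = 1
        · refine ⟨fun _ => 0, fun _ _ _ => rfl, fun x => ?_⟩
          rw [g3 hlen q hq x]
          simp
        · obtain ⟨r, hr, hrq⟩ : ∃ r ∈ ps, r ≠ q := by
            by_contra hno
            push Not at hno
            apply hlen
            have h1 : ps = [q] := by
              rcases ps with _ | ⟨a, _ | ⟨b, t⟩⟩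
              · exact absurd rfl hps
              · rw [hno a (by simp)]
              · exfalso
                have e1 := hno a (by simp)
                have e2 := hno b (by simp)
                rw [e1, e2] at hndps
                simp at hndps
            rw [h1]
            rfl
          have hrS := hpsS r hr
          have hη : ∀ z ∈ K q ⊔ (K p ⊔ H), ∀ x, θ r (z * x) = θ r x := by
            refine inv_sup (hθ r hrS q (hpsS q hq) hrq) (inv_sup
              (hθ r hrS p hpS fun h => hpps (h ▸ hr)) (hθH r hrS (hdisj r hr)))
          refine ⟨fun x => θ r x * G' q x, ?_, ?_⟩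
          · intro z hz x
            beta_reduce
            rw [hη z hz, g1 q hq z hz]
          · intro x
            beta_reduce
            rw [hθc r hrS, g2 q hq]
            linear_combination ((1 - θ r x) * G' q x) * hσ
      choose! u hu1 hu2 using hu
      set P : A → ℤ := fun x => (ps.map fun q => θ q x).prod with hP
      set P' : A → ℤ := fun x => (ps.map fun q => 1 - θ q x).prod with hP'
      have hPc : ∀ x, P (c * x) = P' x := by
        intro x
        simp only [hP, hP']
        congr 1
        apply List.map_congr_left
        intro q hq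
        exact hθc q (hpsS q hq) x
      have hP'c : ∀ x, P' (c * x) = P x := by
        intro x
        simp only [hP, hP']
        congr 1
        apply List.map_congr_left
        intro q hq
        rw [hθc q (hpsS q hq) x]
        ring
      have hPinv : ∀ z ∈ K p ⊔ H, ∀ x, P (z * x) = P x := by
        intro z hz x
        simp only [hP]
        congr 1
        apply List.map_congr_left
        intro q hq
        exact inv_sup (hθ q (hpsS q hq) p hpS fun h => hpps (h ▸ hq))
          (hθH q (hpsS q hq) (hdisj q hq)) z hz x
      have hP'inv : ∀ z ∈ K p ⊔ H, ∀ x, P' (z * x) = P' x := by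
        intro z hz x
        simp only [hP']
        congr 1
        apply List.map_congr_left
        intro q hq
        rw [inv_sup (hθ q (hpsS q hq) p hpS fun h => hpps (h ▸ hq))
          (hθH q (hpsS q hq) (hdisj q hq)) z hz x]
      set U : A → ℤ := fun x => (ps.map fun q => u q x).sum with hU
      set SG : A → ℤ := fun x => (ps.map fun q => G' q x).sum with hSG
      have hUc : ∀ x, U (c * x) = σ * (U x - SG x) := by
        intro x
        have h1 : ∀ qs : List ℕ, (∀ q ∈ qs, q ∈ ps) → (qs.map fun q => u q (c * x)).sum
            = σ * ((qs.map fun q => u q x).sum - (qs.map fun q => G' q x).sum) := by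
          intro qs
          induction qs with
          | nil => intro _; simp
          | cons q qs ihq =>
            intro hq
            simp only [List.map_cons, List.sum_cons]
            rw [ihq fun r hr => hq r (List.mem_cons_of_mem _ hr)]
            have h2 := hu2 q (hq q List.mem_cons_self) x
            linear_combination (-σ) * h2 + (-u q (c * x)) * hσ
        exact h1 ps fun q hq => hq
      have hUinv : ∀ z ∈ K p ⊔ H, ∀ x, U (z * x) = U x := by
        intro z hz x
        simp only [hU]
        congr 1
        apply List.map_congr_left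
        intro q hq
        exact hu1 q hq z (Subgroup.mem_sup_right hz) x
      have hUMD : MD L U := by
        apply MD_list_sum
        intro q hq
        refine MD_of_inv L (K := K q) (List.mem_map.mpr ⟨q, hq, rfl⟩) (u q) ?_
        intro z hz x
        exact hu1 q hq z (Subgroup.mem_sup_left hz) x
      have hSGMD : MD L SG := by
        apply MD_list_sum
        intro q hq
        refine MD_of_inv L (K := K q) (List.mem_map.mpr ⟨q, hq, rfl⟩) (G' q) ?_
        intro z hz x
        exact g1 q hq z (Subgroup.mem_sup_left hz) x
      have hg4 : ∀ x, e x = SG x + n' * (P x - σ * P' x) := by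
        intro x
        rw [g4 x]
        simp only [hSG, hP, hP']
        ring
      set B : A → ℤ := fun x => f0 x - U x - n' * P x with hB
      have hBinv : ∀ z ∈ K p ⊔ H, ∀ x, B (z * x) = B x := by
        intro z hz x
        simp only [hB]
        rw [inv_sup hf0inv hf0H z hz, hUinv z hz, hPinv z hz]
      have hBc : ∀ x, B (c * x) = σ * B x := by
        intro x
        simp only [hB]
        have h1 := hg4 x
        simp only [he] at h1
        rw [hUc, hPc]
        linear_combination (-σ) * h1 + (-f0 (c * x) + n' * P' x) * hσ
      -- the rest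
      set D : A → ℤ := fun x => F x - B x - n' * (θ p x * P x + σ * ((1 - θ p x) * P' x)) with hD
      have hDMD : MD L D := by
        have h1 : MD L (fun x => (1 - θ p x) * (e x - SG x)) := by
          refine (heMD.sub hSGMD).mul_inv ?_
          intro y hy z
          rw [inv_spanL (ps := ps) (f := θ p) (fun q hq z hz x =>
            hθ p hpS q (hpsS q hq) (fun h => hpps (h ▸ hq)) z hz x) y hy z]
        have h2 := (hD0.add hUMD).add h1
        convert h2 using 2 with x
        simp only [hD, hB]
        rw [hg4 x]
        ring
      have hDc : ∀ x, D (c * x) = σ * D x := by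
        intro x
        simp only [hD]
        rw [hodd, hBc, hθc p hpS, hPc, hP'c]
        linear_combination (n' * (1 - θ p x) * P' x) * hσ
      have hDH : ∀ z ∈ H, ∀ x, D (z * x) = D x := by
        intro z hz x
        simp only [hD]
        rw [hH z hz, hBinv z (Subgroup.mem_sup_right hz), hθH p hpS hphs z hz,
          hPinv z (Subgroup.mem_sup_right hz), hP'inv z (Subgroup.mem_sup_right hz)]
      have hcnot : c ∉ spanL L ⊔ H := by
        intro hc
        have h1 := inv_sup (inv_spanL (ps := ps) (f := θ p) (fun q hq z hz x =>
            hθ p hpS q (hpsS q hq) (fun h => hpps (h ▸ hq)) z hz x)) (hθH p hpS hphs) c hc 1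
        rw [hθc p hpS] at h1
        omega
      have hIH : ∀ qs : List ℕ, (∀ q ∈ qs, q ∈ ps) → qs.Nodup → IndepH H (qs.map K) := by
        intro qs
        induction qs with
        | nil => intro _ _; trivial
        | cons q qs ihq =>
          intro hq hndq
          refine ⟨?_, ihq (fun r hr => hq r (List.mem_cons_of_mem _ hr)) (List.nodup_cons.mp hndq).2⟩
          have h1 : spanL (qs.map K) ⊔ H = spanL ((qs ++ hs).map K) := by
            rw [List.map_append, spanL_append]
          rw [h1]
          refine hdis q (hpsS q (hq q List.mem_cons_self)) _ ?_ ?_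
          · intro r hr
            rcases List.mem_append.mp hr with h | h
            · exact hpsS r (hq r (List.mem_cons_of_mem _ h))
            · exact hhsS r h
          · intro h
            rcases List.mem_append.mp h with h | h
            · exact (List.nodup_cons.mp hndq).1 h
            · exact hdisj q (hq q List.mem_cons_self) h
      obtain ⟨G'', k1, k2, k3⟩ := int_split_sign c hc2 σ K H ps hndps
        (hIH ps (fun q hq => hq) hndps) hcnot D hDMD hDc hDH
      refine ⟨fun r => if r = p then B else G'' r, n', ?_, ?_, ?_, ?_, ?_⟩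
      · intro hn
        have h1 := hn' hn
        rw [List.length_cons, pow_succ, ← h1]
        ring
      · intro r hr z hz x
        by_cases hrp : r = p
        · subst hrp
          simp only [if_true]
          exact hBinv z hz x
        · simp only [hrp, if_false]
          exact k1 r ((List.mem_cons.mp hr).resolve_left hrp) z hz x
      · intro r hr x
        by_cases hrp : r = p
        · subst hrp
          simp only [if_true]
          exact hBc x
        · simp only [hrp, if_false]
          exact k3 r ((List.mem_cons.mp hr).resolve_left hrp) x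
      · intro hlen
        exfalso
        rw [List.length_cons] at hlen
        have : ps.length = 0 := by omega
        exact hps (List.length_eq_zero_iff.mp this)
      · intro x
        have h1 := k2 x
        rw [List.map_cons, List.sum_cons]
        have h2 : (ps.map fun r => (if r = p then B else G'' r) x)
            = ps.map fun r => G'' r x := by
          apply List.map_congr_left
          intro r hr
          have : r ≠ p := fun h => hpps (h ▸ hr)
          simp [this]
        rw [h2, ← h1, List.map_cons, List.prod_cons, List.map_cons, List.prod_cons]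
        simp only [if_true, hD, hP, hP']
        ring

end Pool.Agent.Lib.MP_938ce2_ag_h99
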